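import Pool.Agent.QPE.BAS

/-!
MODULE BSC (chain rules for base functions, in space and in time).
Proof.  `HasFDerivAt` (resp. `HasDerivWithinAt`) of `y ↦ (y, v y, p y)` by `HasFDerivAt.prodMk`, `hasFDerivAt_pi`; the derivative applied
to `e_i` is `(e_i, (pdv i (v α) x)_α, (pdv i (p c β) x)_{cβ}) = (e_i,0,0) + Σ_α .. (0,e_α,0) + Σ_c Σ_β .. (0,0,e_{cβ})`; linearity of
`fderiv ℝ g`.
-/

namespace Pool.Agent.QPE

open scoped ContDiff BigOperators

variable {d K m : ℕ}

private theorem lin_split (L : Arg d K m →L[ℝ] ℝ) (w : Fin d → ℝ) (v1 : Fin K → ℝ)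
    (p1 : Fin m → Fin K → ℝ) :
    L (w, v1, p1) = L (w, 0, 0) + (∑ α, L (0, Pi.single α 1, 0) * v1 α)
      + ∑ c, ∑ β, L (0, 0, Pi.single c (Pi.single β 1)) * p1 c β := by
  have h1 : ((w, v1, p1) : Arg d K m) = (w, 0, 0) + (0, v1, 0) + (0, 0, p1) := by
    simp
  have h2 : ((0, v1, 0) : Arg d K m)
      = ∑ α, v1 α • ((0, Pi.single α (1 : ℝ), 0) : Arg d K m) := by
    have h := pi_eq_sum_univ' v1
    have h' : v1 = ∑ α, v1 α • (Pi.single α (1 : ℝ) : Fin K → ℝ) := by
      conv_lhs => rw [h]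
    refine Prod.ext ?_ (Prod.ext ?_ ?_)
    · simp [Prod.fst_sum]
    · rw [Prod.snd_sum, Prod.fst_sum]
      simpa using h'
    · rw [Prod.snd_sum, Prod.snd_sum]
      simp
  have h3 : ((0, 0, p1) : Arg d K m)
      = ∑ c, ∑ β, p1 c β • ((0, 0, Pi.single c (Pi.single β (1 : ℝ))) : Arg d K m) := by
    have h' : p1 = ∑ c, ∑ β, p1 c β • (Pi.single c (Pi.single β (1 : ℝ)) : Fin m → Fin K → ℝ) := by
      funext c β
      simp only [Finset.sum_apply, Pi.smul_apply, smul_eq_mul]
      rw [Finset.sum_eq_single c]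
      · rw [Finset.sum_eq_single β]
        · simp
        · intro b _ hb
          simp [Pi.single_eq_of_ne hb.symm]
        · simp
      · intro b _ hb
        simp [Pi.single_eq_of_ne hb.symm]
      · simp
    refine Prod.ext ?_ (Prod.ext ?_ ?_)
    · simp [Prod.fst_sum]
    · simp [Prod.fst_sum, Prod.snd_sum]
    · rw [Prod.snd_sum, Prod.snd_sum]
      simp only [Prod.snd_sum, Prod.smul_snd]
      exact h'
  rw [h1, map_add, map_add, h2, h3, map_sum, map_sum]
  congr 1
  · congr 1
    refine Finset.sum_congr rfl fun α _ => ?_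
    rw [map_smul, smul_eq_mul, mul_comm]
  · refine Finset.sum_congr rfl fun c _ => ?_
    rw [map_sum]
    refine Finset.sum_congr rfl fun β _ => ?_
    rw [map_smul, smul_eq_mul, mul_comm]

theorem base_chain {g : Arg d K m → ℝ} (hg : ContDiff ℝ ∞ g)
    (v : Fin K → (Fin d → ℝ) → ℝ) (p : Fin m → Fin K → (Fin d → ℝ) → ℝ) (x : Fin d → ℝ)
    (hv : ∀ α, DifferentiableAt ℝ (v α) x) (hp : ∀ c β, DifferentiableAt ℝ (p c β) x) (i : Fin d) :
    pdv i (fun y => g (y, (fun α => v α y), fun c β => p c β y)) x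
      = gx i g (x, (fun α => v α x), fun c β => p c β x)
        + (∑ α, gv α g (x, (fun α => v α x), fun c β => p c β x) * pdv i (v α) x)
        + ∑ c, ∑ β, gp c β g (x, (fun α => v α x), fun c β => p c β x) * pdv i (p c β) x := by
  have hv' : HasFDerivAt (fun y => (fun α => v α y))
      (ContinuousLinearMap.pi fun α => fderiv ℝ (v α) x) x :=
    hasFDerivAt_pi.2 fun α => (hv α).hasFDerivAt
  have hp' : HasFDerivAt (fun y => (fun c β => p c β y))
      (ContinuousLinearMap.pi fun c => ContinuousLinearMap.pi fun β => fderiv ℝ (p c β) x) x :=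
    hasFDerivAt_pi.2 fun c => hasFDerivAt_pi.2 fun β => (hp c β).hasFDerivAt
  have hz := (hasFDerivAt_id (𝕜 := ℝ) x).prodMk (hv'.prodMk hp')
  have hgd : HasFDerivAt g (fderiv ℝ g (x, (fun α => v α x), fun c β => p c β x))
      (x, (fun α => v α x), fun c β => p c β x) :=
    (hg.differentiable (by simp)).differentiableAt.hasFDerivAt
  have hcomp := HasFDerivAt.comp x hgd hz
  have h1 : pdv i (fun y => g (y, (fun α => v α y), fun c β => p c β y)) x
      = fderiv ℝ g (x, (fun α => v α x), fun c β => p c β x)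
        (Pi.single i 1, (fun α => pdv i (v α) x), fun c β => pdv i (p c β) x) := by
    unfold pdv
    have := hcomp.fderiv
    have h2 : fderiv ℝ (fun y => g (y, (fun α => v α y), fun c β => p c β y)) x
      = (fderiv ℝ g (x, (fun α => v α x), fun c β => p c β x)).comp
        ((ContinuousLinearMap.id ℝ (Fin d → ℝ)).prod
          ((ContinuousLinearMap.pi fun α => fderiv ℝ (v α) x).prod
            (ContinuousLinearMap.pi fun c => ContinuousLinearMap.pi fun β =>
              fderiv ℝ (p c β) x))) := this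
    rw [h2]
    rfl
  rw [h1, lin_split]
  rfl

theorem base_chain_time {g : Arg d K m → ℝ} (hg : ContDiff ℝ ∞ g) (x : Fin d → ℝ)
    (v : Fin K → ℝ → ℝ) (p : Fin m → Fin K → ℝ → ℝ) (v1 : Fin K → ℝ) (p1 : Fin m → Fin K → ℝ)
    (J : Set ℝ) (t : ℝ) (hv : ∀ α, HasDerivWithinAt (v α) (v1 α) J t)
    (hp : ∀ c β, HasDerivWithinAt (p c β) (p1 c β) J t) :
    HasDerivWithinAt (fun r => g (x, (fun α => v α r), fun c β => p c β r))
      ((∑ α, gv α g (x, (fun α => v α t), fun c β => p c β t) * v1 α)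
        + ∑ c, ∑ β, gp c β g (x, (fun α => v α t), fun c β => p c β t) * p1 c β) J t := by
  have hv' : HasDerivWithinAt (fun r => (fun α => v α r)) v1 J t :=
    hasDerivWithinAt_pi.2 hv
  have hp' : HasDerivWithinAt (fun r => (fun c β => p c β r)) p1 J t :=
    hasDerivWithinAt_pi.2 fun c => hasDerivWithinAt_pi.2 fun β => hp c β
  have hx : HasDerivWithinAt (fun _ : ℝ => x) (0 : Fin d → ℝ) J t := hasDerivWithinAt_const t J x
  have hz : HasDerivWithinAt (fun r => ((x, (fun α => v α r), fun c β => p c β r) : Arg d K m))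
      (0, v1, p1) J t := hx.prodMk (hv'.prodMk hp')
  have hgd : HasFDerivAt g (fderiv ℝ g (x, (fun α => v α t), fun c β => p c β t))
      (x, (fun α => v α t), fun c β => p c β t) :=
    (hg.differentiable (by simp)).differentiableAt.hasFDerivAt
  have hcomp := HasFDerivAt.comp_hasDerivWithinAt t hgd hz
  have h1 := lin_split (fderiv ℝ g (x, (fun α => v α t), fun c β => p c β t)) 0 v1 p1
  have h0 : fderiv ℝ g (x, (fun α => v α t), fun c β => p c β t)
      ((0 : Fin d → ℝ), (0 : Fin K → ℝ), (0 : Fin m → Fin K → ℝ)) = 0 := map_zero _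
  rw [h0, zero_add] at h1
  have h2 : HasDerivWithinAt (fun r => g (x, (fun α => v α r), fun c β => p c β r))
      (fderiv ℝ g (x, (fun α => v α t), fun c β => p c β t) (0, v1, p1)) J t := hcomp
  rw [h1] at h2
  exact h2

end Pool.Agent.QPE
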