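import Pool.Agent.QPE.PHI
import Pool.Agent.QPE.BSC

/-!
MODULE PHA (the coefficients `Ac`, `Bc` are admissible of level 1).
Proof.  By the chain rule `Ac = (∂_{x_i} σ)(x,u) + Σ_α (∂_{v_α} σ)(x,u) ∂_i u_α`: use `base_chain` for the base function
`g z = σ_c^j (z.1, z.2.1)` (`base_sg`) with `v = u` and `p := 0` and the remark that `gx i g`, `gv α g`,
for this `g`, do not depend on `p` (`g` does not), so their values at `(x, val u x, 0)` and at `arg D s u x` agree.
The terms are `Adm.base` (`base_gx`, `base_gv`), `Adm.jet [i] α`, sums and products (finite sum: induction as in `adm_sum`, or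
`Finset.sum_induction`).
-/

namespace Pool.Agent.QPE

open scoped ContDiff BigOperators

variable {d K m : ℕ}

private theorem sum_adm1 (D : Dat d K m) {ι : Type} (S : Finset ι) (F : ι → Fnl d K)
    (h : ∀ a, Adm D 1 (F a)) : Adm D 1 (fun s u x => ∑ a ∈ S, F a s u x) := by
  classical
  induction S using Finset.induction_on with
  | empty =>
    simp only [Finset.sum_empty]
    exact Adm.mono (Nat.zero_le 1) (Adm.const 0)
  | insert a S ha ih =>
    simp only [Finset.sum_insert ha]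
    exact Adm.add (h a) ih

private theorem fderiv_indep {h : (Fin d → ℝ) × (Fin K → ℝ) → ℝ} (hh : ContDiff ℝ ∞ h)
    (z w : Arg d K m) :
    fderiv ℝ (fun z : Arg d K m => h (z.1, z.2.1)) z w = fderiv ℝ h (z.1, z.2.1) (w.1, w.2.1) := by
  have h1 : HasFDerivAt (fun z : Arg d K m => (z.1, z.2.1))
      ((ContinuousLinearMap.fst ℝ (Fin d → ℝ) ((Fin K → ℝ) × (Fin m → Fin K → ℝ))).prod
        ((ContinuousLinearMap.fst ℝ (Fin K → ℝ) (Fin m → Fin K → ℝ)).comp
          (ContinuousLinearMap.snd ℝ (Fin d → ℝ) ((Fin K → ℝ) × (Fin m → Fin K → ℝ))))) z :=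
    ((ContinuousLinearMap.fst ℝ (Fin d → ℝ) ((Fin K → ℝ) × (Fin m → Fin K → ℝ))).prod
        ((ContinuousLinearMap.fst ℝ (Fin K → ℝ) (Fin m → Fin K → ℝ)).comp
          (ContinuousLinearMap.snd ℝ (Fin d → ℝ)
            ((Fin K → ℝ) × (Fin m → Fin K → ℝ))))).hasFDerivAt
  have h2 : HasFDerivAt h (fderiv ℝ h (z.1, z.2.1)) (z.1, z.2.1) :=
    (hh.differentiable (by simp)).differentiableAt.hasFDerivAt
  have h3 := HasFDerivAt.comp z h2 h1
  have h4 : fderiv ℝ (fun z : Arg d K m => h (z.1, z.2.1)) z = _ := h3.fderiv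
  rw [h4]
  rfl

private theorem chain_adm (D : Dat d K m) {h : (Fin d → ℝ) × (Fin K → ℝ) → ℝ}
    (hh : ContDiff ℝ ∞ h) (hb : IsBase D.R (fun z : Arg d K m => h (z.1, z.2.1))) (i : Fin d) :
    ∃ Ψ : Fnl d K, Adm D 1 Ψ ∧ ∀ (s : ℝ) (u : Sys d K), Smooth u → ∀ x,
      pdv i (fun y => h (y, val u y)) x = Ψ s u x := by
  refine ⟨fun s u x => gx i (fun z : Arg d K m => h (z.1, z.2.1)) (arg D s u x)
    + ∑ α, gv α (fun z : Arg d K m => h (z.1, z.2.1)) (arg D s u x) * pd [i] (u α) x, ?_, ?_⟩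
  · refine Adm.add (Adm.base _ (base_gx hb i)) ?_
    refine sum_adm1 D Finset.univ
      (fun α s u x => gv α (fun z : Arg d K m => h (z.1, z.2.1)) (arg D s u x) * pd [i] (u α) x)
      (fun α => ?_)
    exact Adm.mul (Adm.base _ (base_gv hb α)) (Adm.jet [i] α)
  · intro s u hu x
    have h1 := base_chain (K := K) (m := m) hb.smooth u (fun _ _ _ => (0 : ℝ)) x
      (fun α => ((hu α).differentiable (by simp)).differentiableAt)
      (fun c β => differentiableAt_const _) i
    have h2 : ∀ (c : Fin m) (β : Fin K), pdv i (fun _ : Fin d → ℝ => (0 : ℝ)) x = 0 := by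
      intro c β
      unfold pdv
      simp
    have h3 : pdv i (fun y => h (y, val u y)) x
        = gx i (fun z : Arg d K m => h (z.1, z.2.1)) (x, (fun α => u α x), fun _ _ => 0)
        + (∑ α, gv α (fun z : Arg d K m => h (z.1, z.2.1)) (x, (fun α => u α x), fun _ _ => 0)
            * pdv i (u α) x)
        + ∑ c, ∑ β, gp c β (fun z : Arg d K m => h (z.1, z.2.1))
            (x, (fun α => u α x), fun _ _ => 0) * pdv i (fun _ : Fin d → ℝ => (0 : ℝ)) x := h1
    rw [h3]
    have h4 : (∑ c, ∑ β, gp c β (fun z : Arg d K m => h (z.1, z.2.1))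
        (x, (fun α => u α x), fun _ _ => 0) * pdv i (fun _ : Fin d → ℝ => (0 : ℝ)) x) = 0 := by
      refine Finset.sum_eq_zero fun c _ => Finset.sum_eq_zero fun β _ => ?_
      rw [h2 c β, mul_zero]
    rw [h4, add_zero]
    unfold gx gv
    simp only [fderiv_indep hh]
    rfl

theorem Ac_adm (D : Dat d K m) (c : Fin m) (i j : Fin d) :
    ∃ Ψ : Fnl d K, Adm D 1 Ψ ∧ ∀ (s : ℝ) (u : Sys d K), Smooth u → ∀ x, Ac D u c i j x = Ψ s u x := by
  exact chain_adm D (D.sg_smooth c j) (base_sg D c j) i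

theorem Bc_adm (D : Dat d K m) (i j : Fin d) :
    ∃ Ψ : Fnl d K, Adm D 1 Ψ ∧ ∀ (s : ℝ) (u : Sys d K), Smooth u → ∀ x, Bc D u i j x = Ψ s u x := by
  exact chain_adm D (D.b_smooth j) (base_b D j) i

end Pool.Agent.QPE
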