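import Pool.Agent.QPE.ADS
import Pool.Agent.QPE.PHA

/-!
MODULE ADD (admissible functionals are closed under derivatives).
Proof of `adm_pdv`: structural induction on `Adm`.
* const, par: derivative 0, `Adm.const 0` and `mono`.
* base: `base_chain` with `v = u`, `p c β = Pc D s u c (u β)`; the terms are base functions (`base_gx` ...)
  times `jet [i] α` or times `pdv i (Pc D s u c (u β))`, which by `pdv_Pc` is a polynomial in
  `pjet c [i] β` (level 2), `Ac` (`Ac_adm`, level 1), weighted means of `pd [j] (u β)` (level 1, `adm_av`),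
  `par`, `Bc` (`Bc_adm`), `pjet c [j] β`.
* jet: `pd (i :: I)`.
* sjet: `pdv_comp_phi` with `f = pd I (u α)`, `pdv j f = pd (j :: I) (u α)`.
* pjet: `pdv_Pc` with `f = pd I (u α)`.
* add, mul: sum and Leibniz rule (the functions are differentiable by `adm_contDiff`), `mono` to lift the
  factor `Θ` from level `k` to `k+1`.
* mono.
Equalities are only claimed for `s ≠ 0`, smooth `u`; `choose` the functionals of `Ac_adm`, `Bc_adm`.
-/

namespace Pool.Agent.QPE

open scoped ContDiff BigOperators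

variable {d K m : ℕ}

private theorem add_half {D : Dat d K m} (k : ℕ) :
    Adm D k (fun s _ _ => s ^ 2 / 2) := by
  have h := Adm.mul (Adm.mul (Adm.par (D := D)) Adm.par) (Adm.const (1 / 2))
  have h2 : (fun (s : ℝ) (_ : Sys d K) (_ : Fin d → ℝ) => s ^ 2 / 2)
      = fun s _ _ => s * s * (1 / 2) := by
    funext s _ _
    ring
  rw [h2]
  exact Adm.mono (Nat.zero_le k) h

private theorem add_pdv_add {f g : (Fin d → ℝ) → ℝ} {x : Fin d → ℝ}
    (hf : DifferentiableAt ℝ f x) (hg : DifferentiableAt ℝ g x) (i : Fin d) :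
    pdv i (fun y => f y + g y) x = pdv i f x + pdv i g x := by
  have h := (hf.hasFDerivAt.fun_add hg.hasFDerivAt).fderiv
  simp only [pdv]
  rw [h]
  simp

private theorem add_pdv_mul {f g : (Fin d → ℝ) → ℝ} {x : Fin d → ℝ}
    (hf : DifferentiableAt ℝ f x) (hg : DifferentiableAt ℝ g x) (i : Fin d) :
    pdv i (fun y => f y * g y) x = pdv i f x * g x + f x * pdv i g x := by
  have h := (hf.hasFDerivAt.fun_mul hg.hasFDerivAt).fderiv
  simp only [pdv]
  rw [h]
  simp
  ring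

private theorem add_pjet (D : Dat d K m) (c : Fin m) (I : List (Fin d)) (α : Fin K) (i : Fin d) :
    ∃ Θ : Fnl d K, Adm D (I.length + 1 + 1) Θ ∧
      ∀ s : ℝ, s ≠ 0 → ∀ u : Sys d K, Smooth u → ∀ x,
        pdv i (Pc D s u c (pd I (u α))) x = Θ s u x := by
  choose ΨA hA1 hA2 using fun (c : Fin m) (i j : Fin d) => Ac_adm D c i j
  choose ΨB hB1 hB2 using fun (i j : Fin d) => Bc_adm D i j
  refine ⟨fun s u x => (Pc D s u c (pd (i :: I) (u α)) x
    + ∑ j, ∑ c', ΨA c' i j s u x *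
        av D s u (fun ξ => sgn (ξ c) * sgn (ξ c')) (pd (j :: I) (u α)) x)
    + s ^ 2 / 2 * ∑ j, ΨB i j s u x * Pc D s u c (pd (j :: I) (u α)) x, ?_, ?_⟩
  · refine Adm.add (Adm.add (Adm.pjet c (i :: I) α) ?_) (Adm.mul (add_half _) ?_)
    · refine adm_sum Finset.univ (fun j s u x => ∑ c', ΨA c' i j s u x *
        av D s u (fun ξ => sgn (ξ c) * sgn (ξ c')) (pd (j :: I) (u α)) x) fun j _ => ?_
      refine adm_sum Finset.univ (fun c' s u x => ΨA c' i j s u x *
        av D s u (fun ξ => sgn (ξ c) * sgn (ξ c')) (pd (j :: I) (u α)) x) fun c' _ => ?_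
      exact Adm.mul (Adm.mono (by omega) (hA1 c' i j))
        (Adm.mono (by simp) (adm_av (fun ξ => sgn (ξ c) * sgn (ξ c')) (j :: I) α))
    · refine adm_sum Finset.univ (fun j s u x => ΨB i j s u x *
        Pc D s u c (pd (j :: I) (u α)) x) fun j _ => ?_
      exact Adm.mul (Adm.mono (by omega) (hB1 i j)) (Adm.pjet c (j :: I) α)
  · intro s hs u hu x
    rw [pdv_Pc D hs hu c (pd_contDiff (hu α) I) i x]
    simp only [← hA2 _ _ _ s u hu x, ← hB2 _ _ s u hu x]
    rfl

private theorem add_da {f : (Fin d → ℝ) → ℝ} (hf : ContDiff ℝ ∞ f) (x : Fin d → ℝ) :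
    DifferentiableAt ℝ f x := (hf.differentiable (by simp)).differentiableAt

theorem adm_pdv {D : Dat d K m} {k : ℕ} {Ψ : Fnl d K} (h : Adm D k Ψ) (i : Fin d) :
    ∃ Θ : Fnl d K, Adm D (k + 1) Θ ∧
      ∀ s : ℝ, s ≠ 0 → ∀ u : Sys d K, Smooth u → ∀ x, pdv i (Ψ s u) x = Θ s u x := by
  induction h with
  | const c =>
    refine ⟨fun _ _ _ => 0, Adm.mono (Nat.zero_le _) (Adm.const 0), ?_⟩
    intro s _ u _ x
    simp [pdv]
  | par =>
    refine ⟨fun _ _ _ => 0, Adm.mono (Nat.zero_le _) (Adm.const 0), ?_⟩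
    intro s _ u _ x
    simp [pdv]
  | base g hg =>
    choose Θ hΘ1 hΘ2 using fun (c : Fin m) (β : Fin K) => add_pjet D c [] β i
    refine ⟨fun s u x => (gx i g (arg D s u x)
      + ∑ α, gv α g (arg D s u x) * pd [i] (u α) x)
      + ∑ c, ∑ β, gp c β g (arg D s u x) * Θ c β s u x, ?_, ?_⟩
    · refine Adm.add (Adm.add (Adm.mono (by omega) (Adm.base _ (base_gx hg i))) ?_) ?_
      · refine adm_sum Finset.univ (fun α s u x => gv α g (arg D s u x) * pd [i] (u α) x)
          fun α _ => ?_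
        exact Adm.mul (Adm.mono (by omega) (Adm.base _ (base_gv hg α)))
          (Adm.mono (by simp) (Adm.jet [i] α))
      · refine adm_sum Finset.univ (fun c s u x => ∑ β, gp c β g (arg D s u x) * Θ c β s u x)
          fun c _ => ?_
        refine adm_sum Finset.univ (fun β s u x => gp c β g (arg D s u x) * Θ c β s u x)
          fun β _ => ?_
        exact Adm.mul (Adm.mono (by omega) (Adm.base _ (base_gp hg c β))) (hΘ1 c β)
    · intro s hs u hu x
      have h1 := base_chain hg.smooth u (fun c β => Pc D s u c (u β)) x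
        (fun α => add_da (hu α) x) (fun c β => add_da (Pc_contDiff D s hu c (hu β)) x) i
      simp only [← hΘ2 _ _ s hs u hu x]
      exact h1
  | jet I α =>
    exact ⟨fun _ u x => pd (i :: I) (u α) x, Adm.jet (i :: I) α, fun s _ u _ x => rfl⟩
  | sjet ξ I α =>
    choose ΨA hA1 hA2 using fun (c : Fin m) (i j : Fin d) => Ac_adm D c i j
    choose ΨB hB1 hB2 using fun (i j : Fin d) => Bc_adm D i j
    refine ⟨fun s u x => ∑ j, (((if i = j then 1 else 0) + s * ∑ c, sgn (ξ c) * ΨA c i j s u x)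
      + s ^ 2 / 2 * ΨB i j s u x) * pd (j :: I) (u α) (phi D s u ξ x), ?_, ?_⟩
    · refine adm_sum Finset.univ (fun j s u x => (((if i = j then 1 else 0)
        + s * ∑ c, sgn (ξ c) * ΨA c i j s u x)
        + s ^ 2 / 2 * ΨB i j s u x) * pd (j :: I) (u α) (phi D s u ξ x)) fun j _ => ?_
      refine Adm.mul (Adm.add (Adm.add (Adm.mono (Nat.zero_le _) (Adm.const _))
        (Adm.mul (Adm.mono (Nat.zero_le _) Adm.par) ?_))
        (Adm.mul (add_half _) (Adm.mono (by omega) (hB1 i j)))) (Adm.sjet ξ (j :: I) α)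
      refine adm_sum Finset.univ (fun c s u x => sgn (ξ c) * ΨA c i j s u x) fun c _ => ?_
      exact Adm.mul (Adm.mono (Nat.zero_le _) (Adm.const _)) (Adm.mono (by omega) (hA1 c i j))
    · intro s hs u hu x
      rw [pdv_comp_phi D s hu ξ (pd_contDiff (hu α) I) i x]
      simp only [← hA2 _ _ _ s u hu x, ← hB2 _ _ s u hu x]
      rfl
  | pjet c I α =>
    obtain ⟨Θ, h1, h2⟩ := add_pjet D c I α i
    exact ⟨Θ, h1, h2⟩
  | add h1 h2 ih1 ih2 =>
    obtain ⟨Θ1, a1, b1⟩ := ih1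
    obtain ⟨Θ2, a2, b2⟩ := ih2
    refine ⟨fun s u x => Θ1 s u x + Θ2 s u x, Adm.add a1 a2, ?_⟩
    intro s hs u hu x
    beta_reduce
    rw [← b1 s hs u hu x, ← b2 s hs u hu x]
    exact add_pdv_add (add_da (adm_contDiff h1 s hu) x) (add_da (adm_contDiff h2 s hu) x) i
  | @mul k Ψ1 Ψ2 h1 h2 ih1 ih2 =>
    obtain ⟨Θ1, a1, b1⟩ := ih1
    obtain ⟨Θ2, a2, b2⟩ := ih2
    refine ⟨fun s u x => Θ1 s u x * Ψ2 s u x + Ψ1 s u x * Θ2 s u x,
      Adm.add (Adm.mul a1 (Adm.mono (Nat.le_succ k) h2))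
        (Adm.mul (Adm.mono (Nat.le_succ k) h1) a2), ?_⟩
    intro s hs u hu x
    beta_reduce
    rw [← b1 s hs u hu x, ← b2 s hs u hu x]
    exact add_pdv_mul (add_da (adm_contDiff h1 s hu) x) (add_da (adm_contDiff h2 s hu) x) i
  | mono hkl _ ih =>
    obtain ⟨Θ1, a1, b1⟩ := ih
    exact ⟨Θ1, Adm.mono (Nat.succ_le_succ hkl) a1, b1⟩

end Pool.Agent.QPE
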