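import Pool.Agent.QPE.SXP

/-!
MODULE ADS (admissible functionals: sums, means, smoothness).
`adm_sum`: finite sums (`Finset.induction_on`, start with `Adm.mono (Nat.zero_le k) (Adm.const 0)`).
`adm_av`: `av` is a finite linear combination of `sjet`s.
`adm_E1` is the case of weight 1.
`arg_contDiff`: pairs of smooth functions (`val_contDiff`, `Pc_contDiff`).
`adm_contDiff`: structural induction (`phi_contDiff`, `Pc_contDiff`, `pd_contDiff`, composition).
-/

namespace Pool.Agent.QPE

open scoped ContDiff BigOperators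

variable {d K m : ℕ}

theorem adm_sum {D : Dat d K m} {k : ℕ} {ι : Type} (t : Finset ι) (Ψ : ι → Fnl d K)
    (h : ∀ i ∈ t, Adm D k (Ψ i)) : Adm D k (fun s u x => ∑ i ∈ t, Ψ i s u x) := by
  classical
  induction t using Finset.induction_on with
  | empty =>
    have h0 := Adm.mono (Nat.zero_le k) (Adm.const (D := D) 0)
    simpa using h0
  | insert a t ha ih =>
    have h1 := Adm.add (h a (Finset.mem_insert_self a t))
      (ih (fun i hi => h i (Finset.mem_insert_of_mem hi)))
    simpa [Finset.sum_insert ha] using h1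

theorem adm_av {D : Dat d K m} (w : (Fin m → Bool) → ℝ) (I : List (Fin d)) (α : Fin K) :
    Adm D I.length (fun s u x => av D s u w (pd I (u α)) x) := by
  have h1 : Adm D I.length (fun s u x => ∑ ξ : Fin m → Bool, w ξ * pd I (u α) (phi D s u ξ x)) :=
    adm_sum Finset.univ (fun ξ s u x => w ξ * pd I (u α) (phi D s u ξ x)) fun ξ _ =>
      Adm.mul (Adm.mono (Nat.zero_le _) (Adm.const (w ξ))) (Adm.sjet ξ I α)
  exact Adm.mul (Adm.mono (Nat.zero_le _) (Adm.const ((2 : ℝ) ^ m)⁻¹)) h1

theorem adm_E1 {D : Dat d K m} (I : List (Fin d)) (α : Fin K) :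
    Adm D I.length (fun s u x => E1 D s u (pd I (u α)) x) := by
  exact adm_av (fun _ => 1) I α

theorem arg_contDiff (D : Dat d K m) (s : ℝ) {u : Sys d K} (hu : Smooth u) :
    ContDiff ℝ ∞ (arg D s u) := by
  exact contDiff_id.prodMk ((val_contDiff hu).prodMk
    (contDiff_pi.2 fun c => contDiff_pi.2 fun β => Pc_contDiff D s hu c (hu β)))

theorem adm_contDiff {D : Dat d K m} {k : ℕ} {Ψ : Fnl d K} (h : Adm D k Ψ) (s : ℝ) {u : Sys d K}
    (hu : Smooth u) : ContDiff ℝ ∞ (Ψ s u) := by
  induction h with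
  | const c => exact contDiff_const
  | par => exact contDiff_const
  | base g hg => exact hg.smooth.comp (arg_contDiff D s hu)
  | jet I α => exact pd_contDiff (hu α) I
  | sjet ξ I α => exact (pd_contDiff (hu α) I).comp (phi_contDiff D s hu ξ)
  | pjet c I α => exact Pc_contDiff D s hu c (pd_contDiff (hu α) I)
  | add _ _ ih1 ih2 => exact ih1.add ih2
  | mul _ _ ih1 ih2 => exact ih1.mul ih2
  | mono _ _ ih => exact ih

end Pool.Agent.QPE
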