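import Pool.Agent.QPE.BAS

/-!
MODULE BSL (Lipschitz bound of base functions on bounded sets).
Proof.  For `A < 0` the hypotheses are contradictory unless `K = 0` or so; use `max A 0`.  `fderiv ℝ g` is continuous and vanishes for
`R < ‖x‖`, hence `‖fderiv ℝ g z‖ ≤ C` for all `z = (x,v,p)` with `‖v‖, ‖p‖ ≤ A` (compactness as in `base_bound`); mean value inequality
(`Convex.norm_image_sub_le_of_norm_fderiv_le`) on the segment between `(x,v,p)` and `(x,v1,p1)` (fixed `x`);
`‖(0, v - v1, p - p1)‖ ≤ Σ |v α - v1 α| + Σ Σ |p c β - p1 c β|` (sup norms).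
-/

namespace Pool.Agent.QPE

open scoped ContDiff BigOperators

variable {d K m : ℕ}

theorem base_lip {R : ℝ} {g : Arg d K m → ℝ} (hg : IsBase R g) (A : ℝ) :
    ∃ C : ℝ, 0 ≤ C ∧ ∀ (x : Fin d → ℝ) (v v1 : Fin K → ℝ) (p p1 : Fin m → Fin K → ℝ),
      (∀ α, |v α| ≤ A) → (∀ c β, |p c β| ≤ A) → (∀ α, |v1 α| ≤ A) → (∀ c β, |p1 c β| ≤ A) →
      |g (x, v, p) - g (x, v1, p1)| ≤ C * ((∑ α, |v α - v1 α|) + ∑ c, ∑ β, |p c β - p1 c β|) := by
  set A' : ℝ := max A 0 with hA'
  have hA0 : 0 ≤ A' := le_max_right _ _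
  have hAA : A ≤ A' := le_max_left _ _
  set T : Set (Arg d K m) := Metric.closedBall 0 R ×ˢ (Metric.closedBall 0 A' ×ˢ
    Metric.closedBall 0 A') with hT
  have hTc : IsCompact T := (isCompact_closedBall _ _).prod
    ((isCompact_closedBall _ _).prod (isCompact_closedBall _ _))
  have hc : Continuous (fderiv ℝ g) :=
    (hg.smooth.fderiv_right (m := ∞) (by norm_cast)).continuous
  obtain ⟨C, hC⟩ := hTc.exists_bound_of_continuousOn hc.continuousOn
  refine ⟨max C 0, le_max_right _ _, ?_⟩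
  intro x v v1 p p1 hv hp hv1 hp1
  by_cases hx : R < ‖x‖
  · rw [hg.supp x v p hx, hg.supp x v1 p1 hx, sub_zero, abs_zero]
    positivity
  have hx' : ‖x‖ ≤ R := not_lt.1 hx
  have hball : ∀ (w : Fin K → ℝ) (q : Fin m → Fin K → ℝ), (∀ α, |w α| ≤ A) →
      (∀ c β, |q c β| ≤ A) → ((x, w, q) : Arg d K m) ∈ T := by
    intro w q hw hq
    refine ⟨by simpa using hx', ?_, ?_⟩
    · show w ∈ Metric.closedBall 0 A'
      rw [mem_closedBall_zero_iff]
      exact (pi_norm_le_iff_of_nonneg hA0).2 fun α => by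
        rw [Real.norm_eq_abs]; exact (hw α).trans hAA
    · show q ∈ Metric.closedBall 0 A'
      rw [mem_closedBall_zero_iff]
      exact (pi_norm_le_iff_of_nonneg hA0).2 fun c =>
        (pi_norm_le_iff_of_nonneg hA0).2 fun β => by
          rw [Real.norm_eq_abs]; exact (hq c β).trans hAA
  have hconv : Convex ℝ T := (convex_closedBall _ _).prod
    ((convex_closedBall _ _).prod (convex_closedBall _ _))
  have hdiff : ∀ z ∈ T, DifferentiableAt ℝ g z := fun z _ =>
    (hg.smooth.differentiable (by simp)) z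
  have hb : ∀ z ∈ T, ‖fderiv ℝ g z‖ ≤ max C 0 := fun z hz => (hC z hz).trans (le_max_left _ _)
  have h1 := hconv.norm_image_sub_le_of_norm_fderiv_le hdiff hb (hball v1 p1 hv1 hp1)
    (hball v p hv hp)
  rw [Real.norm_eq_abs] at h1
  refine h1.trans (mul_le_mul_of_nonneg_left ?_ (le_max_right _ _))
  have hs1 : (0 : ℝ) ≤ ∑ α, |v α - v1 α| := Finset.sum_nonneg fun _ _ => abs_nonneg _
  have hs2 : (0 : ℝ) ≤ ∑ c, ∑ β, |p c β - p1 c β| :=
    Finset.sum_nonneg fun _ _ => Finset.sum_nonneg fun _ _ => abs_nonneg _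
  have h2 : ((x, v, p) : Arg d K m) - (x, v1, p1) = (0, v - v1, p - p1) := by
    simp
  rw [h2, Prod.norm_def, Prod.norm_def]
  refine max_le (by simp; positivity) (max_le ?_ ?_)
  · refine (pi_norm_le_iff_of_nonneg (by positivity)).2 fun α => ?_
    have h3 : |v α - v1 α| ≤ ∑ α, |v α - v1 α| :=
      Finset.single_le_sum (f := fun α => |v α - v1 α|) (fun _ _ => abs_nonneg _)
        (Finset.mem_univ α)
    have h4 : ‖(v - v1) α‖ = |v α - v1 α| := rfl
    show ‖(v - v1) α‖ ≤ _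
    rw [h4]
    linarith
  · refine (pi_norm_le_iff_of_nonneg (by positivity)).2 fun c => ?_
    refine (pi_norm_le_iff_of_nonneg (by positivity)).2 fun β => ?_
    have h3 : |p c β - p1 c β| ≤ ∑ β, |p c β - p1 c β| :=
      Finset.single_le_sum (f := fun β => |p c β - p1 c β|) (fun _ _ => abs_nonneg _)
        (Finset.mem_univ β)
    have h5 : ∑ β, |p c β - p1 c β| ≤ ∑ c, ∑ β, |p c β - p1 c β| :=
      Finset.single_le_sum (f := fun c => ∑ β, |p c β - p1 c β|)
        (fun _ _ => Finset.sum_nonneg fun _ _ => abs_nonneg _) (Finset.mem_univ c)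
    have h4 : ‖(p - p1) c β‖ = |p c β - p1 c β| := rfl
    show ‖(p - p1) c β‖ ≤ _
    rw [h4]
    linarith

end Pool.Agent.QPE
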