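import Pool.Agent.QPE.PCC
import Pool.Agent.QPE.BSL

/-!
MODULE CST (consistency of one step).
`step - u - s^2/2 Aop = [E1 u_α - u_α - s^2/2 (second order and drift terms)] + s^2/2 [Q(x,u,Pc u) - Q(x,u,Σ σ ∂u)]`:
`E1_second` (orders 2, 3), and `base_lip` for `Q α` with `Pc_first` (the arguments are bounded: `Pc_bound`, `|Σ_j σ_c^j ∂_j u| ≤ C`
by `base_bound` for `σ`).
-/

namespace Pool.Agent.QPE

open scoped ContDiff BigOperators

variable {d K m : ℕ}

theorem consist (D : Dat d K m) (A : ℝ) :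
    ∃ C : ℝ, 0 ≤ C ∧ ∀ s : ℝ, 0 < s → s ≤ 1 → ∀ u : Sys d K, Smooth u → Bd 3 A u →
      ∀ α x, |step D s u α x - u α x - s ^ 2 / 2 * Aop D u α x| ≤ s ^ 2 / 2 * (C * s) := by
  obtain ⟨C1, hC1, h1⟩ := E1_second D A
  obtain ⟨C3, hC3, h3⟩ := Pc_first D A
  obtain ⟨CP, hCP, hP⟩ := Pc_bound D A
  set B : ℝ := max A 0 with hB
  have hB0 : 0 ≤ B := le_max_right _ _
  have hAB : A ≤ B := le_max_left _ _
  choose Cs hCs0 hCs using fun (c : Fin m) (j : Fin d) => base_bound (base_sg D c j) B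
  set T : ℝ := ∑ c, ∑ j, Cs c j with hT
  have hT0 : 0 ≤ T := Finset.sum_nonneg fun c _ => Finset.sum_nonneg fun j _ => hCs0 c j
  set A' : ℝ := B + CP * B + T * B with hA'
  have hA'1 : B ≤ A' := by
    have e1 : 0 ≤ CP * B := mul_nonneg hCP hB0
    have e2 : 0 ≤ T * B := mul_nonneg hT0 hB0
    linarith
  have hA'2 : CP * B ≤ A' := by
    have e2 : 0 ≤ T * B := mul_nonneg hT0 hB0
    linarith
  have hA'3 : T * B ≤ A' := by
    have e1 : 0 ≤ CP * B := mul_nonneg hCP hB0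
    linarith
  choose CQ hCQ0 hCQ using fun α : Fin K => base_lip (base_Q D α) A'
  refine ⟨C1 * B + (∑ α, CQ α) * (m * K * (C3 * B)), ?_, ?_⟩
  · have : 0 ≤ ∑ α, CQ α := Finset.sum_nonneg fun α _ => hCQ0 α
    positivity
  intro s hs hs1 u hu hBd α x
  have hu0 : ∀ α x, |u α x| ≤ A := fun α x => hBd [] (by simp) α x
  have hu1 : ∀ j β y, |pdv j (u β) y| ≤ B := fun j β y => (hBd [j] (by simp) β y).trans hAB
  have hu2 : ∀ i j β y, |pd [i, j] (u β) y| ≤ B := fun i j β y => (hBd [i, j] (by simp) β y).trans hAB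
  have hu3 : ∀ i j k β y, |pd [i, j, k] (u β) y| ≤ B :=
    fun i j k β y => (hBd [i, j, k] (by simp) β y).trans hAB
  have e1 := h1 s hs hs1 u hu0 (u α) (hu α) B hB0 (fun i j y => hu2 i j α y)
    (fun i j k y => hu3 i j k α y) x
  have hq1 : ∀ α, |val u x α| ≤ A' := fun α => (hu0 α x).trans (hAB.trans hA'1)
  have hq2 : ∀ c β, |Pc D s u c (u β) x| ≤ A' := fun c β =>
    (hP s hs hs1 u hu0 (u β) (hu β) B hB0 (fun j y => hu1 j β y) c x).trans hA'2
  have hq3 : ∀ c β, |∑ j, D.sg c j (x, val u x) * pd [j] (u β) x| ≤ A' := by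
    intro c β
    refine le_trans ?_ hA'3
    calc |∑ j, D.sg c j (x, val u x) * pd [j] (u β) x|
        ≤ ∑ j, |D.sg c j (x, val u x) * pd [j] (u β) x| := Finset.abs_sum_le_sum_abs _ _
      _ ≤ ∑ j, Cs c j * B := by
        refine Finset.sum_le_sum fun j _ => ?_
        rw [abs_mul]
        refine mul_le_mul ?_ (hu1 j β x) (abs_nonneg _) (hCs0 c j)
        exact hCs c j x (val u x) 0 (fun α => (hu0 α x).trans hAB) (fun c β => by simpa using hB0)
      _ = (∑ j, Cs c j) * B := by rw [Finset.sum_mul]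
      _ ≤ T * B := by
        refine mul_le_mul_of_nonneg_right ?_ hB0
        exact Finset.single_le_sum (f := fun c => ∑ j, Cs c j)
          (fun c _ => Finset.sum_nonneg fun j _ => hCs0 c j) (Finset.mem_univ c)
  have e2 := hCQ α x (val u x) (val u x) (fun c β => Pc D s u c (u β) x)
    (fun c β => ∑ j, D.sg c j (x, val u x) * pd [j] (u β) x) hq1 hq2 hq1 hq3
  have e3 : (∑ α, |val u x α - val u x α|) +
      ∑ c, ∑ β, |Pc D s u c (u β) x - ∑ j, D.sg c j (x, val u x) * pd [j] (u β) x| ≤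
      m * K * (C3 * B * s) := by
    have z : (∑ α, |val u x α - val u x α|) = 0 := by simp
    rw [z, zero_add]
    calc ∑ c, ∑ β, |Pc D s u c (u β) x - ∑ j, D.sg c j (x, val u x) * pd [j] (u β) x|
        ≤ ∑ _c : Fin m, ∑ _β : Fin K, C3 * B * s := by
          refine Finset.sum_le_sum fun c _ => Finset.sum_le_sum fun β _ => ?_
          exact h3 s hs hs1 u hu0 (u β) (hu β) B hB0 (fun i j y => hu2 i j β y) c x
      _ = m * K * (C3 * B * s) := by
          simp only [Finset.sum_const, Finset.card_univ, Fintype.card_fin, nsmul_eq_mul]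
          ring
  have e4 : |D.Q α (x, val u x, fun c β => Pc D s u c (u β) x) -
      D.Q α (x, val u x, fun c β => ∑ j, D.sg c j (x, val u x) * pd [j] (u β) x)| ≤
      (∑ α, CQ α) * (m * K * (C3 * B)) * s := by
    refine e2.trans ?_
    have f1 : CQ α ≤ ∑ α, CQ α := Finset.single_le_sum (f := CQ) (fun α _ => hCQ0 α) (Finset.mem_univ α)
    calc _ ≤ CQ α * (m * K * (C3 * B * s)) := mul_le_mul_of_nonneg_left e3 (hCQ0 α)
      _ ≤ (∑ α, CQ α) * (m * K * (C3 * B * s)) := mul_le_mul_of_nonneg_right f1 (by positivity)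
      _ = (∑ α, CQ α) * (m * K * (C3 * B)) * s := by ring
  have key : step D s u α x - u α x - s ^ 2 / 2 * Aop D u α x =
      (E1 D s u (u α) x - u α x - s ^ 2 / 2 * ((∑ c, ∑ i, ∑ j,
          D.sg c i (x, val u x) * D.sg c j (x, val u x) * pd [i, j] (u α) x)
          + ∑ j, D.b j (x, val u x) * pd [j] (u α) x)) +
      s ^ 2 / 2 * (D.Q α (x, val u x, fun c β => Pc D s u c (u β) x) -
        D.Q α (x, val u x, fun c β => ∑ j, D.sg c j (x, val u x) * pd [j] (u β) x)) := by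
    simp only [step, Aop, arg]
    ring
  rw [key]
  refine (abs_add_le _ _).trans ?_
  have hs2 : 0 ≤ s ^ 2 / 2 := by positivity
  rw [abs_mul, abs_of_nonneg hs2]
  have e5 := mul_le_mul_of_nonneg_left e4 hs2
  calc _ ≤ s ^ 2 / 2 * (C1 * B * s) + s ^ 2 / 2 * ((∑ α, CQ α) * (m * K * (C3 * B)) * s) :=
        add_le_add e1 e5
    _ = s ^ 2 / 2 * ((C1 * B + (∑ α, CQ α) * (m * K * (C3 * B))) * s) := by ring

end Pool.Agent.QPE
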