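import Pool.Agent.QPE.LOC
import Pool.Agent.QPE.BSL

/-!
MODULE LOB (bounds, Lipschitz property and continuity of local functionals).
Structural inductions (prove for all `l ≥ k`, w.l.o.g. `0 ≤ A`).
* `loc_bound`: base functions are bounded on bounded sets (`base_bound`), `|Σ_j σ ∂_j u| ≤ C` (`base_bound` for `σ`).
* `loc_lip`: `base_lip` and `base_lip` for `σ`; products of bounded Lipschitz quantities.  (If `ε < 0` the hypothesis is contradictory unless
  there are no indices `β`, then `Ψ u x` does not depend on `u`: in this case `C * ε` may be negative, so `0 ≤ ε` is assumed.)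
* `loc_cont`: continuity of base functions and of `σ`.
-/

namespace Pool.Agent.QPE

open scoped ContDiff BigOperators

variable {d K m : ℕ}

/-- bounds for the fields -/
private theorem lob_sg (D : Dat d K m) (A : ℝ) (hA : 0 ≤ A) :
    ∃ C : ℝ, 0 ≤ C ∧ ∀ (c : Fin m) (j : Fin d) (x : Fin d → ℝ) (v : Fin K → ℝ),
      (∀ α, |v α| ≤ A) → |D.sg c j (x, v)| ≤ C := by
  classical
  have h1 : ∀ (c : Fin m) (j : Fin d), ∃ C : ℝ, 0 ≤ C ∧ ∀ (x : Fin d → ℝ) (v : Fin K → ℝ),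
      (∀ α, |v α| ≤ A) → |D.sg c j (x, v)| ≤ C := by
    intro c j
    obtain ⟨C, hC, h⟩ := base_bound (base_sg D c j) A
    exact ⟨C, hC, fun x v hv => h x v (fun _ _ => 0) hv (fun _ _ => by simpa using hA)⟩
  choose C hC h using h1
  refine ⟨∑ c, ∑ j, C c j, Finset.sum_nonneg fun c _ => Finset.sum_nonneg fun j _ => hC c j, ?_⟩
  intro c j x v hv
  refine (h c j x v hv).trans ?_
  refine (Finset.single_le_sum (f := fun j => C c j) (fun j _ => hC c j)
    (Finset.mem_univ j)).trans ?_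
  exact Finset.single_le_sum (f := fun c => ∑ j, C c j)
    (fun c _ => Finset.sum_nonneg fun j _ => hC c j) (Finset.mem_univ c)

/-- Lipschitz bounds for the fields -/
private theorem lob_sg_lip (D : Dat d K m) (A : ℝ) (hA : 0 ≤ A) :
    ∃ C : ℝ, 0 ≤ C ∧ ∀ (c : Fin m) (j : Fin d) (x : Fin d → ℝ) (v v1 : Fin K → ℝ),
      (∀ α, |v α| ≤ A) → (∀ α, |v1 α| ≤ A) →
      |D.sg c j (x, v) - D.sg c j (x, v1)| ≤ C * ∑ α, |v α - v1 α| := by
  classical
  have h1 : ∀ (c : Fin m) (j : Fin d), ∃ C : ℝ, 0 ≤ C ∧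
      ∀ (x : Fin d → ℝ) (v v1 : Fin K → ℝ),
      (∀ α, |v α| ≤ A) → (∀ α, |v1 α| ≤ A) →
      |D.sg c j (x, v) - D.sg c j (x, v1)| ≤ C * ∑ α, |v α - v1 α| := by
    intro c j
    obtain ⟨C, hC, h⟩ := base_lip (base_sg D c j) A
    refine ⟨C, hC, fun x v v1 hv hv1 => ?_⟩
    have := h x v v1 (fun _ _ => 0) (fun _ _ => 0) hv (fun _ _ => by simpa using hA) hv1
      (fun _ _ => by simpa using hA)
    simpa using this
  choose C hC h using h1
  refine ⟨∑ c, ∑ j, C c j, Finset.sum_nonneg fun c _ => Finset.sum_nonneg fun j _ => hC c j, ?_⟩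
  intro c j x v v1 hv hv1
  refine (h c j x v v1 hv hv1).trans ?_
  refine mul_le_mul_of_nonneg_right ?_ (Finset.sum_nonneg fun α _ => abs_nonneg _)
  refine (Finset.single_le_sum (f := fun j => C c j) (fun j _ => hC c j)
    (Finset.mem_univ j)).trans ?_
  exact Finset.single_le_sum (f := fun c => ∑ j, C c j)
    (fun c _ => Finset.sum_nonneg fun j _ => hC c j) (Finset.mem_univ c)

/-- bounds for the derivatives along the fields -/
private theorem lob_arg (D : Dat d K m) (A : ℝ) (hA : 0 ≤ A) :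
    ∃ B : ℝ, A ≤ B ∧ ∀ u : Sys d K, Bd 1 A u → ∀ x,
      (∀ α, |val u x α| ≤ B) ∧
      ∀ c β, |∑ j, D.sg c j (x, val u x) * pd [j] (u β) x| ≤ B := by
  obtain ⟨C, hC, h⟩ := lob_sg D A hA
  refine ⟨A + ∑ _j : Fin d, C * A, le_add_of_nonneg_right
    (Finset.sum_nonneg fun _ _ => mul_nonneg hC hA), ?_⟩
  intro u hu x
  have hv : ∀ α, |val u x α| ≤ A := fun α => hu [] (Nat.zero_le _) α x
  have hS : 0 ≤ ∑ _j : Fin d, C * A := Finset.sum_nonneg fun _ _ => mul_nonneg hC hA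
  refine ⟨fun α => (hv α).trans (le_add_of_nonneg_right hS), fun c β => ?_⟩
  refine (Finset.abs_sum_le_sum_abs _ _).trans ?_
  refine (Finset.sum_le_sum (g := fun _ => C * A) fun j _ => ?_).trans
    (le_add_of_nonneg_left hA)
  rw [abs_mul]
  exact mul_le_mul (h c j x _ hv) (hu [j] (le_refl _) β x) (abs_nonneg _) hC

private theorem Bd.lob_mono {k : ℕ} {A B : ℝ} {u : Sys d K} (h : Bd k A u) (hAB : A ≤ B) :
    Bd k B u := fun I hI α x => (h I hI α x).trans hAB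

private theorem loc_bound_aux {D : Dat d K m} {k : ℕ} {Ψ : Sys d K → (Fin d → ℝ) → ℝ}
    (h : Loc D k Ψ) (A : ℝ) (hA : 0 ≤ A) :
    ∃ C : ℝ, 0 ≤ C ∧ ∀ u : Sys d K, Bd k A u → ∀ x, |Ψ u x| ≤ C := by
  induction h with
  | const c => exact ⟨|c|, abs_nonneg _, fun _ _ _ => le_refl _⟩
  | base g hg =>
    obtain ⟨B, hB, h1⟩ := lob_arg D A hA
    obtain ⟨C, hC, h2⟩ := base_bound hg B
    refine ⟨C, hC, fun u hu x => ?_⟩
    obtain ⟨h3, h4⟩ := h1 u hu x
    exact h2 x _ _ h3 h4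
  | jet I α => exact ⟨A, hA, fun u hu x => hu I (le_refl _) α x⟩
  | add _ _ ih1 ih2 =>
    obtain ⟨C1, hC1, h1⟩ := ih1
    obtain ⟨C2, hC2, h2⟩ := ih2
    exact ⟨C1 + C2, add_nonneg hC1 hC2, fun u hu x =>
      (abs_add_le _ _).trans (add_le_add (h1 u hu x) (h2 u hu x))⟩
  | mul _ _ ih1 ih2 =>
    obtain ⟨C1, hC1, h1⟩ := ih1
    obtain ⟨C2, hC2, h2⟩ := ih2
    refine ⟨C1 * C2, mul_nonneg hC1 hC2, fun u hu x => ?_⟩
    rw [abs_mul]
    exact mul_le_mul (h1 u hu x) (h2 u hu x) (abs_nonneg _) hC1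
  | mono hkl _ ih =>
    obtain ⟨C, hC, h1⟩ := ih
    exact ⟨C, hC, fun u hu x => h1 u (fun I hI α y => hu I (hI.trans hkl) α y) x⟩

theorem loc_bound {D : Dat d K m} {k : ℕ} {Ψ : Sys d K → (Fin d → ℝ) → ℝ} (h : Loc D k Ψ)
    (A : ℝ) : ∃ C : ℝ, 0 ≤ C ∧ ∀ u : Sys d K, Bd k A u → ∀ x, |Ψ u x| ≤ C := by
  obtain ⟨C, hC, h1⟩ := loc_bound_aux h (max A 0) (le_max_right _ _)
  exact ⟨C, hC, fun u hu x => h1 u (Bd.lob_mono hu (le_max_left _ _)) x⟩

private theorem loc_lip_aux {D : Dat d K m} {k : ℕ} {Ψ : Sys d K → (Fin d → ℝ) → ℝ}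
    (h : Loc D k Ψ) (A : ℝ) (hA : 0 ≤ A) :
    ∃ C : ℝ, 0 ≤ C ∧ ∀ u v : Sys d K, Bd k A u → Bd k A v → ∀ ε : ℝ, 0 ≤ ε →
      ∀ x : Fin d → ℝ,
      (∀ (I : List (Fin d)), I.length ≤ k → ∀ β, |pd I (u β) x - pd I (v β) x| ≤ ε) →
      |Ψ u x - Ψ v x| ≤ C * ε := by
  induction h with
  | const c => exact ⟨0, le_refl _, fun _ _ _ _ ε _ _ _ => by simp⟩
  | base g hg =>
    obtain ⟨B, hB, h1⟩ := lob_arg D A hA
    obtain ⟨L, hL, h2⟩ := base_lip hg B
    obtain ⟨S, hS, h3⟩ := lob_sg D A hA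
    obtain ⟨T, hT, h4⟩ := lob_sg_lip D A hA
    refine ⟨L * ((∑ _α : Fin K, (1 : ℝ)) + ∑ _c : Fin m, ∑ _β : Fin K,
      ∑ _j : Fin d, (T * (∑ _α : Fin K, (1 : ℝ)) * A + S)), ?_, ?_⟩
    · have : (0 : ℝ) ≤ ∑ _α : Fin K, (1 : ℝ) := Finset.sum_nonneg fun _ _ => zero_le_one
      refine mul_nonneg hL (add_nonneg this ?_)
      refine Finset.sum_nonneg fun _ _ => Finset.sum_nonneg fun _ _ =>
        Finset.sum_nonneg fun _ _ => add_nonneg (mul_nonneg (mul_nonneg hT this) hA) hS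
    · intro u v hu hv ε hε x hx
      have hN : (0 : ℝ) ≤ ∑ _α : Fin K, (1 : ℝ) := Finset.sum_nonneg fun _ _ => zero_le_one
      have hvu : ∀ α, |val u x α| ≤ A := fun α => hu [] (Nat.zero_le _) α x
      have hvv : ∀ α, |val v x α| ≤ A := fun α => hv [] (Nat.zero_le _) α x
      obtain ⟨a1, a2⟩ := h1 u hu x
      obtain ⟨b1, b2⟩ := h1 v hv x
      have key := h2 x (val u x) (val v x)
        (fun c β => ∑ j, D.sg c j (x, val u x) * pd [j] (u β) x)
        (fun c β => ∑ j, D.sg c j (x, val v x) * pd [j] (v β) x) a1 a2 b1 b2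
      have e1 : ∑ α, |val u x α - val v x α| ≤ (∑ _α : Fin K, (1 : ℝ)) * ε := by
        rw [Finset.sum_mul]
        refine Finset.sum_le_sum fun α _ => ?_
        rw [one_mul]
        exact hx [] (Nat.zero_le _) α
      have e2 : ∑ c, ∑ β, |(∑ j, D.sg c j (x, val u x) * pd [j] (u β) x)
          - ∑ j, D.sg c j (x, val v x) * pd [j] (v β) x|
          ≤ (∑ _c : Fin m, ∑ _β : Fin K, ∑ _j : Fin d,
            (T * (∑ _α : Fin K, (1 : ℝ)) * A + S)) * ε := by
        rw [Finset.sum_mul]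
        refine Finset.sum_le_sum fun c _ => ?_
        rw [Finset.sum_mul]
        refine Finset.sum_le_sum fun β _ => ?_
        rw [Finset.sum_mul, ← Finset.sum_sub_distrib]
        refine (Finset.abs_sum_le_sum_abs _ _).trans ?_
        refine Finset.sum_le_sum fun j _ => ?_
        have f1 : |D.sg c j (x, val u x) - D.sg c j (x, val v x)|
            ≤ T * ((∑ _α : Fin K, (1 : ℝ)) * ε) :=
          (h4 c j x _ _ hvu hvv).trans (mul_le_mul_of_nonneg_left e1 hT)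
        have f2 : |pd [j] (u β) x| ≤ A := hu [j] (le_refl _) β x
        have f3 : |D.sg c j (x, val v x)| ≤ S := h3 c j x _ hvv
        have f4 : |pd [j] (u β) x - pd [j] (v β) x| ≤ ε := hx [j] (le_refl _) β
        have f5 : D.sg c j (x, val u x) * pd [j] (u β) x - D.sg c j (x, val v x) * pd [j] (v β) x
            = (D.sg c j (x, val u x) - D.sg c j (x, val v x)) * pd [j] (u β) x
              + D.sg c j (x, val v x) * (pd [j] (u β) x - pd [j] (v β) x) := by ring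
        rw [f5]
        refine (abs_add_le _ _).trans ?_
        rw [abs_mul, abs_mul]
        have g1 := mul_le_mul f1 f2 (abs_nonneg _) (mul_nonneg hT (mul_nonneg hN hε))
        have g2 := mul_le_mul f3 f4 (abs_nonneg _) hS
        calc _ ≤ T * ((∑ _α : Fin K, (1 : ℝ)) * ε) * A + S * ε := add_le_add g1 g2
          _ = _ := by ring
      have e3 := mul_le_mul_of_nonneg_left (add_le_add e1 e2) hL
      refine (key.trans e3).trans (le_of_eq ?_)
      ring
  | jet I α =>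
    exact ⟨1, zero_le_one, fun u v _ _ ε _ x hx => by rw [one_mul]; exact hx I (le_refl _) α⟩
  | add _ _ ih1 ih2 =>
    obtain ⟨C1, hC1, h1⟩ := ih1
    obtain ⟨C2, hC2, h2⟩ := ih2
    refine ⟨C1 + C2, add_nonneg hC1 hC2, fun u v hu hv ε hε x hx => ?_⟩
    have a1 := h1 u v hu hv ε hε x hx
    have a2 := h2 u v hu hv ε hε x hx
    rw [add_sub_add_comm, add_mul]
    exact (abs_add_le _ _).trans (add_le_add a1 a2)
  | @mul k' Ψ' Θ' hΨ hΘ ih1 ih2 =>
    obtain ⟨C1, hC1, h1⟩ := ih1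
    obtain ⟨C2, hC2, h2⟩ := ih2
    obtain ⟨B1, hB1, g1⟩ := loc_bound_aux hΨ A hA
    obtain ⟨B2, hB2, g2⟩ := loc_bound_aux hΘ A hA
    refine ⟨C1 * B2 + B1 * C2, add_nonneg (mul_nonneg hC1 hB2) (mul_nonneg hB1 hC2),
      fun u v hu hv ε hε x hx => ?_⟩
    have a1 := h1 u v hu hv ε hε x hx
    have a2 := h2 u v hu hv ε hε x hx
    have e : Ψ' u x * Θ' u x - Ψ' v x * Θ' v x
        = (Ψ' u x - Ψ' v x) * Θ' u x + Ψ' v x * (Θ' u x - Θ' v x) := by ring
    rw [e]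
    refine (abs_add_le _ _).trans ?_
    rw [abs_mul, abs_mul]
    have b1 := mul_le_mul a1 (g2 u hu x) (abs_nonneg _) (mul_nonneg hC1 hε)
    have b2 := mul_le_mul (g1 v hv x) a2 (abs_nonneg _) hB1
    calc _ ≤ C1 * ε * B2 + B1 * (C2 * ε) := add_le_add b1 b2
      _ = _ := by ring
  | mono hkl _ ih =>
    obtain ⟨C, hC, h1⟩ := ih
    exact ⟨C, hC, fun u v hu hv ε hε x hx => h1 u v (fun I hI α y => hu I (hI.trans hkl) α y)
      (fun I hI α y => hv I (hI.trans hkl) α y) ε hε x (fun I hI β => hx I (hI.trans hkl) β)⟩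

theorem loc_lip {D : Dat d K m} {k : ℕ} {Ψ : Sys d K → (Fin d → ℝ) → ℝ} (h : Loc D k Ψ)
    (A : ℝ) : ∃ C : ℝ, 0 ≤ C ∧ ∀ u v : Sys d K, Bd k A u → Bd k A v → ∀ ε : ℝ, 0 ≤ ε →
      ∀ x : Fin d → ℝ,
      (∀ (I : List (Fin d)), I.length ≤ k → ∀ β, |pd I (u β) x - pd I (v β) x| ≤ ε) →
      |Ψ u x - Ψ v x| ≤ C * ε := by
  obtain ⟨C, hC, h1⟩ := loc_lip_aux h (max A 0) (le_max_right _ _)
  exact ⟨C, hC, fun u v hu hv ε hε x hx => h1 u v (Bd.lob_mono hu (le_max_left _ _))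
    (Bd.lob_mono hv (le_max_left _ _)) ε hε x hx⟩

theorem loc_cont {D : Dat d K m} {k : ℕ} {Ψ : Sys d K → (Fin d → ℝ) → ℝ} (h : Loc D k Ψ)
    {ι : Type} (l : Filter ι) (w : ι → Sys d K) (u : Sys d K) (x : Fin d → ℝ)
    (hw : ∀ (I : List (Fin d)), I.length ≤ k → ∀ β,
      Filter.Tendsto (fun j => pd I (w j β) x) l (nhds (pd I (u β) x))) :
    Filter.Tendsto (fun j => Ψ (w j) x) l (nhds (Ψ u x)) := by
  induction h with
  | const c => exact tendsto_const_nhds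
  | base g hg =>
    have hval : Filter.Tendsto (fun j => val (w j) x) l (nhds (val u x)) := by
      rw [tendsto_pi_nhds]
      exact fun α => hw [] (Nat.zero_le _) α
    have hp : Filter.Tendsto (fun i => fun c β => ∑ j, D.sg c j (x, val (w i) x)
        * pd [j] (w i β) x) l
        (nhds (fun c β => ∑ j, D.sg c j (x, val u x) * pd [j] (u β) x)) := by
      rw [tendsto_pi_nhds]
      intro c
      rw [tendsto_pi_nhds]
      intro β
      refine tendsto_finsetSum _ fun j _ => ?_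
      refine Filter.Tendsto.mul ?_ (hw [j] (le_refl _) β)
      have hc : Continuous (D.sg c j) := (D.sg_smooth c j).continuous
      exact (hc.tendsto (x, val u x)).comp (tendsto_const_nhds.prodMk_nhds hval)
    have hg' : Continuous g := hg.smooth.continuous
    exact (hg'.tendsto (larg D u x)).comp
      (tendsto_const_nhds.prodMk_nhds (hval.prodMk_nhds hp))
  | jet I α => exact hw I (le_refl _) α
  | add _ _ ih1 ih2 => exact (ih1 hw).add (ih2 hw)
  | mul _ _ ih1 ih2 => exact (ih1 hw).mul (ih2 hw)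
  | mono hkl _ ih => exact ih fun I hI β => hw I (hI.trans hkl) β

end Pool.Agent.QPE
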