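import Pool.Agent.QPE.LEV
import Pool.Agent.QPE.CST
import Pool.Agent.QPE.LOB

/-!
MODULE APA (the discrete solution over several steps).
Proofs.  The hypothesis bounds the derivatives of all iterates up to time `T`.
(1) sum `step_lip` for `I` over the steps `n, ..., n1-1`.
(2) `u^{n1} - u^n - (n1-n) τ Aop(u^n) = Σ_{n ≤ l < n1} [(u^{l+1} - u^l - τ Aop(u^l)) + τ (Aop (u^l) - Aop (u^n))]`, first bracket
`≤ τ C s` (`consist`, order 3), second `≤ τ C (l - n) τ` (`loc_lip` for `Aop_loc`, with (1) for the finitely many lists of length `≤ 2`).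
(3) `loc_bound` for `Aop_loc`.
-/

namespace Pool.Agent.QPE

open scoped ContDiff BigOperators

variable {d K m : ℕ}

private theorem apa_succ (D : Dat d K m) (s : ℝ) (u0 : Sys d K) (n : ℕ) :
    iter D s u0 (n + 1) = step D s (iter D s u0 n) := by
  unfold iter
  rw [Function.iterate_succ_apply']

private theorem apa_mono {k l : ℕ} {A : ℝ} {u : Sys d K} (h : Bd l A u) (hkl : k ≤ l) :
    Bd k A u := fun I hI α x => h I (hI.trans hkl) α x

theorem discrete_lip (D : Dat d K m) (I : List (Fin d)) (A : ℝ) :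
    ∃ C : ℝ, 0 ≤ C ∧ ∀ (u0 : Sys d K), Smooth u0 → ∀ (T s : ℝ), 0 < s → s ≤ 1 →
      (∀ n : ℕ, n * (s ^ 2 / 2) ≤ T → Bd (I.length + 2) A (iter D s u0 n)) →
      ∀ n n1 : ℕ, n ≤ n1 → n1 * (s ^ 2 / 2) ≤ T → ∀ α x,
        |pd I (iter D s u0 n1 α) x - pd I (iter D s u0 n α) x| ≤ C * ((n1 - n) * (s ^ 2 / 2)) := by
  obtain ⟨C, hC, h1⟩ := step_lip D I A
  refine ⟨C, hC, ?_⟩
  intro u0 hu0 T s hs hs1 hb n n1 hn hT α x
  have hτ : 0 ≤ s ^ 2 / 2 := by positivity
  induction n1, hn using Nat.le_induction with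
  | base => simp
  | succ n1 hn ih =>
    have hT' : (n1 : ℝ) * (s ^ 2 / 2) ≤ T := by
      push_cast at hT
      nlinarith
    have h2 := ih hT'
    have h3 := h1 s hs hs1 (iter D s u0 n1) (iter_smooth D s u0 hu0 n1) (hb n1 hT') α x
    rw [apa_succ]
    have h4 := abs_add_le (pd I (step D s (iter D s u0 n1) α) x - pd I (iter D s u0 n1 α) x)
      (pd I (iter D s u0 n1 α) x - pd I (iter D s u0 n α) x)
    rw [sub_add_sub_cancel] at h4
    refine h4.trans ((add_le_add h3 h2).trans (le_of_eq ?_))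
    push_cast
    ring

theorem discrete_cons (D : Dat d K m) (A : ℝ) :
    ∃ C : ℝ, 0 ≤ C ∧ ∀ (u0 : Sys d K), Smooth u0 → ∀ (T s : ℝ), 0 < s → s ≤ 1 →
      (∀ n : ℕ, n * (s ^ 2 / 2) ≤ T → Bd 4 A (iter D s u0 n)) →
      ∀ n n1 : ℕ, n ≤ n1 → n1 * (s ^ 2 / 2) ≤ T → ∀ α x,
        |Aop D (iter D s u0 n) α x| ≤ C ∧
        |iter D s u0 n1 α x - iter D s u0 n α x
            - (n1 - n) * (s ^ 2 / 2) * Aop D (iter D s u0 n) α x|
          ≤ C * (((n1 - n) * (s ^ 2 / 2)) ^ 2 + (n1 - n) * (s ^ 2 / 2) * s) := by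
  have hfin : {l : List (Fin d) | l.length ≤ 2}.Finite := List.finite_length_le (Fin d) 2
  choose C3 hC3 h3 using fun I : List (Fin d) => discrete_lip D I A
  obtain ⟨C1, hC1, h1⟩ := consist D A
  choose C2 hC2 h2 using fun α : Fin K => loc_lip (Aop_loc D α) A
  choose Cb hCb hbd using fun α : Fin K => loc_bound (Aop_loc D α) A
  set E3 : ℝ := ∑ I ∈ hfin.toFinset, C3 I with hE3
  have hE30 : 0 ≤ E3 := Finset.sum_nonneg fun I _ => hC3 I
  have hE3le : ∀ I : List (Fin d), I.length ≤ 2 → C3 I ≤ E3 := fun I hI =>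
    Finset.single_le_sum (f := C3) (fun J _ => hC3 J) (by simpa using hI)
  set E2 : ℝ := ∑ α, C2 α with hE2
  have hE20 : 0 ≤ E2 := Finset.sum_nonneg fun α _ => hC2 α
  have hE2le : ∀ α, C2 α ≤ E2 := fun α =>
    Finset.single_le_sum (f := C2) (fun J _ => hC2 J) (Finset.mem_univ α)
  set Eb : ℝ := ∑ α, Cb α with hEb
  have hEb0 : 0 ≤ Eb := Finset.sum_nonneg fun α _ => hCb α
  have hEble : ∀ α, Cb α ≤ Eb := fun α =>
    Finset.single_le_sum (f := Cb) (fun J _ => hCb J) (Finset.mem_univ α)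
  have hE23 : 0 ≤ E2 * E3 := mul_nonneg hE20 hE30
  refine ⟨Eb + C1 + E2 * E3, by positivity, ?_⟩
  intro u0 hu0 T s hs hs1 hb n n1 hn hT α x
  have hτ : 0 ≤ s ^ 2 / 2 := by positivity
  have hnn : (n : ℝ) ≤ n1 := by exact_mod_cast hn
  have hTn : (n : ℝ) * (s ^ 2 / 2) ≤ T := (mul_le_mul_of_nonneg_right hnn hτ).trans hT
  refine ⟨?_, ?_⟩
  · have h4 := hbd α (iter D s u0 n) (apa_mono (hb n hTn) (by norm_num)) x
    have h5 := hEble α
    linarith
  · clear hnn
    induction n1, hn using Nat.le_induction with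
    | base => simp
    | succ n1 hn ih =>
      have hT' : (n1 : ℝ) * (s ^ 2 / 2) ≤ T := by
        push_cast at hT
        nlinarith
      have hih := ih hT'
      have hN : (0 : ℝ) ≤ (n1 : ℝ) - n := by
        have : (n : ℝ) ≤ n1 := by exact_mod_cast hn
        linarith
      set u := iter D s u0 n with hu
      set v := iter D s u0 n1 with hv
      have g1 := h1 s hs hs1 v (iter_smooth D s u0 hu0 n1) (apa_mono (hb n1 hT') (by norm_num)) α x
      have g2 := h2 α v u (apa_mono (hb n1 hT') (by norm_num)) (apa_mono (hb n hTn) (by norm_num))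
        (E3 * (((n1 : ℝ) - n) * (s ^ 2 / 2))) (by positivity) x (fun I hI β => by
          refine (h3 I u0 hu0 T s hs hs1 (fun k hk => apa_mono (hb k hk) (by omega)) n n1 hn hT'
            β x).trans ?_
          exact mul_le_mul_of_nonneg_right (hE3le I hI) (by positivity))
      rw [apa_succ, ← hv]
      have g3 : C2 α * (E3 * (((n1 : ℝ) - n) * (s ^ 2 / 2)))
          ≤ E2 * (E3 * (((n1 : ℝ) - n) * (s ^ 2 / 2))) :=
        mul_le_mul_of_nonneg_right (hE2le α) (by positivity)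
      have g4 : |s ^ 2 / 2 * (Aop D v α x - Aop D u α x)|
          ≤ s ^ 2 / 2 * (E2 * (E3 * (((n1 : ℝ) - n) * (s ^ 2 / 2)))) := by
        rw [abs_mul, abs_of_nonneg hτ]
        exact mul_le_mul_of_nonneg_left (g2.trans g3) hτ
      have e1 : step D s v α x - u α x - (((n1 + 1 : ℕ) : ℝ) - n) * (s ^ 2 / 2) * Aop D u α x
          = (step D s v α x - v α x - s ^ 2 / 2 * Aop D v α x)
            + s ^ 2 / 2 * (Aop D v α x - Aop D u α x)
            + (v α x - u α x - ((n1 : ℝ) - n) * (s ^ 2 / 2) * Aop D u α x) := by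
        push_cast
        ring
      rw [e1]
      have e2 := abs_add_three (step D s v α x - v α x - s ^ 2 / 2 * Aop D v α x)
        (s ^ 2 / 2 * (Aop D v α x - Aop D u α x))
        (v α x - u α x - ((n1 : ℝ) - n) * (s ^ 2 / 2) * Aop D u α x)
      refine e2.trans ?_
      have e3 := add_le_add (add_le_add g1 g4) hih
      refine e3.trans ?_
      push_cast
      set N : ℝ := (n1 : ℝ) - n with hNdef
      set τ : ℝ := s ^ 2 / 2 with hτdef
      have e4 : (n1 : ℝ) + 1 - n = N + 1 := by rw [hNdef]; ring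
      rw [e4]
      have f1 : 0 ≤ τ * s := mul_nonneg hτ hs.le
      have f2 : 0 ≤ N * τ ^ 2 := by positivity
      have f3 : 0 ≤ τ ^ 2 := by positivity
      have f4 : 0 ≤ (Eb + E2 * E3) * (τ * s) := by positivity
      have f5 : 0 ≤ (Eb + C1) * (N * τ ^ 2) := by positivity
      have f6 : 0 ≤ (Eb + C1 + E2 * E3) * ((N + 1) * τ ^ 2) := by positivity
      have f7 : (Eb + C1 + E2 * E3) * (((N + 1) * τ) ^ 2 + (N + 1) * τ * s)
          - (τ * (C1 * s) + τ * (E2 * (E3 * (N * τ)))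
            + (Eb + C1 + E2 * E3) * ((N * τ) ^ 2 + N * τ * s))
          = (Eb + E2 * E3) * (τ * s) + (Eb + C1) * (N * τ ^ 2)
            + (Eb + C1 + E2 * E3) * ((N + 1) * τ ^ 2) := by ring
      linarith

end Pool.Agent.QPE
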