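import Pool.Agent.QPE.APA

/-!
MODULE APX (the approximate solutions).
Proof.  `T` as in `boot` (its output is a hypothesis here).  Put `s_j = sqrt (2T/(j+1))`, so `s_j^2/2 = T/(j+1) =: τ_j`, and for `t ∈ [0,T]`
`n_j t = ⌊t (j+1)/T⌋₊ ≤ j+1`, `ε j = s_j + 2 τ_j` (tends to 0).  `w j t = iter D s_j u0 (n_j t)` if `s_j ≤ s0`, else `u0`.
`n_j t τ_j ≤ T` (so `boot` and `levels` apply as soon as `s_j ≤ s0` resp. `s_j ≤ s1`), `|n_j t τ_j - t| ≤ τ_j`; for `t ≤ t1`: `n_j t ≤ n_j t1` and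
`|(n_j t1 - n_j t) τ_j - (t1 - t)| ≤ 2 τ_j`.
`bd`: `levels`.  `lip`: `discrete_lip` (w.l.o.g. `t ≤ t1`, absolute values) with the bound of `levels` for `|I| + 2`.
`cons`: `discrete_cons` with the bound of `levels` for order 4; replace `(n1-n) τ` by `t1 - t` (error `2 τ_j C`; everything is bounded by `T + 2`).
-/

namespace Pool.Agent.QPE

open scoped ContDiff BigOperators

variable {d K m : ℕ}

/-- the properties of the approximations -/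
structure Approx (D : Dat d K m) (u0 : Sys d K) (T δ : ℝ) (w : ℕ → ℝ → Sys d K) (ε : ℕ → ℝ) :
    Prop where
  eps : Filter.Tendsto ε Filter.atTop (nhds 0)
  smooth : ∀ j, ∀ t ∈ Set.Icc 0 T, Smooth (w j t)
  init : ∀ j, w j 0 = u0
  close : ∀ j, ∀ t ∈ Set.Icc 0 T, ∀ α x, |w j t α x - u0 α x| ≤ δ
  bd : ∀ k, ∃ A : ℝ, ∃ j0 : ℕ, ∀ j ≥ j0, ∀ t ∈ Set.Icc 0 T, Bd k A (w j t)
  lip : ∀ I : List (Fin d), ∃ C : ℝ, ∃ j0 : ℕ, ∀ j ≥ j0, ∀ t ∈ Set.Icc 0 T, ∀ t1 ∈ Set.Icc 0 T,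
    ∀ α x, |pd I (w j t1 α) x - pd I (w j t α) x| ≤ C * (|t1 - t| + ε j)
  cons : ∃ C : ℝ, ∃ j0 : ℕ, ∀ j ≥ j0, ∀ t ∈ Set.Icc 0 T, ∀ t1 ∈ Set.Icc 0 T, t ≤ t1 →
    ∀ α x, |w j t1 α x - w j t α x - (t1 - t) * Aop D (w j t) α x| ≤ C * ((t1 - t) ^ 2 + ε j)

theorem approx_exists (D : Dat d K m) (u0 : Sys d K) (hu0 : Smooth u0)
    (hb : ∀ (I : List (Fin d)) α, ∃ C, ∀ x, |pd I (u0 α) x| ≤ C) (δ : ℝ) (hδ : 0 < δ)
    (T A s0 : ℝ) (hT : 0 < T) (hs0 : 0 < s0) (hs01 : s0 ≤ 1)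
    (hboot : ∀ s : ℝ, 0 < s → s ≤ s0 → ∀ n : ℕ, n * (s ^ 2 / 2) ≤ T →
      Bd 2 A (iter D s u0 n) ∧ ∀ α x, |iter D s u0 n α x - u0 α x| ≤ δ) :
    ∃ (w : ℕ → ℝ → Sys d K) (ε : ℕ → ℝ), Approx D u0 T δ w ε := by
  classical
  have hbA : ∀ s : ℝ, 0 < s → s ≤ s0 → ∀ n : ℕ, n * (s ^ 2 / 2) ≤ T → Bd 2 A (iter D s u0 n) :=
    fun s hs hs' n hn => (hboot s hs hs' n hn).1
  have hlev := levels D u0 hu0 hb T A s0 hT hs0 hs01 hbA
  obtain ⟨τ, hτ⟩ : ∃ τ : ℕ → ℝ, τ = fun j : ℕ => T * (1 / ((j : ℝ) + 1)) := ⟨_, rfl⟩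
  obtain ⟨σ, hσ⟩ : ∃ σ : ℕ → ℝ, σ = fun j => √(2 * τ j) := ⟨_, rfl⟩
  have hτ0 : ∀ j, 0 < τ j := by
    intro j
    rw [hτ]
    positivity
  have hτT : ∀ j, τ j ≤ T := by
    intro j
    have h1 : (1 : ℝ) / ((j : ℝ) + 1) ≤ 1 := by
      rw [div_le_one (by positivity)]
      have : (0 : ℝ) ≤ j := Nat.cast_nonneg j
      linarith
    have h2 : T * (1 / ((j : ℝ) + 1)) ≤ T * 1 := mul_le_mul_of_nonneg_left h1 hT.le
    rw [hτ]
    linarith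
  have hσ0 : ∀ j, 0 < σ j := by
    intro j
    rw [hσ]
    exact Real.sqrt_pos.2 (mul_pos two_pos (hτ0 j))
  have hσ2 : ∀ j, σ j ^ 2 / 2 = τ j := by
    intro j
    have h1 : σ j = √(2 * τ j) := by rw [hσ]
    rw [h1, Real.sq_sqrt (mul_pos two_pos (hτ0 j)).le]
    ring
  obtain ⟨ν, hν⟩ : ∃ ν : ℕ → ℝ → ℕ, ν = fun j t => ⌊t / τ j⌋₊ := ⟨_, rfl⟩
  have hν1 : ∀ j t, 0 ≤ t → (ν j t : ℝ) * τ j ≤ t := by
    intro j t ht
    have h1 : (ν j t : ℝ) ≤ t / τ j := by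
      rw [hν]
      exact Nat.floor_le (div_nonneg ht (hτ0 j).le)
    calc (ν j t : ℝ) * τ j ≤ t / τ j * τ j := mul_le_mul_of_nonneg_right h1 (hτ0 j).le
      _ = t := div_mul_cancel₀ _ (hτ0 j).ne'
  have hν2 : ∀ j t, t ≤ (ν j t : ℝ) * τ j + τ j := by
    intro j t
    have h1 : t / τ j ≤ (ν j t : ℝ) + 1 := by
      rw [hν]
      exact (Nat.lt_floor_add_one (t / τ j)).le
    calc t = t / τ j * τ j := (div_mul_cancel₀ _ (hτ0 j).ne').symm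
      _ ≤ ((ν j t : ℝ) + 1) * τ j := mul_le_mul_of_nonneg_right h1 (hτ0 j).le
      _ = _ := by ring
  have hν3 : ∀ j t t1, t ≤ t1 → ν j t ≤ ν j t1 := by
    intro j t t1 h
    rw [hν]
    exact Nat.floor_le_floor (div_le_div_of_nonneg_right h (hτ0 j).le)
  have hτl : Filter.Tendsto τ Filter.atTop (nhds 0) := by
    have h1 := (tendsto_one_div_add_atTop_nhds_zero_nat (𝕜 := ℝ)).const_mul T
    rw [mul_zero] at h1
    rw [hτ]
    exact h1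
  have hσl : Filter.Tendsto σ Filter.atTop (nhds 0) := by
    have h1 := (Real.continuous_sqrt.tendsto (2 * 0)).comp (hτl.const_mul 2)
    rw [mul_zero, Real.sqrt_zero] at h1
    rw [hσ]
    exact h1
  have hev : ∀ s1 : ℝ, 0 < s1 → ∃ j0 : ℕ, ∀ j ≥ j0, σ j ≤ s1 := by
    intro s1 hs1
    exact Filter.eventually_atTop.1 (hσl.eventually (Iic_mem_nhds hs1))
  have hνT : ∀ j, ∀ t ∈ Set.Icc 0 T, (ν j t : ℝ) * (σ j ^ 2 / 2) ≤ T := by
    intro j t ht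
    rw [hσ2]
    exact (hν1 j t ht.1).trans ht.2
  obtain ⟨w, hw⟩ : ∃ w : ℕ → ℝ → Sys d K, w = fun j t =>
    if σ j ≤ s0 then iter D (σ j) u0 (ν j t) else u0 := ⟨_, rfl⟩
  have hw1 : ∀ j t, σ j ≤ s0 → w j t = iter D (σ j) u0 (ν j t) := by
    intro j t h
    rw [hw]
    exact if_pos h
  have hw2 : ∀ j t, ¬ σ j ≤ s0 → w j t = u0 := by
    intro j t h
    rw [hw]
    exact if_neg h
  refine ⟨w, fun j => σ j + 2 * τ j, ?_, ?_, ?_, ?_, ?_, ?_, ?_⟩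
  · have h1 := hσl.add (hτl.const_mul 2)
    rw [mul_zero, add_zero] at h1
    exact h1
  · intro j t _
    by_cases h : σ j ≤ s0
    · rw [hw1 j t h]
      exact iter_smooth D (σ j) u0 hu0 _
    · rw [hw2 j t h]
      exact hu0
  · intro j
    by_cases h : σ j ≤ s0
    · have h1 : ν j 0 = 0 := by
        rw [hν]
        simp
      rw [hw1 j 0 h, h1]
      rfl
    · exact hw2 j 0 h
  · intro j t ht α x
    by_cases h : σ j ≤ s0
    · rw [hw1 j t h]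
      exact (hboot (σ j) (hσ0 j) h (ν j t) (hνT j t ht)).2 α x
    · rw [hw2 j t h, sub_self, abs_zero]
      exact hδ.le
  · intro k
    obtain ⟨A1, s1, _, hs1, hs10, hB⟩ := hlev k
    obtain ⟨j0, hj0⟩ := hev s1 hs1
    refine ⟨A1, j0, fun j hj t ht => ?_⟩
    rw [hw1 j t ((hj0 j hj).trans hs10)]
    exact hB (σ j) (hσ0 j) (hj0 j hj) (ν j t) (hνT j t ht)
  · intro I
    obtain ⟨A1, s1, _, hs1, hs10, hB⟩ := hlev (I.length + 2)
    obtain ⟨j0, hj0⟩ := hev s1 hs1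
    obtain ⟨C, hC, hdl⟩ := discrete_lip D I A1
    have key : ∀ j ≥ j0, ∀ t ∈ Set.Icc 0 T, ∀ t1 ∈ Set.Icc 0 T, t ≤ t1 → ∀ α x,
        |pd I (w j t1 α) x - pd I (w j t α) x| ≤ C * (|t1 - t| + (σ j + 2 * τ j)) := by
      intro j hj t ht t1 ht1 htt α x
      have hj1 := hj0 j hj
      rw [hw1 j t (hj1.trans hs10), hw1 j t1 (hj1.trans hs10)]
      refine (hdl u0 hu0 T (σ j) (hσ0 j) (hj1.trans (hs10.trans hs01))
        (hB (σ j) (hσ0 j) hj1) (ν j t) (ν j t1) (hν3 j t t1 htt) (hνT j t1 ht1) α x).trans ?_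
      refine mul_le_mul_of_nonneg_left ?_ hC
      rw [hσ2, abs_of_nonneg (sub_nonneg.2 htt)]
      have h1 := hν1 j t1 ht1.1
      have h2 := hν2 j t
      have h3 := hσ0 j
      have h4 := hτ0 j
      have h5 : ((ν j t1 : ℝ) - ν j t) * τ j = ν j t1 * τ j - ν j t * τ j := by ring
      rw [h5]
      linarith
    refine ⟨C, j0, fun j hj t ht t1 ht1 α x => ?_⟩
    rcases le_total t t1 with h | h
    · exact key j hj t ht t1 ht1 h α x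
    · have h1 := key j hj t1 ht1 t ht h α x
      rw [abs_sub_comm, abs_sub_comm t1 t]
      exact h1
  · obtain ⟨A1, s1, _, hs1, hs10, hB⟩ := hlev 4
    obtain ⟨j0, hj0⟩ := hev s1 hs1
    obtain ⟨C, hC, hdc⟩ := discrete_cons D A1
    refine ⟨C * (5 * T + 1), j0, fun j hj t ht t1 ht1 htt α x => ?_⟩
    have hj1 := hj0 j hj
    rw [hw1 j t (hj1.trans hs10), hw1 j t1 (hj1.trans hs10)]
    obtain ⟨hA1, hA2⟩ := hdc u0 hu0 T (σ j) (hσ0 j) (hj1.trans (hs10.trans hs01))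
        (hB (σ j) (hσ0 j) hj1) (ν j t) (ν j t1) (hν3 j t t1 htt) (hνT j t1 ht1) α x
    rw [hσ2] at hA2
    obtain ⟨N, hN⟩ : ∃ N : ℝ, N = ((ν j t1 : ℝ) - ν j t) * τ j := ⟨_, rfl⟩
    obtain ⟨P, hP⟩ : ∃ P : ℝ, P = Aop D (iter D (σ j) u0 (ν j t)) α x := ⟨_, rfl⟩
    obtain ⟨Z, hZ⟩ : ∃ Z : ℝ, Z = iter D (σ j) u0 (ν j t1) α x - iter D (σ j) u0 (ν j t) α x :=
      ⟨_, rfl⟩
    rw [← hN, ← hP, ← hZ] at hA2
    rw [← hP] at hA1
    rw [← hP, ← hZ]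
    have h1 := hν1 j t1 ht1.1
    have h2 := hν2 j t
    have h1' := hν1 j t ht.1
    have h2' := hν2 j t1
    have h3 := hσ0 j
    have h4 := hτ0 j
    have h5 : N = ν j t1 * τ j - ν j t * τ j := by rw [hN]; ring
    have hN0 : 0 ≤ N := by
      rw [hN]
      refine mul_nonneg (sub_nonneg.2 ?_) h4.le
      exact_mod_cast hν3 j t t1 htt
    have hN1 : |N - (t1 - t)| ≤ τ j := by
      rw [abs_le]
      constructor <;> linarith
    have hNu : N ≤ (t1 - t) + τ j := by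
      have := (abs_le.1 hN1).2
      linarith
    obtain ⟨Δ, hΔ⟩ : ∃ Δ : ℝ, Δ = t1 - t := ⟨_, rfl⟩
    rw [← hΔ] at hN1 hNu ⊢
    have hΔ0 : 0 ≤ Δ := by rw [hΔ]; linarith
    have hΔT : Δ ≤ T := by
      rw [hΔ]
      have := ht1.2
      have := ht.1
      linarith
    have hτT' := hτT j
    have e1 : |Z - Δ * P| ≤ C * (N ^ 2 + N * σ j) + τ j * C := by
      have e2 : Z - Δ * P = (Z - N * P) + (N - Δ) * P := by ring
      rw [e2]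
      refine (abs_add_le _ _).trans (add_le_add hA2 ?_)
      rw [abs_mul]
      exact mul_le_mul hN1 hA1 (abs_nonneg _) h4.le
    have e3 : N ^ 2 ≤ Δ ^ 2 + 3 * T * τ j := by
      have : N ^ 2 ≤ (Δ + τ j) ^ 2 := pow_le_pow_left₀ hN0 hNu 2
      nlinarith
    have e4 : N * σ j ≤ 2 * T * σ j := by
      refine mul_le_mul_of_nonneg_right ?_ h3.le
      linarith
    have e5 : N ^ 2 + N * σ j + τ j ≤ (5 * T + 1) * (Δ ^ 2 + (σ j + 2 * τ j)) := by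
      have e6 : 0 ≤ T * Δ ^ 2 := by positivity
      have e7 : 0 ≤ T * σ j := by positivity
      have e8 : 0 ≤ T * τ j := by positivity
      nlinarith
    calc |Z - Δ * P| ≤ C * (N ^ 2 + N * σ j) + τ j * C := e1
      _ = C * (N ^ 2 + N * σ j + τ j) := by ring
      _ ≤ C * ((5 * T + 1) * (Δ ^ 2 + (σ j + 2 * τ j))) := mul_le_mul_of_nonneg_left e5 hC
      _ = _ := by ring

end Pool.Agent.QPE
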