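import Pool.Agent.QPE.Def

/-!
MODULE BAS (base functions).
(1) The coordinate derivatives of a base function `g (x,v,p)` in the directions `x_i`, `v_α`, `p_cβ` are base
functions: they are smooth, and vanish for `R < ‖x‖` because `g` vanishes on the open set
`{R < ‖x‖}` (so its derivative vanishes there: `Filter.EventuallyEq.fderiv_eq`).
(2) The fields and the drift give base functions (constant in `p`).
(3) A base function is bounded on bounded sets of `(v,p)`: by continuity and compactness of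
`closedBall 0 R ×ˢ closedBall 0 A ×ˢ closedBall 0 A` (`IsCompact.exists_bound_of_continuousOn`), and it is `0` for `R < ‖x‖`.
(sup norms: `‖v‖ ≤ A` follows from `|v α| ≤ A` if `0 ≤ A`; enlarge `A` to `max A 0`).
-/

namespace Pool.Agent.QPE

open scoped ContDiff BigOperators

variable {d K m : ℕ}

/-- derivative in the direction `x_i` -/
noncomputable def gx (i : Fin d) (g : Arg d K m → ℝ) (z : Arg d K m) : ℝ :=
  fderiv ℝ g z (Pi.single i 1, 0, 0)

/-- derivative in the direction `v_α` -/
noncomputable def gv (α : Fin K) (g : Arg d K m → ℝ) (z : Arg d K m) : ℝ :=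
  fderiv ℝ g z (0, Pi.single α 1, 0)

/-- derivative in the direction `p_{c β}` -/
noncomputable def gp (c : Fin m) (β : Fin K) (g : Arg d K m → ℝ) (z : Arg d K m) : ℝ :=
  fderiv ℝ g z (0, 0, Pi.single c (Pi.single β 1))

private theorem fderiv_zero_of_supp {R : ℝ} {g : Arg d K m → ℝ} (hg : IsBase R g)
    (w : Arg d K m) (x : Fin d → ℝ) (v : Fin K → ℝ) (p : Fin m → Fin K → ℝ) (hx : R < ‖x‖) :
    fderiv ℝ g (x, v, p) w = 0 := by
  have h1 : g =ᶠ[nhds ((x, v, p) : Arg d K m)] fun _ => (0 : ℝ) := by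
    have hopen : IsOpen {z : Arg d K m | R < ‖z.1‖} :=
      isOpen_lt continuous_const (continuous_norm.comp continuous_fst)
    have hmem : ((x, v, p) : Arg d K m) ∈ {z : Arg d K m | R < ‖z.1‖} := hx
    filter_upwards [hopen.mem_nhds hmem] with z hz
    exact hg.supp z.1 z.2.1 z.2.2 hz
  rw [h1.fderiv_eq]
  simp

private theorem base_dir {R : ℝ} {g : Arg d K m → ℝ} (hg : IsBase R g) (w : Arg d K m) :
    IsBase R (fun z => fderiv ℝ g z w) where
  smooth := (hg.smooth.fderiv_right (m := ∞) (by simp)).clm_apply contDiff_const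
  supp := fun x v p hx => fderiv_zero_of_supp hg w x v p hx

theorem base_gx {R : ℝ} {g : Arg d K m → ℝ} (hg : IsBase R g) (i : Fin d) : IsBase R (gx i g) :=
  base_dir hg (Pi.single i 1, 0, 0)

theorem base_gv {R : ℝ} {g : Arg d K m → ℝ} (hg : IsBase R g) (α : Fin K) : IsBase R (gv α g) :=
  base_dir hg (0, Pi.single α 1, 0)

theorem base_gp {R : ℝ} {g : Arg d K m → ℝ} (hg : IsBase R g) (c : Fin m) (β : Fin K) :
    IsBase R (gp c β g) :=
  base_dir hg (0, 0, Pi.single c (Pi.single β 1))

theorem base_sg (D : Dat d K m) (c : Fin m) (j : Fin d) :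
    IsBase (m := m) D.R (fun z : Arg d K m => D.sg c j (z.1, z.2.1)) where
  smooth := (D.sg_smooth c j).comp (contDiff_fst.prodMk (contDiff_fst.comp contDiff_snd))
  supp := fun x v _ hx => D.sg_supp c j x v hx

theorem base_b (D : Dat d K m) (j : Fin d) :
    IsBase (m := m) D.R (fun z : Arg d K m => D.b j (z.1, z.2.1)) where
  smooth := (D.b_smooth j).comp (contDiff_fst.prodMk (contDiff_fst.comp contDiff_snd))
  supp := fun x v _ hx => D.b_supp j x v hx

theorem base_Q (D : Dat d K m) (α : Fin K) : IsBase D.R (D.Q α) :=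
  ⟨D.Q_smooth α, D.Q_supp α⟩

theorem base_bound {R : ℝ} {g : Arg d K m → ℝ} (hg : IsBase R g) (A : ℝ) :
    ∃ C : ℝ, 0 ≤ C ∧ ∀ (x : Fin d → ℝ) (v : Fin K → ℝ) (p : Fin m → Fin K → ℝ),
      (∀ α, |v α| ≤ A) → (∀ c β, |p c β| ≤ A) → |g (x, v, p)| ≤ C := by
  have hc : IsCompact (Metric.closedBall (0 : Fin d → ℝ) R ×ˢ
      (Metric.closedBall (0 : Fin K → ℝ) (max A 0) ×ˢ
        Metric.closedBall (0 : Fin m → Fin K → ℝ) (max A 0))) :=
    (isCompact_closedBall _ _).prod ((isCompact_closedBall _ _).prod (isCompact_closedBall _ _))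
  obtain ⟨C, hC⟩ := hc.exists_bound_of_continuousOn hg.smooth.continuous.continuousOn
  refine ⟨max C 0, le_max_right _ _, ?_⟩
  intro x v p hv hp
  have hA0 : (0 : ℝ) ≤ max A 0 := le_max_right _ _
  have hA1 : A ≤ max A 0 := le_max_left _ _
  by_cases hx : R < ‖x‖
  · rw [hg.supp x v p hx, abs_zero]
    exact le_max_right _ _
  · have h1 := hC (x, v, p) (by
      refine ⟨?_, ?_, ?_⟩
      · rw [mem_closedBall_zero_iff]
        exact not_lt.1 hx
      · rw [mem_closedBall_zero_iff, pi_norm_le_iff_of_nonneg hA0]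
        intro α
        exact (hv α).trans hA1
      · rw [mem_closedBall_zero_iff, pi_norm_le_iff_of_nonneg hA0]
        intro c
        rw [pi_norm_le_iff_of_nonneg hA0]
        intro β
        exact (hp c β).trans hA1)
    exact h1.trans (le_max_left _ _)

end Pool.Agent.QPE
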