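import Pool.Agent.QPE.TAY
import Pool.Agent.QPE.BAS

/-!
MODULE PHI (the maps `Φ_ξ` and their derivatives).
`Ac D u c i j x = ∂_i [y ↦ σ_c^j (y, u y)] (x)`, `Bc D u i j x = ∂_i [y ↦ b^j (y, u y)] (x)`.
Proofs.  Smoothness by composition (`val u` is smooth: `contDiff_pi`).  The derivative of `phi` is a linear
combination (`fderiv` of sums and products by constants).  Chain rule: `fderiv (f ∘ Φ)(e_i) =
fderiv f (Φ x) (fderiv Φ x e_i)` and `fderiv_eq_sum`; the `j`-th component of `fderiv Φ x e_i` is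
`pdv i (fun y => Φ y j) x`.
`phi_near`: `|Φ_ξ(x)_j - x_j| ≤ s C` when `s ≤ 1` and `|u| ≤ A`, by `base_bound` for `σ` (`base_sg`), `b` (`base_b`), with `p = 0`.
-/

namespace Pool.Agent.QPE

open scoped ContDiff BigOperators

variable {d K m : ℕ}

noncomputable def Ac (D : Dat d K m) (u : Sys d K) (c : Fin m) (i j : Fin d) (x : Fin d → ℝ) : ℝ :=
  pdv i (fun y => D.sg c j (y, val u y)) x

noncomputable def Bc (D : Dat d K m) (u : Sys d K) (i j : Fin d) (x : Fin d → ℝ) : ℝ :=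
  pdv i (fun y => D.b j (y, val u y)) x

theorem val_contDiff {u : Sys d K} (hu : Smooth u) : ContDiff ℝ ∞ (val u) := by
  exact contDiff_pi.2 fun α => hu α

private theorem sg_contDiff (D : Dat d K m) {u : Sys d K} (hu : Smooth u) (c : Fin m) (j : Fin d) :
    ContDiff ℝ ∞ (fun y => D.sg c j (y, val u y)) :=
  (D.sg_smooth c j).comp (contDiff_id.prodMk (val_contDiff hu))

private theorem bb_contDiff (D : Dat d K m) {u : Sys d K} (hu : Smooth u) (j : Fin d) :
    ContDiff ℝ ∞ (fun y => D.b j (y, val u y)) :=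
  (D.b_smooth j).comp (contDiff_id.prodMk (val_contDiff hu))

private theorem phi_comp_contDiff (D : Dat d K m) (s : ℝ) {u : Sys d K} (hu : Smooth u)
    (ξ : Fin m → Bool) (j : Fin d) : ContDiff ℝ ∞ (fun y => phi D s u ξ y j) := by
  unfold phi
  refine ContDiff.add (ContDiff.add (contDiff_apply ℝ ℝ j) ?_) ?_
  · refine contDiff_const.mul ?_
    exact ContDiff.sum fun c _ => contDiff_const.mul (sg_contDiff D hu c j)
  · exact contDiff_const.mul (bb_contDiff D hu j)

theorem phi_contDiff (D : Dat d K m) (s : ℝ) {u : Sys d K} (hu : Smooth u) (ξ : Fin m → Bool) :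
    ContDiff ℝ ∞ (phi D s u ξ) := by
  exact contDiff_pi.2 fun j => phi_comp_contDiff D s hu ξ j

theorem pdv_phi (D : Dat d K m) (s : ℝ) {u : Sys d K} (hu : Smooth u) (ξ : Fin m → Bool)
    (i j : Fin d) (x : Fin d → ℝ) :
    pdv i (fun y => phi D s u ξ y j) x
      = (if i = j then 1 else 0) + s * ∑ c, sgn (ξ c) * Ac D u c i j x
        + s ^ 2 / 2 * Bc D u i j x := by
  have h0 : HasFDerivAt (fun y : Fin d → ℝ => y j)
      (ContinuousLinearMap.proj (R := ℝ) (φ := fun _ : Fin d => ℝ) j) x :=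
    (ContinuousLinearMap.proj (R := ℝ) (φ := fun _ : Fin d => ℝ) j).hasFDerivAt
  have h1 : ∀ c, HasFDerivAt (fun y => D.sg c j (y, val u y))
      (fderiv ℝ (fun y => D.sg c j (y, val u y)) x) x := fun c =>
    ((sg_contDiff D hu c j).differentiable (by simp)).differentiableAt.hasFDerivAt
  have h2 : HasFDerivAt (fun y => D.b j (y, val u y))
      (fderiv ℝ (fun y => D.b j (y, val u y)) x) x :=
    ((bb_contDiff D hu j).differentiable (by simp)).differentiableAt.hasFDerivAt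
  have h3 : HasFDerivAt (fun y => ∑ c, sgn (ξ c) * D.sg c j (y, val u y))
      (∑ c, sgn (ξ c) • fderiv ℝ (fun y => D.sg c j (y, val u y)) x) x :=
    HasFDerivAt.fun_sum fun c _ => (h1 c).const_mul (sgn (ξ c))
  have h4 : HasFDerivAt (fun y => phi D s u ξ y j)
      (ContinuousLinearMap.proj (R := ℝ) (φ := fun _ : Fin d => ℝ) j
        + s • (∑ c, sgn (ξ c) • fderiv ℝ (fun y => D.sg c j (y, val u y)) x)
        + (s ^ 2 / 2) • fderiv ℝ (fun y => D.b j (y, val u y)) x) x :=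
    (h0.add (h3.const_mul s)).add (h2.const_mul (s ^ 2 / 2))
  unfold pdv
  rw [h4.fderiv]
  simp only [ContinuousLinearMap.add_apply, ContinuousLinearMap.smul_apply,
    ContinuousLinearMap.sum_apply, smul_eq_mul, ContinuousLinearMap.proj_apply]
  unfold Ac Bc pdv
  rw [Pi.single_apply]
  simp only [eq_comm]

theorem pdv_comp_phi (D : Dat d K m) (s : ℝ) {u : Sys d K} (hu : Smooth u) (ξ : Fin m → Bool)
    {f : (Fin d → ℝ) → ℝ} (hf : ContDiff ℝ ∞ f) (i : Fin d) (x : Fin d → ℝ) :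
    pdv i (fun y => f (phi D s u ξ y)) x
      = ∑ j, ((if i = j then 1 else 0) + s * ∑ c, sgn (ξ c) * Ac D u c i j x
        + s ^ 2 / 2 * Bc D u i j x) * pdv j f (phi D s u ξ x) := by
  have hphi : HasFDerivAt (phi D s u ξ) (fderiv ℝ (phi D s u ξ) x) x :=
    ((phi_contDiff D s hu ξ).differentiable (by simp)).differentiableAt.hasFDerivAt
  have hfd : HasFDerivAt f (fderiv ℝ f (phi D s u ξ x)) (phi D s u ξ x) :=
    (hf.differentiable (by simp)).differentiableAt.hasFDerivAt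
  have hcomp := HasFDerivAt.comp x hfd hphi
  have h1 : pdv i (fun y => f (phi D s u ξ y)) x
      = fderiv ℝ f (phi D s u ξ x) (fderiv ℝ (phi D s u ξ) x (Pi.single i 1)) := by
    unfold pdv
    have h2 : fderiv ℝ (fun y => f (phi D s u ξ y)) x
        = (fderiv ℝ f (phi D s u ξ x)).comp (fderiv ℝ (phi D s u ξ) x) := hcomp.fderiv
    rw [h2]
    rfl
  rw [h1, fderiv_eq_sum]
  refine Finset.sum_congr rfl fun j _ => ?_
  congr 1
  rw [← pdv_phi D s hu ξ i j x]
  unfold pdv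
  have h3 : HasFDerivAt (fun y => phi D s u ξ y j)
      ((ContinuousLinearMap.proj (R := ℝ) (φ := fun _ : Fin d => ℝ) j).comp
        (fderiv ℝ (phi D s u ξ) x)) x :=
    HasFDerivAt.comp x
      (ContinuousLinearMap.proj (R := ℝ) (φ := fun _ : Fin d => ℝ) j).hasFDerivAt hphi
  rw [h3.fderiv]
  rfl

theorem phi_near (D : Dat d K m) (A : ℝ) :
    ∃ C : ℝ, 0 ≤ C ∧ ∀ s : ℝ, 0 < s → s ≤ 1 → ∀ u : Sys d K, (∀ α x, |u α x| ≤ A) →
      ∀ (ξ : Fin m → Bool) x, (∑ j, |phi D s u ξ x j - x j|) ≤ C * s := by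
  choose C1 hC1 hC1' using fun c j => base_bound (base_sg D c j) (max A 0)
  choose C2 hC2 hC2' using fun j => base_bound (base_b D j) (max A 0)
  refine ⟨∑ j, ((∑ c, C1 c j) + C2 j), ?_, ?_⟩
  · exact Finset.sum_nonneg fun j _ => add_nonneg (Finset.sum_nonneg fun c _ => hC1 c j) (hC2 j)
  intro s hs hs1 u hu ξ x
  have hval : ∀ α, |val u x α| ≤ max A 0 := fun α => (hu α x).trans (le_max_left _ _)
  have hp0 : ∀ (c : Fin m) (β : Fin K), |(0 : Fin m → Fin K → ℝ) c β| ≤ max A 0 := by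
    intro c β
    simp
  rw [Finset.sum_mul]
  refine Finset.sum_le_sum fun j _ => ?_
  have e : phi D s u ξ x j - x j
      = s * (∑ c, sgn (ξ c) * D.sg c j (x, val u x)) + s ^ 2 / 2 * D.b j (x, val u x) := by
    unfold phi
    ring
  rw [e]
  have b1 : |∑ c, sgn (ξ c) * D.sg c j (x, val u x)| ≤ ∑ c, C1 c j := by
    refine (Finset.abs_sum_le_sum_abs _ _).trans (Finset.sum_le_sum fun c _ => ?_)
    rw [abs_mul]
    have h1 : |sgn (ξ c)| = 1 := by
      unfold sgn
      split <;> simp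
    rw [h1, one_mul]
    exact hC1' c j x (val u x) 0 hval hp0
  have b2 : |D.b j (x, val u x)| ≤ C2 j := hC2' j x (val u x) 0 hval hp0
  have hs2 : s ^ 2 / 2 ≤ s := by nlinarith
  calc |s * (∑ c, sgn (ξ c) * D.sg c j (x, val u x)) + s ^ 2 / 2 * D.b j (x, val u x)|
      ≤ |s * (∑ c, sgn (ξ c) * D.sg c j (x, val u x))| + |s ^ 2 / 2 * D.b j (x, val u x)| :=
        abs_add_le _ _
    _ = s * |∑ c, sgn (ξ c) * D.sg c j (x, val u x)| + s ^ 2 / 2 * |D.b j (x, val u x)| := by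
        rw [abs_mul, abs_mul, abs_of_pos hs, abs_of_nonneg (by positivity : (0 : ℝ) ≤ s ^ 2 / 2)]
    _ ≤ s * (∑ c, C1 c j) + s * C2 j := by
        refine add_le_add (mul_le_mul_of_nonneg_left b1 hs.le) ?_
        exact mul_le_mul hs2 b2 (abs_nonneg _) hs.le
    _ = ((∑ c, C1 c j) + C2 j) * s := by ring

end Pool.Agent.QPE
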