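import Pool.Agent.QPE.Def

/-!
MODULE RAD (means over sign vectors, Bessel inequality).
Proofs.  `mean_sgn`, `mean_sgn_mul`: flip the bit `c` (the involution `Function.update ξ c (!ξ c)`),
`sgn^2 = 1`, number of sign vectors `2^m`.
Bessel: with `a = mean F`, `b c = mean (sgn_c F)` and `G ξ = F ξ - a - Σ_c b c sgn (ξ c)`, expand
`0 ≤ mean (G^2)` with the orthonormality relations: `mean (G^2) = mean (F^2) - a^2 - Σ b c^2`.
-/

namespace Pool.Agent.QPE

open scoped ContDiff BigOperators

variable {d K m : ℕ}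

theorem mean_const (c : ℝ) : mean (m := m) (fun _ => c) = c := by
  unfold mean
  rw [Finset.sum_const, Finset.card_univ, Fintype.card_fun, Fintype.card_bool, Fintype.card_fin,
    nsmul_eq_mul]
  push_cast
  have : ((2 : ℝ) ^ m) ≠ 0 := by positivity
  field_simp

theorem mean_add (F G : (Fin m → Bool) → ℝ) : mean (fun ξ => F ξ + G ξ) = mean F + mean G := by
  unfold mean
  rw [Finset.sum_add_distrib, mul_add]

theorem mean_mul_left (c : ℝ) (F : (Fin m → Bool) → ℝ) : mean (fun ξ => c * F ξ) = c * mean F := by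
  unfold mean
  rw [← Finset.mul_sum]
  ring

theorem mean_sum {ι : Type} (s : Finset ι) (F : ι → (Fin m → Bool) → ℝ) :
    mean (fun ξ => ∑ i ∈ s, F i ξ) = ∑ i ∈ s, mean (F i) := by
  unfold mean
  rw [Finset.sum_comm, Finset.mul_sum]

theorem mean_mono {F G : (Fin m → Bool) → ℝ} (h : ∀ ξ, F ξ ≤ G ξ) : mean F ≤ mean G := by
  unfold mean
  exact mul_le_mul_of_nonneg_left (Finset.sum_le_sum fun ξ _ => h ξ) (by positivity)

theorem abs_mean_le {F : (Fin m → Bool) → ℝ} {B : ℝ} (h : ∀ ξ, |F ξ| ≤ B) : |mean F| ≤ B := by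
  rw [abs_le]
  constructor
  · have := mean_mono (F := fun _ => -B) (G := F) (fun ξ => (abs_le.1 (h ξ)).1)
    rwa [mean_const] at this
  · have := mean_mono (F := F) (G := fun _ => B) (fun ξ => (abs_le.1 (h ξ)).2)
    rwa [mean_const] at this

theorem sgn_sq (e : Bool) : sgn e * sgn e = 1 := by
  cases e <;> simp [sgn]

theorem abs_sgn (e : Bool) : |sgn e| = 1 := by
  cases e <;> simp [sgn]

private lemma sgn_not (e : Bool) : sgn (!e) = - sgn e := by
  cases e <;> simp [sgn]

/-- flipping one bit -/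
private def flip (c : Fin m) : (Fin m → Bool) ≃ (Fin m → Bool) where
  toFun ξ := Function.update ξ c (!ξ c)
  invFun ξ := Function.update ξ c (!ξ c)
  left_inv ξ := by
    ext j
    by_cases h : j = c
    · subst h; simp
    · simp [h]
  right_inv ξ := by
    ext j
    by_cases h : j = c
    · subst h; simp
    · simp [h]

private lemma mean_flip (c : Fin m) (F : (Fin m → Bool) → ℝ) :
    mean (fun ξ => F (flip c ξ)) = mean F := by
  unfold mean
  rw [Equiv.sum_comp (flip c) F]

theorem mean_sgn (c : Fin m) : mean (fun ξ : Fin m → Bool => sgn (ξ c)) = 0 := by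
  have h1 := mean_flip c (fun ξ : Fin m → Bool => sgn (ξ c))
  have h2 : (fun ξ : Fin m → Bool => sgn ((flip c ξ) c)) = fun ξ => (-1) * sgn (ξ c) := by
    funext ξ
    simp [flip, sgn_not]
  rw [h2, mean_mul_left] at h1
  linarith

theorem mean_sgn_mul (c c' : Fin m) :
    mean (fun ξ : Fin m → Bool => sgn (ξ c) * sgn (ξ c')) = if c = c' then 1 else 0 := by
  split_ifs with h
  · subst h
    simp only [sgn_sq]
    exact mean_const 1
  · have h1 := mean_flip c (fun ξ : Fin m → Bool => sgn (ξ c) * sgn (ξ c'))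
    have h2 : (fun ξ : Fin m → Bool => sgn ((flip c ξ) c) * sgn ((flip c ξ) c')) =
        fun ξ => (-1) * (sgn (ξ c) * sgn (ξ c')) := by
      funext ξ
      have h3 : (flip c ξ) c' = ξ c' := by
        simp [flip, Function.update_of_ne (Ne.symm h)]
      have h4 : (flip c ξ) c = !ξ c := by simp [flip]
      rw [h3, h4, sgn_not]
      ring
    rw [h2, mean_mul_left] at h1
    linarith

theorem bessel (F : (Fin m → Bool) → ℝ) :
    (mean F) ^ 2 + ∑ c, (mean fun ξ => sgn (ξ c) * F ξ) ^ 2 ≤ mean fun ξ => (F ξ) ^ 2 := by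
  set a := mean F with ha
  set b : Fin m → ℝ := fun c => mean fun ξ => sgn (ξ c) * F ξ with hb
  set S : (Fin m → Bool) → ℝ := fun ξ => ∑ c, b c * sgn (ξ c) with hS
  have hSF : mean (fun ξ => S ξ * F ξ) = ∑ c, b c ^ 2 := by
    have h1 : (fun ξ => S ξ * F ξ) = fun ξ => ∑ c, b c * (sgn (ξ c) * F ξ) := by
      funext ξ
      simp only [hS]
      rw [Finset.sum_mul]
      exact Finset.sum_congr rfl fun c _ => by ring
    rw [h1, mean_sum]
    refine Finset.sum_congr rfl fun c _ => ?_
    rw [mean_mul_left, pow_two]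
  have hS1 : mean S = 0 := by
    simp only [hS]
    rw [mean_sum]
    refine Finset.sum_eq_zero fun c _ => ?_
    rw [mean_mul_left, mean_sgn, mul_zero]
  have hSS : mean (fun ξ => S ξ * S ξ) = ∑ c, b c ^ 2 := by
    have h1 : (fun ξ => S ξ * S ξ) = fun ξ : Fin m → Bool =>
        ∑ c, ∑ c', (b c * b c') * (sgn (ξ c) * sgn (ξ c')) := by
      funext ξ
      simp only [hS]
      rw [Finset.sum_mul_sum]
      exact Finset.sum_congr rfl fun c _ => Finset.sum_congr rfl fun c' _ => by ring
    rw [h1, mean_sum]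
    refine Finset.sum_congr rfl fun c _ => ?_
    rw [mean_sum]
    simp only [mean_mul_left, mean_sgn_mul]
    simp [pow_two]
  have key : mean (fun ξ => (F ξ - a - S ξ) ^ 2) =
      mean (fun ξ => (F ξ) ^ 2) - a ^ 2 - ∑ c, b c ^ 2 := by
    have h1 : (fun ξ => (F ξ - a - S ξ) ^ 2) = fun ξ =>
        ((F ξ) ^ 2 + (-2 * a) * F ξ) + ((a ^ 2 + (-2) * (S ξ * F ξ)) +
          ((2 * a) * S ξ + S ξ * S ξ)) := by
      funext ξ; ring
    rw [h1, mean_add, mean_add, mean_add, mean_add, mean_add, mean_mul_left, mean_mul_left,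
      mean_mul_left, mean_const, hSF, hS1, hSS, ← ha]
    ring
  have h0 : 0 ≤ mean (fun ξ => (F ξ - a - S ξ) ^ 2) := by
    have := mean_mono (F := fun _ => (0 : ℝ)) (G := fun ξ => (F ξ - a - S ξ) ^ 2)
      (fun ξ => sq_nonneg _)
    rwa [mean_const] at this
  rw [key] at h0
  linarith

end Pool.Agent.QPE
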