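import Pool.Agent.QPE.TAZ
import Pool.Agent.QPE.PHI
import Pool.Agent.QPE.RAD

/-!
MODULE PCB (bounds for means and discrete derivatives).
Proofs.  `Pc c f x = s⁻¹ mean (sgn_c (f (Φ_ξ x) - f x))` because `mean sgn_c = 0`; by `taylor1` and
`phi_near`, `|f (Φ_ξ x) - f x| ≤ B Σ_j |Φ_ξ(x)_j - x_j| ≤ B C s` (if `d = 0` the left side is 0; otherwise `0 ≤ B`).
CAREFUL: `B` may be negative only if `d = 0`, then `f (Φ) = f x` and `Pc = 0`; the claim `|Pc| ≤ C B` would fail for `B < 0`, so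
the hypothesis `0 ≤ B` is included.
`E1_near`: `E1 f x - f x = mean (f (x + h_ξ) - f x - Σ_j h_ξj ∂_j f x) + Σ_j (mean h_ξj) ∂_j f x` with
`h_ξ = Φ_ξ x - x`, `mean h_ξj = s^2/2 b_j(x,u x)` (`mean_sgn`), `taylor2`, and `Σ |h_ξj| ≤ C s`.
-/

namespace Pool.Agent.QPE

open scoped ContDiff BigOperators

variable {d K m : ℕ}

private lemma PCB_h (D : Dat d K m) (s : ℝ) (u : Sys d K) (ξ : Fin m → Bool) (x : Fin d → ℝ)
    (j : Fin d) : phi D s u ξ x j - x j
      = (∑ c, (s * D.sg c j (x, val u x)) * sgn (ξ c)) + s ^ 2 / 2 * D.b j (x, val u x) := by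
  have h : (∑ c, (s * D.sg c j (x, val u x)) * sgn (ξ c))
      = s * ∑ c, sgn (ξ c) * D.sg c j (x, val u x) := by
    rw [Finset.mul_sum]
    exact Finset.sum_congr rfl fun c _ => by ring
  rw [h]
  simp only [phi]
  ring

private lemma PCB_mean_h (D : Dat d K m) (s : ℝ) (u : Sys d K) (x : Fin d → ℝ) (j : Fin d) :
    mean (fun ξ => phi D s u ξ x j - x j) = s ^ 2 / 2 * D.b j (x, val u x) := by
  simp only [PCB_h]
  rw [mean_add, mean_const, mean_sum]
  simp only [mean_mul_left, mean_sgn]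
  simp

theorem Pc_bound (D : Dat d K m) (A : ℝ) :
    ∃ C : ℝ, 0 ≤ C ∧ ∀ s : ℝ, 0 < s → s ≤ 1 → ∀ u : Sys d K, (∀ α x, |u α x| ≤ A) →
      ∀ f : (Fin d → ℝ) → ℝ, ContDiff ℝ ∞ f → ∀ B : ℝ, 0 ≤ B → (∀ j y, |pdv j f y| ≤ B) →
      ∀ (c : Fin m) x, |Pc D s u c f x| ≤ C * B := by
  obtain ⟨C, hC0, hC⟩ := phi_near D A
  refine ⟨C, hC0, ?_⟩
  intro s hs hs1 u hu f hf B hB0 hB c x
  have h1 : av D s u (fun ξ => sgn (ξ c)) f x
      = mean (fun ξ => sgn (ξ c) * (f (phi D s u ξ x) - f x)) := by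
    have h2 : (fun ξ : Fin m → Bool => sgn (ξ c) * f (phi D s u ξ x))
        = fun ξ => sgn (ξ c) * (f (phi D s u ξ x) - f x) + f x * sgn (ξ c) := by
      funext ξ
      ring
    unfold av
    rw [h2, mean_add, mean_mul_left, mean_sgn]
    ring
  have h3 : |mean (fun ξ => sgn (ξ c) * (f (phi D s u ξ x) - f x))| ≤ B * (C * s) := by
    apply abs_mean_le
    intro ξ
    rw [abs_mul, abs_sgn, one_mul]
    exact (taylor1 hf B hB x (phi D s u ξ x)).trans
      (mul_le_mul_of_nonneg_left (hC s hs hs1 u hu ξ x) hB0)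
  unfold Pc
  rw [h1, abs_mul, abs_of_pos (inv_pos.mpr hs)]
  calc s⁻¹ * |mean (fun ξ => sgn (ξ c) * (f (phi D s u ξ x) - f x))|
      ≤ s⁻¹ * (B * (C * s)) := mul_le_mul_of_nonneg_left h3 (inv_pos.mpr hs).le
    _ = C * B := by field_simp

theorem av_bound (D : Dat d K m) (s : ℝ) (u : Sys d K) (w : (Fin m → Bool) → ℝ)
    (hw : ∀ ξ, |w ξ| ≤ 1) (f : (Fin d → ℝ) → ℝ) (B : ℝ) (hB : ∀ y, |f y| ≤ B) (x : Fin d → ℝ) :
    |av D s u w f x| ≤ B := by
  unfold av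
  apply abs_mean_le
  intro ξ
  rw [abs_mul]
  calc |w ξ| * |f (phi D s u ξ x)| ≤ 1 * |f (phi D s u ξ x)| :=
        mul_le_mul_of_nonneg_right (hw ξ) (abs_nonneg _)
    _ ≤ B := by rw [one_mul]; exact hB _

theorem E1_near (D : Dat d K m) (A : ℝ) :
    ∃ C : ℝ, 0 ≤ C ∧ ∀ s : ℝ, 0 < s → s ≤ 1 → ∀ u : Sys d K, (∀ α x, |u α x| ≤ A) →
      ∀ f : (Fin d → ℝ) → ℝ, ContDiff ℝ ∞ f → ∀ B : ℝ, 0 ≤ B → (∀ j y, |pdv j f y| ≤ B) →
      (∀ i j y, |pd [i, j] f y| ≤ B) → ∀ x, |E1 D s u f x - f x| ≤ s ^ 2 / 2 * (C * B) := by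
  obtain ⟨C, hC0, hC⟩ := phi_near D A
  choose Cb hCb0 hCb using fun j => base_bound (base_b (m := m) D j) A
  refine ⟨2 * C ^ 2 + ∑ j, Cb j, by
    have := Finset.sum_nonneg (s := Finset.univ) (fun j _ => hCb0 j)
    positivity, ?_⟩
  intro s hs hs1 u hu f hf B hB0 hB hB2 x
  have hbb : ∀ j, |D.b j (x, val u x)| ≤ Cb j := by
    intro j
    refine hCb j x (val u x) (fun _ _ => 0) (fun α => hu α x) (fun c β => ?_)
    rw [abs_zero]
    exact (abs_nonneg _).trans (hu β x)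
  have h1 : E1 D s u f x - f x
      = mean (fun ξ => f (phi D s u ξ x) - f x - ∑ j, (phi D s u ξ x j - x j) * pd [j] f x)
        + ∑ j, (s ^ 2 / 2 * D.b j (x, val u x)) * pd [j] f x := by
    have h2 : (fun ξ : Fin m → Bool => (1 : ℝ) * f (phi D s u ξ x))
        = fun ξ => (f (phi D s u ξ x) - f x - ∑ j, (phi D s u ξ x j - x j) * pd [j] f x)
          + (f x + ∑ j, pd [j] f x * (phi D s u ξ x j - x j)) := by
      funext ξ
      have : (∑ j, (phi D s u ξ x j - x j) * pd [j] f x)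
          = ∑ j, pd [j] f x * (phi D s u ξ x j - x j) :=
        Finset.sum_congr rfl fun j _ => mul_comm _ _
      rw [this]
      ring
    unfold E1 av
    rw [h2, mean_add, mean_add, mean_const, mean_sum]
    simp only [mean_mul_left, PCB_mean_h]
    have : (∑ j, pd [j] f x * (s ^ 2 / 2 * D.b j (x, val u x)))
        = ∑ j, (s ^ 2 / 2 * D.b j (x, val u x)) * pd [j] f x :=
      Finset.sum_congr rfl fun j _ => mul_comm _ _
    rw [this]
    ring
  have h3 : |mean (fun ξ => f (phi D s u ξ x) - f x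
      - ∑ j, (phi D s u ξ x j - x j) * pd [j] f x)| ≤ B * (C * s) ^ 2 := by
    apply abs_mean_le
    intro ξ
    have h4 := taylor2 hf B hB2 x (fun j => phi D s u ξ x j - x j)
    have h5 : (x + fun j => phi D s u ξ x j - x j) = phi D s u ξ x := by
      funext j
      simp
    rw [h5] at h4
    refine h4.trans (mul_le_mul_of_nonneg_left ?_ hB0)
    exact pow_le_pow_left₀ (Finset.sum_nonneg fun j _ => abs_nonneg _) (hC s hs hs1 u hu ξ x) 2
  have h6 : |∑ j, (s ^ 2 / 2 * D.b j (x, val u x)) * pd [j] f x|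
      ≤ s ^ 2 / 2 * ((∑ j, Cb j) * B) := by
    refine (Finset.abs_sum_le_sum_abs _ _).trans ?_
    rw [Finset.sum_mul, Finset.mul_sum]
    apply Finset.sum_le_sum
    intro j _
    rw [abs_mul, abs_mul, abs_of_nonneg (by positivity : (0 : ℝ) ≤ s ^ 2 / 2), mul_assoc]
    refine mul_le_mul_of_nonneg_left ?_ (by positivity)
    exact mul_le_mul (hbb j) (hB j x) (abs_nonneg _) (hCb0 j)
  rw [h1]
  refine (abs_add_le _ _).trans ((add_le_add h3 h6).trans (le_of_eq ?_))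
  ring

end Pool.Agent.QPE
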