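import Pool.Agent.QPE.ADS
import Pool.Agent.QPE.PCB

/-!
MODULE BDA (bounds for admissible functionals).
Structural induction.  Prove for all `l ≥ k` under `Bd l A u` (then `mono` is immediate), w.l.o.g. `0 ≤ A` (replace by `max A 0`).
const, par: trivial (`s ≤ 1`).  base: `base_bound` with `max A (C A)`, `Pc_bound` for `f = u β` (level 1).
jet, sjet: `Bd`.  pjet: `Pc_bound` applied to `f = pd I (u α)`, `pdv j f = pd (j :: I) (u α)`, order `|I|+1`.
add, mul: sum and product of the constants.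
-/

namespace Pool.Agent.QPE

open scoped ContDiff BigOperators

variable {d K m : ℕ}

theorem adm_bound {D : Dat d K m} {k : ℕ} {Ψ : Fnl d K} (h : Adm D k Ψ) (A : ℝ) :
    ∃ C : ℝ, 0 ≤ C ∧ ∀ s : ℝ, 0 < s → s ≤ 1 → ∀ u : Sys d K, Smooth u → Bd k A u →
      ∀ x, |Ψ s u x| ≤ C := by
  induction h with
  | const c => exact ⟨|c|, abs_nonneg _, fun _ _ _ _ _ _ _ => le_rfl⟩
  | par =>
    refine ⟨1, zero_le_one, fun s hs hs1 _ _ _ _ => ?_⟩
    rw [abs_of_pos hs]
    exact hs1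
  | base g hg =>
    obtain ⟨C1, hC1, hP⟩ := Pc_bound D A
    obtain ⟨C, hC, hb⟩ := base_bound hg (max A (C1 * max A 0))
    refine ⟨C, hC, fun s hs hs1 u hu hB x => ?_⟩
    have h0 : ∀ α x, |u α x| ≤ A := fun α x => hB [] (by simp) α x
    have h1 : ∀ j β y, |pdv j (u β) y| ≤ max A 0 := fun j β y =>
      (hB [j] (by simp) β y).trans (le_max_left _ _)
    refine hb x (val u x) (fun c β => Pc D s u c (u β) x) (fun α => (h0 α x).trans (le_max_left _ _))
      (fun c β => ?_)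
    exact (hP s hs hs1 u h0 (u β) (hu β) (max A 0) (le_max_right _ _) (fun j y => h1 j β y) c x).trans
      (le_max_right _ _)
  | jet I α =>
    refine ⟨|A|, abs_nonneg _, fun s _ _ u _ hB x => ?_⟩
    exact (hB I le_rfl α x).trans (le_abs_self A)
  | sjet ξ I α =>
    refine ⟨|A|, abs_nonneg _, fun s _ _ u _ hB x => ?_⟩
    exact (hB I le_rfl α _).trans (le_abs_self A)
  | pjet c I α =>
    obtain ⟨C1, hC1, hP⟩ := Pc_bound D A
    refine ⟨C1 * |A|, mul_nonneg hC1 (abs_nonneg _), fun s hs hs1 u hu hB x => ?_⟩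
    have h0 : ∀ α x, |u α x| ≤ A := fun α x => hB [] (by simp) α x
    refine hP s hs hs1 u h0 (pd I (u α)) (pd_contDiff (hu α) I) |A| (abs_nonneg _) (fun j y => ?_) c x
    exact (hB (j :: I) (by simp) α y).trans (le_abs_self A)
  | add _ _ ih1 ih2 =>
    obtain ⟨C1, hC1, h1⟩ := ih1
    obtain ⟨C2, hC2, h2⟩ := ih2
    refine ⟨C1 + C2, add_nonneg hC1 hC2, fun s hs hs1 u hu hB x => ?_⟩
    exact (abs_add_le _ _).trans (add_le_add (h1 s hs hs1 u hu hB x) (h2 s hs hs1 u hu hB x))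
  | mul _ _ ih1 ih2 =>
    obtain ⟨C1, hC1, h1⟩ := ih1
    obtain ⟨C2, hC2, h2⟩ := ih2
    refine ⟨C1 * C2, mul_nonneg hC1 hC2, fun s hs hs1 u hu hB x => ?_⟩
    rw [abs_mul]
    exact mul_le_mul (h1 s hs hs1 u hu hB x) (h2 s hs hs1 u hu hB x) (abs_nonneg _) hC1
  | mono hkl _ ih =>
    obtain ⟨C1, hC1, h1⟩ := ih
    exact ⟨C1, hC1, fun s hs hs1 u hu hB x =>
      h1 s hs hs1 u hu (fun I hI α x => hB I (hI.trans hkl) α x) x⟩

end Pool.Agent.QPE
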