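import Pool.Agent.QPE.BDA
import Pool.Agent.QPE.PHA

/-!
MODULE BDB (bounds for the first derivatives of admissible functionals: affine in the top order).
Structural induction, for all `l ≥ k`, `1 ≤ l`, under `Bd l A u` and `Lv (l+1) B u`; w.l.o.g. `0 ≤ A`.  Derivatives
of order `≤ l` are bounded by `A`, those of order `l+1` by `B`, so those of order `≤ l+1` by `max A B ≤ (1+A)(1+B)`.
Formulas: base: `base_chain` (with `v = u`, `p c β = Pc D s u c (u β)`), sjet: `pdv_comp_phi`, pjet: `pdv_Pc`; `Ac`, `Bc` are bounded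
because they are admissible of level `1 ≤ l` (`Ac_adm`, `adm_bound`); `Pc c (pd (i::I) (u α))` with `|I| + 1 ≤ k ≤ l` is bounded by
`C * (bound of order |I|+2 ≤ l+1)` (`Pc_bound`); weighted means by `av_bound`; base functions at `arg` by `adm_bound` for `Adm.base`.
Leibniz rule for `mul`: one factor bounded by `C` (`adm_bound`), the derivative of the other by `C (1+B)`.
-/

namespace Pool.Agent.QPE

open scoped ContDiff BigOperators

variable {d K m : ℕ}

private theorem bdb_coef (D : Dat d K m) (A : ℝ) (i : Fin d) :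
    ∃ C : ℝ, 0 ≤ C ∧ ∀ s : ℝ, 0 < s → s ≤ 1 → ∀ u : Sys d K, Smooth u → Bd 1 A u →
      ∀ x j, (∀ c, |Ac D u c i j x| ≤ C) ∧ |Bc D u i j x| ≤ C := by
  have hA : ∀ (c : Fin m) (j : Fin d), ∃ C : ℝ, 0 ≤ C ∧ ∀ s : ℝ, 0 < s → s ≤ 1 →
      ∀ u : Sys d K, Smooth u → Bd 1 A u → ∀ x, |Ac D u c i j x| ≤ C := by
    intro c j
    obtain ⟨Ψ, hΨ, hE⟩ := Ac_adm D c i j
    obtain ⟨C, hC, hb⟩ := adm_bound hΨ A
    refine ⟨C, hC, fun s hs hs1 u hu hB x => ?_⟩
    rw [hE s u hu x]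
    exact hb s hs hs1 u hu hB x
  have hB : ∀ (j : Fin d), ∃ C : ℝ, 0 ≤ C ∧ ∀ s : ℝ, 0 < s → s ≤ 1 →
      ∀ u : Sys d K, Smooth u → Bd 1 A u → ∀ x, |Bc D u i j x| ≤ C := by
    intro j
    obtain ⟨Ψ, hΨ, hE⟩ := Bc_adm D i j
    obtain ⟨C, hC, hb⟩ := adm_bound hΨ A
    refine ⟨C, hC, fun s hs hs1 u hu hB x => ?_⟩
    rw [hE s u hu x]
    exact hb s hs hs1 u hu hB x
  choose CA hCA hA' using hA
  choose CB hCB hB' using hB
  have hs1 : 0 ≤ ∑ c, ∑ j, CA c j :=
    Finset.sum_nonneg fun c _ => Finset.sum_nonneg fun j _ => hCA c j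
  have hs2 : 0 ≤ ∑ j, CB j := Finset.sum_nonneg fun j _ => hCB j
  refine ⟨(∑ c, ∑ j, CA c j) + ∑ j, CB j, add_nonneg hs1 hs2, ?_⟩
  intro s hs hs' u hu hBd x j
  constructor
  · intro c
    have h1 : CA c j ≤ ∑ j, CA c j :=
      Finset.single_le_sum (f := fun j => CA c j) (fun j _ => hCA c j) (Finset.mem_univ j)
    have h2 : ∑ j, CA c j ≤ ∑ c, ∑ j, CA c j :=
      Finset.single_le_sum (f := fun c => ∑ j, CA c j)
        (fun c _ => Finset.sum_nonneg fun j _ => hCA c j) (Finset.mem_univ c)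
    have := hA' c j s hs hs' u hu hBd x
    linarith
  · have h1 : CB j ≤ ∑ j, CB j :=
      Finset.single_le_sum (f := fun j => CB j) (fun j _ => hCB j) (Finset.mem_univ j)
    have := hB' j s hs hs' u hu hBd x
    linarith

/-- derivatives of order at most `l+1` are bounded by `|A| + B` -/
private theorem bdb_top {l : ℕ} {A B : ℝ} {u : Sys d K} (hA : Bd l A u) (hB0 : 0 ≤ B)
    (hB : Lv (l + 1) B u) (I : List (Fin d)) (hI : I.length ≤ l + 1) (α : Fin K)
    (x : Fin d → ℝ) : |pd I (u α) x| ≤ |A| + B := by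
  rcases Nat.lt_or_ge I.length (l + 1) with h | h
  · have := hA I (Nat.lt_succ_iff.1 h) α x
    have h2 := le_abs_self A
    linarith
  · have := hB I (le_antisymm hI h) α x
    have h2 := abs_nonneg A
    linarith

private theorem bdb_pc (D : Dat d K m) (A : ℝ) (i : Fin d) :
    ∃ C : ℝ, 0 ≤ C ∧ ∀ l : ℕ, 1 ≤ l → ∀ s : ℝ, 0 < s → s ≤ 1 → ∀ u : Sys d K, Smooth u →
      Bd l A u → ∀ B : ℝ, 0 ≤ B → Lv (l + 1) B u → ∀ (I : List (Fin d)), I.length + 1 ≤ l →
      ∀ (α : Fin K) (c : Fin m) x, |pdv i (Pc D s u c (pd I (u α))) x| ≤ C * (1 + B) := by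
  obtain ⟨C0, hC0, hcoef⟩ := bdb_coef D A i
  obtain ⟨C1, hC1, hP⟩ := Pc_bound D A
  refine ⟨C1 * (|A| + 1) + (d * (m * (C0 * |A|)) + d * (C0 * (C1 * (|A| + 1)))), by positivity, ?_⟩
  intro l hl s hs hs1 u hu hBd B hB0 hLv I hI α c x
  have hA0 := abs_nonneg A
  have hBd1 : Bd 1 A u := fun J hJ β y => hBd J (hJ.trans hl) β y
  have h0 : ∀ β y, |u β y| ≤ A := fun β y => hBd [] (by simp) β y
  have htop := bdb_top hBd hB0 hLv
  have hPc : ∀ j : Fin d, |Pc D s u c (pdv j (pd I (u α))) x| ≤ C1 * ((|A| + 1) * (1 + B)) := by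
    intro j
    have h1 := hP s hs hs1 u h0 (pdv j (pd I (u α))) (pd_contDiff (hu α) (j :: I)) (|A| + B)
      (by positivity) (fun j' y => htop (j' :: j :: I) (by simp; omega) α y) c x
    refine h1.trans (mul_le_mul_of_nonneg_left ?_ hC1)
    nlinarith [mul_nonneg hA0 hB0]
  have hav : ∀ (j : Fin d) (c' : Fin m),
      |av D s u (fun ξ => sgn (ξ c) * sgn (ξ c')) (pdv j (pd I (u α))) x| ≤ |A| := by
    intro j c'
    refine av_bound D s u _ (fun ξ => ?_) _ |A| (fun y => ?_) x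
    · rw [abs_mul, abs_sgn, abs_sgn, one_mul]
    · exact (hBd (j :: I) (by simpa using hI) α y).trans (le_abs_self A)
  rw [pdv_Pc D (ne_of_gt hs) hu c (pd_contDiff (hu α) I) i x]
  have hS2 : |∑ j, ∑ c', Ac D u c' i j x
      * av D s u (fun ξ => sgn (ξ c) * sgn (ξ c')) (pdv j (pd I (u α))) x|
      ≤ d * (m * (C0 * |A|)) := by
    calc _ ≤ ∑ j : Fin d, |∑ c', Ac D u c' i j x
          * av D s u (fun ξ => sgn (ξ c) * sgn (ξ c')) (pdv j (pd I (u α))) x| :=
          Finset.abs_sum_le_sum_abs _ _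
      _ ≤ ∑ _j : Fin d, (m * (C0 * |A|)) := by
          refine Finset.sum_le_sum fun j _ => ?_
          calc _ ≤ ∑ c' : Fin m, |Ac D u c' i j x
                * av D s u (fun ξ => sgn (ξ c) * sgn (ξ c')) (pdv j (pd I (u α))) x| :=
                Finset.abs_sum_le_sum_abs _ _
            _ ≤ ∑ _c' : Fin m, (C0 * |A|) := by
                refine Finset.sum_le_sum fun c' _ => ?_
                rw [abs_mul]
                exact mul_le_mul ((hcoef s hs hs1 u hu hBd1 x j).1 c') (hav j c')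
                  (abs_nonneg _) hC0
            _ = m * (C0 * |A|) := by simp
      _ = d * (m * (C0 * |A|)) := by simp
  have hS3 : |∑ j, Bc D u i j x * Pc D s u c (pdv j (pd I (u α))) x|
      ≤ d * (C0 * (C1 * ((|A| + 1) * (1 + B)))) := by
    calc _ ≤ ∑ j : Fin d, |Bc D u i j x * Pc D s u c (pdv j (pd I (u α))) x| :=
          Finset.abs_sum_le_sum_abs _ _
      _ ≤ ∑ _j : Fin d, (C0 * (C1 * ((|A| + 1) * (1 + B)))) := by
          refine Finset.sum_le_sum fun j _ => ?_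
          rw [abs_mul]
          exact mul_le_mul (hcoef s hs hs1 u hu hBd1 x j).2 (hPc j) (abs_nonneg _) hC0
      _ = d * (C0 * (C1 * ((|A| + 1) * (1 + B)))) := by simp
  have hs2 : |s ^ 2 / 2 * ∑ j, Bc D u i j x * Pc D s u c (pdv j (pd I (u α))) x|
      ≤ d * (C0 * (C1 * ((|A| + 1) * (1 + B)))) := by
    rw [abs_mul]
    have h1 : |s ^ 2 / 2| ≤ 1 := by
      rw [abs_of_nonneg (by positivity)]
      nlinarith
    calc _ ≤ 1 * (d * (C0 * (C1 * ((|A| + 1) * (1 + B))))) :=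
          mul_le_mul h1 hS3 (abs_nonneg _) zero_le_one
      _ = _ := one_mul _
  have hS2' : d * (m * (C0 * |A|)) ≤ (d * (m * (C0 * |A|))) * (1 + B) := by
    have : (0 : ℝ) ≤ d * (m * (C0 * |A|)) := by positivity
    nlinarith
  have hP1 := hPc i
  calc _ ≤ |Pc D s u c (pdv i (pd I (u α))) x| + |∑ j, ∑ c', Ac D u c' i j x
          * av D s u (fun ξ => sgn (ξ c) * sgn (ξ c')) (pdv j (pd I (u α))) x|
          + |s ^ 2 / 2 * ∑ j, Bc D u i j x * Pc D s u c (pdv j (pd I (u α))) x| := abs_add_three _ _ _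
    _ ≤ C1 * ((|A| + 1) * (1 + B)) + (d * (m * (C0 * |A|))) * (1 + B)
          + d * (C0 * (C1 * ((|A| + 1) * (1 + B)))) := by linarith
    _ = _ := by ring

private theorem bdb_sj (D : Dat d K m) (A : ℝ) (i : Fin d) :
    ∃ C : ℝ, 0 ≤ C ∧ ∀ l : ℕ, 1 ≤ l → ∀ s : ℝ, 0 < s → s ≤ 1 → ∀ u : Sys d K, Smooth u →
      Bd l A u → ∀ B : ℝ, 0 ≤ B → Lv (l + 1) B u → ∀ (I : List (Fin d)), I.length ≤ l →
      ∀ (α : Fin K) (ξ : Fin m → Bool) x,
        |pdv i (fun y => pd I (u α) (phi D s u ξ y)) x| ≤ C * (1 + B) := by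
  obtain ⟨C0, hC0, hcoef⟩ := bdb_coef D A i
  refine ⟨d * ((1 + m * C0 + C0) * (|A| + 1)), by positivity, ?_⟩
  intro l hl s hs hs1 u hu hBd B hB0 hLv I hI α ξ x
  have hA0 := abs_nonneg A
  have hBd1 : Bd 1 A u := fun J hJ β y => hBd J (hJ.trans hl) β y
  have htop := bdb_top hBd hB0 hLv
  rw [pdv_comp_phi D s hu ξ (pd_contDiff (hu α) I) i x]
  calc _ ≤ ∑ j : Fin d, |((if i = j then 1 else 0) + s * ∑ c, sgn (ξ c) * Ac D u c i j x
        + s ^ 2 / 2 * Bc D u i j x) * pdv j (pd I (u α)) (phi D s u ξ x)| :=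
        Finset.abs_sum_le_sum_abs _ _
    _ ≤ ∑ _j : Fin d, ((1 + m * C0 + C0) * ((|A| + 1) * (1 + B))) := by
        refine Finset.sum_le_sum fun j _ => ?_
        rw [abs_mul]
        refine mul_le_mul ?_ ?_ (abs_nonneg _) (by positivity)
        · have e1 : |(if i = j then (1 : ℝ) else 0)| ≤ 1 := by split_ifs <;> simp
          have e2 : |s * ∑ c, sgn (ξ c) * Ac D u c i j x| ≤ m * C0 := by
            rw [abs_mul]
            have h1 : |∑ c, sgn (ξ c) * Ac D u c i j x| ≤ m * C0 := by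
              calc _ ≤ ∑ c : Fin m, |sgn (ξ c) * Ac D u c i j x| :=
                    Finset.abs_sum_le_sum_abs _ _
                _ ≤ ∑ _c : Fin m, C0 := by
                    refine Finset.sum_le_sum fun c _ => ?_
                    rw [abs_mul, abs_sgn, one_mul]
                    exact (hcoef s hs hs1 u hu hBd1 x j).1 c
                _ = m * C0 := by simp
            calc _ ≤ 1 * (m * C0) := mul_le_mul (by rw [abs_of_pos hs]; exact hs1) h1
                  (abs_nonneg _) zero_le_one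
              _ = _ := one_mul _
          have e3 : |s ^ 2 / 2 * Bc D u i j x| ≤ C0 := by
            rw [abs_mul]
            have h1 : |s ^ 2 / 2| ≤ 1 := by
              rw [abs_of_nonneg (by positivity)]
              nlinarith
            calc _ ≤ 1 * C0 := mul_le_mul h1 (hcoef s hs hs1 u hu hBd1 x j).2
                  (abs_nonneg _) zero_le_one
              _ = _ := one_mul _
          have e4 := abs_add_three (if i = j then (1 : ℝ) else 0)
            (s * ∑ c, sgn (ξ c) * Ac D u c i j x) (s ^ 2 / 2 * Bc D u i j x)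
          linarith
        · have h1 := htop (j :: I) (by simpa using hI) α (phi D s u ξ x)
          refine h1.trans ?_
          nlinarith [mul_nonneg hA0 hB0]
    _ = d * ((1 + m * C0 + C0) * ((|A| + 1) * (1 + B))) := by simp
    _ = _ := by ring

private theorem bdb_main {D : Dat d K m} {k : ℕ} {Ψ : Fnl d K} (h : Adm D k Ψ) (i : Fin d)
    (A : ℝ) : ∀ l : ℕ, k ≤ l → 1 ≤ l →
    ∃ C : ℝ, 0 ≤ C ∧ ∀ s : ℝ, 0 < s → s ≤ 1 → ∀ u : Sys d K, Smooth u → Bd l A u →
      ∀ B : ℝ, 0 ≤ B → Lv (l + 1) B u → ∀ x, |pdv i (Ψ s u) x| ≤ C * (1 + B) := by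
  induction h with
  | const c =>
    intro l _ _
    refine ⟨0, le_rfl, fun s _ _ u _ _ B hB0 _ x => ?_⟩
    simp [pdv]
  | par =>
    intro l _ _
    refine ⟨0, le_rfl, fun s _ _ u _ _ B hB0 _ x => ?_⟩
    simp [pdv]
  | base g hg =>
    intro l _ hl
    obtain ⟨Cx, hCx, hx⟩ := adm_bound (Adm.base (gx i g) (base_gx hg i)) A
    have hv : ∀ α : Fin K, ∃ C : ℝ, 0 ≤ C ∧ ∀ s : ℝ, 0 < s → s ≤ 1 → ∀ u : Sys d K, Smooth u →
        Bd 1 A u → ∀ x, |gv α g (arg D s u x)| ≤ C := fun α =>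
      adm_bound (Adm.base (gv α g) (base_gv hg α)) A
    have hp : ∀ (c : Fin m) (β : Fin K), ∃ C : ℝ, 0 ≤ C ∧ ∀ s : ℝ, 0 < s → s ≤ 1 →
        ∀ u : Sys d K, Smooth u → Bd 1 A u → ∀ x, |gp c β g (arg D s u x)| ≤ C := fun c β =>
      adm_bound (Adm.base (gp c β g) (base_gp hg c β)) A
    choose Cv hCv hv' using hv
    choose Cp hCp hp' using hp
    obtain ⟨C1, hC1, hpc⟩ := bdb_pc D A i
    have hn1 : 0 ≤ ∑ α, Cv α * |A| :=
      Finset.sum_nonneg fun α _ => mul_nonneg (hCv α) (abs_nonneg A)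
    have hn2 : 0 ≤ ∑ c, ∑ β, Cp c β * C1 :=
      Finset.sum_nonneg fun c _ => Finset.sum_nonneg fun β _ => mul_nonneg (hCp c β) hC1
    refine ⟨Cx + (∑ α, Cv α * |A|) + ∑ c, ∑ β, Cp c β * C1, by positivity, ?_⟩
    intro s hs hs1 u hu hBd B hB0 hLv x
    have hBd1 : Bd 1 A u := fun J hJ β y => hBd J (hJ.trans hl) β y
    have hch := base_chain hg.smooth u (fun c β => Pc D s u c (u β)) x
      (fun α => ((hu α).differentiable (by simp)).differentiableAt)
      (fun c β => ((Pc_contDiff D s hu c (hu β)).differentiable (by simp)).differentiableAt) i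
    have hch' : pdv i (fun y => g (arg D s u y)) x
        = gx i g (arg D s u x) + (∑ α, gv α g (arg D s u x) * pdv i (u α) x)
          + ∑ c, ∑ β, gp c β g (arg D s u x) * pdv i (Pc D s u c (u β)) x := hch
    rw [hch']
    have t1 := hx s hs hs1 u hu hBd1 x
    have t2 : |∑ α, gv α g (arg D s u x) * pdv i (u α) x| ≤ ∑ α, Cv α * |A| := by
      refine (Finset.abs_sum_le_sum_abs _ _).trans (Finset.sum_le_sum fun α _ => ?_)
      rw [abs_mul]
      exact mul_le_mul (hv' α s hs hs1 u hu hBd1 x)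
        ((hBd1 [i] (by simp) α x).trans (le_abs_self A)) (abs_nonneg _) (hCv α)
    have t3 : |∑ c, ∑ β, gp c β g (arg D s u x) * pdv i (Pc D s u c (u β)) x|
        ≤ (∑ c, ∑ β, Cp c β * C1) * (1 + B) := by
      rw [Finset.sum_mul]
      refine (Finset.abs_sum_le_sum_abs _ _).trans (Finset.sum_le_sum fun c _ => ?_)
      rw [Finset.sum_mul]
      refine (Finset.abs_sum_le_sum_abs _ _).trans (Finset.sum_le_sum fun β _ => ?_)
      rw [abs_mul, mul_assoc]
      exact mul_le_mul (hp' c β s hs hs1 u hu hBd1 x)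
        (hpc l hl s hs hs1 u hu hBd B hB0 hLv [] (by simpa using hl) β c x) (abs_nonneg _) (hCp c β)
    have t4 := abs_add_three (gx i g (arg D s u x)) (∑ α, gv α g (arg D s u x) * pdv i (u α) x)
      (∑ c, ∑ β, gp c β g (arg D s u x) * pdv i (Pc D s u c (u β)) x)
    have t5 : 0 ≤ Cx * B := mul_nonneg hCx hB0
    have t6 : 0 ≤ (∑ α, Cv α * |A|) * B := mul_nonneg hn1 hB0
    nlinarith
  | jet I α =>
    intro l hk hl
    refine ⟨|A| + 1, by positivity, fun s _ _ u _ hBd B hB0 hLv x => ?_⟩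
    have h1 := bdb_top hBd hB0 hLv (i :: I) (by simpa using hk) α x
    refine h1.trans ?_
    nlinarith [mul_nonneg (abs_nonneg A) hB0]
  | sjet ξ I α =>
    intro l hk hl
    obtain ⟨C, hC, hb⟩ := bdb_sj D A i
    exact ⟨C, hC, fun s hs hs1 u hu hBd B hB0 hLv x =>
      hb l hl s hs hs1 u hu hBd B hB0 hLv I hk α ξ x⟩
  | pjet c I α =>
    intro l hk hl
    obtain ⟨C, hC, hb⟩ := bdb_pc D A i
    exact ⟨C, hC, fun s hs hs1 u hu hBd B hB0 hLv x =>
      hb l hl s hs hs1 u hu hBd B hB0 hLv I hk α c x⟩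
  | add h1 h2 ih1 ih2 =>
    intro l hk hl
    obtain ⟨C1, hC1, b1⟩ := ih1 l hk hl
    obtain ⟨C2, hC2, b2⟩ := ih2 l hk hl
    refine ⟨C1 + C2, add_nonneg hC1 hC2, fun s hs hs1 u hu hBd B hB0 hLv x => ?_⟩
    have d1 := ((adm_contDiff h1 s hu).differentiable (by simp)).differentiableAt (x := x)
    have d2 := ((adm_contDiff h2 s hu).differentiable (by simp)).differentiableAt (x := x)
    have e : ∀ F G : (Fin d → ℝ) → ℝ, DifferentiableAt ℝ F x → DifferentiableAt ℝ G x →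
        pdv i (fun y => F y + G y) x = pdv i F x + pdv i G x := by
      intro F G hF hG
      unfold pdv
      rw [fderiv_fun_add hF hG]
      rfl
    rw [e _ _ d1 d2]
    refine (abs_add_le _ _).trans ?_
    have q1 := b1 s hs hs1 u hu hBd B hB0 hLv x
    have q2 := b2 s hs hs1 u hu hBd B hB0 hLv x
    calc _ ≤ C1 * (1 + B) + C2 * (1 + B) := add_le_add q1 q2
      _ = _ := by ring
  | mul h1 h2 ih1 ih2 =>
    intro l hk hl
    obtain ⟨C1, hC1, b1⟩ := ih1 l hk hl
    obtain ⟨C2, hC2, b2⟩ := ih2 l hk hl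
    obtain ⟨M1, hM1, m1⟩ := adm_bound (Adm.mono hk h1) A
    obtain ⟨M2, hM2, m2⟩ := adm_bound (Adm.mono hk h2) A
    refine ⟨M1 * C2 + M2 * C1, by positivity, fun s hs hs1 u hu hBd B hB0 hLv x => ?_⟩
    have d1 := ((adm_contDiff h1 s hu).differentiable (by simp)).differentiableAt (x := x)
    have d2 := ((adm_contDiff h2 s hu).differentiable (by simp)).differentiableAt (x := x)
    have e : ∀ F G : (Fin d → ℝ) → ℝ, DifferentiableAt ℝ F x → DifferentiableAt ℝ G x →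
        pdv i (fun y => F y * G y) x = F x * pdv i G x + G x * pdv i F x := by
      intro F G hF hG
      unfold pdv
      rw [fderiv_fun_mul hF hG]
      rfl
    rw [e _ _ d1 d2]
    refine (abs_add_le _ _).trans ?_
    rw [abs_mul, abs_mul]
    have q1 := b1 s hs hs1 u hu hBd B hB0 hLv x
    have q2 := b2 s hs hs1 u hu hBd B hB0 hLv x
    calc _ ≤ M1 * (C2 * (1 + B)) + M2 * (C1 * (1 + B)) :=
          add_le_add (mul_le_mul (m1 s hs hs1 u hu hBd x) q2 (abs_nonneg _) hM1)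
            (mul_le_mul (m2 s hs hs1 u hu hBd x) q1 (abs_nonneg _) hM2)
      _ = _ := by ring
  | mono hkl _ ih =>
    intro l hk hl
    exact ih l (hkl.trans hk) hl

theorem adm_pdv_bound {D : Dat d K m} {k : ℕ} {Ψ : Fnl d K} (h : Adm D k Ψ) (hk : 1 ≤ k)
    (i : Fin d) (A : ℝ) :
    ∃ C : ℝ, 0 ≤ C ∧ ∀ s : ℝ, 0 < s → s ≤ 1 → ∀ u : Sys d K, Smooth u → Bd k A u →
      ∀ B : ℝ, 0 ≤ B → Lv (k + 1) B u → ∀ x, |pdv i (Ψ s u) x| ≤ C * (1 + B) := by
  exact bdb_main h i A k le_rfl hk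

end Pool.Agent.QPE
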