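import Pool.Agent.QPE.STR

/-!
MODULE STL (one step changes every derivative by O(s^2)).
`I = []`: `step - u = (E1 u_α - u_α) + s^2/2 Q(arg)`: `E1_near` (orders 1, 2), `adm_bound` for `Adm.base Q` (`base_Q`).
`|I| = k ≥ 1`: `form_exists`, `E1_near` for `f = pd I (u α)` (orders `k+1`, `k+2`), `adm_bound` for `R` (level `k`) and `F` (level 1),
`Pc_bound` (order `k+1`).  w.l.o.g. `0 ≤ A`.
-/

namespace Pool.Agent.QPE

open scoped ContDiff BigOperators

variable {d K m : ℕ}

private theorem stl_core (D : Dat d K m) (I : List (Fin d)) (A : ℝ) (hA : 0 ≤ A) (α : Fin K) :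
    ∃ C : ℝ, 0 ≤ C ∧ ∀ s : ℝ, 0 < s → s ≤ 1 → ∀ u : Sys d K, Smooth u → Bd (I.length + 2) A u →
      ∀ x, |pd I (step D s u α) x - pd I (u α) x| ≤ s ^ 2 / 2 * C := by
  obtain ⟨C1, hC10, hC1⟩ := E1_near D A
  have hE : ∀ s : ℝ, 0 < s → s ≤ 1 → ∀ u : Sys d K, Smooth u → Bd (I.length + 2) A u →
      ∀ x, |E1 D s u (pd I (u α)) x - pd I (u α) x| ≤ s ^ 2 / 2 * (C1 * A) := by
    intro s hs hs1 u hu hb x
    refine hC1 s hs hs1 u (fun α x => hb [] (by simp) α x) (pd I (u α)) (pd_contDiff (hu α) I) A hA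
      (fun j y => hb (j :: I) (by simp) α y) (fun i j y => hb (i :: j :: I) (by simp) α y) x
  rcases Nat.eq_zero_or_pos I.length with hI | hI
  · have hI0 : I = [] := List.length_eq_zero_iff.1 hI
    subst hI0
    obtain ⟨C2, hC20, hC2⟩ := adm_bound (D := D) (Adm.base (D.Q α) (base_Q D α)) A
    refine ⟨C1 * A + C2, by positivity, ?_⟩
    intro s hs hs1 u hu hb x
    have h1 := hE s hs hs1 u hu hb x
    have h2 := hC2 s hs hs1 u hu (fun J hJ => hb J (by omega)) x
    have e : pd [] (step D s u α) x - pd [] (u α) x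
        = (E1 D s u (pd [] (u α)) x - pd [] (u α) x) + s ^ 2 / 2 * D.Q α (arg D s u x) := by
      change E1 D s u (u α) x + s ^ 2 / 2 * D.Q α (arg D s u x) - u α x
        = (E1 D s u (u α) x - u α x) + s ^ 2 / 2 * D.Q α (arg D s u x)
      ring
    rw [e]
    refine (abs_add_le _ _).trans ?_
    have hs2 : 0 ≤ s ^ 2 / 2 := by positivity
    rw [abs_mul, abs_of_nonneg hs2]
    have := mul_le_mul_of_nonneg_left h2 hs2
    nlinarith
  · obtain ⟨R, F, hR, hF, _, hid⟩ := form_exists D I.length hI I rfl α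
    obtain ⟨CR, hCR0, hCR⟩ := adm_bound hR A
    choose CF hCF0 hCF using fun c J β => adm_bound (hF c J β) A
    obtain ⟨CP, hCP0, hCP⟩ := Pc_bound D A
    have hsum0 : 0 ≤ ∑ c, ∑ J, ∑ β, CF c J β * (CP * A) :=
      Finset.sum_nonneg fun c _ => Finset.sum_nonneg fun J _ => Finset.sum_nonneg fun β _ =>
        mul_nonneg (hCF0 c J β) (mul_nonneg hCP0 hA)
    refine ⟨C1 * A + (CR + ∑ c, ∑ J, ∑ β, CF c J β * (CP * A)), by positivity, ?_⟩
    intro s hs hs1 u hu hb x
    have h1 := hE s hs hs1 u hu hb x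
    have h2 := hCR s hs hs1 u hu (fun J hJ => hb J (by omega)) x
    have h3 : |∑ c, ∑ J, ∑ β, F c J β s u x * Pc D s u c (pd (List.ofFn J) (u β)) x|
        ≤ ∑ c, ∑ J, ∑ β, CF c J β * (CP * A) := by
      refine (Finset.abs_sum_le_sum_abs _ _).trans (Finset.sum_le_sum fun c _ => ?_)
      refine (Finset.abs_sum_le_sum_abs _ _).trans (Finset.sum_le_sum fun J _ => ?_)
      refine (Finset.abs_sum_le_sum_abs _ _).trans (Finset.sum_le_sum fun β _ => ?_)
      rw [abs_mul]
      refine mul_le_mul (hCF c J β s hs hs1 u hu (fun J hJ => hb J (by omega)) x) ?_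
        (abs_nonneg _) (hCF0 c J β)
      refine hCP s hs hs1 u (fun α x => hb [] (by simp) α x) _ (pd_contDiff (hu β) _) A hA
        (fun j y => hb (j :: List.ofFn J) ?_ β y) c x
      rw [List.length_cons, List.length_ofFn]
      omega
    have e := hid s hs.ne' u hu x
    rw [e]
    have e2 : E1 D s u (pd I (u α)) x + s ^ 2 / 2 * (R s u x
        + ∑ c, ∑ J, ∑ β, F c J β s u x * Pc D s u c (pd (List.ofFn J) (u β)) x) - pd I (u α) x
        = (E1 D s u (pd I (u α)) x - pd I (u α) x) + s ^ 2 / 2 * (R s u x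
        + ∑ c, ∑ J, ∑ β, F c J β s u x * Pc D s u c (pd (List.ofFn J) (u β)) x) := by ring
    rw [e2]
    refine (abs_add_le _ _).trans ?_
    have hs2 : 0 ≤ s ^ 2 / 2 := by positivity
    rw [abs_mul, abs_of_nonneg hs2]
    have h4 := (abs_add_le (R s u x)
      (∑ c, ∑ J, ∑ β, F c J β s u x * Pc D s u c (pd (List.ofFn J) (u β)) x)).trans
      (add_le_add h2 h3)
    have := mul_le_mul_of_nonneg_left h4 hs2
    nlinarith

theorem step_lip (D : Dat d K m) (I : List (Fin d)) (A : ℝ) :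
    ∃ C : ℝ, 0 ≤ C ∧ ∀ s : ℝ, 0 < s → s ≤ 1 → ∀ u : Sys d K, Smooth u → Bd (I.length + 2) A u →
      ∀ α x, |pd I (step D s u α) x - pd I (u α) x| ≤ s ^ 2 / 2 * C := by
  choose C hC0 hC using fun α => stl_core D I (max A 0) (le_max_right _ _) α
  refine ⟨∑ α, C α, Finset.sum_nonneg fun α _ => hC0 α, ?_⟩
  intro s hs hs1 u hu hb α x
  refine (hC α s hs hs1 u hu (fun J hJ β y => (hb J hJ β y).trans (le_max_left _ _)) x).trans ?_
  refine mul_le_mul_of_nonneg_left ?_ (by positivity)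
  exact Finset.single_le_sum (f := C) (fun β _ => hC0 β) (Finset.mem_univ α)

end Pool.Agent.QPE
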