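import Pool.Agent.QPE.GRW
import Pool.Agent.QPE.STL

/-!
MODULE BOT (uniform bounds for the orders 0, 1, 2 on a common time interval).
Proof.  Let `A0 ≥ 0` bound all derivatives of order `≤ 2` of `u0` (finitely many lists of length `≤ 2`, `List.finite_length_le`;
maximum or sum of the constants of `hb`), `S k = n_k A0^2` (`en_le_of_Lv`) for `k = 1, 2`, so
`en k u0 x ≤ S k`.  `A := max (A0 + 1) (sqrt (max (S 1) (S 2) + 1))`.  Constants `C`: maximum of those of `grow D 1`,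
`grow D 2` (`max (k-1) 2 = 2`), `step_lip D []` for this `A`; `s0` the minimum.  Choose `T > 0` with `T C ≤ δ` and `T C (2 + max (S 1) (S 2)) ≤ 1`.
Induction on `n` with `n s^2/2 ≤ T`: `Smooth (iter n)` (`step_smooth`), `|iter n α x - u0 α x| ≤ n s^2/2 C`,
`en k (iter n) x ≤ S k + n s^2/2 C (2 + S k)` for `k = 1, 2` (this is `≤ S k + 1`, so `C (1 + that) ≤ C (2 + S k)`).
Derivatives of order `k = 1, 2` are `≤ sqrt (S k + 1) ≤ A` (`abs_le_sqrt_en`); order 0: `≤ A0 + δ ≤ A`.  Hence `Bd 2 A (iter n)`.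
-/

namespace Pool.Agent.QPE

open scoped ContDiff BigOperators

variable {d K m : ℕ}

/-- the iterates of the scheme -/
noncomputable def iter (D : Dat d K m) (s : ℝ) (u0 : Sys d K) (n : ℕ) : Sys d K :=
  (step D s)^[n] u0

theorem iter_smooth (D : Dat d K m) (s : ℝ) (u0 : Sys d K) (hu0 : Smooth u0) (n : ℕ) :
    Smooth (iter D s u0 n) := by
  induction n with
  | zero => exact hu0
  | succ n ih =>
    unfold iter at ih ⊢
    rw [Function.iterate_succ_apply']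
    exact step_smooth D s ih

private theorem iter_succ (D : Dat d K m) (s : ℝ) (u0 : Sys d K) (n : ℕ) :
    iter D s u0 (n + 1) = step D s (iter D s u0 n) := by
  unfold iter
  rw [Function.iterate_succ_apply']

/-- a common bound for the derivatives of order at most two -/
private theorem bot_bound (u0 : Sys d K)
    (hb : ∀ (I : List (Fin d)) α, ∃ C, ∀ x, |pd I (u0 α) x| ≤ C) :
    ∃ A0 : ℝ, 0 ≤ A0 ∧ Bd 2 A0 u0 := by
  choose C hC using hb
  have hfin : {I : List (Fin d) | I.length ≤ 2}.Finite := List.finite_length_le _ _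
  refine ⟨∑ I ∈ hfin.toFinset, ∑ α, |C I α|, ?_, ?_⟩
  · exact Finset.sum_nonneg fun I _ => Finset.sum_nonneg fun α _ => abs_nonneg _
  · intro I hI α x
    refine (hC I α x).trans ((le_abs_self _).trans ?_)
    have h1 : |C I α| ≤ ∑ α, |C I α| :=
      Finset.single_le_sum (f := fun α => |C I α|) (fun α _ => abs_nonneg _) (Finset.mem_univ α)
    have h2 : ∑ α, |C I α| ≤ ∑ I ∈ hfin.toFinset, ∑ α, |C I α| :=
      Finset.single_le_sum (f := fun I => ∑ α, |C I α|)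
        (fun I _ => Finset.sum_nonneg fun α _ => abs_nonneg _) (by
          rw [Set.Finite.mem_toFinset]
          exact hI)
    exact h1.trans h2

/-- The uniform form: the constants depend on the initial data only through the bound `A0`. -/
theorem boot_unif (D : Dat d K m) (A0 δ : ℝ) (hδ : 0 < δ) (hδ1 : δ ≤ 1) :
    ∃ T A s0 : ℝ, 0 < T ∧ 0 ≤ A ∧ 0 < s0 ∧ s0 ≤ 1 ∧ ∀ u0 : Sys d K, Smooth u0 → Bd 2 A0 u0 →
      ∀ s : ℝ, 0 < s → s ≤ s0 → ∀ n : ℕ,
      n * (s ^ 2 / 2) ≤ T → Bd 2 A (iter D s u0 n) ∧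
        ∀ α x, |iter D s u0 n α x - u0 α x| ≤ δ := by
  obtain ⟨A1, hA0, hA01⟩ : ∃ A1 : ℝ, 0 ≤ A1 ∧ A0 ≤ A1 := ⟨max A0 0, le_max_right _ _, le_max_left _ _⟩
  obtain ⟨S, hS0, hSS⟩ : ∃ S : ℝ, 0 ≤ S ∧ ∀ u0 : Sys d K, Bd 2 A1 u0 →
      (∀ x, en 1 u0 x ≤ S) ∧ ∀ x, en 2 u0 x ≤ S := by
    refine ⟨Fintype.card ((Fin 1 → Fin d) × Fin K) * A1 ^ 2 +
      Fintype.card ((Fin 2 → Fin d) × Fin K) * A1 ^ 2, by positivity, fun u0 hB0 => ⟨?_, ?_⟩⟩
    · intro x
      have h1 := en_le_of_Lv 1 u0 A1 hA0 (fun I hI α x => hB0 I (by omega) α x) x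
      have h2 : (0 : ℝ) ≤ Fintype.card ((Fin 2 → Fin d) × Fin K) * A1 ^ 2 := by positivity
      linarith
    · intro x
      have h1 := en_le_of_Lv 2 u0 A1 hA0 (fun I hI α x => hB0 I (by omega) α x) x
      have h2 : (0 : ℝ) ≤ Fintype.card ((Fin 1 → Fin d) × Fin K) * A1 ^ 2 := by positivity
      linarith
  obtain ⟨A, hA1, hA2, hA3⟩ : ∃ A : ℝ, A1 + 1 ≤ A ∧ Real.sqrt (S + 1) ≤ A ∧ 0 ≤ A :=
    ⟨max (A1 + 1) (Real.sqrt (S + 1)), le_max_left _ _, le_max_right _ _,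
      (Real.sqrt_nonneg _).trans (le_max_right _ _)⟩
  obtain ⟨C1, s1, hC1, hs1, hs1', hg1⟩ := grow D 1 (by norm_num) A
  obtain ⟨C2, s2, hC2, hs2, hs2', hg2⟩ := grow D 2 (by norm_num) A
  obtain ⟨C3, hC3, hg3⟩ := step_lip D [] A
  obtain ⟨C, hC, h1C, h2C, h3C⟩ : ∃ C : ℝ, 0 ≤ C ∧ C1 ≤ C ∧ C2 ≤ C ∧ C3 ≤ C :=
    ⟨C1 + C2 + C3, by positivity, by linarith, by linarith, by linarith⟩
  obtain ⟨s0, hs0, hs01, hs02, hs0'⟩ : ∃ s0 : ℝ, 0 < s0 ∧ s0 ≤ s1 ∧ s0 ≤ s2 ∧ s0 ≤ 1 :=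
    ⟨min s1 s2, lt_min hs1 hs2, min_le_left _ _, min_le_right _ _, (min_le_left _ _).trans hs1'⟩
  obtain ⟨T, hT, hT1, hT2⟩ : ∃ T : ℝ, 0 < T ∧ T * C ≤ δ ∧ T * (C * (2 + S)) ≤ 1 := by
    refine ⟨δ / ((C + 1) * (2 + S)), by positivity, ?_, ?_⟩
    · rw [div_mul_eq_mul_div, div_le_iff₀ (by positivity)]
      have h1 : C ≤ (C + 1) * (2 + S) := by nlinarith
      exact mul_le_mul_of_nonneg_left h1 hδ.le
    · rw [div_mul_eq_mul_div, div_le_iff₀ (by positivity), one_mul]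
      have h1 : 0 ≤ C * (2 + S) := by positivity
      have h2 : δ * (C * (2 + S)) ≤ 1 * (C * (2 + S)) := mul_le_mul_of_nonneg_right hδ1 h1
      nlinarith
  refine ⟨T, A, s0, hT, hA3, hs0, hs0', fun u0 hu0 hB00 s hs hss n hn => ?_⟩
  have hB0 : Bd 2 A1 u0 := fun I hI α x => (hB00 I hI α x).trans hA01
  obtain ⟨hS1, hS2⟩ := hSS u0 hB0
  -- from the three estimates to the bounds
  have concl : ∀ n : ℕ, (n : ℝ) * (s ^ 2 / 2) ≤ T →
      (∀ α x, |iter D s u0 n α x - u0 α x| ≤ (n : ℝ) * (s ^ 2 / 2) * C) →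
      (∀ x, en 1 (iter D s u0 n) x ≤ S + (n : ℝ) * (s ^ 2 / 2) * (C * (2 + S))) →
      (∀ x, en 2 (iter D s u0 n) x ≤ S + (n : ℝ) * (s ^ 2 / 2) * (C * (2 + S))) →
      Bd 2 A (iter D s u0 n) ∧ ∀ α x, |iter D s u0 n α x - u0 α x| ≤ δ := by
    intro n hn h0 h1 h2
    have hpos : 0 ≤ C * (2 + S) := by positivity
    have e1 : (n : ℝ) * (s ^ 2 / 2) * (C * (2 + S)) ≤ 1 :=
      (mul_le_mul_of_nonneg_right hn hpos).trans hT2
    have e0 : (n : ℝ) * (s ^ 2 / 2) * C ≤ δ := (mul_le_mul_of_nonneg_right hn hC).trans hT1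
    have hδn : ∀ α x, |iter D s u0 n α x - u0 α x| ≤ δ := fun α x => (h0 α x).trans e0
    refine ⟨?_, hδn⟩
    have f1 := abs_le_sqrt_en 1 (iter D s u0 n) (S + 1) (fun x => (h1 x).trans (by linarith))
    have f2 := abs_le_sqrt_en 2 (iter D s u0 n) (S + 1) (fun x => (h2 x).trans (by linarith))
    intro I hI α x
    have hcase : I.length = 0 ∨ I.length = 1 ∨ I.length = 2 := by omega
    rcases hcase with h | h | h
    · have hI0 : I = [] := List.length_eq_zero_iff.1 h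
      subst hI0
      have g1 : |u0 α x| ≤ A1 := hB0 [] (by simp) α x
      have g2 := hδn α x
      have g3 : |iter D s u0 n α x| ≤ |iter D s u0 n α x - u0 α x| + |u0 α x| := by
        have := abs_add_le (iter D s u0 n α x - u0 α x) (u0 α x)
        rwa [sub_add_cancel] at this
      show |iter D s u0 n α x| ≤ A
      linarith
    · exact (f1 I h α x).trans hA2
    · exact (f2 I h α x).trans hA2
  have main : ∀ n : ℕ, (n : ℝ) * (s ^ 2 / 2) ≤ T →
      (∀ α x, |iter D s u0 n α x - u0 α x| ≤ (n : ℝ) * (s ^ 2 / 2) * C) ∧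
      (∀ x, en 1 (iter D s u0 n) x ≤ S + (n : ℝ) * (s ^ 2 / 2) * (C * (2 + S))) ∧
      (∀ x, en 2 (iter D s u0 n) x ≤ S + (n : ℝ) * (s ^ 2 / 2) * (C * (2 + S))) := by
    intro n
    induction n with
    | zero =>
      intro _
      refine ⟨fun α x => ?_, fun x => ?_, fun x => ?_⟩
      · have h0 : iter D s u0 0 α x = u0 α x := rfl
        rw [h0, sub_self, abs_zero]
        simp
      · have h0 : iter D s u0 0 = u0 := rfl
        rw [h0]
        simpa using hS1 x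
      · have h0 : iter D s u0 0 = u0 := rfl
        rw [h0]
        simpa using hS2 x
    | succ n ih =>
      intro hn
      have hτ : 0 ≤ s ^ 2 / 2 := by positivity
      have hn' : (n : ℝ) * (s ^ 2 / 2) ≤ T := by
        push_cast at hn
        nlinarith
      obtain ⟨i0, i1, i2⟩ := ih hn'
      obtain ⟨hBd, _⟩ := concl n hn' i0 i1 i2
      have hsm := iter_smooth D s u0 hu0 n
      have hpos : 0 ≤ C * (2 + S) := by positivity
      have e1 : (n : ℝ) * (s ^ 2 / 2) * (C * (2 + S)) ≤ 1 :=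
        (mul_le_mul_of_nonneg_right hn' hpos).trans hT2
      have e2 : 0 ≤ (n : ℝ) * (s ^ 2 / 2) * (C * (2 + S)) := by positivity
      have gen : ∀ (k : ℕ) (Ck : ℝ), 0 ≤ Ck → Ck ≤ C →
          (∀ x, en k (step D s (iter D s u0 n)) x ≤
            (S + (n : ℝ) * (s ^ 2 / 2) * (C * (2 + S))) +
              s ^ 2 / 2 * (Ck * (1 + (S + (n : ℝ) * (s ^ 2 / 2) * (C * (2 + S)))))) →
          ∀ x, en k (iter D s u0 (n + 1)) x ≤
            S + ((n + 1 : ℕ) : ℝ) * (s ^ 2 / 2) * (C * (2 + S)) := by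
        intro k Ck hCk0 hCk h x
        rw [iter_succ]
        refine (h x).trans ?_
        have g1 : Ck * (1 + (S + (n : ℝ) * (s ^ 2 / 2) * (C * (2 + S)))) ≤ C * (2 + S) :=
          mul_le_mul hCk (by linarith) (by positivity) hC
        have g2 := mul_le_mul_of_nonneg_left g1 hτ
        push_cast
        nlinarith
      refine ⟨fun α x => ?_, ?_, ?_⟩
      · have g1 := hg3 s hs (hss.trans hs0') (iter D s u0 n) hsm hBd α x
        have g2 : |step D s (iter D s u0 n) α x - iter D s u0 n α x| ≤ s ^ 2 / 2 * C3 := g1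
        have g3 := i0 α x
        rw [iter_succ]
        have g4 : |step D s (iter D s u0 n) α x - u0 α x| ≤
            |step D s (iter D s u0 n) α x - iter D s u0 n α x| + |iter D s u0 n α x - u0 α x| := by
          have := abs_add_le (step D s (iter D s u0 n) α x - iter D s u0 n α x) (iter D s u0 n α x - u0 α x)
          rwa [sub_add_sub_cancel] at this
        have g5 := mul_le_mul_of_nonneg_left h3C hτ
        push_cast
        nlinarith
      · refine gen 1 C1 hC1 h1C ?_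
        exact hg1 s hs (hss.trans hs01) (iter D s u0 n) hsm hBd _ (by positivity) i1
      · refine gen 2 C2 hC2 h2C ?_
        exact hg2 s hs (hss.trans hs02) (iter D s u0 n) hsm hBd _ (by positivity) i2
  obtain ⟨j0, j1, j2⟩ := main n hn
  exact concl n hn j0 j1 j2

theorem boot (D : Dat d K m) (u0 : Sys d K) (hu0 : Smooth u0)
    (hb : ∀ (I : List (Fin d)) α, ∃ C, ∀ x, |pd I (u0 α) x| ≤ C) (δ : ℝ) (hδ : 0 < δ)
    (hδ1 : δ ≤ 1) :
    ∃ T A s0 : ℝ, 0 < T ∧ 0 ≤ A ∧ 0 < s0 ∧ s0 ≤ 1 ∧ ∀ s : ℝ, 0 < s → s ≤ s0 → ∀ n : ℕ,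
      n * (s ^ 2 / 2) ≤ T → Bd 2 A (iter D s u0 n) ∧
        ∀ α x, |iter D s u0 n α x - u0 α x| ≤ δ := by
  obtain ⟨A0, -, hB0⟩ := bot_bound u0 hb
  obtain ⟨T, A, s0, hT, hA, hs0, hs0', h⟩ := boot_unif D A0 δ hδ hδ1
  exact ⟨T, A, s0, hT, hA, hs0, hs0', fun s hs hss n hn => h u0 hu0 hB0 s hs hss n hn⟩

end Pool.Agent.QPE
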