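import Pool.Agent.QPE.Def

/-!
MODULE CDF (a family with Taylor estimates consists of the derivatives of a smooth function).
Proof.  The estimate says that `v I` has at every `x` the Fréchet derivative `h ↦ Σ_j h_j v (j :: I) x`
(quadratic remainder is `o(h)`; `Σ |h_j| ≤ d ‖h‖`).  Hence `v I` is differentiable, `pdv j (v I) = v (j :: I)`, and
by induction on `n`, for all `I`, `ContDiff ℝ n (v I)`: (`contDiff_succ_iff_fderiv` or `contDiff_succ_iff_hasFDerivAt`),
since `x ↦ Σ_j v (j :: I) x • proj_j` is `C^n`.  `pd I (v []) = v I` by induction on `I`.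
-/

namespace Pool.Agent.QPE

open scoped ContDiff BigOperators

variable {d K m : ℕ}

private theorem cdf_hasFDeriv (v : List (Fin d) → (Fin d → ℝ) → ℝ)
    (h : ∀ I, ∃ C : ℝ, ∀ x h : Fin d → ℝ,
      |v I (x + h) - v I x - ∑ j, h j * v (j :: I) x| ≤ C * (∑ j, |h j|) ^ 2)
    (I : List (Fin d)) (x : Fin d → ℝ) :
    HasFDerivAt (v I)
      (∑ j, v (j :: I) x • (ContinuousLinearMap.proj (R := ℝ) (φ := fun _ : Fin d => ℝ) j)) x := by
  obtain ⟨C, hC⟩ := h I
  rw [hasFDerivAt_iff_isLittleO_nhds_zero]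
  have h1 : (fun k : Fin d → ℝ => v I (x + k) - v I x -
      (∑ j, v (j :: I) x • (ContinuousLinearMap.proj (R := ℝ) (φ := fun _ : Fin d => ℝ) j)) k)
      =O[nhds 0] (fun k : Fin d → ℝ => ‖k‖ ^ 2) := by
    refine Asymptotics.IsBigO.of_bound (|C| * (d : ℝ) ^ 2) ?_
    refine Filter.Eventually.of_forall fun k => ?_
    have h2 := hC x k
    have h3 : (∑ j, v (j :: I) x •
        (ContinuousLinearMap.proj (R := ℝ) (φ := fun _ : Fin d => ℝ) j)) k
        = ∑ j, k j * v (j :: I) x := by
      rw [ContinuousLinearMap.sum_apply]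
      refine Finset.sum_congr rfl fun j _ => ?_
      rw [ContinuousLinearMap.smul_apply, ContinuousLinearMap.proj_apply, smul_eq_mul, mul_comm]
    rw [h3, Real.norm_eq_abs, Real.norm_eq_abs, abs_pow, abs_norm]
    have h4 : ∑ j, |k j| ≤ d * ‖k‖ := by
      calc ∑ j, |k j| ≤ ∑ _j : Fin d, ‖k‖ := by
            refine Finset.sum_le_sum fun j _ => ?_
            have := norm_le_pi_norm k j
            rwa [Real.norm_eq_abs] at this
        _ = d * ‖k‖ := by simp
    have h5 : 0 ≤ ∑ j, |k j| := Finset.sum_nonneg fun j _ => abs_nonneg _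
    calc |v I (x + k) - v I x - ∑ j, k j * v (j :: I) x| ≤ C * (∑ j, |k j|) ^ 2 := h2
      _ ≤ |C| * (∑ j, |k j|) ^ 2 := mul_le_mul_of_nonneg_right (le_abs_self C) (sq_nonneg _)
      _ ≤ |C| * (d * ‖k‖) ^ 2 := by
          refine mul_le_mul_of_nonneg_left ?_ (abs_nonneg C)
          exact pow_le_pow_left₀ h5 h4 2
      _ = |C| * (d : ℝ) ^ 2 * ‖k‖ ^ 2 := by ring
  exact h1.trans_isLittleO (Asymptotics.isLittleO_norm_pow_id one_lt_two)

theorem family_contDiff (v : List (Fin d) → (Fin d → ℝ) → ℝ)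
    (h : ∀ I, ∃ C : ℝ, ∀ x h : Fin d → ℝ,
      |v I (x + h) - v I x - ∑ j, h j * v (j :: I) x| ≤ C * (∑ j, |h j|) ^ 2) :
    ContDiff ℝ ∞ (v []) ∧ ∀ I, pd I (v []) = v I := by
  have hF := cdf_hasFDeriv v h
  have hn : ∀ n : ℕ, ∀ I, ContDiff ℝ n (v I) := by
    intro n
    induction n with
    | zero =>
      intro I
      rw [Nat.cast_zero, contDiff_zero]
      exact continuous_iff_continuousAt.2 fun x => (hF I x).continuousAt
    | succ n ih =>
      intro I
      have : ((n + 1 : ℕ) : WithTop ℕ∞) = (n : WithTop ℕ∞) + 1 := by push_cast; rfl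
      rw [this, contDiff_succ_iff_hasFDerivAt]
      refine ⟨fun x => ∑ j, v (j :: I) x •
        (ContinuousLinearMap.proj (R := ℝ) (φ := fun _ : Fin d => ℝ) j), ?_, fun x => hF I x⟩
      refine ContDiff.sum fun j _ => ?_
      exact (ih (j :: I)).smul contDiff_const
  refine ⟨contDiff_infty.2 fun n => hn n [], ?_⟩
  intro I
  induction I with
  | nil => rfl
  | cons i I ih =>
    change pdv i (pd I (v [])) = v (i :: I)
    rw [ih]
    funext x
    rw [pdv, (hF I x).fderiv, ContinuousLinearMap.sum_apply]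
    rw [Finset.sum_eq_single i]
    · rw [ContinuousLinearMap.smul_apply, ContinuousLinearMap.proj_apply, Pi.single_eq_same,
        smul_eq_mul, mul_one]
    · intro j _ hj
      rw [ContinuousLinearMap.smul_apply, ContinuousLinearMap.proj_apply,
        Pi.single_eq_of_ne hj, smul_zero]
    · intro hi
      exact absurd (Finset.mem_univ i) hi

end Pool.Agent.QPE
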