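import Mathlib

/-!
QPE (theorem E): quasilinear, possibly degenerate parabolic systems on `R^d`, solved by an explicit
random walk scheme.  DEFINITIONS.
-/

namespace Pool.Agent.QPE

open scoped ContDiff BigOperators

/-- the partial derivative of a real function on `R^d` -/
noncomputable def pdv {d : ℕ} (i : Fin d) (f : (Fin d → ℝ) → ℝ) (x : Fin d → ℝ) : ℝ :=
  fderiv ℝ f x (Pi.single i 1)

/-- iterated partial derivatives along a list of indices -/
noncomputable def pd {d : ℕ} : List (Fin d) → ((Fin d → ℝ) → ℝ) → (Fin d → ℝ) → ℝ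
  | [], f => f
  | i :: I, f => pdv i (pd I f)

/-- unknown functions: `K` real functions on `R^d` -/
abbrev Sys (d K : ℕ) := Fin K → (Fin d → ℝ) → ℝ

/-- smooth systems -/
def Smooth {d K : ℕ} (u : Sys d K) : Prop := ∀ α, ContDiff ℝ ∞ (u α)

/-- the value vector of a system at a point -/
def val {d K : ℕ} (u : Sys d K) (x : Fin d → ℝ) : Fin K → ℝ := fun α => u α x

/-- the domain of the coefficient functions: position, value of the unknown, value of the
derivatives of the unknown along the fields -/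
abbrev Arg (d K m : ℕ) := (Fin d → ℝ) × (Fin K → ℝ) × (Fin m → Fin K → ℝ)

/-- base functions: smooth functions of `(x,u,p)` which vanish for `|x| > R` -/
structure IsBase {d K m : ℕ} (R : ℝ) (g : Arg d K m → ℝ) : Prop where
  smooth : ContDiff ℝ ∞ g
  supp : ∀ x v p, R < ‖x‖ → g (x, v, p) = 0

/-- the data of a quasilinear system: fields `sg c`, drift `b`, lower order term `Q` -/
structure Dat (d K m : ℕ) where
  sg : Fin m → Fin d → (Fin d → ℝ) × (Fin K → ℝ) → ℝ
  b : Fin d → (Fin d → ℝ) × (Fin K → ℝ) → ℝ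
  Q : Fin K → Arg d K m → ℝ
  R : ℝ
  sg_smooth : ∀ c j, ContDiff ℝ ∞ (sg c j)
  b_smooth : ∀ j, ContDiff ℝ ∞ (b j)
  Q_smooth : ∀ α, ContDiff ℝ ∞ (Q α)
  sg_supp : ∀ c j x v, R < ‖x‖ → sg c j (x, v) = 0
  b_supp : ∀ j x v, R < ‖x‖ → b j (x, v) = 0
  Q_supp : ∀ α x v p, R < ‖x‖ → Q α (x, v, p) = 0

/-- sign of a bit -/
def sgn (e : Bool) : ℝ := if e then 1 else -1

/-- the mean over all sign vectors -/
noncomputable def mean {m : ℕ} (F : (Fin m → Bool) → ℝ) : ℝ := ((2 : ℝ) ^ m)⁻¹ * ∑ ξ, F ξ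

variable {d K m : ℕ}

/-- the random position after one step of the walk -/
noncomputable def phi (D : Dat d K m) (s : ℝ) (u : Sys d K) (ξ : Fin m → Bool) (x : Fin d → ℝ) :
    Fin d → ℝ :=
  fun j => x j + s * ∑ c, sgn (ξ c) * D.sg c j (x, val u x) + s ^ 2 / 2 * D.b j (x, val u x)

/-- weighted mean of `f` at the positions after one step -/
noncomputable def av (D : Dat d K m) (s : ℝ) (u : Sys d K) (w : (Fin m → Bool) → ℝ)
    (f : (Fin d → ℝ) → ℝ) (x : Fin d → ℝ) : ℝ :=
  mean fun ξ => w ξ * f (phi D s u ξ x)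

/-- plain mean -/
noncomputable def E1 (D : Dat d K m) (s : ℝ) (u : Sys d K) (f : (Fin d → ℝ) → ℝ)
    (x : Fin d → ℝ) : ℝ := av D s u (fun _ => 1) f x

/-- discrete derivative along the field `c` -/
noncomputable def Pc (D : Dat d K m) (s : ℝ) (u : Sys d K) (c : Fin m) (f : (Fin d → ℝ) → ℝ)
    (x : Fin d → ℝ) : ℝ := s⁻¹ * av D s u (fun ξ => sgn (ξ c)) f x

/-- the argument of the base functions produced by the scheme -/
noncomputable def arg (D : Dat d K m) (s : ℝ) (u : Sys d K) (x : Fin d → ℝ) : Arg d K m :=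
  (x, val u x, fun c β => Pc D s u c (u β) x)

/-- one step of the scheme with time step `s^2/2` -/
noncomputable def step (D : Dat d K m) (s : ℝ) (u : Sys d K) : Sys d K :=
  fun α x => E1 D s u (u α) x + s ^ 2 / 2 * D.Q α (arg D s u x)

/-- the spatial operator of the equation -/
noncomputable def Aop (D : Dat d K m) (u : Sys d K) (α : Fin K) (x : Fin d → ℝ) : ℝ :=
  (∑ c, ∑ i, ∑ j, D.sg c i (x, val u x) * D.sg c j (x, val u x) * pd [i, j] (u α) x)
  + (∑ j, D.b j (x, val u x) * pd [j] (u α) x)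
  + D.Q α (x, val u x, fun c β => ∑ j, D.sg c j (x, val u x) * pd [j] (u β) x)

/-- all derivatives of order at most `k` are bounded by `A` -/
def Bd (k : ℕ) (A : ℝ) (u : Sys d K) : Prop :=
  ∀ I : List (Fin d), I.length ≤ k → ∀ α x, |pd I (u α) x| ≤ A

/-- all derivatives of order exactly `k` are bounded by `B` -/
def Lv (k : ℕ) (B : ℝ) (u : Sys d K) : Prop :=
  ∀ I : List (Fin d), I.length = k → ∀ α x, |pd I (u α) x| ≤ B

/-- the sum of the squares of the derivatives of order `k` -/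
noncomputable def en (k : ℕ) (u : Sys d K) (x : Fin d → ℝ) : ℝ :=
  ∑ I : Fin k → Fin d, ∑ α, (pd (List.ofFn I) (u α) x) ^ 2

/-- functionals of `(s,u)` with values in functions on `R^d` -/
abbrev Fnl (d K : ℕ) := ℝ → Sys d K → (Fin d → ℝ) → ℝ

/-- admissible functionals of level `k`: polynomials in `s`, base functions along the scheme,
derivatives of order `≤ k` at the point and at the positions after one step, and discrete
derivatives of derivatives of order `≤ k-1` -/
inductive Adm (D : Dat d K m) : ℕ → Fnl d K → Prop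
  | const (c : ℝ) : Adm D 0 (fun _ _ _ => c)
  | par : Adm D 0 (fun s _ _ => s)
  | base (g : Arg d K m → ℝ) (hg : IsBase D.R g) : Adm D 1 (fun s u x => g (arg D s u x))
  | jet (I : List (Fin d)) (α : Fin K) : Adm D I.length (fun _ u x => pd I (u α) x)
  | sjet (ξ : Fin m → Bool) (I : List (Fin d)) (α : Fin K) :
      Adm D I.length (fun s u x => pd I (u α) (phi D s u ξ x))
  | pjet (c : Fin m) (I : List (Fin d)) (α : Fin K) :
      Adm D (I.length + 1) (fun s u x => Pc D s u c (pd I (u α)) x)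
  | add {k : ℕ} {Ψ Θ : Fnl d K} : Adm D k Ψ → Adm D k Θ → Adm D k (fun s u x => Ψ s u x + Θ s u x)
  | mul {k : ℕ} {Ψ Θ : Fnl d K} : Adm D k Ψ → Adm D k Θ → Adm D k (fun s u x => Ψ s u x * Θ s u x)
  | mono {k l : ℕ} {Ψ : Fnl d K} : k ≤ l → Adm D k Ψ → Adm D l Ψ

/-- growth of a functional of level `k` which is affine in top order: it is bounded by
`C (1+B)`, where `B` bounds the derivatives of order `k` and `C` depends on the lower ones -/
def Aff (k : ℕ) (Ψ : Fnl d K) : Prop :=
  ∀ A : ℝ, ∃ C : ℝ, 0 ≤ C ∧ ∀ s : ℝ, 0 < s → s ≤ 1 → ∀ u : Sys d K, Smooth u → Bd (k - 1) A u →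
    ∀ B : ℝ, 0 ≤ B → Lv k B u → ∀ x, |Ψ s u x| ≤ C * (1 + B)

end Pool.Agent.QPE
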