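import Mathlib

/-!
MODULE ENE (algebraic inequality of one step).
Proof.  With `n = card ι`, `N = card κ`, `G = Σ q^2`: `|r i|^2 ≤ 2ρ^2 + 2β^2 (Σ|q|)^2 ≤ 2ρ^2 + 2β^2 N G`
(Cauchy-Schwarz), so `Σ r^2 ≤ 2nρ^2 + 2 L G`, `L = n N β^2`.  With `ε = 1/(2L+1) ≤ 1`:
`2 Σ a r ≤ ε Σ r^2 + (2L+1) Σ a^2 ≤ 2nρ^2 + G + (2L+1) S`, and `τ^2 Σ r^2 ≤ τ (2 n ρ^2 τ + 2 L τ G) ≤ τ (2nρ^2 + G)`.
Sum: `Σ (a+τ r)^2 ≤ (S - 2τG) + τ (2nρ^2 + G + (2L+1) S) + τ (2nρ^2 + G)`.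
-/

namespace Pool.Agent.QPE

open scoped BigOperators

theorem ene {ι κ : Type} [Fintype ι] [Fintype κ] (a r : ι → ℝ) (q : κ → ℝ) (S τ ρ β : ℝ)
    (hτ : 0 ≤ τ) (hτ1 : τ ≤ 1) (hρ : 0 ≤ ρ) (hβ : 0 ≤ β)
    (h1 : (∑ i, a i ^ 2) + 2 * τ * ∑ k, q k ^ 2 ≤ S)
    (h2 : ∀ i, |r i| ≤ ρ + β * ∑ k, |q k|)
    (h3 : 2 * τ * (Fintype.card ι * Fintype.card κ * β ^ 2) ≤ 1) :
    ∑ i, (a i + τ * r i) ^ 2 ≤ S + τ * (4 * Fintype.card ι * ρ ^ 2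
      + (2 * (Fintype.card ι * Fintype.card κ * β ^ 2) + 1) * S) := by
  set n : ℝ := (Fintype.card ι : ℝ) with hn
  set N : ℝ := (Fintype.card κ : ℝ) with hN
  set G : ℝ := ∑ k, q k ^ 2 with hG
  set A : ℝ := ∑ i, a i ^ 2 with hA
  set Q : ℝ := ∑ k, |q k| with hQ
  set L : ℝ := n * N * β ^ 2 with hL
  have hn0 : 0 ≤ n := Nat.cast_nonneg _
  have hN0 : 0 ≤ N := Nat.cast_nonneg _
  have hL0 : 0 ≤ L := by positivity
  have hG0 : 0 ≤ G := Finset.sum_nonneg fun k _ => sq_nonneg _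
  have hA0 : 0 ≤ A := Finset.sum_nonneg fun k _ => sq_nonneg _
  have hQ0 : 0 ≤ Q := Finset.sum_nonneg fun k _ => abs_nonneg _
  have hQG : Q ^ 2 ≤ N * G := by
    have h := sq_sum_le_card_mul_sum_sq (s := (Finset.univ : Finset κ)) (f := fun k => |q k|)
    simp only [sq_abs, Finset.card_univ] at h
    exact h
  have hr : ∀ i, r i ^ 2 ≤ 2 * ρ ^ 2 + 2 * β ^ 2 * (N * G) := by
    intro i
    have e1 : r i ^ 2 ≤ (ρ + β * Q) ^ 2 := by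
      rw [← sq_abs (r i)]
      exact pow_le_pow_left₀ (abs_nonneg _) (h2 i) 2
    have e2 : (ρ + β * Q) ^ 2 ≤ 2 * ρ ^ 2 + 2 * β ^ 2 * Q ^ 2 := by
      nlinarith [sq_nonneg (ρ - β * Q)]
    have e3 : 2 * β ^ 2 * Q ^ 2 ≤ 2 * β ^ 2 * (N * G) :=
      mul_le_mul_of_nonneg_left hQG (by positivity)
    linarith
  have hR : ∑ i, r i ^ 2 ≤ 2 * n * ρ ^ 2 + 2 * L * G := by
    calc ∑ i, r i ^ 2 ≤ ∑ _i : ι, (2 * ρ ^ 2 + 2 * β ^ 2 * (N * G)) := Finset.sum_le_sum fun i _ => hr i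
      _ = 2 * n * ρ ^ 2 + 2 * L * G := by
        rw [Finset.sum_const, Finset.card_univ, nsmul_eq_mul, hL, hn]
        ring
  set R : ℝ := ∑ i, r i ^ 2 with hRd
  have hR0 : 0 ≤ R := Finset.sum_nonneg fun k _ => sq_nonneg _
  have hcross : ∑ i, 2 * (a i * r i) ≤ (2 * L + 1)⁻¹ * R + (2 * L + 1) * A := by
    rw [hRd, hA, Finset.mul_sum, Finset.mul_sum, ← Finset.sum_add_distrib]
    refine Finset.sum_le_sum fun i _ => ?_
    have hp : 0 < 2 * L + 1 := by linarith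
    have e := mul_nonneg (inv_pos.mpr hp).le (sq_nonneg (r i - (2 * L + 1) * a i))
    have e2 : (2 * L + 1)⁻¹ * (r i - (2 * L + 1) * a i) ^ 2 =
        (2 * L + 1)⁻¹ * r i ^ 2 + (2 * L + 1) * a i ^ 2 - 2 * (a i * r i) := by
      field_simp
      ring
    linarith
  have hcross2 : (2 * L + 1)⁻¹ * R ≤ 2 * n * ρ ^ 2 + G := by
    have hp : 0 < 2 * L + 1 := by linarith
    rw [inv_mul_le_iff₀ hp]
    have : 0 ≤ 2 * L * (2 * n * ρ ^ 2) := by positivity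
    nlinarith
  have hquad : τ ^ 2 * R ≤ τ * (2 * n * ρ ^ 2 + G) := by
    have e1 : τ * R ≤ 2 * n * ρ ^ 2 + G := by
      have e2 : τ * R ≤ τ * (2 * n * ρ ^ 2 + 2 * L * G) := mul_le_mul_of_nonneg_left hR hτ
      have e3 : τ * (2 * n * ρ ^ 2) ≤ 1 * (2 * n * ρ ^ 2) :=
        mul_le_mul_of_nonneg_right hτ1 (by positivity)
      have e4 : 2 * τ * L * G ≤ 1 * G := mul_le_mul_of_nonneg_right h3 hG0
      nlinarith
    calc τ ^ 2 * R = τ * (τ * R) := by ring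
      _ ≤ τ * (2 * n * ρ ^ 2 + G) := mul_le_mul_of_nonneg_left e1 hτ
  have hAS : A ≤ S := by
    have : 0 ≤ 2 * τ * G := by positivity
    linarith
  have hexp : ∑ i, (a i + τ * r i) ^ 2 = A + τ * ∑ i, 2 * (a i * r i) + τ ^ 2 * R := by
    rw [hA, hRd, Finset.mul_sum, Finset.mul_sum, ← Finset.sum_add_distrib, ← Finset.sum_add_distrib]
    refine Finset.sum_congr rfl fun i _ => ?_
    ring
  rw [hexp]
  have f1 : τ * ∑ i, 2 * (a i * r i) ≤ τ * (2 * n * ρ ^ 2 + G + (2 * L + 1) * A) :=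
    mul_le_mul_of_nonneg_left (by linarith) hτ
  have f2 : τ * ((2 * L + 1) * A) ≤ τ * ((2 * L + 1) * S) :=
    mul_le_mul_of_nonneg_left (mul_le_mul_of_nonneg_left hAS (by linarith)) hτ
  nlinarith

end Pool.Agent.QPE
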