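import Pool.Agent.QPE.JNT

/-!
THEOREM E: local existence of smooth solutions of quasilinear, possibly degenerate, parabolic systems on `R^d`.
-/

namespace Pool.Agent.QPE

open scoped ContDiff BigOperators

variable {d K m : ℕ}

/-- `u` is a smooth solution on `[0,T]` with initial data `u0`, all derivatives bounded, of
`∂_t u_α = Σ_c Σ_ij σ_c^i σ_c^j ∂_i ∂_j u_α + Σ_j b^j ∂_j u_α + Q_α(x, u, (Σ_j σ_c^j ∂_j u_β)_{c,β})` -/
structure Sol (D : Dat d K m) (u0 : Sys d K) (T : ℝ) (u : ℝ → Sys d K) : Prop where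
  smooth : ∀ t ∈ Set.Icc 0 T, Smooth (u t)
  init : u 0 = u0
  bd : ∀ k, ∃ A : ℝ, ∀ t ∈ Set.Icc 0 T, Bd k A (u t)
  deriv : ∀ t ∈ Set.Icc 0 T, ∀ (I : List (Fin d)) α x,
    HasDerivWithinAt (fun r => pd I (u r α) x) (pd I (Aop D (u t) α) x) (Set.Icc 0 T) t

theorem Sol.joint {D : Dat d K m} {u0 : Sys d K} {T : ℝ} (hT : 0 < T) {u : ℝ → Sys d K}
    (h : Sol D u0 T u) (I : List (Fin d)) (α : Fin K) :
    ContDiffOn ℝ ∞ (fun q : ℝ × (Fin d → ℝ) => pd I (u q.1 α) q.2)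
      (Set.Icc 0 T ×ˢ Set.univ) :=
  joint_smooth_of D T hT u h.smooth h.bd h.deriv (Loc.jet (D := D) I α)

/-- THEOREM E, existence time uniform for data bounded in C^2. -/
theorem exists_solution_unif (D : Dat d K m) (A0 δ : ℝ) (hδ : 0 < δ) :
    ∃ T : ℝ, 0 < T ∧ ∀ u0 : Sys d K, Smooth u0 →
      (∀ (I : List (Fin d)) α, ∃ C, ∀ x, |pd I (u0 α) x| ≤ C) → Bd 2 A0 u0 →
      ∃ u : ℝ → Sys d K, Sol D u0 T u ∧ ∀ t ∈ Set.Icc 0 T, ∀ α x, |u t α x - u0 α x| ≤ δ := by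
  obtain ⟨T, A, s0, hT, hA, hs0, hs1, h⟩ := boot_unif D A0 (min δ 1) (lt_min hδ one_pos)
    (min_le_right _ _)
  refine ⟨T, hT, fun u0 hu0 hb hbd => ?_⟩
  obtain ⟨w, ε, hw⟩ := approx_exists D u0 hu0 hb (min δ 1) (lt_min hδ one_pos) T A s0 hT hs0 hs1
    (h u0 hu0 hbd)
  obtain ⟨u, hu⟩ := lim_exists D u0 T _ hT w ε hw
  exact ⟨u, ⟨hu.smooth, hu.init, hu.bd, time_deriv D u0 T _ hT u hu⟩, fun t ht α x =>
    (hu.close t ht α x).trans (min_le_left _ _)⟩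

/-- finitely many lists of length at most `k`: a common bound -/
theorem exists_Bd (u0 : Sys d K) (hb : ∀ (I : List (Fin d)) α, ∃ C, ∀ x, |pd I (u0 α) x| ≤ C)
    (k : ℕ) : ∃ A : ℝ, Bd k A u0 := by
  choose C hC using hb
  have hfin : {I : List (Fin d) | I.length ≤ k}.Finite := List.finite_length_le (Fin d) k
  refine ⟨∑ I ∈ hfin.toFinset, ∑ α, |C I α|, fun I hI α x => ?_⟩
  have hmem : I ∈ hfin.toFinset := by simpa using hI
  calc |pd I (u0 α) x| ≤ C I α := hC I α x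
    _ ≤ |C I α| := le_abs_self _
    _ ≤ ∑ α, |C I α| := Finset.single_le_sum (f := fun α => |C I α|)
        (fun _ _ => abs_nonneg _) (Finset.mem_univ α)
    _ ≤ ∑ I ∈ hfin.toFinset, ∑ α, |C I α| := Finset.single_le_sum
        (f := fun I => ∑ α, |C I α|) (fun _ _ => Finset.sum_nonneg fun _ _ => abs_nonneg _) hmem

/-- THEOREM E.  `D` = fields `σ_c(x,u)`, drift `b(x,u)`, lower order term `Q(x,u,p)`, all smooth and zero for `|x| > R`.
For smooth initial data with bounded derivatives, and every `δ > 0`, there is a smooth solution on a time interval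
`[0,T]`, `T > 0`, which stays `δ`-close to the initial data. -/
theorem exists_solution (D : Dat d K m) (u0 : Sys d K) (hu0 : Smooth u0)
    (hb : ∀ (I : List (Fin d)) α, ∃ C, ∀ x, |pd I (u0 α) x| ≤ C) (δ : ℝ) (hδ : 0 < δ) :
    ∃ T : ℝ, 0 < T ∧ ∃ u : ℝ → Sys d K, Sol D u0 T u ∧
      (∀ t ∈ Set.Icc 0 T, ∀ α x, |u t α x - u0 α x| ≤ δ) ∧
      ∀ I α, ContDiffOn ℝ ∞ (fun q : ℝ × (Fin d → ℝ) => pd I (u q.1 α) q.2)
        (Set.Icc 0 T ×ˢ Set.univ) := by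
  obtain ⟨A0, hA0⟩ := exists_Bd u0 hb 2
  obtain ⟨T, hT, h⟩ := exists_solution_unif D A0 δ hδ
  obtain ⟨u, hu, hclose⟩ := h u0 hu0 hb hA0
  exact ⟨T, hT, u, hu, hclose, fun I α => hu.joint hT I α⟩

end Pool.Agent.QPE
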