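import Pool.Agent.QPE.PHI
import Pool.Agent.QPE.RAD

/-!
MODULE GRA (Bessel inequality for the energy).
Proof.  For each `I, α` apply `bessel` to `F ξ = pd I u_α (Φ_ξ x)`: `mean F = E1 ..` (up to `1 *`), `mean (sgn_c F) = s * Pc c ..`
(`s ≠ 0`), so `(E1 ..)^2 + s^2 Σ_c (Pc ..)^2 ≤ mean (F^2)`; sum over `I, α`: the right side is the mean of `en k u (Φ_ξ x) ≤ S`
(`mean_sum`, `mean_mono`, `mean_const`).  Reindex the sums over products (`Fintype.sum_prod_type`, `Finset.sum_comm`).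
-/

namespace Pool.Agent.QPE

open scoped ContDiff BigOperators

variable {d K m : ℕ}

private theorem gra_en (k : ℕ) (u : Sys d K) (y : Fin d → ℝ) :
    en k u y = ∑ i : (Fin k → Fin d) × Fin K, (pd (List.ofFn i.1) (u i.2) y) ^ 2 := by
  unfold en
  rw [Fintype.sum_prod_type]

theorem bessel_en (D : Dat d K m) (k : ℕ) (s : ℝ) (hs : 0 < s) (u : Sys d K) (S : ℝ)
    (hS : ∀ x, en k u x ≤ S) (x : Fin d → ℝ) :
    (∑ i : (Fin k → Fin d) × Fin K, (E1 D s u (pd (List.ofFn i.1) (u i.2)) x) ^ 2)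
      + 2 * (s ^ 2 / 2) * ∑ q : Fin m × (Fin k → Fin d) × Fin K,
          (Pc D s u q.1 (pd (List.ofFn q.2.1) (u q.2.2)) x) ^ 2 ≤ S := by
  have h1 : ∀ i : (Fin k → Fin d) × Fin K,
      (E1 D s u (pd (List.ofFn i.1) (u i.2)) x) ^ 2 +
        s ^ 2 * ∑ c, (Pc D s u c (pd (List.ofFn i.1) (u i.2)) x) ^ 2 ≤
      mean fun ξ : Fin m → Bool => (pd (List.ofFn i.1) (u i.2) (phi D s u ξ x)) ^ 2 := by
    intro i
    have hb := bessel (fun ξ : Fin m → Bool => pd (List.ofFn i.1) (u i.2) (phi D s u ξ x))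
    have e1 : E1 D s u (pd (List.ofFn i.1) (u i.2)) x =
        mean (fun ξ : Fin m → Bool => pd (List.ofFn i.1) (u i.2) (phi D s u ξ x)) := by
      simp only [E1, av, one_mul]
    have e2 : ∀ c, (mean fun ξ : Fin m → Bool =>
        sgn (ξ c) * pd (List.ofFn i.1) (u i.2) (phi D s u ξ x)) =
        s * Pc D s u c (pd (List.ofFn i.1) (u i.2)) x := by
      intro c
      simp only [Pc, av]
      rw [← mul_assoc, mul_inv_cancel₀ hs.ne', one_mul]
    rw [e1, Finset.mul_sum]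
    refine le_trans (le_of_eq ?_) hb
    congr 1
    refine Finset.sum_congr rfl fun c _ => ?_
    rw [e2 c]
    ring
  have h2 : (∑ q : Fin m × (Fin k → Fin d) × Fin K,
          (Pc D s u q.1 (pd (List.ofFn q.2.1) (u q.2.2)) x) ^ 2) =
      ∑ i : (Fin k → Fin d) × Fin K, ∑ c : Fin m,
        (Pc D s u c (pd (List.ofFn i.1) (u i.2)) x) ^ 2 := by
    rw [Fintype.sum_prod_type, Finset.sum_comm]
  have h3 : (∑ i : (Fin k → Fin d) × Fin K,
      mean fun ξ : Fin m → Bool => (pd (List.ofFn i.1) (u i.2) (phi D s u ξ x)) ^ 2) ≤ S := by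
    rw [← mean_sum]
    have h4 : mean (fun ξ : Fin m → Bool => ∑ i : (Fin k → Fin d) × Fin K,
        (pd (List.ofFn i.1) (u i.2) (phi D s u ξ x)) ^ 2) ≤ mean (fun _ : Fin m → Bool => S) := by
      refine mean_mono fun ξ => ?_
      rw [← gra_en]
      exact hS _
    rwa [mean_const] at h4
  rw [h2]
  have h5 : 2 * (s ^ 2 / 2) = s ^ 2 := by ring
  rw [h5, Finset.mul_sum, ← Finset.sum_add_distrib]
  exact (Finset.sum_le_sum fun i _ => h1 i).trans h3

theorem abs_le_sqrt_en (k : ℕ) (u : Sys d K) (S : ℝ) (hS : ∀ x, en k u x ≤ S) :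
    Lv k (Real.sqrt S) u := by
  intro I hI α x
  subst hI
  refine Real.abs_le_sqrt (le_trans ?_ (hS x))
  rw [gra_en]
  have h := Finset.single_le_sum
    (f := fun i : (Fin I.length → Fin d) × Fin K => (pd (List.ofFn i.1) (u i.2) x) ^ 2)
    (fun i _ => sq_nonneg _) (Finset.mem_univ ((I.get, α) : (Fin I.length → Fin d) × Fin K))
  simpa [List.ofFn_get] using h

theorem en_le_of_Lv (k : ℕ) (u : Sys d K) (A : ℝ) (hA : 0 ≤ A) (h : Lv k A u) (x : Fin d → ℝ) :
    en k u x ≤ Fintype.card ((Fin k → Fin d) × Fin K) * A ^ 2 := by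
  rw [gra_en]
  have h1 := Finset.sum_le_card_nsmul (Finset.univ : Finset ((Fin k → Fin d) × Fin K))
    (fun i => (pd (List.ofFn i.1) (u i.2) x) ^ 2) (A ^ 2) (fun i _ => by
      have h2 := h (List.ofFn i.1) (List.length_ofFn) i.2 x
      show (pd (List.ofFn i.1) (u i.2) x) ^ 2 ≤ A ^ 2
      rw [← sq_abs]
      exact pow_le_pow_left₀ (abs_nonneg _) h2 2)
  rwa [nsmul_eq_mul, Finset.card_univ] at h1

end Pool.Agent.QPE
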