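import Pool.Agent.QPE.STR
import Pool.Agent.QPE.ENE
import Pool.Agent.QPE.GRA

/-!
MODULE GRW (growth of the level `k` energy in one step).
Proof.  `choose` `R, F` from `form_exists` for every `I = List.ofFn J` and `α` (finitely many; take sums or maxima of the
constants).  At a point `x` apply `ene` with `ι = (Fin k → Fin d) × Fin K`, `a = E1 (pd I u_α) x`,
`κ = Fin m × (Fin k → Fin d) × Fin K`, `q = Pc c (pd J u_β) x`, `r = R + Σ F q`, `τ = s^2/2`; h1 is `bessel_en`.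
h2: `|F| ≤ β` by `adm_bound` at level 1; for `k ≤ 2`: `|R| ≤ C` by `adm_bound` (level `k ≤ 2`, `Bd 2 A`); for `k ≥ 3`: `Aff k R`
with `B = sqrt S` (`abs_le_sqrt_en`), `Bd (k-1) A` (`max (k-1) 2 = k-1`): `|R| ≤ C (1 + sqrt S)`.  So in both cases `ρ = C (1 + sqrt S)`,
`ρ^2 ≤ 2 C^2 (1 + S)`.  `s0` small such that `2 τ (n N β^2) ≤ 1`.
-/

namespace Pool.Agent.QPE

open scoped ContDiff BigOperators

variable {d K m : ℕ}

private theorem R_bound (D : Dat d K m) (k : ℕ) (I : List (Fin d)) (α : Fin K)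
    (R : Fnl d K) (F : Fin m → (Fin k → Fin d) → Fin K → Fnl d K) (h : Form D k I α R F) (A : ℝ) :
    ∃ C : ℝ, 0 ≤ C ∧ ∀ s : ℝ, 0 < s → s ≤ 1 → ∀ u : Sys d K, Smooth u →
      Bd (max (k - 1) 2) A u → ∀ S : ℝ, 0 ≤ S → (∀ x, en k u x ≤ S) →
      ∀ x, |R s u x| ≤ C * (1 + Real.sqrt S) := by
  by_cases h3 : 3 ≤ k
  · obtain ⟨C, hC, hb⟩ := h.2.2.1 h3 A
    refine ⟨C, hC, fun s hs hs1 u hu hB S _ hS x => ?_⟩
    exact hb s hs hs1 u hu (fun J hJ β y => hB J (hJ.trans (le_max_left _ _)) β y) _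
      (Real.sqrt_nonneg S) (abs_le_sqrt_en k u S hS) x
  · obtain ⟨C, hC, hb⟩ := adm_bound h.1 A
    refine ⟨C, hC, fun s hs hs1 u hu hB S _ hS x => ?_⟩
    have h1 := hb s hs hs1 u hu (fun J hJ β y => hB J (hJ.trans (by omega)) β y) x
    have h2 := mul_nonneg hC (Real.sqrt_nonneg S)
    linarith

theorem grow (D : Dat d K m) (k : ℕ) (hk : 1 ≤ k) (A : ℝ) :
    ∃ C s0 : ℝ, 0 ≤ C ∧ 0 < s0 ∧ s0 ≤ 1 ∧ ∀ s : ℝ, 0 < s → s ≤ s0 → ∀ u : Sys d K, Smooth u →
      Bd (max (k - 1) 2) A u → ∀ S : ℝ, 0 ≤ S → (∀ x, en k u x ≤ S) →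
      ∀ x, en k (step D s u) x ≤ S + s ^ 2 / 2 * (C * (1 + S)) := by
  choose R F hF using fun i : (Fin k → Fin d) × Fin K =>
    form_exists D k hk (List.ofFn i.1) (by simp) i.2
  choose CR hCR hR using fun i => R_bound D k _ _ _ _ (hF i) A
  choose CF hCF hFb using fun (i : (Fin k → Fin d) × Fin K) (q : Fin m × (Fin k → Fin d) × Fin K) =>
    adm_bound ((hF i).2.1 q.1 q.2.1 q.2.2) A
  set C1 : ℝ := ∑ i, CR i with hC1
  set β : ℝ := ∑ i, ∑ q, CF i q with hβ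
  have hC1n : 0 ≤ C1 := Finset.sum_nonneg fun i _ => hCR i
  have hβn : 0 ≤ β := Finset.sum_nonneg fun i _ => Finset.sum_nonneg fun q _ => hCF i q
  have hCRle : ∀ i, CR i ≤ C1 := fun i =>
    Finset.single_le_sum (f := CR) (fun j _ => hCR j) (Finset.mem_univ i)
  have hCFle : ∀ i q, CF i q ≤ β := fun i q =>
    (Finset.single_le_sum (f := CF i) (fun j _ => hCF i j) (Finset.mem_univ q)).trans
      (Finset.single_le_sum (f := fun i => ∑ q, CF i q)
        (fun j _ => Finset.sum_nonneg fun q _ => hCF j q) (Finset.mem_univ i))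
  set n : ℝ := (Fintype.card ((Fin k → Fin d) × Fin K) : ℝ) with hn
  set N : ℝ := (Fintype.card (Fin m × (Fin k → Fin d) × Fin K) : ℝ) with hN
  have hn0 : 0 ≤ n := Nat.cast_nonneg _
  have hN0 : 0 ≤ N := Nat.cast_nonneg _
  set L : ℝ := n * N * β ^ 2 with hL
  have hL0 : 0 ≤ L := by positivity
  refine ⟨8 * n * C1 ^ 2 + 2 * L + 1, 1 / (1 + L), by positivity, by positivity, ?_, ?_⟩
  · rw [div_le_one (by positivity)]
    linarith
  intro s hs hs0 u hu hB S hS0 hS x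
  have hs1 : s ≤ 1 := hs0.trans (by
    rw [div_le_one (by positivity)]
    linarith)
  have hsL : s * (1 + L) ≤ 1 := by
    rwa [le_div_iff₀ (by positivity)] at hs0
  have hτ : 0 ≤ s ^ 2 / 2 := by positivity
  have hs2 : s ^ 2 ≤ s := by nlinarith
  have hsq := Real.sq_sqrt hS0
  have hsn := Real.sqrt_nonneg S
  have key := ene (fun i : (Fin k → Fin d) × Fin K => E1 D s u (pd (List.ofFn i.1) (u i.2)) x)
    (fun i => R i s u x + ∑ c, ∑ J, ∑ b, F i c J b s u x * Pc D s u c (pd (List.ofFn J) (u b)) x)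
    (fun q : Fin m × (Fin k → Fin d) × Fin K => Pc D s u q.1 (pd (List.ofFn q.2.1) (u q.2.2)) x)
    S (s ^ 2 / 2) (C1 * (1 + Real.sqrt S)) β hτ (by nlinarith) (by positivity) hβn
    (bessel_en D k s hs u S hS x) ?_ ?_
  · have e : en k (step D s u) x = ∑ i : (Fin k → Fin d) × Fin K,
        (E1 D s u (pd (List.ofFn i.1) (u i.2)) x + s ^ 2 / 2 * (R i s u x + ∑ c, ∑ J, ∑ b,
          F i c J b s u x * Pc D s u c (pd (List.ofFn J) (u b)) x)) ^ 2 := by
      unfold en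
      rw [Fintype.sum_prod_type]
      refine Finset.sum_congr rfl fun I _ => Finset.sum_congr rfl fun a _ => ?_
      rw [(hF (I, a)).2.2.2 s hs.ne' u hu x]
    rw [e]
    refine key.trans ?_
    have h1 : (C1 * (1 + Real.sqrt S)) ^ 2 ≤ 2 * C1 ^ 2 * (1 + S) := by
      have : (1 + Real.sqrt S) ^ 2 ≤ 2 * (1 + S) := by nlinarith [sq_nonneg (1 - Real.sqrt S)]
      calc (C1 * (1 + Real.sqrt S)) ^ 2 = C1 ^ 2 * (1 + Real.sqrt S) ^ 2 := by ring
        _ ≤ C1 ^ 2 * (2 * (1 + S)) := by gcongr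
        _ = _ := by ring
    have h2 : 4 * n * (C1 * (1 + Real.sqrt S)) ^ 2 + (2 * L + 1) * S ≤
        (8 * n * C1 ^ 2 + 2 * L + 1) * (1 + S) := by
      have h3 : 4 * n * (C1 * (1 + Real.sqrt S)) ^ 2 ≤ 4 * n * (2 * C1 ^ 2 * (1 + S)) := by gcongr
      nlinarith
    have h4 := mul_le_mul_of_nonneg_left h2 hτ
    linarith
  · intro i
    have hBk : Bd 1 A u := fun J hJ b y => hB J (hJ.trans (by omega)) b y
    have h1 := hR i s hs hs1 u hu hB S hS0 hS x
    have h2 : |∑ c, ∑ J, ∑ b, F i c J b s u x * Pc D s u c (pd (List.ofFn J) (u b)) x| ≤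
        β * ∑ q : Fin m × (Fin k → Fin d) × Fin K,
          |Pc D s u q.1 (pd (List.ofFn q.2.1) (u q.2.2)) x| := by
      have e2 : ∑ c, ∑ J, ∑ b, F i c J b s u x * Pc D s u c (pd (List.ofFn J) (u b)) x =
          ∑ q : Fin m × (Fin k → Fin d) × Fin K, F i q.1 q.2.1 q.2.2 s u x *
            Pc D s u q.1 (pd (List.ofFn q.2.1) (u q.2.2)) x := by
        rw [Fintype.sum_prod_type]
        refine Finset.sum_congr rfl fun c _ => ?_
        rw [Fintype.sum_prod_type]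
      rw [e2, Finset.mul_sum]
      refine (Finset.abs_sum_le_sum_abs _ _).trans (Finset.sum_le_sum fun q _ => ?_)
      rw [abs_mul]
      have h3 := hFb i q s hs hs1 u hu hBk x
      exact mul_le_mul_of_nonneg_right (h3.trans (hCFle i q)) (abs_nonneg _)
    have h4 : CR i * (1 + Real.sqrt S) ≤ C1 * (1 + Real.sqrt S) :=
      mul_le_mul_of_nonneg_right (hCRle i) (by positivity)
    exact (abs_add_le _ _).trans (add_le_add (h1.trans h4) h2)
  · have : s ^ 2 * L ≤ 1 := by nlinarith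
    have e3 : 2 * (s ^ 2 / 2) * (n * N * β ^ 2) = s ^ 2 * L := by rw [hL]; ring
    rw [← hn, ← hN, e3]
    exact this

end Pool.Agent.QPE
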