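import Pool.Agent.QPE.TAZ

/-!
MODULE ITP (interpolation).
`interp`: `taylor2` for the increments `h e_i`: `|f (x + h e_i) - f x - h pdv i f x| ≤ b h^2`, so `h |pdv i f x| ≤ 2 a + b h^2`.
`interp_all`: induction on `I`, for all `ε`: `I = []`: from `h0`.  Step `i :: I`: `pd (i :: I) f = pdv i (pd I f)`; apply `interp` to `pd I (f t t1)` with
`a = ε1 |t1 - t|` (induction hypothesis for `ε1`), `b = C |t1 - t|` (`h1` for the lists `i :: j :: I`, maximum over `i, j`): `|pdv i ..| ≤ (2 ε1 / h + C h) |t1 - t|`;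
choose `h = ε / (2 (C + 1))`, then `ε1 = ε h / 4`.
-/

namespace Pool.Agent.QPE

open scoped ContDiff BigOperators

variable {d K m : ℕ}

theorem interp {f : (Fin d → ℝ) → ℝ} (hf : ContDiff ℝ ∞ f) (a b : ℝ) (ha : ∀ x, |f x| ≤ a)
    (hb : ∀ i j x, |pd [i, j] f x| ≤ b) (h : ℝ) (hh : 0 < h) (i : Fin d) (x : Fin d → ℝ) :
    |pdv i f x| ≤ 2 * a / h + b * h := by
  have h1 := taylor2 hf b hb x (Pi.single i h)
  have h2 : ∑ j, (Pi.single i h : Fin d → ℝ) j * pd [j] f x = h * pdv i f x := by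
    rw [Finset.sum_eq_single i]
    · rw [Pi.single_eq_same]
      rfl
    · intro j _ hj
      rw [Pi.single_eq_of_ne hj, zero_mul]
    · intro hi
      exact absurd (Finset.mem_univ _) hi
  have h3 : ∑ j, |(Pi.single i h : Fin d → ℝ) j| = h := by
    rw [Finset.sum_eq_single i]
    · rw [Pi.single_eq_same, abs_of_pos hh]
    · intro j _ hj
      rw [Pi.single_eq_of_ne hj, abs_zero]
    · intro hi
      exact absurd (Finset.mem_univ _) hi
  rw [h2, h3] at h1
  have h4 := ha x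
  have h5 := ha (x + Pi.single i h)
  have h6 : |h * pdv i f x| ≤ 2 * a + b * h ^ 2 := by
    rw [abs_le] at h1 h4 h5 ⊢
    constructor <;> linarith [h1.1, h1.2, h4.1, h4.2, h5.1, h5.2]
  rw [abs_mul, abs_of_pos hh] at h6
  have h7 : |pdv i f x| = (h * |pdv i f x|) / h := by
    field_simp
  rw [h7]
  have h8 : 2 * a / h + b * h = (2 * a + b * h ^ 2) / h := by
    field_simp
  rw [h8]
  exact div_le_div_of_nonneg_right h6 hh.le

theorem interp_all (S : Set ℝ) (f : ℝ → ℝ → (Fin d → ℝ) → ℝ)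
    (hf : ∀ t ∈ S, ∀ t1 ∈ S, ContDiff ℝ ∞ (f t t1)) (C0 : ℝ)
    (h0 : ∀ t ∈ S, ∀ t1 ∈ S, ∀ x, |f t t1 x| ≤ C0 * |t1 - t| ^ 2)
    (h1 : ∀ I : List (Fin d), ∃ C : ℝ, ∀ t ∈ S, ∀ t1 ∈ S, ∀ x, |pd I (f t t1) x| ≤ C * |t1 - t|)
    (I : List (Fin d)) (ε : ℝ) (hε : 0 < ε) :
    ∃ η : ℝ, 0 < η ∧ ∀ t ∈ S, ∀ t1 ∈ S, |t1 - t| < η → ∀ x, |pd I (f t t1) x| ≤ ε * |t1 - t| := by
  induction I generalizing ε with
  | nil =>
    refine ⟨ε / (|C0| + 1), by positivity, fun t ht t1 ht1 hη x => ?_⟩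
    have h2 := h0 t ht t1 ht1 x
    change |f t t1 x| ≤ ε * |t1 - t|
    refine h2.trans ?_
    rw [pow_two, ← mul_assoc]
    refine mul_le_mul_of_nonneg_right ?_ (abs_nonneg _)
    have h3 : C0 * |t1 - t| ≤ (|C0| + 1) * |t1 - t| :=
      mul_le_mul_of_nonneg_right (by linarith [le_abs_self C0]) (abs_nonneg _)
    have h4 : (|C0| + 1) * |t1 - t| ≤ (|C0| + 1) * (ε / (|C0| + 1)) :=
      mul_le_mul_of_nonneg_left hη.le (by positivity)
    have h5 : (|C0| + 1) * (ε / (|C0| + 1)) = ε := by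
      field_simp
    linarith
  | cons i I ih =>
    choose Cf hCf using fun q : Fin d × Fin d => h1 ([q.1, q.2] ++ I)
    set C : ℝ := ∑ q : Fin d × Fin d, |Cf q| with hC
    have hC0 : 0 ≤ C := Finset.sum_nonneg fun q _ => abs_nonneg _
    set h : ℝ := ε / (2 * (C + 1)) with hh
    have hpos : 0 < h := by positivity
    obtain ⟨η, hη, hη2⟩ := ih (ε * h / 4) (by positivity)
    refine ⟨η, hη, fun t ht t1 ht1 hlt x => ?_⟩
    have h2 := interp (pd_contDiff (hf t ht t1 ht1) I) (ε * h / 4 * |t1 - t|) (C * |t1 - t|)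
      (hη2 t ht t1 ht1 hlt) (fun i j x => by
        rw [← pd_append]
        refine (hCf (i, j) t ht t1 ht1 x).trans ?_
        refine mul_le_mul_of_nonneg_right ?_ (abs_nonneg _)
        refine (le_abs_self _).trans ?_
        exact Finset.single_le_sum (f := fun q : Fin d × Fin d => |Cf q|)
          (fun q _ => abs_nonneg _) (Finset.mem_univ (i, j))) h hpos i x
    change |pdv i (pd I (f t t1)) x| ≤ ε * |t1 - t|
    refine h2.trans ?_
    have h3 : 2 * (ε * h / 4 * |t1 - t|) / h = ε / 2 * |t1 - t| := by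
      field_simp
      ring
    have h4 : C * h ≤ ε / 2 := by
      rw [hh]
      rw [mul_div_assoc', div_le_div_iff₀ (by positivity) (by norm_num)]
      nlinarith
    rw [h3]
    have h5 : C * |t1 - t| * h ≤ ε / 2 * |t1 - t| := by
      calc C * |t1 - t| * h = C * h * |t1 - t| := by ring
        _ ≤ ε / 2 * |t1 - t| := mul_le_mul_of_nonneg_right h4 (abs_nonneg _)
    linarith

end Pool.Agent.QPE
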