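import Pool.Agent.QPE.LOC

/-!
MODULE LOT (time derivatives of local functionals).
Proof.  Structural induction.  const: 0.  jet: hypothesis and `loc_pd` for `Aop_loc` (level `2 + |I|`).
base: `base_chain_time` with `v α r = u r α x` (`I = []` in the hypothesis), `p c β r = Σ_j σ_c^j (x, val (u r) x) pd [j] (u r β) x`; the time
derivatives of `pd [] (u r α) x` and of `pd [j] (u r β) x` are local functionals of `u t` of level `2`, `3` (`loc_pd`, `Aop_loc`); that of
`σ_c^j (x, val (u r) x)` again by `base_chain_time` for the base function `z ↦ σ_c^j (z.1, z.2.1)` (`base_sg`); partial derivatives of `g` and `σ`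
are base functions (level 1); total level `≤ 3`.  add, mul: sums, products (`HasDerivWithinAt.mul`).
-/

namespace Pool.Agent.QPE

open scoped ContDiff BigOperators

variable {d K m : ℕ}

private abbrev lotG (D : Dat d K m) (c : Fin m) (j : Fin d) : Arg d K m → ℝ :=
  fun z => D.sg c j (z.1, z.2.1)

private noncomputable def lotS (D : Dat d K m) (c : Fin m) (j : Fin d) : Sys d K → (Fin d → ℝ) → ℝ :=
  fun u x => ∑ α, gv α (lotG D c j) (larg D u x) * Aop D u α x

private theorem lotS_loc (D : Dat d K m) (c : Fin m) (j : Fin d) : Loc D 2 (lotS D c j) := by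
  refine loc_sum _ _ fun α _ => ?_
  exact Loc.mul (Loc.mono (by norm_num) (Loc.base _ (base_gv (base_sg D c j) α))) (Aop_loc D α)

private theorem lotS_deriv (D : Dat d K m) (c : Fin m) (j : Fin d) (J : Set ℝ) (u : ℝ → Sys d K)
    (hu : ∀ t ∈ J, ∀ (I : List (Fin d)) α x,
      HasDerivWithinAt (fun r => pd I (u r α) x) (pd I (Aop D (u t) α) x) J t)
    (t : ℝ) (ht : t ∈ J) (x : Fin d → ℝ) :
    HasDerivWithinAt (fun r => D.sg c j (x, val (u r) x)) (lotS D c j (u t) x) J t := by
  have h := base_chain_time (base_sg D c j).smooth x (fun α r => u r α x)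
    (fun c β _ => ∑ j, D.sg c j (x, val (u t) x) * pd [j] (u t β) x)
    (fun α => Aop D (u t) α x) (fun _ _ => 0) J t (fun α => hu t ht [] α x)
    (fun c β => hasDerivWithinAt_const _ _ _)
  have e : (∑ α, gv α (lotG D c j) (x, (fun α => u t α x),
        fun c β => ∑ j, D.sg c j (x, val (u t) x) * pd [j] (u t β) x) * Aop D (u t) α x)
      + ∑ c1, ∑ β, gp c1 β (lotG D c j) (x, (fun α => u t α x),
        fun c β => ∑ j, D.sg c j (x, val (u t) x) * pd [j] (u t β) x) * 0
      = lotS D c j (u t) x := by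
    simp only [mul_zero, Finset.sum_const_zero, add_zero]
    rfl
  rw [e] at h
  exact h

theorem loc_time {D : Dat d K m} {k : ℕ} {Ψ : Sys d K → (Fin d → ℝ) → ℝ} (h : Loc D k Ψ) :
    ∃ Θ : Sys d K → (Fin d → ℝ) → ℝ, Loc D (k + 2) Θ ∧
      ∀ (J : Set ℝ) (u : ℝ → Sys d K), (∀ t ∈ J, Smooth (u t)) →
        (∀ t ∈ J, ∀ (I : List (Fin d)) α x,
          HasDerivWithinAt (fun r => pd I (u r α) x) (pd I (Aop D (u t) α) x) J t) →
        ∀ t ∈ J, ∀ x, HasDerivWithinAt (fun r => Ψ (u r) x) (Θ (u t) x) J t := by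
  induction h with
  | const c =>
    refine ⟨fun _ _ => 0, Loc.mono (by norm_num) (Loc.const 0), ?_⟩
    intro J u _ _ t _ x
    exact hasDerivWithinAt_const _ _ _
  | base g hg =>
    choose Θ1 hΘ1 hΘe using fun (j : Fin d) (β : Fin K) => loc_pd (Aop_loc D β) [j]
    have hP : ∀ c β, Loc D 3 (fun u x => ∑ j, (lotS D c j u x * pd [j] (u β) x
        + D.sg c j (x, val u x) * Θ1 j β u x)) := by
      intro c β
      refine loc_sum _ _ fun j _ => ?_
      refine Loc.add (Loc.mul (Loc.mono (by norm_num) (lotS_loc D c j))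
        (Loc.mono (by simp) (Loc.jet [j] β))) (Loc.mul ?_ (Loc.mono (by simp) (hΘ1 j β)))
      exact Loc.mono (by norm_num) (Loc.base (lotG D c j) (base_sg D c j))
    refine ⟨fun u x => (∑ α, gv α g (larg D u x) * Aop D u α x)
      + ∑ c, ∑ β, gp c β g (larg D u x) * (∑ j, (lotS D c j u x * pd [j] (u β) x
        + D.sg c j (x, val u x) * Θ1 j β u x)), ?_, ?_⟩
    · refine Loc.add (loc_sum _ _ fun α _ => ?_) (loc_sum _ _ fun c _ => loc_sum _ _ fun β _ => ?_)
      · exact Loc.mono (by norm_num) (Loc.mul (Loc.mono (by norm_num)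
          (Loc.base _ (base_gv hg α))) (Aop_loc D α))
      · exact Loc.mul (Loc.mono (by norm_num) (Loc.base _ (base_gp hg c β))) (hP c β)
    · intro J u hs hu t ht x
      refine base_chain_time hg.smooth x (fun α r => u r α x)
        (fun c β r => ∑ j, D.sg c j (x, val (u r) x) * pd [j] (u r β) x)
        (fun α => Aop D (u t) α x)
        (fun c β => ∑ j, (lotS D c j (u t) x * pd [j] (u t β) x
          + D.sg c j (x, val (u t) x) * Θ1 j β (u t) x)) J t (fun α => hu t ht [] α x) ?_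
      intro c β
      refine HasDerivWithinAt.fun_sum fun j _ => ?_
      have h1 := lotS_deriv D c j J u hu t ht x
      have h2 := hu t ht [j] β x
      have h3 : pd [j] (Aop D (u t) β) x = Θ1 j β (u t) x := hΘe j β (u t) (hs t ht) x
      rw [h3] at h2
      exact h1.fun_mul h2
  | jet I α =>
    obtain ⟨Θ, hΘ, hΘe⟩ := loc_pd (Aop_loc D α) I
    refine ⟨Θ, Loc.mono (by omega) hΘ, ?_⟩
    intro J u hs hu t ht x
    have h2 := hu t ht I α x
    have h3 : pd I (Aop D (u t) α) x = Θ (u t) x := hΘe (u t) (hs t ht) x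
    rw [h3] at h2
    exact h2
  | add h1 h2 ih1 ih2 =>
    obtain ⟨Θ1, hΘ1, hd1⟩ := ih1
    obtain ⟨Θ2, hΘ2, hd2⟩ := ih2
    refine ⟨fun u x => Θ1 u x + Θ2 u x, Loc.add hΘ1 hΘ2, ?_⟩
    intro J u hs hu t ht x
    exact (hd1 J u hs hu t ht x).fun_add (hd2 J u hs hu t ht x)
  | mul h1 h2 ih1 ih2 =>
    obtain ⟨Θ1, hΘ1, hd1⟩ := ih1
    obtain ⟨Θ2, hΘ2, hd2⟩ := ih2
    refine ⟨_, Loc.add (Loc.mul hΘ1 (Loc.mono (by omega) h2))
      (Loc.mul (Loc.mono (by omega) h1) hΘ2), ?_⟩
    intro J u hs hu t ht x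
    exact (hd1 J u hs hu t ht x).fun_mul (hd2 J u hs hu t ht x)
  | mono hkl h ih =>
    obtain ⟨Θ, hΘ, hd⟩ := ih
    exact ⟨Θ, Loc.mono (by omega) hΘ, hd⟩

end Pool.Agent.QPE
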