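import Pool.Agent.QPE.TDR
import Pool.Agent.QPE.LOT

/-!
MODULE JNT (joint smoothness in time and space).
Proof.  Let `S = Icc 0 T ×ˢ univ`.  For a local functional `Ψ` put `F_Ψ (t,x) = Ψ (u t) x`.
(a) `F_Ψ` is continuous on `S`: `|Ψ (u t') x' - Ψ (u t) x| ≤ |Ψ (u t') x' - Ψ (u t') x| + |Ψ (u t') x - Ψ (u t) x|`, first by
`taylor1` with the uniform bound of the first derivatives (`loc_pdv`, `loc_bound`), second by `loc_lip` and `lip`.
(b) `F_Ψ` has at every `(t,x) ∈ S` the derivative within `S`  `(r,h) ↦ r Θ(t,x) + Σ_j h_j Ψ_j(t,x)`, `Θ` from `loc_time`, `Ψ_j` from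
`loc_pdv`: `F(t',x') - F(t,x) = [F(t',x') - F(t',x) - Σ h_j Ψ_j(t',x)] + Σ h_j (Ψ_j(t',x) - Ψ_j(t,x)) + [F(t',x) - F(t,x)]`, the first
bracket is `O(|h|^2)` uniformly in `t'` (`taylor2`), the second term is `O(|h| |t'-t|)`.
(c) induction on `n`: for all `Ψ`, `ContDiffOn ℝ n F_Ψ S`: `contDiffOn_succ_of_fderivWithin`/`contDiffOn_succ_iff_hasFDerivWithinAt`
(the derivative `(t,x) ↦ F_Θ(t,x) • fst + Σ_j F_{Ψ_j}(t,x) • (proj_j ∘ snd)` is `C^n` by induction); `S` has unique derivatives.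
-/

namespace Pool.Agent.QPE

open scoped ContDiff BigOperators Topology
open Asymptotics

variable {d K m : ℕ}

private theorem jnt_fderiv (J : Set ℝ) (G : ℝ → (Fin d → ℝ) → ℝ) (B C : ℝ) (hB0 : 0 ≤ B)
    (hC0 : 0 ≤ C) (hs : ∀ t ∈ J, ContDiff ℝ ∞ (G t))
    (hB : ∀ t ∈ J, ∀ i j x, |pd [i, j] (G t) x| ≤ B)
    (hC : ∀ t ∈ J, ∀ t1 ∈ J, ∀ j x, |pd [j] (G t1) x - pd [j] (G t) x| ≤ C * |t1 - t|)
    (t : ℝ) (ht : t ∈ J) (x : Fin d → ℝ) (θ : ℝ)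
    (hθ : HasDerivWithinAt (fun r => G r x) θ J t) :
    HasFDerivWithinAt (fun q : ℝ × (Fin d → ℝ) => G q.1 q.2)
      (θ • ContinuousLinearMap.fst ℝ ℝ (Fin d → ℝ) + ∑ j, pd [j] (G t) x •
        ((ContinuousLinearMap.proj j : (Fin d → ℝ) →L[ℝ] ℝ).comp
          (ContinuousLinearMap.snd ℝ ℝ (Fin d → ℝ)))) (J ×ˢ Set.univ) (t, x) := by
  have hL : ∀ q : ℝ × (Fin d → ℝ), (θ • ContinuousLinearMap.fst ℝ ℝ (Fin d → ℝ) +
      ∑ j, pd [j] (G t) x • ((ContinuousLinearMap.proj j : (Fin d → ℝ) →L[ℝ] ℝ).comp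
          (ContinuousLinearMap.snd ℝ ℝ (Fin d → ℝ)))) q = θ * q.1 + ∑ j, pd [j] (G t) x * q.2 j := by
    intro q
    simp
  apply HasFDerivWithinAt.of_isLittleO
  set M : ℝ := B * (d : ℝ) ^ 2 + C * d with hM
  have hM0 : 0 ≤ M := by positivity
  have h1 : (fun q : ℝ × (Fin d → ℝ) => G q.1 q.2 - G q.1 x - ∑ j, (q.2 j - x j) * pd [j] (G t) x)
      =o[𝓝[J ×ˢ Set.univ] (t, x)] fun q => q - (t, x) := by
    have h2 : (fun q : ℝ × (Fin d → ℝ) => G q.1 q.2 - G q.1 x -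
        ∑ j, (q.2 j - x j) * pd [j] (G t) x)
        =O[𝓝[J ×ˢ Set.univ] (t, x)] fun q => ‖q - (t, x)‖ ^ 2 := by
      refine IsBigO.of_bound M ?_
      filter_upwards [self_mem_nhdsWithin] with q hq
      have hqJ : q.1 ∈ J := hq.1
      have hnx : ∀ j, |q.2 j - x j| ≤ ‖q - (t, x)‖ := by
        intro j
        have h3 : ‖(q.2 - x) j‖ ≤ ‖q.2 - x‖ := norm_le_pi_norm (q.2 - x) j
        have h4 : ‖q.2 - x‖ ≤ ‖q - (t, x)‖ := norm_snd_le (q - (t, x))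
        rw [Pi.sub_apply, Real.norm_eq_abs] at h3
        exact h3.trans h4
      have hnt : |q.1 - t| ≤ ‖q - (t, x)‖ := by
        have h4 : ‖q.1 - t‖ ≤ ‖q - (t, x)‖ := norm_fst_le (q - (t, x))
        rwa [Real.norm_eq_abs] at h4
      have hsum : ∑ j, |(q.2 - x) j| ≤ d * ‖q - (t, x)‖ := by
        refine (Finset.sum_le_card_nsmul _ _ ‖q - (t, x)‖ fun j _ => hnx j).trans ?_
        rw [Finset.card_univ, Fintype.card_fin, nsmul_eq_mul]
      have hsum0 : 0 ≤ ∑ j, |(q.2 - x) j| := Finset.sum_nonneg fun j _ => abs_nonneg _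
      have h5 := taylor2 (hs q.1 hqJ) B (hB q.1 hqJ) x (q.2 - x)
      rw [add_sub_cancel] at h5
      have h6 : |∑ j, (q.2 - x) j * (pd [j] (G q.1) x - pd [j] (G t) x)| ≤
          (∑ j, |(q.2 - x) j|) * (C * |q.1 - t|) := by
        rw [Finset.sum_mul]
        refine (Finset.abs_sum_le_sum_abs _ _).trans (Finset.sum_le_sum fun j _ => ?_)
        rw [abs_mul]
        exact mul_le_mul_of_nonneg_left (hC t ht q.1 hqJ j x) (abs_nonneg _)
      have h7 : G q.1 q.2 - G q.1 x - ∑ j, (q.2 j - x j) * pd [j] (G t) x =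
          (G q.1 q.2 - G q.1 x - ∑ j, (q.2 - x) j * pd [j] (G q.1) x) +
          ∑ j, (q.2 - x) j * (pd [j] (G q.1) x - pd [j] (G t) x) := by
        simp only [mul_sub, Finset.sum_sub_distrib, Pi.sub_apply]
        ring
      rw [h7, Real.norm_eq_abs]
      refine (abs_add_le _ _).trans ?_
      have h8 : B * (∑ j, |(q.2 - x) j|) ^ 2 ≤ B * (d * ‖q - (t, x)‖) ^ 2 :=
        mul_le_mul_of_nonneg_left (pow_le_pow_left₀ hsum0 hsum 2) hB0
      have h9 : (∑ j, |(q.2 - x) j|) * (C * |q.1 - t|) ≤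
          (d * ‖q - (t, x)‖) * (C * ‖q - (t, x)‖) :=
        mul_le_mul hsum (mul_le_mul_of_nonneg_left hnt hC0) (by positivity) (by positivity)
      have h10 : ‖‖q - (t, x)‖ ^ 2‖ = ‖q - (t, x)‖ ^ 2 := by
        rw [Real.norm_eq_abs, abs_of_nonneg (by positivity)]
      rw [h10, hM]
      calc _ ≤ B * (d * ‖q - (t, x)‖) ^ 2 + (d * ‖q - (t, x)‖) * (C * ‖q - (t, x)‖) :=
            add_le_add (h5.trans h8) (h6.trans h9)
        _ = _ := by ring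
    refine h2.trans_isLittleO ?_
    have h3 : (fun y : ℝ × (Fin d → ℝ) => ‖y‖ ^ 2) =o[𝓝 0] fun y => y :=
      isLittleO_norm_pow_id one_lt_two
    refine h3.comp_tendsto ?_
    have h4 : Filter.Tendsto (fun q : ℝ × (Fin d → ℝ) => q - (t, x)) (𝓝 (t, x)) (𝓝 ((t, x) - (t, x))) :=
      (continuous_id.sub continuous_const).tendsto _
    rw [sub_self] at h4
    exact h4.mono_left nhdsWithin_le_nhds
  have h2 : (fun q : ℝ × (Fin d → ℝ) => G q.1 x - G t x - (q.1 - t) * θ)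
      =o[𝓝[J ×ˢ Set.univ] (t, x)] fun q => q - (t, x) := by
    have h3 := hasDerivWithinAt_iff_isLittleO.1 hθ
    have h4 : Filter.Tendsto (fun q : ℝ × (Fin d → ℝ) => q.1) (𝓝[J ×ˢ Set.univ] (t, x)) (𝓝[J] t) := by
      refine tendsto_nhdsWithin_of_tendsto_nhds_of_eventually_within _ ?_ ?_
      · exact (continuous_fst.tendsto (t, x)).mono_left nhdsWithin_le_nhds
      · filter_upwards [self_mem_nhdsWithin] with q hq
        exact hq.1
    have h5 := h3.comp_tendsto h4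
    have h6 : ((fun x' => x' - t) ∘ fun q : ℝ × (Fin d → ℝ) => q.1)
        =O[𝓝[J ×ˢ Set.univ] (t, x)] fun q => q - (t, x) := by
      refine IsBigO.of_bound 1 (Filter.Eventually.of_forall fun q => ?_)
      rw [one_mul]
      exact norm_fst_le (q - (t, x))
    exact h5.trans_isBigO h6
  refine (h1.add h2).congr_left fun q => ?_
  rw [hL]
  simp only [Prod.fst_sub, Prod.snd_sub, Pi.sub_apply]
  have h8 : ∑ j, pd [j] (G t) x * (q.2 j - x j) = ∑ j, (q.2 j - x j) * pd [j] (G t) x :=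
    Finset.sum_congr rfl fun j _ => mul_comm _ _
  rw [h8]
  ring

private theorem jnt_lip (D : Dat d K m) (T : ℝ) (u : ℝ → Sys d K)
    (hs : ∀ t ∈ Set.Icc 0 T, Smooth (u t))
    (hbd : ∀ k, ∃ A : ℝ, ∀ t ∈ Set.Icc 0 T, Bd k A (u t))
    (hd : ∀ t ∈ Set.Icc 0 T, ∀ (I : List (Fin d)) α x,
      HasDerivWithinAt (fun r => pd I (u r α) x) (pd I (Aop D (u t) α) x) (Set.Icc 0 T) t)
    (k : ℕ) : ∃ C : ℝ, 0 ≤ C ∧ ∀ I : List (Fin d), I.length ≤ k →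
      ∀ t ∈ Set.Icc 0 T, ∀ t1 ∈ Set.Icc 0 T, ∀ α x,
        |pd I (u t1 α) x - pd I (u t α) x| ≤ C * |t1 - t| := by
  have h1 : ∀ q : List (Fin d) × Fin K, ∃ C : ℝ, 0 ≤ C ∧ ∀ t ∈ Set.Icc 0 T, ∀ t1 ∈ Set.Icc 0 T,
      ∀ x, |pd q.1 (u t1 q.2) x - pd q.1 (u t q.2) x| ≤ C * |t1 - t| := by
    rintro ⟨I, α⟩
    obtain ⟨Θ, hΘ, hΘ2⟩ := loc_pd (Aop_loc D α) I
    obtain ⟨A, hA⟩ := hbd (2 + I.length)
    obtain ⟨C, hC0, hC⟩ := loc_bound hΘ A
    refine ⟨C, hC0, fun t ht t1 ht1 x => ?_⟩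
    have h2 := Convex.norm_image_sub_le_of_norm_hasDerivWithin_le
      (f := fun r => pd I (u r α) x) (f' := fun r => pd I (Aop D (u r) α) x) (C := C)
      (s := Set.Icc 0 T) (x := t) (y := t1)
      (fun r hr => hd r hr I α x) (fun r hr => by
        have h3 : pd I (Aop D (u r) α) x = Θ (u r) x := hΘ2 (u r) (hs r hr) x
        rw [h3, Real.norm_eq_abs]
        exact hC (u r) (hA r hr) x) (convex_Icc 0 T) ht ht1
    rw [Real.norm_eq_abs, Real.norm_eq_abs] at h2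
    exact h2
  choose C hC0 hC using h1
  have hfin : {I : List (Fin d) | I.length ≤ k}.Finite := List.finite_length_le _ _
  refine ⟨∑ I ∈ hfin.toFinset, ∑ α, C (I, α),
    Finset.sum_nonneg fun I _ => Finset.sum_nonneg fun α _ => hC0 _,
    fun I hI t ht t1 ht1 α x => (hC (I, α) t ht t1 ht1 x).trans ?_⟩
  refine mul_le_mul_of_nonneg_right ?_ (abs_nonneg _)
  refine (Finset.single_le_sum (f := fun α => C (I, α)) (fun α _ => hC0 _)
    (Finset.mem_univ α)).trans ?_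
  exact Finset.single_le_sum (f := fun I => ∑ α, C (I, α))
    (fun I _ => Finset.sum_nonneg fun α _ => hC0 _)
    (by rw [Set.Finite.mem_toFinset]; exact hI)

private theorem jnt_all (D : Dat d K m) (T : ℝ) (hT : 0 < T) (u : ℝ → Sys d K)
    (hs : ∀ t ∈ Set.Icc 0 T, Smooth (u t))
    (hbd : ∀ k, ∃ A : ℝ, ∀ t ∈ Set.Icc 0 T, Bd k A (u t))
    (hd : ∀ t ∈ Set.Icc 0 T, ∀ (I : List (Fin d)) α x,
      HasDerivWithinAt (fun r => pd I (u r α) x) (pd I (Aop D (u t) α) x) (Set.Icc 0 T) t)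
    (n : ℕ) : ∀ {k : ℕ} {Ψ : Sys d K → (Fin d → ℝ) → ℝ}, Loc D k Ψ →
    ContDiffOn ℝ n (fun q : ℝ × (Fin d → ℝ) => Ψ (u q.1) q.2) (Set.Icc 0 T ×ˢ Set.univ) := by
  have key : ∀ {k : ℕ} {Ψ : Sys d K → (Fin d → ℝ) → ℝ}, Loc D k Ψ →
      ∃ (k1 : ℕ) (Θ : Sys d K → (Fin d → ℝ) → ℝ) (Θj : Fin d → Sys d K → (Fin d → ℝ) → ℝ),
        Loc D k1 Θ ∧ (∀ j, Loc D (k + 1) (Θj j)) ∧
        ∀ q ∈ Set.Icc 0 T ×ˢ (Set.univ : Set (Fin d → ℝ)),
          HasFDerivWithinAt (fun q : ℝ × (Fin d → ℝ) => Ψ (u q.1) q.2)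
            (Θ (u q.1) q.2 • ContinuousLinearMap.fst ℝ ℝ (Fin d → ℝ) + ∑ j, Θj j (u q.1) q.2 •
              ((ContinuousLinearMap.proj j : (Fin d → ℝ) →L[ℝ] ℝ).comp
                (ContinuousLinearMap.snd ℝ ℝ (Fin d → ℝ)))) (Set.Icc 0 T ×ˢ Set.univ) q := by
    intro k Ψ hΨ
    obtain ⟨Θ, hΘ, hΘ2⟩ := loc_time hΨ
    choose Θj hΘj hΘj2 using fun j => loc_pdv hΨ j
    choose Θij hΘij hΘij2 using fun q : Fin d × Fin d => loc_pd hΨ [q.1, q.2]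
    refine ⟨k + 2, Θ, Θj, hΘ, hΘj, fun q hq => ?_⟩
    obtain ⟨t, x⟩ := q
    have ht : t ∈ Set.Icc 0 T := hq.1
    obtain ⟨A2, hA2⟩ := hbd (k + 2)
    obtain ⟨A1, hA1⟩ := hbd (k + 1)
    obtain ⟨C1, hC1, hC1'⟩ := jnt_lip D T u hs hbd hd (k + 1)
    choose Bf hBf0 hBf using fun q : Fin d × Fin d => loc_bound (hΘij q) A2
    choose Cf hCf0 hCf using fun j => loc_lip (hΘj j) A1
    have hθ := hΘ2 (Set.Icc 0 T) u hs hd t ht x
    have h1 := jnt_fderiv (Set.Icc 0 T) (fun r => Ψ (u r)) (∑ q, Bf q) (∑ j, Cf j * C1)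
      (Finset.sum_nonneg fun q _ => hBf0 q)
      (Finset.sum_nonneg fun j _ => mul_nonneg (hCf0 j) hC1)
      (fun t ht => loc_contDiff hΨ (hs t ht))
      (fun t ht i j x => by
        rw [hΘij2 (i, j) (u t) (hs t ht) x]
        refine (hBf (i, j) (u t) (hA2 t ht) x).trans ?_
        exact Finset.single_le_sum (fun q _ => hBf0 q) (Finset.mem_univ (i, j)))
      (fun t ht t1 ht1 j x => by
        have e1 : pd [j] (Ψ (u t1)) x = Θj j (u t1) x := hΘj2 j (u t1) (hs t1 ht1) x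
        have e2 : pd [j] (Ψ (u t)) x = Θj j (u t) x := hΘj2 j (u t) (hs t ht) x
        rw [e1, e2]
        refine (hCf j (u t1) (u t) (hA1 t1 ht1) (hA1 t ht) (C1 * |t1 - t|)
          (mul_nonneg hC1 (abs_nonneg _)) x
          (fun I hI β => hC1' I hI t ht t1 ht1 β x)).trans ?_
        rw [← mul_assoc]
        refine mul_le_mul_of_nonneg_right ?_ (abs_nonneg _)
        exact Finset.single_le_sum (f := fun j => Cf j * C1)
          (fun j _ => mul_nonneg (hCf0 j) hC1) (Finset.mem_univ j))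
      t ht x (Θ (u t) x) hθ
    have h2 : ∀ j, pd [j] (Ψ (u t)) x = Θj j (u t) x := fun j => hΘj2 j (u t) (hs t ht) x
    simp only [h2] at h1
    exact h1
  have hud : UniqueDiffOn ℝ (Set.Icc 0 T ×ˢ (Set.univ : Set (Fin d → ℝ))) :=
    (uniqueDiffOn_Icc hT).prod uniqueDiffOn_univ
  induction n with
  | zero =>
    intro k Ψ hΨ
    obtain ⟨k1, Θ, Θj, -, -, h1⟩ := key hΨ
    have h2 : ContinuousOn (fun q : ℝ × (Fin d → ℝ) => Ψ (u q.1) q.2)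
        (Set.Icc 0 T ×ˢ Set.univ) := fun q hq => (h1 q hq).continuousWithinAt
    exact contDiffOn_zero.2 h2
  | succ n ih =>
    intro k Ψ hΨ
    obtain ⟨k1, Θ, Θj, hΘ, hΘj, h1⟩ := key hΨ
    have h2 : ContDiffOn ℝ ((n : WithTop ℕ∞) + 1) (fun q : ℝ × (Fin d → ℝ) => Ψ (u q.1) q.2)
        (Set.Icc 0 T ×ˢ Set.univ) := by
      rw [contDiffOn_succ_iff_hasFDerivWithinAt_of_uniqueDiffOn hud]
      refine ⟨fun hn => absurd hn (by simp), _, ?_, h1⟩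
      refine ContDiffOn.add ((ih hΘ).smul contDiffOn_const) ?_
      exact ContDiffOn.sum fun j _ => (ih (hΘj j)).smul contDiffOn_const
    exact_mod_cast h2

theorem joint_smooth_of (D : Dat d K m) (T : ℝ) (hT : 0 < T) (u : ℝ → Sys d K)
    (hs : ∀ t ∈ Set.Icc 0 T, Smooth (u t))
    (hbd : ∀ k, ∃ A : ℝ, ∀ t ∈ Set.Icc 0 T, Bd k A (u t))
    (hd : ∀ t ∈ Set.Icc 0 T, ∀ (I : List (Fin d)) α x,
      HasDerivWithinAt (fun r => pd I (u r α) x) (pd I (Aop D (u t) α) x) (Set.Icc 0 T) t)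
    {k : ℕ} {Ψ : Sys d K → (Fin d → ℝ) → ℝ} (hΨ : Loc D k Ψ) :
    ContDiffOn ℝ ∞ (fun q : ℝ × (Fin d → ℝ) => Ψ (u q.1) q.2) (Set.Icc 0 T ×ˢ Set.univ) := by
  rw [contDiffOn_infty]
  intro n
  exact jnt_all D T hT u hs hbd hd n hΨ

theorem joint_smooth (D : Dat d K m) (u0 : Sys d K) (T δ : ℝ) (hT : 0 < T) (u : ℝ → Sys d K)
    (h : Lim D u0 T δ u) {k : ℕ} {Ψ : Sys d K → (Fin d → ℝ) → ℝ} (hΨ : Loc D k Ψ) :
    ContDiffOn ℝ ∞ (fun q : ℝ × (Fin d → ℝ) => Ψ (u q.1) q.2) (Set.Icc 0 T ×ˢ Set.univ) :=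
  joint_smooth_of D T hT u h.smooth h.bd (time_deriv D u0 T δ hT u h) hΨ

end Pool.Agent.QPE
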