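import Pool.Agent.QPE.BOT

/-!
MODULE LEV (uniform bounds for all orders on the same time interval).
Proof.  Induction on `k`.  `k ≤ 2`: hypothesis.  `k ≥ 3`, `A` := bound of order `≤ k-1`:
`grow D k` gives `C, s1` (`max (k-1) 2 = k-1`); put `S 0` := bound of `en k u0` (`hb`, `en_le_of_Lv`), `S (n+1) = S n + s^2/2 C (1 + S n)`; by induction
on `n` `en k (iter n) x ≤ S n` and `1 + S n = (1 + S 0) (1 + s^2/2 C)^n ≤ (1 + S 0) exp (C T)`
(`Real.add_one_le_exp`).  Each derivative of order `k` is `≤ sqrt ((1 + S 0) exp (C T))` (`abs_le_sqrt_en`).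
-/

namespace Pool.Agent.QPE

open scoped ContDiff BigOperators

variable {d K m : ℕ}

private theorem lev_step (D : Dat d K m) (u0 : Sys d K) (hu0 : Smooth u0)
    (hb : ∀ (I : List (Fin d)) α, ∃ C, ∀ x, |pd I (u0 α) x| ≤ C) (T s0 : ℝ) (hT : 0 < T)
    (k : ℕ) (hk : 2 ≤ k)
    (ih : ∃ A1 s1 : ℝ, 0 ≤ A1 ∧ 0 < s1 ∧ s1 ≤ s0 ∧ ∀ s : ℝ, 0 < s → s ≤ s1 → ∀ n : ℕ,
      n * (s ^ 2 / 2) ≤ T → Bd k A1 (iter D s u0 n)) :
    ∃ A1 s1 : ℝ, 0 ≤ A1 ∧ 0 < s1 ∧ s1 ≤ s0 ∧ ∀ s : ℝ, 0 < s → s ≤ s1 → ∀ n : ℕ,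
      n * (s ^ 2 / 2) ≤ T → Bd (k + 1) A1 (iter D s u0 n) := by
  obtain ⟨A1, s1, hA1, hs1, hs10, h1⟩ := ih
  obtain ⟨C, s2, hC, hs2, -, h2⟩ := grow D (k + 1) (by omega) A1
  choose Cc hCc using hb
  obtain ⟨S0, hS0, hS0b⟩ : ∃ S0 : ℝ, 0 ≤ S0 ∧ ∀ x, en (k + 1) u0 x ≤ S0 := by
    refine ⟨∑ I : Fin (k + 1) → Fin d, ∑ α, (Cc (List.ofFn I) α) ^ 2, ?_, fun x => ?_⟩
    · exact Finset.sum_nonneg fun I _ => Finset.sum_nonneg fun α _ => sq_nonneg _
    · unfold en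
      refine Finset.sum_le_sum fun I _ => Finset.sum_le_sum fun α _ => ?_
      rw [← sq_abs]
      exact pow_le_pow_left₀ (abs_nonneg _) (hCc _ _ x) 2
  have hmax : max (k + 1 - 1) 2 = k := by
    rw [Nat.add_sub_cancel]
    exact max_eq_left hk
  have key : ∀ s : ℝ, 0 < s → s ≤ min s1 s2 → ∀ n : ℕ, n * (s ^ 2 / 2) ≤ T →
      ∀ x, en (k + 1) (iter D s u0 n) x ≤ (1 + S0) * (1 + s ^ 2 / 2 * C) ^ n - 1 := by
    intro s hs hs' n
    induction n with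
    | zero =>
      intro _ x
      have e : iter D s u0 0 = u0 := rfl
      rw [e, pow_zero, mul_one]
      linarith [hS0b x]
    | succ n ihn =>
      intro hn x
      have hτ : 0 < s ^ 2 / 2 := by positivity
      have hn' : (n : ℝ) * (s ^ 2 / 2) ≤ T := by
        refine le_trans ?_ hn
        push_cast
        nlinarith
      have e : iter D s u0 (n + 1) = step D s (iter D s u0 n) := by
        unfold iter
        rw [Function.iterate_succ_apply']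
      have h3 := ihn hn'
      have h4 : 1 ≤ (1 + s ^ 2 / 2 * C) ^ n :=
        one_le_pow₀ (by have := mul_nonneg hτ.le hC; linarith)
      have h5 : 0 ≤ (1 + S0) * (1 + s ^ 2 / 2 * C) ^ n - 1 := by nlinarith
      have h6 := h2 s hs (hs'.trans (min_le_right _ _)) (iter D s u0 n) (iter_smooth D s u0 hu0 n)
        (by rw [hmax]; exact h1 s hs (hs'.trans (min_le_left _ _)) n hn') _ h5 h3 x
      rw [e]
      refine h6.trans (le_of_eq ?_)
      rw [pow_succ]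
      ring
  refine ⟨max A1 (Real.sqrt ((1 + S0) * Real.exp (T * C))), min s1 s2, le_max_of_le_left hA1,
    lt_min hs1 hs2, (min_le_left _ _).trans hs10, ?_⟩
  intro s hs hs' n hn I hI α x
  rcases Nat.lt_or_ge I.length (k + 1) with hlt | hge
  · exact (h1 s hs (hs'.trans (min_le_left _ _)) n hn I (by omega) α x).trans (le_max_left _ _)
  · have hIk : I.length = k + 1 := le_antisymm hI hge
    refine le_trans ?_ (le_max_right _ _)
    refine abs_le_sqrt_en (k + 1) (iter D s u0 n) _ (fun y => ?_) I hIk α x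
    refine (key s hs hs' n hn y).trans ?_
    have hτ : 0 < s ^ 2 / 2 := by positivity
    have h7 : (1 + s ^ 2 / 2 * C) ^ n ≤ Real.exp (T * C) := by
      calc (1 + s ^ 2 / 2 * C) ^ n ≤ (Real.exp (s ^ 2 / 2 * C)) ^ n := by
            refine pow_le_pow_left₀ (by have := mul_nonneg hτ.le hC; linarith) ?_ n
            have := Real.add_one_le_exp (s ^ 2 / 2 * C)
            linarith
        _ = Real.exp (n * (s ^ 2 / 2 * C)) := by rw [← Real.exp_nat_mul]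
        _ ≤ Real.exp (T * C) := by
            refine Real.exp_le_exp.2 ?_
            calc (n : ℝ) * (s ^ 2 / 2 * C) = (n * (s ^ 2 / 2)) * C := by ring
              _ ≤ T * C := mul_le_mul_of_nonneg_right hn hC
    have h8 : (1 + S0) * (1 + s ^ 2 / 2 * C) ^ n ≤ (1 + S0) * Real.exp (T * C) :=
      mul_le_mul_of_nonneg_left h7 (by linarith)
    linarith

theorem levels (D : Dat d K m) (u0 : Sys d K) (hu0 : Smooth u0)
    (hb : ∀ (I : List (Fin d)) α, ∃ C, ∀ x, |pd I (u0 α) x| ≤ C) (T A s0 : ℝ) (hT : 0 < T)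
    (hs0 : 0 < s0) (hs1 : s0 ≤ 1)
    (h : ∀ s : ℝ, 0 < s → s ≤ s0 → ∀ n : ℕ, n * (s ^ 2 / 2) ≤ T → Bd 2 A (iter D s u0 n))
    (k : ℕ) :
    ∃ A1 s1 : ℝ, 0 ≤ A1 ∧ 0 < s1 ∧ s1 ≤ s0 ∧ ∀ s : ℝ, 0 < s → s ≤ s1 → ∀ n : ℕ,
      n * (s ^ 2 / 2) ≤ T → Bd k A1 (iter D s u0 n) := by
  have base : ∀ k ≤ 2, ∃ A1 s1 : ℝ, 0 ≤ A1 ∧ 0 < s1 ∧ s1 ≤ s0 ∧ ∀ s : ℝ, 0 < s → s ≤ s1 →
      ∀ n : ℕ, n * (s ^ 2 / 2) ≤ T → Bd k A1 (iter D s u0 n) := by
    intro k hk
    refine ⟨max A 0, s0, le_max_right _ _, hs0, le_rfl, fun s hs hs' n hn I hI α x => ?_⟩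
    exact (h s hs hs' n hn I (hI.trans hk) α x).trans (le_max_left _ _)
  rcases Nat.lt_or_ge k 2 with hk | hk
  · exact base k hk.le
  · induction k, hk using Nat.le_induction with
    | base => exact base 2 le_rfl
    | succ k hk ih => exact lev_step D u0 hu0 hb T s0 hT k hk ih

end Pool.Agent.QPE
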