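import Pool.Agent.QPE.FIN

/-!
MODULE LNA (linear systems: scaling of solutions).
Proof.  `pd I (fun y => r * u β y) = r * pd I (u β)` (`pd_const_mul`).  `Aop_smul`: `σ`, `b` do not depend on `v`; in `Q` the argument is
`(x, r • v, r • p)` (`funext`, `Finset.mul_sum`).  `Sol.smul`: componentwise; derivative: `HasDerivWithinAt.const_mul`, and
`Aop D (r u) α = r * Aop D u α` as functions of `x`, `pd_const_mul` (`Aop D u α` is smooth: `loc_contDiff`, `Aop_loc`).
-/

namespace Pool.Agent.QPE

open scoped ContDiff BigOperators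

variable {d K m : ℕ}

/-- linear systems: coefficients of the principal part independent of `u`, `Q` homogeneous -/
structure IsLin (D : Dat d K m) : Prop where
  sg_lin : ∀ c j x v v1, D.sg c j (x, v) = D.sg c j (x, v1)
  b_lin : ∀ j x v v1, D.b j (x, v) = D.b j (x, v1)
  Q_hom : ∀ α x v p (r : ℝ), D.Q α (x, r • v, r • p) = r * D.Q α (x, v, p)

theorem Aop_smul {D : Dat d K m} (hL : IsLin D) {u : Sys d K} (hu : Smooth u) (r : ℝ)
    (α : Fin K) (x : Fin d → ℝ) : Aop D (fun β y => r * u β y) α x = r * Aop D u α x := by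
  have hpd : ∀ (I : List (Fin d)) β, pd I (fun y => r * u β y) x = r * pd I (u β) x :=
    fun I β => pd_const_mul (hu β) r I x
  have hs : ∀ c j, D.sg c j (x, val (fun β y => r * u β y) x) = D.sg c j (x, val u x) :=
    fun c j => hL.sg_lin c j x _ _
  have hb : ∀ j, D.b j (x, val (fun β y => r * u β y) x) = D.b j (x, val u x) :=
    fun j => hL.b_lin j x _ _
  unfold Aop
  simp only [hs, hb, hpd]
  have hv : val (fun β y => r * u β y) x = r • val u x := by
    funext β; simp [val]
  have hp : (fun (c : Fin m) (β : Fin K) => ∑ j, D.sg c j (x, val u x) * (r * pd [j] (u β) x)) =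
      r • (fun (c : Fin m) (β : Fin K) => ∑ j, D.sg c j (x, val u x) * pd [j] (u β) x) := by
    funext c β
    simp only [Pi.smul_apply, smul_eq_mul, Finset.mul_sum]
    exact Finset.sum_congr rfl fun j _ => by ring
  rw [hv, hp, hL.Q_hom, mul_add, mul_add]
  congr 1
  congr 1
  · simp only [Finset.mul_sum]
    refine Finset.sum_congr rfl fun c _ => Finset.sum_congr rfl fun i _ =>
      Finset.sum_congr rfl fun j _ => by ring
  · simp only [Finset.mul_sum]
    exact Finset.sum_congr rfl fun j _ => by ring

theorem Sol.smul {D : Dat d K m} (hL : IsLin D) {u0 : Sys d K} {T : ℝ} (hT : 0 < T)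
    {u : ℝ → Sys d K} (h : Sol D u0 T u) (r : ℝ) :
    Sol D (fun α x => r * u0 α x) T (fun t α x => r * u t α x) := by
  refine ⟨fun t ht α => contDiff_const.mul (h.smooth t ht α), ?_, fun k => ?_,
    fun t ht I α x => ?_⟩
  · show (fun α x => r * u 0 α x) = _
    rw [h.init]
  · obtain ⟨A, hA⟩ := h.bd k
    refine ⟨|r| * A, fun t ht I hI α x => ?_⟩
    show |pd I (fun y => r * u t α y) x| ≤ _
    rw [pd_const_mul (h.smooth t ht α), abs_mul]
    exact mul_le_mul_of_nonneg_left (hA t ht I hI α x) (abs_nonneg r)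
  · have h1 := (h.deriv t ht I α x).const_mul r
    have h2 : (Aop D (fun β y => r * u t β y) α) = fun y => r * Aop D (u t) α y :=
      funext fun y => Aop_smul hL (h.smooth t ht) r α y
    have h3 : ContDiff ℝ ∞ (Aop D (u t) α) := loc_contDiff (Aop_loc D α) (h.smooth t ht)
    show HasDerivWithinAt (fun s => pd I (fun y => r * u s α y) x)
      (pd I (Aop D (fun β y => r * u t β y) α) x) (Set.Icc 0 T) t
    rw [h2, pd_const_mul h3]
    refine h1.congr (fun s hs => ?_) ?_
    · exact pd_const_mul (h.smooth s hs α) r I x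
    · exact pd_const_mul (h.smooth t ht α) r I x

end Pool.Agent.QPE
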