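import Pool.Agent.QPE.FIN

/-!
MODULE LNB (gluing and restriction of solutions).
`glue`: for `t < T1` and `t > T1` the function `if t ≤ T1 then u t else w (t - T1)` agrees near `t` (within the interval) with one of the two
pieces; at `t = T1` both one sided derivatives exist and are equal to `pd I (Aop D (u T1) α) x` because `w 0 = u T1`
(`HasDerivWithinAt.union` on `Icc 0 T1 ∪ Icc T1 (T1+T2)`, `HasDerivWithinAt.congr`, shift of the variable `r ↦ r - T1`:
`HasDerivWithinAt.comp_sub_const` or `HasDerivWithinAt.scomp`).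
`restrict`: `HasDerivWithinAt.mono`.
-/

namespace Pool.Agent.QPE

open scoped ContDiff BigOperators

variable {d K m : ℕ}

/-- gluing of two real functions -/
private theorem LNB_glue {f g f1 g1 : ℝ → ℝ} {T1 T2 : ℝ} (h1 : 0 < T1) (h2 : 0 < T2)
    (hf : ∀ t ∈ Set.Icc 0 T1, HasDerivWithinAt f (f1 t) (Set.Icc 0 T1) t)
    (hg : ∀ t ∈ Set.Icc 0 T2, HasDerivWithinAt g (g1 t) (Set.Icc 0 T2) t)
    (h0 : f T1 = g 0) (h01 : f1 T1 = g1 0) (t : ℝ) (ht : t ∈ Set.Icc 0 (T1 + T2)) :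
    HasDerivWithinAt (fun r => if r ≤ T1 then f r else g (r - T1))
      (if t ≤ T1 then f1 t else g1 (t - T1)) (Set.Icc 0 (T1 + T2)) t := by
  have hshift : ∀ t ∈ Set.Icc T1 (T1 + T2),
      HasDerivWithinAt (fun r => g (r - T1)) (g1 (t - T1)) (Set.Icc T1 (T1 + T2)) t := by
    intro t ht
    have hA : HasDerivWithinAt (fun r : ℝ => r - T1) 1 (Set.Icc T1 (T1 + T2)) t :=
      ((hasDerivAt_id t).sub_const T1).hasDerivWithinAt
    have hm : Set.MapsTo (fun r : ℝ => r - T1) (Set.Icc T1 (T1 + T2)) (Set.Icc 0 T2) :=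
      fun r hr => ⟨by linarith [hr.1], by linarith [hr.2]⟩
    have hB := HasDerivWithinAt.comp t (hg (t - T1) ⟨by linarith [ht.1], by linarith [ht.2]⟩) hA hm
    rw [mul_one] at hB
    exact hB
  have hF1 : ∀ r ∈ Set.Icc 0 T1, (if r ≤ T1 then f r else g (r - T1)) = f r :=
    fun r hr => if_pos hr.2
  have hF2 : ∀ r ∈ Set.Icc T1 (T1 + T2), (if r ≤ T1 then f r else g (r - T1)) = g (r - T1) := by
    intro r hr
    by_cases hrT : r ≤ T1
    · have : r = T1 := le_antisymm hrT hr.1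
      subst this
      simp [h0]
    · exact if_neg hrT
  have hU : Set.Icc 0 (T1 + T2) = Set.Icc 0 T1 ∪ Set.Icc T1 (T1 + T2) :=
    (Set.Icc_union_Icc_eq_Icc h1.le (by linarith)).symm
  rcases lt_trichotomy t T1 with hlt | heq | hgt
  · have hm : t ∈ Set.Icc 0 T1 := ⟨ht.1, hlt.le⟩
    rw [if_pos hlt.le]
    have hA := (hf t hm).congr (f₁ := fun r => if r ≤ T1 then f r else g (r - T1))
      (fun r hr => hF1 r hr) (hF1 t hm)
    refine (hA.mono_of_mem_nhdsWithin ?_)
    rw [mem_nhdsWithin]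
    exact ⟨Set.Iio T1, isOpen_Iio, hlt, fun r hr => ⟨hr.2.1, le_of_lt hr.1⟩⟩
  · subst heq
    rw [if_pos le_rfl, hU]
    have hm1 : t ∈ Set.Icc 0 t := ⟨h1.le, le_rfl⟩
    have hm2 : t ∈ Set.Icc t (t + T2) := ⟨le_rfl, by linarith⟩
    have hA := (hf t hm1).congr (f₁ := fun r => if r ≤ t then f r else g (r - t))
      (fun r hr => hF1 r hr) (hF1 t hm1)
    have hB := (hshift t hm2).congr (f₁ := fun r => if r ≤ t then f r else g (r - t))
      (fun r hr => hF2 r hr) (hF2 t hm2)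
    rw [sub_self, ← h01] at hB
    exact hA.union hB
  · have hm : t ∈ Set.Icc T1 (T1 + T2) := ⟨hgt.le, ht.2⟩
    rw [if_neg (not_le.mpr hgt)]
    have hB := (hshift t hm).congr (f₁ := fun r => if r ≤ T1 then f r else g (r - T1))
      (fun r hr => hF2 r hr) (hF2 t hm)
    refine (hB.mono_of_mem_nhdsWithin ?_)
    rw [mem_nhdsWithin]
    exact ⟨Set.Ioi T1, isOpen_Ioi, hgt, fun r hr => ⟨le_of_lt hr.1, hr.2.2⟩⟩

theorem Sol.glue {D : Dat d K m} {u0 : Sys d K} {T1 T2 : ℝ} (h1 : 0 < T1) (h2 : 0 < T2)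
    {u w : ℝ → Sys d K} (hu : Sol D u0 T1 u) (hw : Sol D (u T1) T2 w) :
    Sol D u0 (T1 + T2) (fun t => if t ≤ T1 then u t else w (t - T1)) := by
  have hmem : ∀ t ∈ Set.Icc 0 (T1 + T2), ¬ t ≤ T1 → t - T1 ∈ Set.Icc 0 T2 := fun t ht hn =>
    ⟨by linarith [not_le.mp hn], by linarith [ht.2]⟩
  refine ⟨fun t ht => ?_, ?_, fun k => ?_, fun t ht I α x => ?_⟩
  · by_cases hc : t ≤ T1
    · simp only [if_pos hc]
      exact hu.smooth t ⟨ht.1, hc⟩
    · simp only [if_neg hc]
      exact hw.smooth _ (hmem t ht hc)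
  · simp only [if_pos h1.le]
    exact hu.init
  · obtain ⟨A, hA⟩ := hu.bd k
    obtain ⟨B, hB⟩ := hw.bd k
    refine ⟨max A B, fun t ht I hI α x => ?_⟩
    by_cases hc : t ≤ T1
    · simp only [if_pos hc]
      exact (hA t ⟨ht.1, hc⟩ I hI α x).trans (le_max_left _ _)
    · simp only [if_neg hc]
      exact (hB _ (hmem t ht hc) I hI α x).trans (le_max_right _ _)
  · have hG := LNB_glue (f := fun r => pd I (u r α) x) (g := fun r => pd I (w r α) x)
      (f1 := fun t => pd I (Aop D (u t) α) x) (g1 := fun t => pd I (Aop D (w t) α) x) h1 h2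
      (fun t ht => hu.deriv t ht I α x) (fun t ht => hw.deriv t ht I α x)
      (by show pd I (u T1 α) x = pd I (w 0 α) x
          rw [hw.init])
      (by show pd I (Aop D (u T1) α) x = pd I (Aop D (w 0) α) x
          rw [hw.init]) t ht
    have e1 : (fun r => pd I ((if r ≤ T1 then u r else w (r - T1)) α) x) =
        fun r => if r ≤ T1 then pd I (u r α) x else pd I (w (r - T1) α) x := by
      funext r
      by_cases hc : r ≤ T1
      · simp only [if_pos hc]
      · simp only [if_neg hc]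
    have e2 : pd I (Aop D (if t ≤ T1 then u t else w (t - T1)) α) x =
        if t ≤ T1 then pd I (Aop D (u t) α) x else pd I (Aop D (w (t - T1)) α) x := by
      by_cases hc : t ≤ T1
      · simp only [if_pos hc]
      · simp only [if_neg hc]
    show HasDerivWithinAt (fun r => pd I ((if r ≤ T1 then u r else w (r - T1)) α) x)
      (pd I (Aop D (if t ≤ T1 then u t else w (t - T1)) α) x) (Set.Icc 0 (T1 + T2)) t
    rw [e1, e2]
    exact hG

theorem Sol.restrict {D : Dat d K m} {u0 : Sys d K} {T T1 : ℝ} (hT : T1 ≤ T)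
    {u : ℝ → Sys d K} (hu : Sol D u0 T u) : Sol D u0 T1 u := by
  have hsub : Set.Icc 0 T1 ⊆ Set.Icc 0 T := Set.Icc_subset_Icc_right hT
  refine ⟨fun t ht => hu.smooth t (hsub ht), hu.init, fun k => ?_, fun t ht I α x =>
    (hu.deriv t (hsub ht) I α x).mono hsub⟩
  obtain ⟨A, hA⟩ := hu.bd k
  exact ⟨A, fun t ht => hA t (hsub ht)⟩

end Pool.Agent.QPE
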