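import Pool.Agent.QPE.LNA
import Pool.Agent.QPE.LNB

/-!
THEOREM L: linear (possibly degenerate) parabolic systems have smooth solutions on every interval `[0,T]`.
-/

namespace Pool.Agent.QPE

open scoped ContDiff BigOperators

variable {d K m : ℕ}

theorem exists_linear (D : Dat d K m) (hL : IsLin D) (T : ℝ) (hT : 0 < T) (u0 : Sys d K)
    (hu0 : Smooth u0) (hb : ∀ (I : List (Fin d)) α, ∃ C, ∀ x, |pd I (u0 α) x| ≤ C) :
    ∃ u : ℝ → Sys d K, Sol D u0 T u ∧
      ∀ I α, ContDiffOn ℝ ∞ (fun q : ℝ × (Fin d → ℝ) => pd I (u q.1 α) q.2)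
        (Set.Icc 0 T ×ˢ Set.univ) := by
  obtain ⟨T0, hT0, h⟩ := exists_solution_unif D 1 1 one_pos
  -- one step of length T0 for arbitrary data
  have hstep : ∀ u0 : Sys d K, Smooth u0 → (∀ (I : List (Fin d)) α, ∃ C, ∀ x, |pd I (u0 α) x| ≤ C) →
      ∃ u : ℝ → Sys d K, Sol D u0 T0 u := by
    intro u0 hu0 hb
    obtain ⟨A, hA⟩ := exists_Bd u0 hb 2
    set r : ℝ := (|A| + 1)⁻¹ with hr
    have hpos : (0 : ℝ) < |A| + 1 := by positivity
    have hrpos : 0 < r := inv_pos.mpr hpos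
    have hsm : Smooth (fun α x => r * u0 α x) := fun α => contDiff_const.mul (hu0 α)
    have hpd : ∀ (I : List (Fin d)) α x, pd I (fun y => r * u0 α y) x = r * pd I (u0 α) x :=
      fun I α x => pd_const_mul (hu0 α) r I x
    obtain ⟨u, hu, -⟩ := h (fun α x => r * u0 α x) hsm (fun I α => by
      obtain ⟨C, hC⟩ := hb I α
      refine ⟨r * C, fun x => ?_⟩
      rw [hpd, abs_mul, abs_of_pos hrpos]
      exact mul_le_mul_of_nonneg_left (hC x) hrpos.le) (fun I hI α x => by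
      rw [hpd, abs_mul, abs_of_pos hrpos]
      calc r * |pd I (u0 α) x| ≤ r * (|A| + 1) :=
            mul_le_mul_of_nonneg_left ((hA I hI α x).trans (by linarith [le_abs_self A])) hrpos.le
        _ = 1 := by rw [hr]; exact inv_mul_cancel₀ hpos.ne')
    have h2 := hu.smul hL hT0 r⁻¹
    have h3 : (fun α x => r⁻¹ * (r * u0 α x)) = u0 := by
      funext α x
      rw [← mul_assoc, inv_mul_cancel₀ hrpos.ne', one_mul]
    rw [h3] at h2
    exact ⟨_, h2⟩
  -- n steps
  have hn : ∀ n : ℕ, ∃ u : ℝ → Sys d K, Sol D u0 ((n + 1) * T0) u := by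
    intro n
    induction n with
    | zero =>
      obtain ⟨u, hu⟩ := hstep u0 hu0 hb
      exact ⟨u, by simpa using hu⟩
    | succ n ih =>
      obtain ⟨u, hu⟩ := ih
      have hpos : 0 < ((n : ℝ) + 1) * T0 := by positivity
      have hmem : ((n : ℝ) + 1) * T0 ∈ Set.Icc 0 (((n : ℝ) + 1) * T0) := ⟨hpos.le, le_rfl⟩
      obtain ⟨w, hw⟩ := hstep (u (((n : ℝ) + 1) * T0)) (hu.smooth _ hmem) (fun I α => by
        obtain ⟨A, hA⟩ := hu.bd I.length
        exact ⟨A, fun x => hA _ hmem I le_rfl α x⟩)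
      have h3 := hu.glue hpos hT0 hw
      have h4 : ((n : ℝ) + 1) * T0 + T0 = (((n + 1 : ℕ) : ℝ) + 1) * T0 := by push_cast; ring
      rw [h4] at h3
      exact ⟨_, h3⟩
  obtain ⟨n, hn1⟩ := exists_nat_gt (T / T0)
  obtain ⟨u, hu⟩ := hn n
  have hle : T ≤ ((n : ℝ) + 1) * T0 := by
    have := (div_lt_iff₀ hT0).mp hn1
    nlinarith
  have hres := hu.restrict hle
  exact ⟨u, hres, fun I α => hres.joint hT I α⟩

end Pool.Agent.QPE
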