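import Pool.Agent.QPE.TAY
import Pool.Agent.QPE.BSC

/-!
MODULE LOC (local functionals: polynomials in base functions of `(x, u, X u)` and derivatives of `u`).
Proofs.  Structural inductions.
* `loc_contDiff`: compositions of smooth functions (`larg` is smooth).
* `loc_pdv`: base: `base_chain` with `v = u`, `p c β = Σ_j σ_c^j(x,u) ∂_j u_β` (Leibniz rule; the derivative of
  `y ↦ σ_c^j (y, u y)` by `base_chain` for the base function `z ↦ σ_c^j (z.1, z.2.1)` (`base_sg`) and any `p`, e.g. the same); the values of these base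
  functions at `larg` are `Loc.base`; jet: `pd (i :: I)`; add, mul: Leibniz.  Finite sums by induction (lemma `loc_sum`).
* `loc_pd`: iterate.
* `Aop_loc`: `Aop` is literally a sum of products of such terms (`base_sg`, `base_b`, `base_Q`).
-/

namespace Pool.Agent.QPE

open scoped ContDiff BigOperators

variable {d K m : ℕ}

/-- the argument of the base functions in the equation -/
noncomputable def larg (D : Dat d K m) (u : Sys d K) (x : Fin d → ℝ) : Arg d K m :=
  (x, val u x, fun c β => ∑ j, D.sg c j (x, val u x) * pd [j] (u β) x)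

/-- local functionals of level `k` -/
inductive Loc (D : Dat d K m) : ℕ → (Sys d K → (Fin d → ℝ) → ℝ) → Prop
  | const (c : ℝ) : Loc D 0 (fun _ _ => c)
  | base (g : Arg d K m → ℝ) (hg : IsBase D.R g) : Loc D 1 (fun u x => g (larg D u x))
  | jet (I : List (Fin d)) (α : Fin K) : Loc D I.length (fun u x => pd I (u α) x)
  | add {k : ℕ} {Ψ Θ : Sys d K → (Fin d → ℝ) → ℝ} :
      Loc D k Ψ → Loc D k Θ → Loc D k (fun u x => Ψ u x + Θ u x)
  | mul {k : ℕ} {Ψ Θ : Sys d K → (Fin d → ℝ) → ℝ} :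
      Loc D k Ψ → Loc D k Θ → Loc D k (fun u x => Ψ u x * Θ u x)
  | mono {k l : ℕ} {Ψ : Sys d K → (Fin d → ℝ) → ℝ} : k ≤ l → Loc D k Ψ → Loc D l Ψ

private theorem LOC_pdv_add {f g : (Fin d → ℝ) → ℝ} {x : Fin d → ℝ} (hf : DifferentiableAt ℝ f x)
    (hg : DifferentiableAt ℝ g x) (i : Fin d) :
    pdv i (fun y => f y + g y) x = pdv i f x + pdv i g x := by
  unfold pdv
  rw [fderiv_fun_add hf hg]
  rfl

private theorem LOC_pdv_mul {f g : (Fin d → ℝ) → ℝ} {x : Fin d → ℝ} (hf : DifferentiableAt ℝ f x)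
    (hg : DifferentiableAt ℝ g x) (i : Fin d) :
    pdv i (fun y => f y * g y) x = f x * pdv i g x + g x * pdv i f x := by
  unfold pdv
  rw [fderiv_fun_mul hf hg]
  rfl

private theorem LOC_pdv_sum {ι : Type} (t : Finset ι) {f : ι → (Fin d → ℝ) → ℝ} {x : Fin d → ℝ}
    (hf : ∀ j ∈ t, DifferentiableAt ℝ (f j) x) (i : Fin d) :
    pdv i (fun y => ∑ j ∈ t, f j y) x = ∑ j ∈ t, pdv i (f j) x := by
  unfold pdv
  rw [fderiv_fun_sum hf]
  simp

private theorem LOC_val {u : Sys d K} (hu : Smooth u) : ContDiff ℝ ∞ (val u) :=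
  contDiff_pi.2 fun α => hu α

private theorem LOC_sgs (D : Dat d K m) {u : Sys d K} (hu : Smooth u) (c : Fin m) (j : Fin d) :
    ContDiff ℝ ∞ (fun y => D.sg c j (y, val u y)) :=
  (D.sg_smooth c j).comp (contDiff_id.prodMk (LOC_val hu))

private theorem LOC_p (D : Dat d K m) {u : Sys d K} (hu : Smooth u) (c : Fin m) (β : Fin K) :
    ContDiff ℝ ∞ (fun y => ∑ j, D.sg c j (y, val u y) * pd [j] (u β) y) :=
  ContDiff.sum fun j _ => (LOC_sgs D hu c j).mul (pd_contDiff (hu β) [j])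

private theorem LOC_larg (D : Dat d K m) {u : Sys d K} (hu : Smooth u) :
    ContDiff ℝ ∞ (larg D u) :=
  contDiff_id.prodMk ((LOC_val hu).prodMk (contDiff_pi.2 fun c => contDiff_pi.2 fun β =>
    LOC_p D hu c β))

private theorem LOC_da {f : (Fin d → ℝ) → ℝ} (hf : ContDiff ℝ ∞ f) (x : Fin d → ℝ) :
    DifferentiableAt ℝ f x := (hf.differentiable (by simp)) x

private theorem LOC_gp (D : Dat d K m) (c : Fin m) (j : Fin d) (c1 : Fin m) (β : Fin K)
    (z : Arg d K m) : gp c1 β (fun z : Arg d K m => D.sg c j (z.1, z.2.1)) z = 0 := by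
  unfold gp
  let L : Arg d K m →L[ℝ] (Fin d → ℝ) × (Fin K → ℝ) :=
    (ContinuousLinearMap.fst ℝ _ _).prod
      ((ContinuousLinearMap.fst ℝ _ _).comp (ContinuousLinearMap.snd ℝ _ _))
  have h1 : HasFDerivAt (fun z : Arg d K m => D.sg c j (L z))
      ((fderiv ℝ (D.sg c j) (L z)).comp L) z :=
    (((D.sg_smooth c j).differentiable (by simp)) (L z)).hasFDerivAt.comp z L.hasFDerivAt
  have h2 : fderiv ℝ (fun z : Arg d K m => D.sg c j (z.1, z.2.1)) z =
      (fderiv ℝ (D.sg c j) (L z)).comp L := h1.fderiv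
  rw [h2]
  have h3 : L (0, 0, Pi.single c1 (Pi.single β 1)) = 0 := rfl
  rw [ContinuousLinearMap.comp_apply, h3, map_zero]

private theorem LOC_sg (D : Dat d K m) {u : Sys d K} (hu : Smooth u) (c : Fin m) (j i : Fin d)
    (x : Fin d → ℝ) :
    pdv i (fun y => D.sg c j (y, val u y)) x =
      gx i (fun z : Arg d K m => D.sg c j (z.1, z.2.1)) (larg D u x) +
      ∑ α, gv α (fun z : Arg d K m => D.sg c j (z.1, z.2.1)) (larg D u x) * pd [i] (u α) x := by
  have h := base_chain (g := fun z : Arg d K m => D.sg c j (z.1, z.2.1)) (base_sg D c j).smooth u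
    (fun c β y => ∑ j, D.sg c j (y, val u y) * pd [j] (u β) y) x (fun α => LOC_da (hu α) x)
    (fun c β => LOC_da (LOC_p D hu c β) x) i
  have h2 : ∀ z : Arg d K m, ∀ c1 β, gp c1 β (fun z : Arg d K m => D.sg c j (z.1, z.2.1)) z = 0 :=
    fun z c1 β => LOC_gp D c j c1 β z
  simp only [h2, zero_mul, Finset.sum_const_zero, add_zero] at h
  exact h

theorem loc_sum {D : Dat d K m} {k : ℕ} {ι : Type} (t : Finset ι)
    (Ψ : ι → Sys d K → (Fin d → ℝ) → ℝ) (h : ∀ i ∈ t, Loc D k (Ψ i)) :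
    Loc D k (fun u x => ∑ i ∈ t, Ψ i u x) := by
  classical
  induction t using Finset.induction_on with
  | empty => simpa using Loc.mono (Nat.zero_le k) (Loc.const (D := D) 0)
  | insert a t ha ih =>
    have e : (fun (u : Sys d K) x => ∑ i ∈ insert a t, Ψ i u x) =
        fun u x => Ψ a u x + ∑ i ∈ t, Ψ i u x := by
      funext u x
      rw [Finset.sum_insert ha]
    rw [e]
    exact Loc.add (h a (Finset.mem_insert_self _ _))
      (ih fun i hi => h i (Finset.mem_insert_of_mem hi))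

theorem loc_contDiff {D : Dat d K m} {k : ℕ} {Ψ : Sys d K → (Fin d → ℝ) → ℝ} (h : Loc D k Ψ)
    {u : Sys d K} (hu : Smooth u) : ContDiff ℝ ∞ (Ψ u) := by
  induction h with
  | const c => exact contDiff_const
  | base g hg => exact hg.smooth.comp (LOC_larg D hu)
  | jet I α => exact pd_contDiff (hu α) I
  | add _ _ h1 h2 => exact h1.add h2
  | mul _ _ h1 h2 => exact h1.mul h2
  | mono _ _ h1 => exact h1

private theorem LOC_base (D : Dat d K m) (g : Arg d K m → ℝ) (hg : IsBase D.R g) (i : Fin d) :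
    ∃ Θ : Sys d K → (Fin d → ℝ) → ℝ, Loc D 2 Θ ∧
      ∀ u : Sys d K, Smooth u → ∀ x, pdv i (fun x => g (larg D u x)) x = Θ u x := by
  refine ⟨fun u x => (gx i g (larg D u x) + ∑ α, gv α g (larg D u x) * pd [i] (u α) x) +
    ∑ c, ∑ β, gp c β g (larg D u x) * (∑ j, (D.sg c j (x, val u x) * pd [i, j] (u β) x +
      pd [j] (u β) x * (gx i (fun z : Arg d K m => D.sg c j (z.1, z.2.1)) (larg D u x) +
      ∑ α, gv α (fun z : Arg d K m => D.sg c j (z.1, z.2.1)) (larg D u x) * pd [i] (u α) x))),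
    ?_, ?_⟩
  · refine Loc.add (Loc.add (Loc.mono (by norm_num) (Loc.base _ (base_gx hg i))) ?_) ?_
    · exact loc_sum _ _ fun α _ => Loc.mul (Loc.mono (by norm_num) (Loc.base _ (base_gv hg α)))
        (Loc.mono (by simp) (Loc.jet [i] α))
    · refine loc_sum _ _ fun c _ => loc_sum _ _ fun β _ => Loc.mul
        (Loc.mono (by norm_num) (Loc.base _ (base_gp hg c β))) ?_
      refine loc_sum _ _ fun j _ => Loc.add (Loc.mul
        (Loc.mono (by norm_num) (Loc.base _ (base_sg D c j))) (Loc.jet [i, j] β)) ?_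
      refine Loc.mul (Loc.mono (by simp) (Loc.jet [j] β)) (Loc.add
        (Loc.mono (by norm_num) (Loc.base _ (base_gx (base_sg D c j) i))) ?_)
      exact loc_sum _ _ fun α _ => Loc.mul
        (Loc.mono (by norm_num) (Loc.base _ (base_gv (base_sg D c j) α)))
        (Loc.mono (by simp) (Loc.jet [i] α))
  · intro u hu x
    have h := base_chain hg.smooth u
      (fun c β y => ∑ j, D.sg c j (y, val u y) * pd [j] (u β) y) x (fun α => LOC_da (hu α) x)
      (fun c β => LOC_da (LOC_p D hu c β) x) i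
    have h2 : ∀ c β, pdv i (fun y => ∑ j, D.sg c j (y, val u y) * pd [j] (u β) y) x =
        ∑ j, (D.sg c j (x, val u x) * pd [i, j] (u β) x +
          pd [j] (u β) x * (gx i (fun z : Arg d K m => D.sg c j (z.1, z.2.1)) (larg D u x) +
          ∑ α, gv α (fun z : Arg d K m => D.sg c j (z.1, z.2.1)) (larg D u x) *
            pd [i] (u α) x)) := by
      intro c β
      rw [LOC_pdv_sum _ (fun j _ => LOC_da ((LOC_sgs D hu c j).mul (pd_contDiff (hu β) [j])) x)]
      refine Finset.sum_congr rfl fun j _ => ?_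
      rw [LOC_pdv_mul (LOC_da (LOC_sgs D hu c j) x) (LOC_da (pd_contDiff (hu β) [j]) x),
        LOC_sg D hu c j i x]
      rfl
    simp only [h2] at h
    exact h

theorem loc_pdv {D : Dat d K m} {k : ℕ} {Ψ : Sys d K → (Fin d → ℝ) → ℝ} (h : Loc D k Ψ)
    (i : Fin d) : ∃ Θ : Sys d K → (Fin d → ℝ) → ℝ, Loc D (k + 1) Θ ∧
      ∀ u : Sys d K, Smooth u → ∀ x, pdv i (Ψ u) x = Θ u x := by
  induction h with
  | const c =>
    refine ⟨fun _ _ => 0, Loc.mono (Nat.zero_le _) (Loc.const 0), fun u _ x => ?_⟩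
    simp [pdv]
  | base g hg => exact LOC_base D g hg i
  | jet I α => exact ⟨fun u x => pd (i :: I) (u α) x, Loc.jet (i :: I) α, fun u _ x => rfl⟩
  | add h1 h2 ih1 ih2 =>
    obtain ⟨Θ1, a1, b1⟩ := ih1
    obtain ⟨Θ2, a2, b2⟩ := ih2
    refine ⟨fun u x => Θ1 u x + Θ2 u x, Loc.add a1 a2, fun u hu x => ?_⟩
    rw [LOC_pdv_add (LOC_da (loc_contDiff h1 hu) x) (LOC_da (loc_contDiff h2 hu) x), b1 u hu,
      b2 u hu]
  | @mul k Ψ Θ h1 h2 ih1 ih2 =>
    obtain ⟨Θ1, a1, b1⟩ := ih1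
    obtain ⟨Θ2, a2, b2⟩ := ih2
    refine ⟨fun u x => Ψ u x * Θ2 u x + Θ u x * Θ1 u x, Loc.add (Loc.mul (Loc.mono (by omega) h1) a2)
      (Loc.mul (Loc.mono (by omega) h2) a1), fun u hu x => ?_⟩
    rw [LOC_pdv_mul (LOC_da (loc_contDiff h1 hu) x) (LOC_da (loc_contDiff h2 hu) x), b1 u hu,
      b2 u hu]
  | mono hkl _ ih =>
    obtain ⟨Θ, a, b⟩ := ih
    exact ⟨Θ, Loc.mono (by omega) a, b⟩

theorem loc_pd {D : Dat d K m} {k : ℕ} {Ψ : Sys d K → (Fin d → ℝ) → ℝ} (h : Loc D k Ψ)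
    (I : List (Fin d)) : ∃ Θ : Sys d K → (Fin d → ℝ) → ℝ, Loc D (k + I.length) Θ ∧
      ∀ u : Sys d K, Smooth u → ∀ x, pd I (Ψ u) x = Θ u x := by
  induction I with
  | nil => exact ⟨Ψ, h, fun u _ x => rfl⟩
  | cons i I ih =>
    obtain ⟨Θ, a, b⟩ := ih
    obtain ⟨Θ1, a1, b1⟩ := loc_pdv a i
    refine ⟨Θ1, a1, fun u hu x => ?_⟩
    have e : pd I (Ψ u) = Θ u := funext fun x => b u hu x
    change pdv i (pd I (Ψ u)) x = Θ1 u x
    rw [e]
    exact b1 u hu x

theorem Aop_loc (D : Dat d K m) (α : Fin K) : Loc D 2 (fun u x => Aop D u α x) := by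
  unfold Aop
  refine Loc.add (Loc.add ?_ ?_) (Loc.mono (by norm_num) (Loc.base _ (base_Q D α)))
  · refine loc_sum _ _ fun c _ => loc_sum _ _ fun i _ => loc_sum _ _ fun j _ => Loc.mul (Loc.mul
      (Loc.mono (by norm_num) (Loc.base _ (base_sg D c i)))
      (Loc.mono (by norm_num) (Loc.base _ (base_sg D c j)))) (Loc.jet [i, j] α)
  · refine loc_sum _ _ fun j _ => Loc.mul (Loc.mono (by norm_num) (Loc.base _ (base_b D j)))
      (Loc.mono (by simp) (Loc.jet [j] α))

end Pool.Agent.QPE
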