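import Mathlib

/-!
THEOREM F (flows of time dependent vector fields).  DEFINITIONS AND CLOSURE PROPERTIES.
MODULE OFA.
`SC T k f`: `f` and its spatial derivatives up to order `k` exist and are continuous on `[0,T] x E`.
`SB T k f`: moreover they are bounded.
Proofs: all by induction on `k`, for all target spaces at once.
* `SC.of_succ`, `SB.of_succ`: forget the last derivative (induction).  `SB.toSC`.
* `SC_congr`: `ContinuousOn.congr`; `g t = f t` as functions for `t ∈ [0,T]`, so the derivatives agree.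
* `clm`: composition with a continuous linear map `L` on the left: `fderiv (L ∘ f) = L ∘L fderiv f`
  (`ContinuousLinearMap.fderiv_comp..` / `fderiv_comp`), and `A ↦ L ∘L A` is the continuous linear map
  `ContinuousLinearMap.compL ℝ E F G L`.
* `precomp`: `f t (L x + c)`: `fderiv (fun x => f t (L x + c)) x = (fderiv (f t) (L x + c)) ∘L L`, and `A ↦ A ∘L L` is continuous linear
  (`(ContinuousLinearMap.compL ℝ E1 E F).flip L`).
-/

namespace Pool.Agent.QPE.Flow

open scoped ContDiff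

/-- spatial derivatives up to order `k` exist and are continuous on `[0,T] x E` -/
def SC (T : ℝ) {E : Type} [NormedAddCommGroup E] [NormedSpace ℝ E] :
    (k : ℕ) → {F : Type} → [NormedAddCommGroup F] → [NormedSpace ℝ F] → (ℝ → E → F) → Prop
  | 0, _, _, _, f => ContinuousOn (fun p : ℝ × E => f p.1 p.2) (Set.Icc 0 T ×ˢ Set.univ)
  | k + 1, _, _, _, f => ContinuousOn (fun p : ℝ × E => f p.1 p.2) (Set.Icc 0 T ×ˢ Set.univ) ∧
      (∀ t ∈ Set.Icc 0 T, Differentiable ℝ (f t)) ∧ SC T k (fun t x => fderiv ℝ (f t) x)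

/-- bounded version -/
def SB (T : ℝ) {E : Type} [NormedAddCommGroup E] [NormedSpace ℝ E] :
    (k : ℕ) → {F : Type} → [NormedAddCommGroup F] → [NormedSpace ℝ F] → (ℝ → E → F) → Prop
  | 0, _, _, _, f => ContinuousOn (fun p : ℝ × E => f p.1 p.2) (Set.Icc 0 T ×ˢ Set.univ) ∧
      ∃ C : ℝ, ∀ t ∈ Set.Icc 0 T, ∀ x, ‖f t x‖ ≤ C
  | k + 1, _, _, _, f => (ContinuousOn (fun p : ℝ × E => f p.1 p.2) (Set.Icc 0 T ×ˢ Set.univ) ∧
      ∃ C : ℝ, ∀ t ∈ Set.Icc 0 T, ∀ x, ‖f t x‖ ≤ C) ∧
      (∀ t ∈ Set.Icc 0 T, Differentiable ℝ (f t)) ∧ SB T k (fun t x => fderiv ℝ (f t) x)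

variable {T : ℝ} {E E1 F G H : Type}
  [NormedAddCommGroup E] [NormedSpace ℝ E] [NormedAddCommGroup E1] [NormedSpace ℝ E1]
  [NormedAddCommGroup F] [NormedSpace ℝ F] [NormedAddCommGroup G] [NormedSpace ℝ G]
  [NormedAddCommGroup H] [NormedSpace ℝ H]

theorem SC.of_succ {k : ℕ} {f : ℝ → E → F} (h : SC T (k + 1) f) : SC T k f := by
  induction k generalizing F with
  | zero => exact h.1
  | succ k ih => exact ⟨h.1, h.2.1, ih h.2.2⟩

theorem SB.of_succ {k : ℕ} {f : ℝ → E → F} (h : SB T (k + 1) f) : SB T k f := by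
  induction k generalizing F with
  | zero => exact h.1
  | succ k ih => exact ⟨h.1, h.2.1, ih h.2.2⟩

theorem SB.toSC {k : ℕ} {f : ℝ → E → F} (h : SB T k f) : SC T k f := by
  induction k generalizing F with
  | zero => exact h.1
  | succ k ih => exact ⟨h.1.1, h.2.1, ih h.2.2⟩

theorem SC_congr {k : ℕ} {f g : ℝ → E → F} (h : SC T k f)
    (hfg : ∀ t ∈ Set.Icc 0 T, ∀ x, g t x = f t x) : SC T k g := by
  induction k generalizing F with
  | zero => exact ContinuousOn.congr h fun p hp => hfg p.1 hp.1 p.2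
  | succ k ih =>
    have e : ∀ t ∈ Set.Icc 0 T, g t = f t := fun t ht => funext (hfg t ht)
    refine ⟨ContinuousOn.congr h.1 fun p hp => hfg p.1 hp.1 p.2, fun t ht => ?_, ih h.2.2 fun t ht x => ?_⟩
    · rw [e t ht]
      exact h.2.1 t ht
    · rw [e t ht]

private theorem SB_congr' {k : ℕ} {f g : ℝ → E → F} (h : SB T k f)
    (hfg : ∀ t ∈ Set.Icc 0 T, ∀ x, g t x = f t x) : SB T k g := by
  induction k generalizing F with
  | zero =>
    obtain ⟨h1, C, hC⟩ := h
    exact ⟨ContinuousOn.congr h1 fun p hp => hfg p.1 hp.1 p.2, C, fun t ht x => by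
      rw [hfg t ht x]
      exact hC t ht x⟩
  | succ k ih =>
    have e : ∀ t ∈ Set.Icc 0 T, g t = f t := fun t ht => funext (hfg t ht)
    obtain ⟨⟨h1, C, hC⟩, h2, h3⟩ := h
    refine ⟨⟨ContinuousOn.congr h1 fun p hp => hfg p.1 hp.1 p.2, C, fun t ht x => ?_⟩,
      fun t ht => ?_, ih h3 fun t ht x => ?_⟩
    · rw [hfg t ht x]
      exact hC t ht x
    · rw [e t ht]
      exact h2 t ht
    · rw [e t ht]

private theorem ofa_fd {f : ℝ → E → F} {t : ℝ} (h : Differentiable ℝ (f t)) (L : F →L[ℝ] G) (x : E) :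
    fderiv ℝ (fun x => L (f t x)) x = ContinuousLinearMap.compL ℝ E F G L (fderiv ℝ (f t) x) := by
  have h1 := (L.hasFDerivAt (x := f t x)).comp x (h x).hasFDerivAt
  exact h1.fderiv

private theorem ofa_fdp {f : ℝ → E → F} {t : ℝ} (h : Differentiable ℝ (f t)) (L : E1 →L[ℝ] E) (c : E)
    (x : E1) : fderiv ℝ (fun x => f t (L x + c)) x =
      (ContinuousLinearMap.compL ℝ E1 E F).flip L (fderiv ℝ (f t) (L x + c)) := by
  have h0 : HasFDerivAt (fun x : E1 => L x + c) L x := L.hasFDerivAt.add_const c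
  have h1 := HasFDerivAt.comp x (g := f t) (f := fun x : E1 => L x + c) (h (L x + c)).hasFDerivAt h0
  exact h1.fderiv

theorem SC.clm {k : ℕ} {f : ℝ → E → F} (h : SC T k f) (L : F →L[ℝ] G) :
    SC T k (fun t x => L (f t x)) := by
  induction k generalizing F G with
  | zero => exact L.continuous.comp_continuousOn h
  | succ k ih =>
    refine ⟨L.continuous.comp_continuousOn h.1, fun t ht => L.differentiable.comp (h.2.1 t ht), ?_⟩
    refine SC_congr (ih h.2.2 (ContinuousLinearMap.compL ℝ E F G L)) fun t ht x => ?_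
    exact ofa_fd (h.2.1 t ht) L x

omit [NormedAddCommGroup E] [NormedSpace ℝ E] in
private theorem ofa_bd {f : ℝ → E → F} (L : F →L[ℝ] G)
    (h : ∃ C : ℝ, ∀ t ∈ Set.Icc 0 T, ∀ x, ‖f t x‖ ≤ C) :
    ∃ C : ℝ, ∀ t ∈ Set.Icc 0 T, ∀ x, ‖L (f t x)‖ ≤ C := by
  obtain ⟨C, hC⟩ := h
  exact ⟨‖L‖ * C, fun t ht x => (L.le_opNorm _).trans (mul_le_mul_of_nonneg_left (hC t ht x) (norm_nonneg _))⟩

theorem SB.clm {k : ℕ} {f : ℝ → E → F} (h : SB T k f) (L : F →L[ℝ] G) :
    SB T k (fun t x => L (f t x)) := by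
  induction k generalizing F G with
  | zero => exact ⟨L.continuous.comp_continuousOn h.1, ofa_bd L h.2⟩
  | succ k ih =>
    refine ⟨⟨L.continuous.comp_continuousOn h.1.1, ofa_bd L h.1.2⟩,
      fun t ht => L.differentiable.comp (h.2.1 t ht), ?_⟩
    refine SB_congr' (ih h.2.2 (ContinuousLinearMap.compL ℝ E F G L)) fun t ht x => ?_
    exact ofa_fd (h.2.1 t ht) L x

omit [NormedSpace ℝ F] in
private theorem ofa_cont {f : ℝ → E → F}
    (h : ContinuousOn (fun p : ℝ × E => f p.1 p.2) (Set.Icc 0 T ×ˢ Set.univ)) (L : E1 →L[ℝ] E) (c : E) :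
    ContinuousOn (fun p : ℝ × E1 => f p.1 (L p.2 + c)) (Set.Icc 0 T ×ˢ Set.univ) := by
  have h1 : ContinuousOn (fun p : ℝ × E1 => (p.1, L p.2 + c)) (Set.Icc 0 T ×ˢ Set.univ) := by
    apply Continuous.continuousOn
    exact continuous_fst.prodMk ((L.continuous.comp continuous_snd).add continuous_const)
  exact h.comp h1 fun p hp => ⟨hp.1, Set.mem_univ _⟩

theorem SC.precomp {k : ℕ} {f : ℝ → E → F} (h : SC T k f) (L : E1 →L[ℝ] E) (c : E) :
    SC T k (fun t x => f t (L x + c)) := by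
  induction k generalizing F with
  | zero => exact ofa_cont h L c
  | succ k ih =>
    refine ⟨ofa_cont h.1 L c, fun t ht => ?_, ?_⟩
    · exact (h.2.1 t ht).comp (L.differentiable.add_const c)
    · refine SC_congr ((ih h.2.2).clm ((ContinuousLinearMap.compL ℝ E1 E F).flip L)) fun t ht x => ?_
      exact ofa_fdp (h.2.1 t ht) L c x

private theorem SB_precomp' {k : ℕ} {f : ℝ → E → F} (h : SB T k f) (L : E1 →L[ℝ] E) (c : E) :
    SB T k (fun t x => f t (L x + c)) := by
  induction k generalizing F with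
  | zero =>
    obtain ⟨h1, C, hC⟩ := h
    exact ⟨ofa_cont h1 L c, C, fun t ht x => hC t ht _⟩
  | succ k ih =>
    obtain ⟨⟨h1, C, hC⟩, h2, h3⟩ := h
    refine ⟨⟨ofa_cont h1 L c, C, fun t ht x => hC t ht _⟩, fun t ht => ?_, ?_⟩
    · exact (h2 t ht).comp (L.differentiable.add_const c)
    · refine SB_congr' ((ih h3).clm ((ContinuousLinearMap.compL ℝ E1 E F).flip L)) fun t ht x => ?_
      exact ofa_fdp (h2 t ht) L c x

theorem SB.precomp {k : ℕ} {f : ℝ → E → F} (h : SB T k f) (L : E1 →L[ℝ] E) :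
    SB T k (fun t x => f t (L x)) := by
  have h1 := SB_precomp' h L 0
  simpa only [add_zero] using h1

end Pool.Agent.QPE.Flow
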