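import Pool.Agent.QPE.OFA

/-!
MODULE OFB (smooth functions with compact support, cut off).
* `const`: by induction on `k` for all targets: a smooth function with compact support is continuous and bounded
  (`HasCompactSupport.exists_bound_of_continuous`), and `fderiv` is again smooth with compact support
  (`HasCompactSupport.fderiv`, `ContDiff.fderiv_right`).
* `exists_cut`: `χ Y = θ Y • Y` with `θ` a `ContDiffBump` at `0` (`rIn = ρ`, `rOut = 2 ρ`), `0 ≤ θ ≤ 1`.
-/

namespace Pool.Agent.QPE.Flow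

open scoped ContDiff

variable {T : ℝ} {E F : Type}
  [NormedAddCommGroup E] [NormedSpace ℝ E] [NormedAddCommGroup F] [NormedSpace ℝ F]

theorem SB.const {f : E → F} (hf : ContDiff ℝ ∞ f) (hs : HasCompactSupport f) (k : ℕ) :
    SB T k (fun _ x => f x) := by
  induction k generalizing F with
  | zero =>
    exact ⟨(hf.continuous.comp continuous_snd).continuousOn,
      let ⟨C, hC⟩ := hs.exists_bound_of_continuous hf.continuous
      ⟨C, fun _ _ x => hC x⟩⟩
  | succ k ih =>
    obtain ⟨C, hC⟩ := hs.exists_bound_of_continuous hf.continuous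
    exact ⟨⟨(hf.continuous.comp continuous_snd).continuousOn, C, fun _ _ x => hC x⟩,
      fun t _ => hf.differentiable (by simp),
      ih (hf.fderiv_right (by simp)) (hs.fderiv ℝ)⟩

theorem exists_cut (E : Type) [NormedAddCommGroup E] [NormedSpace ℝ E] [FiniteDimensional ℝ E]
    (ρ : ℝ) (hρ : 0 < ρ) :
    ∃ χ : E → E, ContDiff ℝ ∞ χ ∧ HasCompactSupport χ ∧ (∀ y, ‖χ y‖ ≤ ‖y‖) ∧
      ∀ y, ‖y‖ ≤ ρ → χ y = y := by
  let θ : ContDiffBump (0 : E) := ⟨ρ, 2 * ρ, hρ, by linarith⟩
  refine ⟨fun y => θ y • y, θ.contDiff.smul contDiff_id, θ.hasCompactSupport.smul_right, ?_, ?_⟩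
  · intro y
    rw [norm_smul, Real.norm_eq_abs, abs_of_nonneg θ.nonneg]
    calc θ y * ‖y‖ ≤ 1 * ‖y‖ := mul_le_mul_of_nonneg_right θ.le_one (norm_nonneg y)
      _ = ‖y‖ := one_mul _
  · intro y hy
    have h : θ y = 1 := θ.one_of_mem_closedBall (by simpa [θ] using hy)
    simp only [h, one_smul]

end Pool.Agent.QPE.Flow
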