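import Pool.Agent.QPE.OFA

/-!
MODULE OFC (closure of the class `SB` under sums, bilinear maps, pairs).
Proofs by induction on `k`, for all target spaces at once.
* `add`: `fderiv_add`.
* `bilin`: `ContinuousLinearMap.fderiv_of_bilinear`; both terms are of the same form with the bilinear maps
  `B.precompR E`, `B.precompL E` applied to `(f, fderiv g)`, `(fderiv f, g)`; `SB.of_succ` for `f`, `g`, so the induction hypothesis
  (for all bilinear maps) and `SB.add` apply.  Level 0: `ContinuousOn` of `B (f) (g)` (`isBoundedBilinearMap.continuous`), bound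
  `‖B‖ C C1`.
* `prod`: `(f, g) = inl ∘ f + inr ∘ g` (`SB.clm`, `SB.add`).
-/

namespace Pool.Agent.QPE.Flow

open scoped ContDiff

variable {T : ℝ} {E E1 F G H : Type}
  [NormedAddCommGroup E] [NormedSpace ℝ E] [NormedAddCommGroup E1] [NormedSpace ℝ E1]
  [NormedAddCommGroup F] [NormedSpace ℝ F] [NormedAddCommGroup G] [NormedSpace ℝ G]
  [NormedAddCommGroup H] [NormedSpace ℝ H]

private theorem SB_congr_aux {k : ℕ} {f g : ℝ → E → F} (h : SB T k f)
    (hfg : ∀ t ∈ Set.Icc 0 T, ∀ x, g t x = f t x) : SB T k g := by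
  induction k generalizing F with
  | zero =>
    obtain ⟨h1, C, hC⟩ := h
    refine ⟨h1.congr fun p hp => hfg p.1 hp.1 p.2, C, fun t ht x => ?_⟩
    rw [hfg t ht x]
    exact hC t ht x
  | succ k ih =>
    obtain ⟨⟨h1, C, hC⟩, h2, h3⟩ := h
    have he : ∀ t ∈ Set.Icc 0 T, g t = f t := fun t ht => funext (hfg t ht)
    refine ⟨⟨h1.congr fun p hp => hfg p.1 hp.1 p.2, C, fun t ht x => ?_⟩, fun t ht => ?_, ih h3 fun t ht x => ?_⟩
    · rw [hfg t ht x]
      exact hC t ht x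
    · rw [he t ht]
      exact h2 t ht
    · rw [he t ht]

theorem SB.add {k : ℕ} {f g : ℝ → E → F} (hf : SB T k f) (hg : SB T k g) :
    SB T k (fun t x => f t x + g t x) := by
  induction k generalizing F with
  | zero =>
    obtain ⟨h1, C, hC⟩ := hf
    obtain ⟨h2, D, hD⟩ := hg
    exact ⟨h1.add h2, C + D, fun t ht x =>
      (norm_add_le _ _).trans (add_le_add (hC t ht x) (hD t ht x))⟩
  | succ k ih =>
    obtain ⟨⟨h1, C, hC⟩, hd1, hf'⟩ := hf
    obtain ⟨⟨h2, D, hD⟩, hd2, hg'⟩ := hg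
    refine ⟨⟨h1.add h2, C + D, fun t ht x =>
      (norm_add_le _ _).trans (add_le_add (hC t ht x) (hD t ht x))⟩,
      fun t ht => (hd1 t ht).add (hd2 t ht), SB_congr_aux (ih hf' hg') fun t ht x => ?_⟩
    exact fderiv_add (hd1 t ht x) (hd2 t ht x)

private theorem bound_aux (B : F →L[ℝ] G →L[ℝ] H) (x : F) (y : G) {C D : ℝ} (hx : ‖x‖ ≤ C)
    (hy : ‖y‖ ≤ D) : ‖B x y‖ ≤ ‖B‖ * C * D := by
  refine (B.le_opNorm₂ x y).trans ?_
  have hC : 0 ≤ C := (norm_nonneg x).trans hx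
  exact mul_le_mul (mul_le_mul_of_nonneg_left hx (norm_nonneg B)) hy (norm_nonneg y)
    (mul_nonneg (norm_nonneg B) hC)

theorem SB.bilin {k : ℕ} {f : ℝ → E → F} {g : ℝ → E → G} (hf : SB T k f) (hg : SB T k g)
    (B : F →L[ℝ] G →L[ℝ] H) : SB T k (fun t x => B (f t x) (g t x)) := by
  induction k generalizing F G H with
  | zero =>
    obtain ⟨h1, C, hC⟩ := hf
    obtain ⟨h2, D, hD⟩ := hg
    exact ⟨(B.continuous.comp_continuousOn h1).clm_apply h2, ‖B‖ * C * D, fun t ht x =>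
      bound_aux B _ _ (hC t ht x) (hD t ht x)⟩
  | succ k ih =>
    have hf0 := hf.of_succ
    have hg0 := hg.of_succ
    obtain ⟨⟨h1, C, hC⟩, hd1, hf'⟩ := hf
    obtain ⟨⟨h2, D, hD⟩, hd2, hg'⟩ := hg
    refine ⟨⟨(B.continuous.comp_continuousOn h1).clm_apply h2, ‖B‖ * C * D, fun t ht x =>
      bound_aux B _ _ (hC t ht x) (hD t ht x)⟩, fun t ht x => ?_,
      SB_congr_aux ((ih hf0 hg' (B.precompR E)).add (ih hf' hg0 (B.precompL E))) fun t ht x => ?_⟩
    · exact (B.hasFDerivAt_of_bilinear (hd1 t ht x).hasFDerivAt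
        (hd2 t ht x).hasFDerivAt).differentiableAt
    · exact B.fderiv_of_bilinear (hd1 t ht x) (hd2 t ht x)

theorem SB.prod {k : ℕ} {f : ℝ → E → F} {g : ℝ → E → G} (hf : SB T k f) (hg : SB T k g) :
    SB T k (fun t x => (f t x, g t x)) := by
  refine SB_congr_aux ((hf.clm (ContinuousLinearMap.inl ℝ F G)).add
    (hg.clm (ContinuousLinearMap.inr ℝ F G))) fun t _ x => ?_
  simp

end Pool.Agent.QPE.Flow
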