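import Pool.Agent.QPE.OFA

/-!
MODULE OFD (existence of the flow on all of `[0,T]`, first estimates).
`IsFlow T V ψ`: `ψ 0 x = x` and `∂_t ψ(t,x) = V(t, ψ(t,x))` on `[0,T]`.
* `exists_lip`: bound of the derivative, `lipschitzWith_of_nnnorm_fderiv_le`.
* `exists_flow`: `V` is bounded by `M` and Lipschitz in `x` with constant `L` (bound of the derivative, mean value inequality) on `[0,T]`,
  so `IsPicardLindelof V 0 x a 0 M L` on `[0,T]` with `a = M T` (`mul_max_le`: `M * max (T - 0) (0 - 0) ≤ a - 0`); for each `x`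
  `IsPicardLindelof.exists_eq_forall_mem_Icc_hasDerivWithinAt₀`; choose.
* `flow_time`: `‖∂_t ψ‖ ≤ M`, mean value inequality (`Convex.norm_image_sub_le_of_norm_hasDerivWithin_le`).
* `flow_fix`: the constant curve solves the same equation; `ODE_solution_unique_of_mem_Icc_right` or Gronwall.
-/

namespace Pool.Agent.QPE.Flow

open scoped ContDiff

/-- flows -/
structure IsFlow (T : ℝ) {E : Type} [NormedAddCommGroup E] [NormedSpace ℝ E] (V : ℝ → E → E)
    (ψ : ℝ → E → E) : Prop where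
  init : ∀ x, ψ 0 x = x
  deriv : ∀ t ∈ Set.Icc 0 T, ∀ x,
    HasDerivWithinAt (fun r => ψ r x) (V t (ψ t x)) (Set.Icc 0 T) t

variable {T : ℝ} {E : Type} [NormedAddCommGroup E] [NormedSpace ℝ E]

theorem exists_lip {V : ℝ → E → E} (hV : SB T 1 V) :
    ∃ L : NNReal, ∀ t ∈ Set.Icc 0 T, LipschitzWith L (V t) := by
  obtain ⟨C, hC⟩ := hV.2.2.2
  refine ⟨C.toNNReal, fun t ht => lipschitzWith_of_nnnorm_fderiv_le (hV.2.1 t ht) fun x => ?_⟩
  rw [← NNReal.coe_le_coe, coe_nnnorm]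
  exact le_trans (hC t ht x) (Real.le_coe_toNNReal C)

theorem exists_flow [CompleteSpace E] (hT : 0 ≤ T) {V : ℝ → E → E} (hV : SB T 1 V) :
    ∃ ψ : ℝ → E → E, IsFlow T V ψ := by
  obtain ⟨L, hL⟩ := exists_lip hV
  obtain ⟨C, hC⟩ := hV.1.2
  have key : ∀ x : E, ∃ α : ℝ → E, α 0 = x ∧
      ∀ t ∈ Set.Icc 0 T, HasDerivWithinAt α (V t (α t)) (Set.Icc 0 T) t := by
    intro x
    have hpl : IsPicardLindelof V (tmin := 0) (tmax := T) ⟨0, Set.left_mem_Icc.mpr hT⟩ x
        (C.toNNReal * T.toNNReal) 0 C.toNNReal L := by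
      refine ⟨fun t ht => (hL t ht).lipschitzOnWith, fun y _ => ?_, fun t ht y _ => ?_, ?_⟩
      · exact hV.1.1.comp (f := fun t : ℝ => ((t, y) : ℝ × E))
          (Continuous.prodMk continuous_id continuous_const).continuousOn
          fun t ht => ⟨ht, Set.mem_univ _⟩
      · exact le_trans (hC t ht y) (Real.le_coe_toNNReal C)
      · simp only [sub_zero, sub_self, NNReal.coe_mul, NNReal.coe_zero]
        rw [max_eq_left hT, Real.coe_toNNReal T hT]
    exact hpl.exists_eq_forall_mem_Icc_hasDerivWithinAt₀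
  choose α h0 hα using key
  exact ⟨fun t x => α x t, fun x => h0 x, fun t ht x => hα x t ht⟩

theorem flow_time {V ψ : ℝ → E → E} (hψ : IsFlow T V ψ) (M : ℝ)
    (hM : ∀ t ∈ Set.Icc 0 T, ∀ x, ‖V t x‖ ≤ M) :
    ∀ t ∈ Set.Icc 0 T, ∀ t1 ∈ Set.Icc 0 T, ∀ x, ‖ψ t1 x - ψ t x‖ ≤ M * |t1 - t| := by
  intro t ht t1 ht1 x
  have h := (convex_Icc (0 : ℝ) T).norm_image_sub_le_of_norm_hasDerivWithin_le
    (f := fun r => ψ r x) (fun r hr => hψ.deriv r hr x) (fun r hr => hM r hr _) ht ht1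
  rwa [Real.norm_eq_abs] at h

theorem flow_fix (hT : 0 ≤ T) {V ψ : ℝ → E → E} (hψ : IsFlow T V ψ) (L : NNReal)
    (hL : ∀ t ∈ Set.Icc 0 T, LipschitzWith L (V t)) (x : E) (hx : ∀ t ∈ Set.Icc 0 T, V t x = 0) :
    ∀ t ∈ Set.Icc 0 T, ψ t x = x := by
  have hI : ∀ t ∈ Set.Ico 0 T, Set.Icc t T ∈ nhdsWithin t (Set.Ici t) := fun t ht =>
    Icc_mem_nhdsGE ht.2
  have h := ODE_solution_unique_of_mem_Icc_right (v := V) (s := fun _ => Set.univ) (K := L)
    (f := fun r => ψ r x) (g := fun _ => x) (a := 0) (b := T)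
    (fun t ht => (hL t (Set.Ico_subset_Icc_self ht)).lipschitzOnWith)
    (fun t ht => (hψ.deriv t ht x).continuousWithinAt)
    (fun t ht => ((hψ.deriv t (Set.Ico_subset_Icc_self ht) x).mono
      (Set.Icc_subset_Icc_left ht.1)).mono_of_mem_nhdsWithin (hI t ht))
    (fun _ _ => Set.mem_univ _) continuousOn_const
    (fun t ht => by
      rw [hx t (Set.Ico_subset_Icc_self ht)]
      exact hasDerivWithinAt_const _ _ _)
    (fun _ _ => Set.mem_univ _) (hψ.init x)
  exact fun t ht => h ht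

end Pool.Agent.QPE.Flow
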