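import Pool.Agent.QPE.OFA

/-!
MODULE OFE (conversions between the recursive classes and iterated derivatives).
* `SC.contDiff`: by induction on `n` for all targets, `ContDiff ℝ n (f t)` from `SC T n f` (`contDiff_succ_iff_fderiv`).
* `SC.iter`: `iteratedFDeriv_succ_eq_comp_right`, `iteratedFDeriv_zero_eq_comp`; the curryings are continuous (linear isometries).
* `SB.of_iter`: by induction on `k` for all targets.  Bound: for `‖x‖ ≥ R` everything vanishes (the function vanishes on
  `{R ≤ ‖x‖}`; derivatives on the open set `{R < ‖x‖}`, hence use the statement with `R + 1`), and `[0,T] x closedBall 0 (R+1)` is compact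
  (finite dimension).  `iteratedFDeriv ℝ (k+1) (V t) x` is, through the isometry, `iteratedFDeriv ℝ k (fderiv (V t)) x`.
-/

namespace Pool.Agent.QPE.Flow

open scoped ContDiff

variable {T : ℝ} {E F : Type}
  [NormedAddCommGroup E] [NormedSpace ℝ E] [NormedAddCommGroup F] [NormedSpace ℝ F]

private theorem slice_cont {f : ℝ → E → F}
    (h : ContinuousOn (fun p : ℝ × E => f p.1 p.2) (Set.Icc 0 T ×ˢ Set.univ)) {t : ℝ}
    (ht : t ∈ Set.Icc 0 T) : Continuous (f t) := by
  have h1 : Continuous (fun x : E => (t, x)) := by fun_prop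
  have h2 := h.comp (s := Set.univ) h1.continuousOn (fun x _ => ⟨ht, Set.mem_univ _⟩)
  exact continuousOn_univ.1 h2

private theorem contDiff_aux (n : ℕ) : ∀ (F : Type) [NormedAddCommGroup F] [NormedSpace ℝ F]
    (f : ℝ → E → F), SC T n f → ∀ t ∈ Set.Icc 0 T, ContDiff ℝ n (f t) := by
  induction n with
  | zero =>
    intro F _ _ f h t ht
    rw [Nat.cast_zero, contDiff_zero]
    exact slice_cont h ht
  | succ n ih =>
    intro F _ _ f h t ht
    have e : ((n + 1 : ℕ) : WithTop ℕ∞) = (n : WithTop ℕ∞) + 1 := by push_cast; rfl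
    rw [e, contDiff_succ_iff_fderiv]
    refine ⟨h.2.1 t ht, fun hn => ?_, ih _ _ h.2.2 t ht⟩
    exact absurd hn (by simp)

theorem SC.contDiff {f : ℝ → E → F} (h : ∀ k, SC T k f) (t : ℝ) (ht : t ∈ Set.Icc 0 T) :
    ContDiff ℝ ∞ (f t) :=
  contDiff_infty.2 fun n => contDiff_aux n F f (h n) t ht

private theorem iter_aux (k : ℕ) : ∀ (F : Type) [NormedAddCommGroup F] [NormedSpace ℝ F]
    (f : ℝ → E → F), SC T k f →
    ContinuousOn (fun p : ℝ × E => iteratedFDeriv ℝ k (f p.1) p.2) (Set.Icc 0 T ×ˢ Set.univ) := by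
  induction k with
  | zero =>
    intro F _ _ f h
    have h0 : ContinuousOn (fun p : ℝ × E => f p.1 p.2) (Set.Icc 0 T ×ˢ Set.univ) := h
    have h1 := (continuousMultilinearCurryFin0 ℝ E F).symm.continuous.comp_continuousOn h0
    exact h1
  | succ k ih =>
    intro F _ _ f h
    have h0 := ih _ _ h.2.2
    have h1 := (continuousMultilinearCurryRightEquiv' ℝ k E F).symm.continuous.comp_continuousOn h0
    refine h1.congr fun p _ => ?_
    rw [iteratedFDeriv_succ_eq_comp_right]
    rfl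

theorem SC.iter {k : ℕ} {f : ℝ → E → F} (h : SC T k f) :
    ContinuousOn (fun p : ℝ × E => iteratedFDeriv ℝ k (f p.1) p.2) (Set.Icc 0 T ×ˢ Set.univ) :=
  iter_aux k F f h

private theorem cont_of_zero {V : ℝ → E → F}
    (hc : ContinuousOn (fun p : ℝ × E => iteratedFDeriv ℝ 0 (V p.1) p.2)
      (Set.Icc 0 T ×ˢ Set.univ)) :
    ContinuousOn (fun p : ℝ × E => V p.1 p.2) (Set.Icc 0 T ×ˢ Set.univ) := by
  have h1 := (continuousMultilinearCurryFin0 ℝ E F).continuous.comp_continuousOn hc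
  refine h1.congr fun p _ => ?_
  simp [Function.comp]

private theorem of_iter_bound [FiniteDimensional ℝ E] {V : ℝ → E → F} (R : ℝ)
    (hc : ContinuousOn (fun p : ℝ × E => V p.1 p.2) (Set.Icc 0 T ×ˢ Set.univ))
    (hR : ∀ t ∈ Set.Icc 0 T, ∀ x, R ≤ ‖x‖ → V t x = 0) :
    ∃ C : ℝ, ∀ t ∈ Set.Icc 0 T, ∀ x, ‖V t x‖ ≤ C := by
  have : ProperSpace E := FiniteDimensional.proper_real E
  have hK : IsCompact (Set.Icc (0 : ℝ) T ×ˢ Metric.closedBall (0 : E) R) :=
    isCompact_Icc.prod (isCompact_closedBall 0 R)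
  obtain ⟨C, hC⟩ := hK.exists_bound_of_continuousOn
    (hc.mono (Set.prod_mono le_rfl (Set.subset_univ _)))
  refine ⟨max C 0, fun t ht x => ?_⟩
  rcases le_total R ‖x‖ with h | h
  · rw [hR t ht x h, norm_zero]
    exact le_max_right _ _
  · exact (hC (t, x) ⟨ht, by simpa using h⟩).trans (le_max_left _ _)

private theorem of_iter_aux [FiniteDimensional ℝ E] (k : ℕ) :
    ∀ (F : Type) [NormedAddCommGroup F] [NormedSpace ℝ F] (V : ℝ → E → F) (R : ℝ),
    (∀ t ∈ Set.Icc 0 T, ContDiff ℝ ∞ (V t)) →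
    (∀ k : ℕ, ContinuousOn (fun p : ℝ × E => iteratedFDeriv ℝ k (V p.1) p.2)
      (Set.Icc 0 T ×ˢ Set.univ)) →
    (∀ t ∈ Set.Icc 0 T, ∀ x, R ≤ ‖x‖ → V t x = 0) → SB T k V := by
  induction k with
  | zero =>
    intro F _ _ V R hs hc hR
    have h0 := cont_of_zero (hc 0)
    exact ⟨h0, of_iter_bound R h0 hR⟩
  | succ k ih =>
    intro F _ _ V R hs hc hR
    have h0 := cont_of_zero (hc 0)
    refine ⟨⟨h0, of_iter_bound R h0 hR⟩, fun t ht => (hs t ht).differentiable (by simp), ?_⟩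
    refine ih _ _ (R + 1) (fun t ht => (hs t ht).fderiv_right (m := ∞) (by simp)) (fun l => ?_)
      (fun t ht x hx => ?_)
    · have h1 := (continuousMultilinearCurryRightEquiv' ℝ l E F).continuous.comp_continuousOn
        (hc (l + 1))
      refine h1.congr fun p _ => ?_
      have e : iteratedFDeriv ℝ (l + 1) (V p.1) p.2
          = (continuousMultilinearCurryRightEquiv' ℝ l E F).symm
            (iteratedFDeriv ℝ l (fderiv ℝ (V p.1)) p.2) := iteratedFDeriv_succ_eq_comp_right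
      simp only [Function.comp]
      rw [e, LinearIsometryEquiv.apply_symm_apply]
    · have hev : V t =ᶠ[nhds x] fun _ => (0 : F) := by
        have ho : IsOpen {y : E | R < ‖y‖} := isOpen_lt continuous_const continuous_norm
        filter_upwards [ho.mem_nhds (show R < ‖x‖ by linarith)] with y hy
        exact hR t ht y (le_of_lt hy)
      rw [hev.fderiv_eq]
      simp

theorem SB.of_iter [FiniteDimensional ℝ E] {V : ℝ → E → F} (R : ℝ)
    (hs : ∀ t ∈ Set.Icc 0 T, ContDiff ℝ ∞ (V t))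
    (hc : ∀ k : ℕ, ContinuousOn (fun p : ℝ × E => iteratedFDeriv ℝ k (V p.1) p.2)
      (Set.Icc 0 T ×ˢ Set.univ))
    (hR : ∀ t ∈ Set.Icc 0 T, ∀ x, R ≤ ‖x‖ → V t x = 0) (k : ℕ) : SB T k V :=
  of_iter_aux k F V R hs hc hR

end Pool.Agent.QPE.Flow
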