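import Pool.Agent.QPE.OFB
import Pool.Agent.QPE.OFC

/-!
MODULE OFG (the truncated tangent field and the derivative of the flow).
`tan V χ t (x, Y) = (V t x, (fderiv ℝ (V t) x) ∘L χ Y)`.
* `tan_SB`: `SB.precomp` with `fst`, `snd`, `SB.const` for `χ`, `SB.bilin` with `ContinuousLinearMap.compL ℝ E E E`, `SB.prod`
  (`SB T (k+1) V` gives `SB T k (fderiv V)`).
-/

namespace Pool.Agent.QPE.Flow

open scoped ContDiff

variable {T : ℝ} {E : Type} [NormedAddCommGroup E] [NormedSpace ℝ E]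

/-- the truncated tangent field -/
noncomputable def tan (V : ℝ → E → E) (χ : (E →L[ℝ] E) → (E →L[ℝ] E)) :
    ℝ → E × (E →L[ℝ] E) → E × (E →L[ℝ] E) :=
  fun t z => (V t z.1, (fderiv ℝ (V t) z.1) ∘L χ z.2)

theorem tan_SB {k : ℕ} {V : ℝ → E → E} (hV : SB T (k + 1) V) {χ : (E →L[ℝ] E) → (E →L[ℝ] E)}
    (hχ : ContDiff ℝ ∞ χ) (hs : HasCompactSupport χ) : SB T k (tan V χ) := by
  have h1 : SB T k (fun t (z : E × (E →L[ℝ] E)) => V t (ContinuousLinearMap.fst ℝ E (E →L[ℝ] E) z)) :=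
    hV.of_succ.precomp _
  have h2 : SB T k (fun t (z : E × (E →L[ℝ] E)) =>
      fderiv ℝ (V t) (ContinuousLinearMap.fst ℝ E (E →L[ℝ] E) z)) :=
    SB.precomp (f := fun t x => fderiv ℝ (V t) x) hV.2.2 _
  have h3 : SB T k (fun (_ : ℝ) (z : E × (E →L[ℝ] E)) => χ (ContinuousLinearMap.snd ℝ E (E →L[ℝ] E) z)) :=
    SB.precomp (f := fun _ x => χ x) (SB.const hχ hs k) _
  exact h1.prod (h2.bilin h3 (ContinuousLinearMap.compL ℝ E E E))

end Pool.Agent.QPE.Flow
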