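import Pool.Agent.QPE.OFT
import Pool.Agent.QPE.OFE

/-!
THEOREM F (smooth flows), proved from the other modules.
-/

namespace Pool.Agent.QPE.Flow

open scoped ContDiff

theorem flow_SC (k : ℕ) : ∀ (T : ℝ), 0 ≤ T → ∀ (E : Type) [NormedAddCommGroup E]
    [NormedSpace ℝ E] [FiniteDimensional ℝ E] (V ψ : ℝ → E → E), (∀ j, SB T j V) →
    IsFlow T V ψ → SC T k ψ := by
  induction k with
  | zero =>
    intro T hT E _ _ _ V ψ hV hψ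
    exact flow_cont hT hψ (hV 1)
  | succ k ih =>
    intro T hT E _ _ _ V ψ hV hψ
    haveI : CompleteSpace E := FiniteDimensional.complete ℝ E
    haveI : CompleteSpace (E →L[ℝ] E) := FiniteDimensional.complete ℝ (E →L[ℝ] E)
    obtain ⟨ρ, hρ, h⟩ := tangent hT (hV 2) hψ
    obtain ⟨χ, hχ, hs, hle, heq⟩ := exists_cut (E →L[ℝ] E) ρ hρ
    have htan : ∀ j, SB T j (tan V χ) := fun j => tan_SB (hV (j + 1)) hχ hs
    obtain ⟨Ψ, hΨ⟩ := exists_flow hT (htan 1)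
    have hSC := ih T hT (E × (E →L[ℝ] E)) (tan V χ) Ψ htan hΨ
    refine ⟨flow_cont hT hψ (hV 1), fun t ht x => ((h χ hle heq Ψ hΨ t ht x).2.1).differentiableAt,
      ?_⟩
    have h1 := (hSC.precomp (ContinuousLinearMap.inl ℝ E (E →L[ℝ] E))
      ((0 : E), ContinuousLinearMap.id ℝ E)).clm (ContinuousLinearMap.snd ℝ E (E →L[ℝ] E))
    have h2 : ∀ t ∈ Set.Icc 0 T, ∀ x, fderiv ℝ (ψ t) x
        = ContinuousLinearMap.snd ℝ E (E →L[ℝ] E) (Ψ t (ContinuousLinearMap.inl ℝ E (E →L[ℝ] E) x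
          + ((0 : E), ContinuousLinearMap.id ℝ E))) := by
      intro t ht x
      rw [((h χ hle heq Ψ hΨ t ht x).2.1).fderiv]
      simp
    exact SC_congr h1 h2

/-- THEOREM F.  The flow of a time dependent vector field `V` on `[0,T]`, all of whose spatial derivatives are continuous on
`[0,T] x E`, and which vanishes for `‖x‖ ≥ R`. -/
theorem exists_smooth_flow {E : Type} [NormedAddCommGroup E] [NormedSpace ℝ E]
    [FiniteDimensional ℝ E] (T R : ℝ) (hT : 0 ≤ T) (V : ℝ → E → E)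
    (hs : ∀ t ∈ Set.Icc 0 T, ContDiff ℝ ∞ (V t))
    (hc : ∀ k : ℕ, ContinuousOn (fun p : ℝ × E => iteratedFDeriv ℝ k (V p.1) p.2)
      (Set.Icc 0 T ×ˢ Set.univ))
    (hR : ∀ t ∈ Set.Icc 0 T, ∀ x, R ≤ ‖x‖ → V t x = 0) :
    ∃ ψ : ℝ → E → E, (∀ x, ψ 0 x = x) ∧
      (∀ t ∈ Set.Icc 0 T, ∀ x, HasDerivWithinAt (fun r => ψ r x) (V t (ψ t x)) (Set.Icc 0 T) t) ∧
      (∀ t ∈ Set.Icc 0 T, ContDiff ℝ ∞ (ψ t)) ∧
      (∀ k : ℕ, ContinuousOn (fun p : ℝ × E => iteratedFDeriv ℝ k (ψ p.1) p.2)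
        (Set.Icc 0 T ×ˢ Set.univ)) ∧
      (∀ t ∈ Set.Icc 0 T, ∀ x, HasDerivWithinAt (fun r => fderiv ℝ (ψ r) x)
        ((fderiv ℝ (V t) (ψ t x)) ∘L fderiv ℝ (ψ t) x) (Set.Icc 0 T) t) ∧
      (∃ C : ℝ, 0 < C ∧ ∀ t ∈ Set.Icc 0 T, ∀ x y, ‖x - y‖ ≤ C * ‖ψ t x - ψ t y‖) ∧
      (∀ t ∈ Set.Icc 0 T, ∀ x, R ≤ ‖x‖ → ψ t x = x) := by
  haveI : CompleteSpace E := FiniteDimensional.complete ℝ E
  haveI : CompleteSpace (E →L[ℝ] E) := FiniteDimensional.complete ℝ (E →L[ℝ] E)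
  have hV : ∀ k, SB T k V := SB.of_iter R hs hc hR
  obtain ⟨ψ, hψ⟩ := exists_flow hT (hV 1)
  have hSC : ∀ k, SC T k ψ := fun k => flow_SC k T hT E V ψ hV hψ
  obtain ⟨L, hL⟩ := exists_lip (hV 1)
  refine ⟨ψ, hψ.init, hψ.deriv, fun t ht => SC.contDiff hSC t ht, fun k => (hSC k).iter, ?_,
    ⟨Real.exp (L * T), Real.exp_pos _, flow_lower hT hψ L hL⟩,
    fun t ht x hx => flow_fix hT hψ L hL x (fun r hr => hR r hr x hx) t ht⟩
  obtain ⟨ρ, hρ, h⟩ := tangent hT (hV 2) hψ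
  obtain ⟨χ, hχ, hs', hle, heq⟩ := exists_cut (E →L[ℝ] E) ρ hρ
  have htan : ∀ j, SB T j (tan V χ) := fun j => tan_SB (hV (j + 1)) hχ hs'
  obtain ⟨Ψ, hΨ⟩ := exists_flow hT (htan 1)
  intro t ht x
  have key : ∀ r ∈ Set.Icc 0 T, fderiv ℝ (ψ r) x = (Ψ r (x, ContinuousLinearMap.id ℝ E)).2 :=
    fun r hr => ((h χ hle heq Ψ hΨ r hr x).2.1).fderiv
  have h3 := (h χ hle heq Ψ hΨ t ht x).2.2
  rw [← key t ht] at h3
  exact h3.congr (fun r hr => key r hr) (key t ht)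

end Pool.Agent.QPE.Flow
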