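import Pool.Agent.QPE.OFG
import Pool.Agent.QPE.OFD

/-!
MODULE OFJ (joint smoothness of the flow: the two steps).
* `contDiffOn_fderiv`: `fderiv ℝ (f t) x = fderivWithin ℝ (f t) univ x` and `ContDiffWithinAt.fderivWithin` (parameters
  `q = (t,x) ∈ Icc 0 T ×ˢ univ`, function `(q, y) ↦ f q.1 y` on `(Icc 0 T ×ˢ univ) ×ˢ univ`, `g q = q.2`), order `∞ + 1 ≤ ∞`.
* `tan_joint`: composition of `contDiffOn_fderiv` with `(t,(x,Y)) ↦ (t,x)`, `χ ∘ snd`, and the smooth bilinear map `∘L`.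
* `joint_step`: at `(t,x)` the function `(t1,x1) ↦ ψ t1 x1` has within `S = Icc 0 T ×ˢ univ` the derivative
  `(r,h) ↦ r • V t (ψ t x) + Y t x h`: `ψ t1 x1 - ψ t x = [ψ t1 x1 - ψ t1 x] + [ψ t1 x - ψ t x]`; the second bracket by `hψ.deriv`; the first
  is `Y t x (x1 - x)` up to `sup ‖Y t1 z - Y t x‖ ‖x1 - x‖` over the segment (mean value inequality for `ψ t1 - Y t x`), small by continuity
  of `Y` (`hY` gives continuity).  Then `contDiffOn_succ_iff_hasFDerivWithinAt` or `contDiffOn_succ_iff_fderivWithin`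
  (`S` has unique derivatives since `0 < T`): the derivative is `C^n` in `(t,x)`.
-/

namespace Pool.Agent.QPE.Flow

open scoped ContDiff

variable {T : ℝ} {E F : Type} [NormedAddCommGroup E] [NormedSpace ℝ E]
  [NormedAddCommGroup F] [NormedSpace ℝ F]


theorem contDiffOn_fderiv (hT : 0 < T) {f : ℝ → E → F}
    (hf : ContDiffOn ℝ ∞ (fun q : ℝ × E => f q.1 q.2) (Set.Icc 0 T ×ˢ Set.univ)) :
    ContDiffOn ℝ ∞ (fun q : ℝ × E => fderiv ℝ (f q.1) q.2) (Set.Icc 0 T ×ˢ Set.univ) := by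
  intro q hq
  have h1 : ContDiffWithinAt ℝ ∞ (fun q : ℝ × E => fderivWithin ℝ (f q.1) Set.univ q.2)
      (Set.Icc 0 T ×ˢ Set.univ) q := by
    refine ContDiffWithinAt.fderivWithin (f := fun (q : ℝ × E) (y : E) => f q.1 y) (g := fun q => q.2)
      (t := Set.univ) (n := ∞) (m := ∞) ?_ contDiffWithinAt_snd uniqueDiffOn_univ (by simp) hq
      (fun _ _ => Set.mem_univ _)
    have h2 := hf (q.1, q.2) ⟨hq.1, Set.mem_univ _⟩
    refine ContDiffWithinAt.comp (t := Set.Icc 0 T ×ˢ Set.univ) (q, q.2) (g := fun q : ℝ × E => f q.1 q.2)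
      (f := fun w : (ℝ × E) × E => (w.1.1, w.2)) h2 ?_ ?_
    · exact ((contDiff_fst.fst).prodMk contDiff_snd).contDiffWithinAt
    · rintro ⟨w, y⟩ hw
      exact ⟨hw.1.1, Set.mem_univ _⟩
  simpa [fderivWithin_univ] using h1

theorem tan_joint (hT : 0 < T) {V : ℝ → E → E}
    (hV : ContDiffOn ℝ ∞ (fun q : ℝ × E => V q.1 q.2) (Set.Icc 0 T ×ˢ Set.univ))
    {χ : (E →L[ℝ] E) → (E →L[ℝ] E)} (hχ : ContDiff ℝ ∞ χ) :
    ContDiffOn ℝ ∞ (fun q : ℝ × (E × (E →L[ℝ] E)) => tan V χ q.1 q.2)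
      (Set.Icc 0 T ×ˢ Set.univ) := by
  have hm : ContDiffOn ℝ ∞ (fun q : ℝ × (E × (E →L[ℝ] E)) => (q.1, q.2.1))
      (Set.Icc 0 T ×ˢ Set.univ) := (contDiff_fst.prodMk contDiff_snd.fst).contDiffOn
  have hmap : Set.MapsTo (fun q : ℝ × (E × (E →L[ℝ] E)) => (q.1, q.2.1))
      (Set.Icc 0 T ×ˢ Set.univ) (Set.Icc 0 T ×ˢ Set.univ) := fun q hq => ⟨hq.1, Set.mem_univ _⟩
  have h1 : ContDiffOn ℝ ∞ (fun q : ℝ × (E × (E →L[ℝ] E)) => V q.1 q.2.1)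
      (Set.Icc 0 T ×ˢ Set.univ) := hV.comp hm hmap
  have h2 : ContDiffOn ℝ ∞ (fun q : ℝ × (E × (E →L[ℝ] E)) => fderiv ℝ (V q.1) q.2.1)
      (Set.Icc 0 T ×ˢ Set.univ) := (contDiffOn_fderiv hT hV).comp hm hmap
  have h3 : ContDiffOn ℝ ∞ (fun q : ℝ × (E × (E →L[ℝ] E)) => χ q.2.2)
      (Set.Icc 0 T ×ˢ Set.univ) := (hχ.comp contDiff_snd.snd).contDiffOn
  exact h1.prodMk (h2.clm_comp h3)

private theorem ofj_deriv {V ψ : ℝ → E → E} (hψ : IsFlow T V ψ)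
    (Y : ℝ → E → (E →L[ℝ] E))
    (hY : ContinuousOn (fun q : ℝ × E => Y q.1 q.2) (Set.Icc 0 T ×ˢ Set.univ))
    (hd : ∀ t ∈ Set.Icc 0 T, ∀ x, HasFDerivAt (ψ t) (Y t x) x)
    (q : ℝ × E) (hq : q ∈ Set.Icc 0 T ×ˢ (Set.univ : Set E)) :
    HasFDerivWithinAt (fun q : ℝ × E => ψ q.1 q.2)
      ((ContinuousLinearMap.fst ℝ ℝ E).smulRight (V q.1 (ψ q.1 q.2)) +
        (Y q.1 q.2) ∘L (ContinuousLinearMap.snd ℝ ℝ E)) (Set.Icc 0 T ×ˢ Set.univ) q := by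
  obtain ⟨t, x⟩ := q
  have ht : t ∈ Set.Icc 0 T := hq.1
  have hA : HasFDerivWithinAt (fun q : ℝ × E => ψ q.1 x)
      ((ContinuousLinearMap.fst ℝ ℝ E).smulRight (V t (ψ t x))) (Set.Icc 0 T ×ˢ Set.univ) (t, x) := by
    have h1 : HasFDerivWithinAt (fun r => ψ r x)
        (ContinuousLinearMap.toSpanSingleton ℝ (V t (ψ t x))) (Set.Icc 0 T) t :=
      (hψ.deriv t ht x).hasFDerivWithinAt
    have h2 : HasFDerivWithinAt (fun q : ℝ × E => q.1) (ContinuousLinearMap.fst ℝ ℝ E)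
        (Set.Icc 0 T ×ˢ Set.univ) (t, x) := hasFDerivWithinAt_fst
    have h3 := HasFDerivWithinAt.comp (t, x) h1 h2 (fun q hq => hq.1)
    refine h3.congr_fderiv ?_
    ext v <;> simp
  have hB : HasFDerivWithinAt (fun q : ℝ × E => ψ q.1 q.2 - ψ q.1 x)
      ((Y t x) ∘L (ContinuousLinearMap.snd ℝ ℝ E)) (Set.Icc 0 T ×ˢ Set.univ) (t, x) := by
    refine HasFDerivWithinAt.of_isLittleO ?_
    rw [Asymptotics.isLittleO_iff]
    intro c hc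
    have hc1 := (Metric.continuousWithinAt_iff.mp (hY (t, x) hq)) c hc
    obtain ⟨δ, hδ, hball⟩ := hc1
    have hn : Metric.ball ((t, x) : ℝ × E) δ ∩ (Set.Icc 0 T ×ˢ Set.univ) ∈
        nhdsWithin ((t, x) : ℝ × E) (Set.Icc 0 T ×ˢ Set.univ) :=
      Filter.inter_mem (mem_nhdsWithin_of_mem_nhds (Metric.ball_mem_nhds _ hδ)) self_mem_nhdsWithin
    filter_upwards [hn] with q hq1
    obtain ⟨t1, x1⟩ := q
    obtain ⟨hqb, hqS⟩ := hq1
    have ht1 : t1 ∈ Set.Icc 0 T := hqS.1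
    rw [Metric.mem_ball, Prod.dist_eq, max_lt_iff] at hqb
    have key := Convex.norm_image_sub_le_of_norm_hasFDerivWithin_le' (𝕜 := ℝ) (f := ψ t1)
      (f' := fun z => Y t1 z) (φ := Y t x) (C := c) (s := Metric.ball x δ) (x := x) (y := x1)
      (fun z _ => (hd t1 ht1 z).hasFDerivWithinAt)
      (fun z hz => by
        have h5 := @hball (t1, z) ⟨ht1, Set.mem_univ _⟩ (by
          rw [Prod.dist_eq, max_lt_iff]
          exact ⟨hqb.1, Metric.mem_ball.mp hz⟩)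
        rw [dist_eq_norm] at h5
        exact h5.le)
      (convex_ball x δ) (Metric.mem_ball_self hδ) (Metric.mem_ball.mpr hqb.2)
    have e1 : (fun q : ℝ × E => ψ q.1 q.2 - ψ q.1 x) (t1, x1) -
        (fun q : ℝ × E => ψ q.1 q.2 - ψ q.1 x) (t, x) -
        ((Y t x) ∘L (ContinuousLinearMap.snd ℝ ℝ E)) ((t1, x1) - (t, x)) =
        ψ t1 x1 - ψ t1 x - (Y t x) (x1 - x) := by
      simp
    rw [e1]
    refine key.trans (mul_le_mul_of_nonneg_left ?_ hc.le)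
    exact norm_snd_le (((t1, x1) : ℝ × E) - (t, x))
  have hAB := hA.add hB
  refine hAB.congr_of_eventuallyEq ?_ ?_
  · filter_upwards with q
    simp
  · simp

theorem joint_step (hT : 0 < T) {V ψ : ℝ → E → E} (hψ : IsFlow T V ψ) (n : ℕ)
    (h1 : ContDiffOn ℝ n (fun q : ℝ × E => V q.1 (ψ q.1 q.2)) (Set.Icc 0 T ×ˢ Set.univ))
    (Y : ℝ → E → (E →L[ℝ] E))
    (hY : ContDiffOn ℝ n (fun q : ℝ × E => Y q.1 q.2) (Set.Icc 0 T ×ˢ Set.univ))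
    (hd : ∀ t ∈ Set.Icc 0 T, ∀ x, HasFDerivAt (ψ t) (Y t x) x) :
    ContDiffOn ℝ (n + 1 : ℕ) (fun q : ℝ × E => ψ q.1 q.2) (Set.Icc 0 T ×ˢ Set.univ) := by
  have hS : UniqueDiffOn ℝ (Set.Icc 0 T ×ˢ (Set.univ : Set E)) :=
    (uniqueDiffOn_Icc hT).prod uniqueDiffOn_univ
  have e : ((n + 1 : ℕ) : WithTop ℕ∞) = (n : WithTop ℕ∞) + 1 := by push_cast; rfl
  rw [e, contDiffOn_succ_iff_hasFDerivWithinAt_of_uniqueDiffOn hS]
  refine ⟨fun h => absurd h (by simp), fun q => (ContinuousLinearMap.fst ℝ ℝ E).smulRight (V q.1 (ψ q.1 q.2)) +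
        (Y q.1 q.2) ∘L (ContinuousLinearMap.snd ℝ ℝ E), ?_, ?_⟩
  · refine ContDiffOn.add ?_ ?_
    · exact (ContinuousLinearMap.smulRightL ℝ (ℝ × E) E (ContinuousLinearMap.fst ℝ ℝ E)).contDiff.comp_contDiffOn h1
    · exact hY.clm_comp contDiffOn_const
  · exact fun q hq => ofj_deriv hψ Y hY.continuousOn hd q hq

end Pool.Agent.QPE.Flow
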