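import Pool.Agent.QPE.WRB

/-!
MODULE WRC (continuity of the iterated spatial derivatives from joint smoothness).
`SC_of_contDiffOn`: by induction on `k`, for all targets: `fderiv ℝ (f t) x = fderivWithin ℝ (f t) univ x` and
`ContDiffWithinAt.fderivWithin` (parameters `q = (t,x) ∈ Icc 0 T ×ˢ univ`, function `(q, y) ↦ f q.1 y`, `g q = q.2`) shows that
`(t,x) ↦ fderiv ℝ (f t) x` is `ContDiffOn ℝ ∞` on `Icc 0 T ×ˢ univ`; `f t` is smooth for `t ∈ Icc 0 T` (composition with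
`x ↦ (t,x)`).  Then `SC.iter` of OFE.
-/

namespace Pool.Agent.QPE

open scoped ContDiff BigOperators

private theorem wrc_fderiv {E F : Type} [NormedAddCommGroup E] [NormedSpace ℝ E]
    [NormedAddCommGroup F] [NormedSpace ℝ F] {T : ℝ} {f : ℝ → E → F}
    (hf : ContDiffOn ℝ ∞ (fun q : ℝ × E => f q.1 q.2) (Set.Icc 0 T ×ˢ Set.univ)) :
    ContDiffOn ℝ ∞ (fun q : ℝ × E => fderiv ℝ (f q.1) q.2) (Set.Icc 0 T ×ˢ Set.univ) := by
  intro q hq
  have h1 : ContDiffWithinAt ℝ ∞ (fun q : ℝ × E => fderivWithin ℝ (f q.1) Set.univ q.2)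
      (Set.Icc 0 T ×ˢ Set.univ) q := by
    refine ContDiffWithinAt.fderivWithin (f := fun (q : ℝ × E) (y : E) => f q.1 y) (g := fun q => q.2)
      (t := Set.univ) (n := ∞) (m := ∞) ?_ contDiffWithinAt_snd uniqueDiffOn_univ (by simp) hq
      (fun _ _ => Set.mem_univ _)
    have h2 := hf (q.1, q.2) ⟨hq.1, Set.mem_univ _⟩
    refine ContDiffWithinAt.comp (t := Set.Icc 0 T ×ˢ Set.univ) (q, q.2) (g := fun q : ℝ × E => f q.1 q.2)
      (f := fun w : (ℝ × E) × E => (w.1.1, w.2)) h2 ?_ ?_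
    · exact ((contDiff_fst.fst).prodMk contDiff_snd).contDiffWithinAt
    · rintro ⟨w, y⟩ hw
      exact ⟨hw.1.1, Set.mem_univ _⟩
  simpa [fderivWithin_univ] using h1

private theorem wrc_aux {E : Type} [NormedAddCommGroup E] [NormedSpace ℝ E] {T : ℝ}
    (k : ℕ) : ∀ (F : Type) [NormedAddCommGroup F] [NormedSpace ℝ F] (f : ℝ → E → F)
    (_ : ContDiffOn ℝ ∞ (fun q : ℝ × E => f q.1 q.2) (Set.Icc 0 T ×ˢ Set.univ)),
    Flow.SC T k f := by
  induction k with
  | zero =>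
    intro F _ _ f hf
    exact hf.continuousOn
  | succ k ih =>
    intro F _ _ f hf
    refine ⟨hf.continuousOn, ?_, ih _ _ (wrc_fderiv hf)⟩
    intro t ht
    have h : ContDiff ℝ ∞ (f t) := by
      rw [← contDiffOn_univ]
      exact hf.comp (s := Set.univ) (g := fun q : ℝ × E => f q.1 q.2) (f := fun x : E => (t, x))
        ((contDiff_const.prodMk contDiff_id).contDiffOn) (fun x _ => ⟨ht, Set.mem_univ _⟩)
    exact h.differentiable (by simp)

theorem SC_of_contDiffOn {E F : Type} [NormedAddCommGroup E] [NormedSpace ℝ E]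
    [NormedAddCommGroup F] [NormedSpace ℝ F] {T : ℝ} (hT : 0 < T) {f : ℝ → E → F}
    (hf : ContDiffOn ℝ ∞ (fun q : ℝ × E => f q.1 q.2) (Set.Icc 0 T ×ˢ Set.univ)) (k : ℕ) :
    Flow.SC T k f :=
  wrc_aux k F f hf

end Pool.Agent.QPE
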