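import Pool.Agent.QPE.OFJ
import Pool.Agent.QPE.OFI
import Pool.Agent.QPE.WRC

/-!
THEOREM F, jointly smooth form (assembly).
-/

namespace Pool.Agent.QPE.Flow

open scoped ContDiff

theorem flow_joint (n : ℕ) : ∀ (T : ℝ), 0 < T → ∀ (E : Type) [NormedAddCommGroup E]
    [NormedSpace ℝ E] [FiniteDimensional ℝ E] (V ψ : ℝ → E → E), (∀ j, SB T j V) →
    ContDiffOn ℝ ∞ (fun q : ℝ × E => V q.1 q.2) (Set.Icc 0 T ×ˢ Set.univ) →
    IsFlow T V ψ → ContDiffOn ℝ n (fun q : ℝ × E => ψ q.1 q.2) (Set.Icc 0 T ×ˢ Set.univ) := by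
  induction n with
  | zero =>
    intro T hT E _ _ _ V ψ hV _ hψ
    have h := flow_cont hT.le hψ (hV 1)
    exact contDiffOn_zero.mpr h
  | succ n ih =>
    intro T hT E _ _ _ V ψ hV hVj hψ
    haveI : CompleteSpace E := FiniteDimensional.complete ℝ E
    haveI : CompleteSpace (E →L[ℝ] E) := FiniteDimensional.complete ℝ (E →L[ℝ] E)
    obtain ⟨ρ, hρ, h⟩ := tangent hT.le (hV 2) hψ
    obtain ⟨χ, hχ, hs, hle, heq⟩ := exists_cut (E →L[ℝ] E) ρ hρ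
    have htan : ∀ j, SB T j (tan V χ) := fun j => tan_SB (hV (j + 1)) hχ hs
    obtain ⟨Ψ, hΨ⟩ := exists_flow hT.le (htan 1)
    have hJ := ih T hT (E × (E →L[ℝ] E)) (tan V χ) Ψ htan (tan_joint hT hVj hχ) hΨ
    have hJψ := ih T hT E V ψ hV hVj hψ
    refine joint_step hT hψ n ?_ (fun t x => (Ψ t (x, ContinuousLinearMap.id ℝ E)).2) ?_
      (fun t ht x => (h χ hle heq Ψ hΨ t ht x).2.1)
    · have hVn : ContDiffOn ℝ n (fun q : ℝ × E => V q.1 q.2) (Set.Icc 0 T ×ˢ Set.univ) :=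
        hVj.of_le (by exact_mod_cast le_top)
      exact hVn.comp (contDiffOn_fst.prodMk hJψ) (fun q hq => ⟨hq.1, Set.mem_univ _⟩)
    · have hm : ContDiffOn ℝ n (fun q : ℝ × E => (q.1, (q.2, ContinuousLinearMap.id ℝ E)))
          (Set.Icc 0 T ×ˢ Set.univ) :=
        contDiffOn_fst.prodMk (contDiffOn_snd.prodMk contDiffOn_const)
      exact contDiff_snd.comp_contDiffOn (hJ.comp hm (fun q hq => ⟨hq.1, Set.mem_univ _⟩))

/-- THEOREM F, jointly smooth form -/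
theorem exists_joint_flow {E : Type} [NormedAddCommGroup E] [NormedSpace ℝ E]
    [FiniteDimensional ℝ E] (T R : ℝ) (hT : 0 < T) (V : ℝ → E → E)
    (hV : ContDiffOn ℝ ∞ (fun q : ℝ × E => V q.1 q.2) (Set.Icc 0 T ×ˢ Set.univ))
    (hR : ∀ t ∈ Set.Icc 0 T, ∀ x, R ≤ ‖x‖ → V t x = 0) :
    ∃ ψ : ℝ → E → E, (∀ x, ψ 0 x = x) ∧
      ContDiffOn ℝ ∞ (fun q : ℝ × E => ψ q.1 q.2) (Set.Icc 0 T ×ˢ Set.univ) ∧
      (∀ t ∈ Set.Icc 0 T, ∀ x, HasDerivWithinAt (fun r => ψ r x) (V t (ψ t x)) (Set.Icc 0 T) t) ∧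
      (∀ t ∈ Set.Icc 0 T, ContDiff ℝ ∞ (ψ t)) ∧
      (∀ k : ℕ, ContinuousOn (fun p : ℝ × E => iteratedFDeriv ℝ k (ψ p.1) p.2)
        (Set.Icc 0 T ×ˢ Set.univ)) ∧
      (∀ t ∈ Set.Icc 0 T, ∀ x, HasDerivWithinAt (fun r => fderiv ℝ (ψ r) x)
        ((fderiv ℝ (V t) (ψ t x)) ∘L fderiv ℝ (ψ t) x) (Set.Icc 0 T) t) ∧
      (∃ C : ℝ, 0 < C ∧ ∀ t ∈ Set.Icc 0 T, ∀ x y, ‖x - y‖ ≤ C * ‖ψ t x - ψ t y‖) ∧
      (∀ t ∈ Set.Icc 0 T, ∀ x, Function.Injective (fderiv ℝ (ψ t) x)) ∧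
      (∀ t ∈ Set.Icc 0 T, ∀ x, R ≤ ‖x‖ → ψ t x = x) := by
  have hSCV : ∀ k, SC T k V := fun k => SC_of_contDiffOn hT hV k
  have hs : ∀ t ∈ Set.Icc 0 T, ContDiff ℝ ∞ (V t) := fun t ht => SC.contDiff hSCV t ht
  obtain ⟨ψ, h0, hd, hsm, hit, hvar, ⟨C, hC, hlow⟩, hfix⟩ :=
    exists_smooth_flow T R hT.le V hs (fun k => (hSCV k).iter) hR
  refine ⟨ψ, h0, ?_, hd, hsm, hit, hvar, ⟨C, hC, hlow⟩, ?_, hfix⟩
  · rw [contDiffOn_infty]
    intro n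
    exact flow_joint n T hT E V ψ (SB.of_iter R hs (fun k => (hSCV k).iter) hR) hV ⟨h0, hd⟩
  · intro t ht x
    rw [injective_iff_map_eq_zero]
    intro v hv
    by_contra hne
    have hdiff : DifferentiableAt ℝ (ψ t) x := (hsm t ht).differentiable (by simp) x
    -- derivative along v is zero, contradiction with the lower bound
    have hlim : Filter.Tendsto (fun r : ℝ => r⁻¹ • (ψ t (x + r • v) - ψ t x))
        (nhdsWithin 0 {0}ᶜ) (nhds (fderiv ℝ (ψ t) x v)) := by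
      have h1 : HasDerivAt (fun r : ℝ => ψ t (x + r • v)) (fderiv ℝ (ψ t) x v) 0 := by
        have h2 : HasDerivAt (fun r : ℝ => x + r • v) v 0 := by
          simpa using ((hasDerivAt_id (0 : ℝ)).smul_const v).const_add x
        have h3 : HasFDerivAt (ψ t) (fderiv ℝ (ψ t) x) (x + (0 : ℝ) • v) := by
          simpa using hdiff.hasFDerivAt
        exact h3.comp_hasDerivAt 0 h2
      have h4 := h1.tendsto_slope_zero
      simpa using h4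
    rw [hv] at hlim
    have hev : ∀ᶠ r : ℝ in nhdsWithin 0 {0}ᶜ, ‖v‖ / C ≤ ‖r⁻¹ • (ψ t (x + r • v) - ψ t x)‖ := by
      filter_upwards [self_mem_nhdsWithin] with r hr
      have hr0 : r ≠ 0 := hr
      have h5 := hlow t ht (x + r • v) x
      rw [add_sub_cancel_left, norm_smul] at h5
      rw [norm_smul, norm_inv, div_le_iff₀ hC]
      have hrpos : 0 < ‖r‖ := norm_pos_iff.mpr hr0
      calc ‖v‖ = ‖r‖⁻¹ * (‖r‖ * ‖v‖) := by field_simp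
        _ ≤ ‖r‖⁻¹ * (C * ‖ψ t (x + r • v) - ψ t x‖) :=
            mul_le_mul_of_nonneg_left h5 (inv_nonneg.mpr hrpos.le)
        _ = ‖r‖⁻¹ * ‖ψ t (x + r • v) - ψ t x‖ * C := by ring
    have hle := ge_of_tendsto hlim.norm hev
    rw [norm_zero] at hle
    have : 0 < ‖v‖ / C := div_pos (norm_pos_iff.mpr hne) hC
    linarith

end Pool.Agent.QPE.Flow
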