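import Pool.Agent.QPE.OFD

/-!
MODULE OFL (Lipschitz bounds for the flow).
* `flow_lip`: Gronwall (`dist_le_of_trajectories_ODE`): both curves solve the same equation on `[0,T]`.
* `flow_lower`: lower bound, by Gronwall for the reversed curves `s ↦ ψ (t - s) x`, `s ↦ ψ (t - s) y`, `s ∈ [0,t]`, with the field
  `-V (t - s)`.
* `flow_cont`: `flow_lip` (with `exists_lip`) and `flow_time`.
-/

namespace Pool.Agent.QPE.Flow

open scoped ContDiff

variable {T : ℝ} {E : Type} [NormedAddCommGroup E] [NormedSpace ℝ E]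

private theorem ofl_cont {V ψ : ℝ → E → E} (hψ : IsFlow T V ψ) (x : E) :
    ContinuousOn (fun r => ψ r x) (Set.Icc 0 T) := fun t ht =>
  (hψ.deriv t ht x).continuousWithinAt

private theorem ofl_rev {V ψ : ℝ → E → E} (hψ : IsFlow T V ψ) (t : ℝ) (ht : t ∈ Set.Icc 0 T)
    (x : E) (s : ℝ) (hs : s ∈ Set.Icc 0 t) :
    HasDerivWithinAt (fun r => ψ (t - r) x) (-(V (t - s) (ψ (t - s) x))) (Set.Icc 0 t) s := by
  have h1 : HasDerivWithinAt (fun r : ℝ => t - r) (-1) (Set.Icc 0 t) s := by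
    simpa using (hasDerivWithinAt_id s (Set.Icc 0 t)).const_sub t
  have hts : t - s ∈ Set.Icc 0 T := ⟨by linarith [hs.2], by linarith [hs.1, ht.2]⟩
  have h2 : HasDerivWithinAt (fun r => ψ r x) (V (t - s) (ψ (t - s) x)) (Set.Icc 0 T) (t - s) :=
    hψ.deriv (t - s) hts x
  have hmaps : Set.MapsTo (fun r : ℝ => t - r) (Set.Icc 0 t) (Set.Icc 0 T) := fun r hr =>
    ⟨by linarith [hr.2], by linarith [hr.1, ht.2]⟩
  have h3 := h2.scomp s h1 hmaps
  have h4 : (-1 : ℝ) • V (t - s) (ψ (t - s) x) = -(V (t - s) (ψ (t - s) x)) := by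
    rw [neg_one_smul]
  rw [h4] at h3
  exact h3

theorem flow_lip (hT : 0 ≤ T) {V ψ : ℝ → E → E} (hψ : IsFlow T V ψ) (L : NNReal)
    (hL : ∀ t ∈ Set.Icc 0 T, LipschitzWith L (V t)) :
    ∀ t ∈ Set.Icc 0 T, ∀ x y, ‖ψ t x - ψ t y‖ ≤ Real.exp (L * T) * ‖x - y‖ := by
  intro t ht x y
  have hmem : ∀ r ∈ Set.Ico 0 T, r ∈ Set.Icc 0 T := fun r hr => ⟨hr.1, hr.2.le⟩
  have hd : ∀ z : E, ∀ r ∈ Set.Ico 0 T,
      HasDerivWithinAt (fun r => ψ r z) (V r (ψ r z)) (Set.Ici r) r := fun z r hr =>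
    (hψ.deriv r (hmem r hr) z).mono_of_mem_nhdsWithin (Icc_mem_nhdsGE_of_mem hr)
  have h := dist_le_of_trajectories_ODE_of_mem (v := V) (K := L) (s := fun _ => Set.univ)
    (f := fun r => ψ r x) (g := fun r => ψ r y) (a := 0) (b := T) (δ := ‖x - y‖)
    (fun r hr => (hL r (hmem r hr)).lipschitzOnWith) (ofl_cont hψ x) (hd x)
    (fun _ _ => Set.mem_univ _) (ofl_cont hψ y) (hd y) (fun _ _ => Set.mem_univ _)
    (by simp only [hψ.init, dist_eq_norm]; exact le_refl _) t ht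
  rw [dist_eq_norm] at h
  refine h.trans ?_
  rw [mul_comm]
  refine mul_le_mul_of_nonneg_right ?_ (norm_nonneg _)
  refine Real.exp_le_exp.2 (mul_le_mul_of_nonneg_left ?_ L.2)
  linarith [ht.2]

theorem flow_lower (hT : 0 ≤ T) {V ψ : ℝ → E → E} (hψ : IsFlow T V ψ) (L : NNReal)
    (hL : ∀ t ∈ Set.Icc 0 T, LipschitzWith L (V t)) :
    ∀ t ∈ Set.Icc 0 T, ∀ x y, ‖x - y‖ ≤ Real.exp (L * T) * ‖ψ t x - ψ t y‖ := by
  intro t ht x y
  have hmem : ∀ r ∈ Set.Ico 0 t, r ∈ Set.Icc 0 t := fun r hr => ⟨hr.1, hr.2.le⟩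
  have hd : ∀ z : E, ∀ r ∈ Set.Ico 0 t,
      HasDerivWithinAt (fun r => ψ (t - r) z) ((fun r w => -(V (t - r) w)) r (ψ (t - r) z))
        (Set.Ici r) r := fun z r hr =>
    (ofl_rev hψ t ht z r (hmem r hr)).mono_of_mem_nhdsWithin (Icc_mem_nhdsGE_of_mem hr)
  have hc : ∀ z : E, ContinuousOn (fun r => ψ (t - r) z) (Set.Icc 0 t) := fun z r hr =>
    (ofl_rev hψ t ht z r hr).continuousWithinAt
  have h := dist_le_of_trajectories_ODE_of_mem (v := fun r w => -(V (t - r) w)) (K := L)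
    (s := fun _ => Set.univ)
    (f := fun r => ψ (t - r) x) (g := fun r => ψ (t - r) y) (a := 0) (b := t)
    (δ := ‖ψ t x - ψ t y‖)
    (fun r hr => (LipschitzWith.neg (hL (t - r)
      ⟨by linarith [hr.2], by linarith [hr.1, ht.2]⟩)).lipschitzOnWith) (hc x) (hd x)
    (fun _ _ => Set.mem_univ _) (hc y) (hd y) (fun _ _ => Set.mem_univ _)
    (by simp only [sub_zero, dist_eq_norm]; exact le_refl _) t ⟨ht.1, le_refl _⟩
  simp only [sub_self, sub_zero, hψ.init, dist_eq_norm] at h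
  refine h.trans ?_
  rw [mul_comm]
  refine mul_le_mul_of_nonneg_right ?_ (norm_nonneg _)
  refine Real.exp_le_exp.2 (mul_le_mul_of_nonneg_left ?_ L.2)
  linarith [ht.2]

theorem flow_cont (hT : 0 ≤ T) {V ψ : ℝ → E → E} (hψ : IsFlow T V ψ) (hV : SB T 1 V) :
    SC T 0 ψ := by
  obtain ⟨L, hL⟩ := exists_lip hV
  change ContinuousOn (fun p : ℝ × E => ψ p.1 p.2) (Set.Icc 0 T ×ˢ Set.univ)
  refine continuousOn_prod_of_continuousOn_lipschitzOnWith' (fun p : ℝ × E => ψ p.1 p.2)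
    ⟨Real.exp (L * T), (Real.exp_pos _).le⟩ ?_ (fun b _ => ofl_cont hψ b)
  intro a ha
  refine (LipschitzWith.of_dist_le_mul fun x y => ?_).lipschitzOnWith
  rw [dist_eq_norm, dist_eq_norm]
  exact flow_lip hT hψ L hL a ha x y

end Pool.Agent.QPE.Flow
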