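import Pool.Agent.QPE.OFG
import Pool.Agent.QPE.OFL

/-!
MODULE OFT (the derivative of the flow is the flow of the tangent field).
* `tangent`: let `Ψ` be a flow of `tan V χ` on `E x (E →L E)`, `Ψ t (x, id) = (ξ t, Y t)`.  The first component solves the equation of `ψ`, so
  `ξ t = ψ t x` (uniqueness: Gronwall).  `‖Y t‖ ≤ exp (L T)` by Gronwall (`norm_le_gronwallBound_of_norm_deriv_right_le`,
  `‖Y'‖ ≤ L ‖χ Y‖ ≤ L ‖Y‖`, `‖Y 0‖ ≤ 1`); choose `ρ ≥ exp (L T)`, so `χ (Y t) = Y t` and `Y' = DV(t, ψ t x) ∘L Y`.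
  Derivative: `δ t = ψ t (x+h) - ψ t x - Y t h` satisfies `δ' = DV(t, ψ t x) δ + r`,
  `‖r‖ = ‖V (ψ(x+h)) - V (ψ x) - DV(ψ x)(ψ(x+h) - ψ x)‖ ≤ C2 ‖ψ(x+h) - ψ x‖^2 ≤ C2 exp(2 L T) ‖h‖^2` (`C2` bounds the second
  derivative, mean value inequality), `δ 0 = 0`; Gronwall gives `‖δ t‖ ≤ C ‖h‖^2`, so `HasFDerivAt (ψ t) (Y t) x`.
-/

namespace Pool.Agent.QPE.Flow

open scoped ContDiff

variable {T : ℝ} {E : Type} [NormedAddCommGroup E] [NormedSpace ℝ E]

private theorem OFT_ici {f : ℝ → E} {f' : E} {t : ℝ} (h : HasDerivWithinAt f f' (Set.Icc 0 T) t)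
    (ht : t ∈ Set.Ico 0 T) : HasDerivWithinAt f f' (Set.Ici t) t := by
  have h1 : HasDerivWithinAt f f' (Set.Icc t T) t :=
    h.mono (Set.Icc_subset_Icc_left ht.1)
  exact h1.mono_of_mem_nhdsWithin (Icc_mem_nhdsGE ht.2)

/-- Gronwall on `[0,T]` -/
private theorem OFT_gron {f f' : ℝ → E} {δ K ε : ℝ}
    (hf : ∀ r ∈ Set.Icc 0 T, HasDerivWithinAt f (f' r) (Set.Icc 0 T) r)
    (ha : ‖f 0‖ ≤ δ) (hb : ∀ r ∈ Set.Icc 0 T, ‖f' r‖ ≤ K * ‖f r‖ + ε) :
    ∀ r ∈ Set.Icc 0 T, ‖f r‖ ≤ gronwallBound δ K ε r := by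
  intro r hr
  have := norm_le_gronwallBound_of_norm_deriv_right_le (f := f) (f' := f') (δ := δ) (K := K) (ε := ε)
    (a := 0) (b := T) (fun x hx => (hf x hx).continuousWithinAt)
    (fun x hx => OFT_ici (hf x ⟨hx.1, hx.2.le⟩) hx) ha (fun x hx => hb x ⟨hx.1, hx.2.le⟩) r hr
  simpa using this

private theorem OFT_fst {F : Type} [NormedAddCommGroup F] [NormedSpace ℝ F]
    {f : ℝ → E × F} {f' : E × F} {s : Set ℝ} {t : ℝ} (h : HasDerivWithinAt f f' s t) :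
    HasDerivWithinAt (fun r => (f r).1) f'.1 s t := by
  have := (ContinuousLinearMap.fst ℝ E F).hasFDerivAt.comp_hasDerivWithinAt t h
  exact this

private theorem OFT_snd {F : Type} [NormedAddCommGroup F] [NormedSpace ℝ F]
    {f : ℝ → E × F} {f' : E × F} {s : Set ℝ} {t : ℝ} (h : HasDerivWithinAt f f' s t) :
    HasDerivWithinAt (fun r => (f r).2) f'.2 s t := by
  have := (ContinuousLinearMap.snd ℝ E F).hasFDerivAt.comp_hasDerivWithinAt t h
  exact this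

/-- second order Taylor bound -/
private theorem OFT_taylor {f : E → E} {C : ℝ} (hC : 0 ≤ C) (hf : Differentiable ℝ f)
    (h : ∀ x y, ‖fderiv ℝ f x - fderiv ℝ f y‖ ≤ C * ‖x - y‖) (a b : E) :
    ‖f b - f a - fderiv ℝ f a (b - a)‖ ≤ C * ‖b - a‖ ^ 2 := by
  have key := Convex.norm_image_sub_le_of_norm_hasFDerivWithin_le' (𝕜 := ℝ) (f := f)
    (f' := fun x => fderiv ℝ f x) (s := segment ℝ a b) (φ := fderiv ℝ f a) (C := C * ‖b - a‖)
    (x := a) (y := b) (fun x _ => (hf x).hasFDerivAt.hasFDerivWithinAt) (by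
      intro x hx
      refine (h x a).trans ?_
      apply mul_le_mul_of_nonneg_left _ hC
      obtain ⟨u, v, hu, hv, huv, rfl⟩ := hx
      have : u • a + v • b - a = v • (b - a) := by
        rw [smul_sub]
        have : u = 1 - v := by linarith
        rw [this, sub_smul, one_smul]; abel
      rw [this, norm_smul, Real.norm_eq_abs, abs_of_nonneg hv]
      have : v ≤ 1 := by linarith
      nlinarith [norm_nonneg (b - a)]) (convex_segment a b) (left_mem_segment ℝ a b)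
    (right_mem_segment ℝ a b)
  rw [pow_two, ← mul_assoc]
  exact key

private theorem OFT_lip2 {V : ℝ → E → E} (hV : SB T 2 V) :
    ∃ C : ℝ, 0 ≤ C ∧ ∀ t ∈ Set.Icc 0 T, ∀ x y,
      ‖fderiv ℝ (V t) x - fderiv ℝ (V t) y‖ ≤ C * ‖x - y‖ := by
  obtain ⟨_, _, ⟨_, hd, ⟨_, C, hC⟩⟩⟩ := hV
  refine ⟨max C 0, le_max_right _ _, fun t ht x y => ?_⟩
  have := Convex.norm_image_sub_le_of_norm_fderiv_le (𝕜 := ℝ) (f := fun x => fderiv ℝ (V t) x)
    (s := Set.univ) (C := max C 0) (x := y) (y := x) (fun z _ => hd t ht z)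
    (fun z _ => (hC t ht z).trans (le_max_left _ _)) convex_univ (Set.mem_univ _) (Set.mem_univ _)
  exact this

theorem tangent (hT : 0 ≤ T) {V ψ : ℝ → E → E} (hV : SB T 2 V) (hψ : IsFlow T V ψ) :
    ∃ ρ : ℝ, 0 < ρ ∧ ∀ χ : (E →L[ℝ] E) → (E →L[ℝ] E), (∀ y, ‖χ y‖ ≤ ‖y‖) →
      (∀ y, ‖y‖ ≤ ρ → χ y = y) → ∀ Ψ : ℝ → E × (E →L[ℝ] E) → E × (E →L[ℝ] E),
      IsFlow T (tan V χ) Ψ → ∀ t ∈ Set.Icc 0 T, ∀ x,
        (Ψ t (x, ContinuousLinearMap.id ℝ E)).1 = ψ t x ∧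
        HasFDerivAt (ψ t) ((Ψ t (x, ContinuousLinearMap.id ℝ E)).2) x ∧
        HasDerivWithinAt (fun r => (Ψ r (x, ContinuousLinearMap.id ℝ E)).2)
          ((fderiv ℝ (V t) (ψ t x)) ∘L (Ψ t (x, ContinuousLinearMap.id ℝ E)).2)
          (Set.Icc 0 T) t := by
  obtain ⟨L, hL⟩ := exists_lip hV.of_succ
  obtain ⟨C, hC0, hC⟩ := OFT_lip2 hV
  have hdiff : ∀ t ∈ Set.Icc 0 T, Differentiable ℝ (V t) := hV.2.1
  have hnorm : ∀ t ∈ Set.Icc 0 T, ∀ x, ‖fderiv ℝ (V t) x‖ ≤ L := fun t ht x =>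
    norm_fderiv_le_of_lipschitz ℝ (hL t ht)
  refine ⟨Real.exp (L * T), Real.exp_pos _, ?_⟩
  intro χ hχ1 hχ2 Ψ hΨ t0 ht0 x
  set z : ℝ → E × (E →L[ℝ] E) := fun r => Ψ r (x, ContinuousLinearMap.id ℝ E) with hz
  have hz0 : z 0 = (x, ContinuousLinearMap.id ℝ E) := hΨ.init _
  have hzd : ∀ r ∈ Set.Icc 0 T, HasDerivWithinAt z (tan V χ r (z r)) (Set.Icc 0 T) r :=
    fun r hr => hΨ.deriv r hr _
  -- first component
  have h1 : ∀ r ∈ Set.Icc 0 T, (z r).1 = ψ r x := by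
    have hd : ∀ r ∈ Set.Icc 0 T, HasDerivWithinAt (fun s => (z s).1 - ψ s x)
        (V r (z r).1 - V r (ψ r x)) (Set.Icc 0 T) r := fun r hr =>
      (OFT_fst (hzd r hr)).sub (hψ.deriv r hr x)
    intro r hr
    have := OFT_gron (δ := 0) (K := L) (ε := 0) hd (by simp [hz0, hψ.init]) (by
      intro r hr
      have := (hL r hr).norm_sub_le (z r).1 (ψ r x)
      simpa using this) r hr
    rw [gronwallBound_ε0_δ0] at this
    exact sub_eq_zero.mp (norm_le_zero_iff.mp this)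
  have h2 : ∀ r ∈ Set.Icc 0 T, HasDerivWithinAt (fun s => (z s).2)
      ((fderiv ℝ (V r) (ψ r x)) ∘L χ (z r).2) (Set.Icc 0 T) r := by
    intro r hr
    have := OFT_snd (hzd r hr)
    simp only [tan, h1 r hr] at this
    exact this
  have h3 : ∀ r ∈ Set.Icc 0 T, ‖(z r).2‖ ≤ Real.exp (L * T) := by
    intro r hr
    have := OFT_gron (δ := 1) (K := L) (ε := 0) h2 (by
      rw [hz0]; exact ContinuousLinearMap.norm_id_le) (by
      intro r hr
      have e1 := ContinuousLinearMap.opNorm_comp_le (fderiv ℝ (V r) (ψ r x)) (χ (z r).2)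
      have e2 := mul_le_mul (hnorm r hr (ψ r x)) (hχ1 (z r).2) (norm_nonneg _) L.2
      simpa using e1.trans e2) r hr
    rw [gronwallBound_ε0, one_mul] at this
    refine this.trans (Real.exp_le_exp.mpr (mul_le_mul_of_nonneg_left hr.2 L.2))
  have h4 : ∀ r ∈ Set.Icc 0 T, HasDerivWithinAt (fun s => (z s).2)
      ((fderiv ℝ (V r) (ψ r x)) ∘L (z r).2) (Set.Icc 0 T) r := by
    intro r hr
    have := h2 r hr
    rw [hχ2 _ (h3 r hr)] at this
    exact this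
  refine ⟨h1 t0 ht0, ?_, h4 t0 ht0⟩
  -- the derivative
  set K : ℝ := L + 1 with hK
  have hKL : (L : ℝ) ≤ K := by rw [hK]; linarith
  have hK1 : 1 ≤ K := by rw [hK]; have := L.2; linarith [show (0:ℝ) ≤ (L : ℝ) from L.2]
  have hest : ∀ h : E, ‖ψ t0 (x + h) - ψ t0 x - (z t0).2 h‖ ≤
      (C * Real.exp (L * T) ^ 2 * Real.exp (K * T)) * ‖h‖ ^ 2 := by
    intro h
    have hd : ∀ r ∈ Set.Icc 0 T, HasDerivWithinAt (fun s => ψ s (x + h) - ψ s x - (z s).2 h)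
        (V r (ψ r (x + h)) - V r (ψ r x) - (fderiv ℝ (V r) (ψ r x)) ((z r).2 h))
        (Set.Icc 0 T) r := by
      intro r hr
      refine ((hψ.deriv r hr (x + h)).sub (hψ.deriv r hr x)).sub ?_
      have := (ContinuousLinearMap.apply ℝ E h).hasFDerivAt.comp_hasDerivWithinAt r (h4 r hr)
      exact this
    have hg := OFT_gron (δ := 0) (K := K) (ε := C * (Real.exp (L * T) * ‖h‖) ^ 2) hd (by
      simp [hψ.init, hz0]) (by
      intro r hr
      have ht := OFT_taylor hC0 (hdiff r hr) (hC r hr) (ψ r x) (ψ r (x + h))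
      have hl := flow_lip hT hψ L hL r hr (x + h) x
      rw [add_sub_cancel_left] at hl
      have e1 : V r (ψ r (x + h)) - V r (ψ r x) - (fderiv ℝ (V r) (ψ r x)) ((z r).2 h) =
          (V r (ψ r (x + h)) - V r (ψ r x) - (fderiv ℝ (V r) (ψ r x)) (ψ r (x + h) - ψ r x)) +
          (fderiv ℝ (V r) (ψ r x)) (ψ r (x + h) - ψ r x - (z r).2 h) := by
        simp only [map_sub]; abel
      rw [e1]
      refine (norm_add_le _ _).trans ?_
      have e2 : ‖(fderiv ℝ (V r) (ψ r x)) (ψ r (x + h) - ψ r x - (z r).2 h)‖ ≤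
          K * ‖ψ r (x + h) - ψ r x - (z r).2 h‖ :=
        ((fderiv ℝ (V r) (ψ r x)).le_opNorm _).trans
          (mul_le_mul_of_nonneg_right ((hnorm r hr _).trans hKL) (norm_nonneg _))
      have e3 : C * ‖ψ r (x + h) - ψ r x‖ ^ 2 ≤ C * (Real.exp (L * T) * ‖h‖) ^ 2 :=
        mul_le_mul_of_nonneg_left (pow_le_pow_left₀ (norm_nonneg _) hl 2) hC0
      linarith) t0 ht0
    refine hg.trans ?_
    rw [gronwallBound_of_K_ne_0 (by linarith)]
    have hE : 0 ≤ C * (Real.exp (L * T) * ‖h‖) ^ 2 := by positivity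
    have e1 : C * (Real.exp (L * T) * ‖h‖) ^ 2 / K ≤ C * (Real.exp (L * T) * ‖h‖) ^ 2 :=
      div_le_self hE hK1
    have e2 : Real.exp (K * t0) - 1 ≤ Real.exp (K * T) := by
      have : Real.exp (K * t0) ≤ Real.exp (K * T) :=
        Real.exp_le_exp.mpr (mul_le_mul_of_nonneg_left ht0.2 (by linarith))
      linarith
    have e3 : 0 ≤ Real.exp (K * t0) - 1 := by
      have : 0 ≤ K * t0 := mul_nonneg (by linarith) ht0.1
      have := Real.one_le_exp this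
      linarith
    simp only [zero_mul, zero_add]
    calc C * (Real.exp (L * T) * ‖h‖) ^ 2 / K * (Real.exp (K * t0) - 1)
        ≤ C * (Real.exp (L * T) * ‖h‖) ^ 2 * Real.exp (K * T) := mul_le_mul e1 e2 e3 hE
      _ = _ := by ring
  rw [hasFDerivAt_iff_isLittleO_nhds_zero]
  have hO : (fun h : E => ψ t0 (x + h) - ψ t0 x - (z t0).2 h) =O[nhds 0] fun h => ‖h‖ ^ 2 := by
    apply Asymptotics.IsBigO.of_bound (C * Real.exp (L * T) ^ 2 * Real.exp (K * T))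
    filter_upwards with h
    rw [Real.norm_of_nonneg (by positivity : (0:ℝ) ≤ ‖h‖ ^ 2)]
    exact hest h
  refine hO.trans_isLittleO ?_
  exact Asymptotics.isLittleO_norm_pow_id (by norm_num)

end Pool.Agent.QPE.Flow
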