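import Pool.Agent.QPE.PCB

/-!
MODULE PCC (first and second order expansion of the means).
`Pc_first`: with `h_ξ = Φ_ξ x - x`: `Pc c f x - Σ_j σ_c^j ∂_j f x = s⁻¹ mean (sgn_c (f (x + h_ξ) - f x - Σ_j h_ξj ∂_j f x))`
because `mean (sgn_c h_ξj) = s σ_c^j` (`mean_sgn_mul`, `mean_sgn`); then `taylor2` and `phi_near`.
`E1_second`: third order Taylor (`taylor3`), `mean h_ξj = s^2/2 b^j`, `mean (h_ξi h_ξj) = s^2 Σ_c σ_c^i σ_c^j + s^4/4 b^i b^j`
(the cross terms `s^3/2 b mean(sgn) ..` vanish); the term with `b^i b^j` is `≤ C B s^4` (`base_bound` for `b`).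
-/

namespace Pool.Agent.QPE

open scoped ContDiff BigOperators

variable {d K m : ℕ}

private lemma PCC_h (D : Dat d K m) (s : ℝ) (u : Sys d K) (ξ : Fin m → Bool) (x : Fin d → ℝ)
    (j : Fin d) : phi D s u ξ x j - x j
      = (∑ c, (s * D.sg c j (x, val u x)) * sgn (ξ c)) + s ^ 2 / 2 * D.b j (x, val u x) := by
  have h : (∑ c, (s * D.sg c j (x, val u x)) * sgn (ξ c))
      = s * ∑ c, sgn (ξ c) * D.sg c j (x, val u x) := by
    rw [Finset.mul_sum]
    exact Finset.sum_congr rfl fun c _ => by ring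
  rw [h]
  simp only [phi]
  ring

private lemma PCC_mean_h (D : Dat d K m) (s : ℝ) (u : Sys d K) (x : Fin d → ℝ) (j : Fin d) :
    mean (fun ξ => phi D s u ξ x j - x j) = s ^ 2 / 2 * D.b j (x, val u x) := by
  simp only [PCC_h]
  rw [mean_add, mean_const, mean_sum]
  simp only [mean_mul_left, mean_sgn]
  simp

private lemma PCC_mean_sgn_h (D : Dat d K m) (s : ℝ) (u : Sys d K) (x : Fin d → ℝ) (c : Fin m)
    (j : Fin d) :
    mean (fun ξ => sgn (ξ c) * (phi D s u ξ x j - x j)) = s * D.sg c j (x, val u x) := by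
  have h : (fun ξ : Fin m → Bool => sgn (ξ c) * (phi D s u ξ x j - x j))
      = fun ξ => (∑ c', (s * D.sg c' j (x, val u x)) * (sgn (ξ c) * sgn (ξ c')))
        + (s ^ 2 / 2 * D.b j (x, val u x)) * sgn (ξ c) := by
    funext ξ
    rw [PCC_h, mul_add, Finset.mul_sum]
    congr 1
    · exact Finset.sum_congr rfl fun c' _ => by ring
    · ring
  rw [h, mean_add, mean_sum, mean_mul_left, mean_sgn]
  simp only [mean_mul_left, mean_sgn_mul]
  simp

private lemma PCC_mean_hh (D : Dat d K m) (s : ℝ) (u : Sys d K) (x : Fin d → ℝ) (i j : Fin d) :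
    mean (fun ξ => (phi D s u ξ x i - x i) * (phi D s u ξ x j - x j))
      = s ^ 2 * (∑ c, D.sg c i (x, val u x) * D.sg c j (x, val u x))
        + s ^ 4 / 4 * (D.b i (x, val u x) * D.b j (x, val u x)) := by
  have h : (fun ξ : Fin m → Bool => (phi D s u ξ x i - x i) * (phi D s u ξ x j - x j))
      = fun ξ => (∑ c, (s * D.sg c i (x, val u x)) * (sgn (ξ c) * (phi D s u ξ x j - x j)))
        + (s ^ 2 / 2 * D.b i (x, val u x)) * (phi D s u ξ x j - x j) := by
    funext ξ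
    rw [PCC_h D s u ξ x i, add_mul, Finset.sum_mul]
    congr 1
    exact Finset.sum_congr rfl fun c' _ => by ring
  rw [h, mean_add, mean_sum, mean_mul_left, PCC_mean_h]
  simp only [mean_mul_left, PCC_mean_sgn_h]
  rw [Finset.mul_sum]
  congr 1
  · exact Finset.sum_congr rfl fun c' _ => by ring
  · ring

theorem Pc_first (D : Dat d K m) (A : ℝ) :
    ∃ C : ℝ, 0 ≤ C ∧ ∀ s : ℝ, 0 < s → s ≤ 1 → ∀ u : Sys d K, (∀ α x, |u α x| ≤ A) →
      ∀ f : (Fin d → ℝ) → ℝ, ContDiff ℝ ∞ f → ∀ B : ℝ, 0 ≤ B →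
      (∀ i j y, |pd [i, j] f y| ≤ B) → ∀ (c : Fin m) x,
      |Pc D s u c f x - ∑ j, D.sg c j (x, val u x) * pd [j] f x| ≤ C * B * s := by
  obtain ⟨C, hC0, hC⟩ := phi_near D A
  refine ⟨C ^ 2, by positivity, ?_⟩
  intro s hs hs1 u hu f hf B hB0 hB2 c x
  have h1 : av D s u (fun ξ => sgn (ξ c)) f x
      = mean (fun ξ => sgn (ξ c) * (f (phi D s u ξ x) - f x
          - ∑ j, (phi D s u ξ x j - x j) * pd [j] f x))
        + s * ∑ j, D.sg c j (x, val u x) * pd [j] f x := by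
    have h2 : (fun ξ : Fin m → Bool => sgn (ξ c) * f (phi D s u ξ x))
        = fun ξ => sgn (ξ c) * (f (phi D s u ξ x) - f x
            - ∑ j, (phi D s u ξ x j - x j) * pd [j] f x)
          + (f x * sgn (ξ c) + ∑ j, pd [j] f x * (sgn (ξ c) * (phi D s u ξ x j - x j))) := by
      funext ξ
      have : (∑ j, pd [j] f x * (sgn (ξ c) * (phi D s u ξ x j - x j)))
          = sgn (ξ c) * ∑ j, (phi D s u ξ x j - x j) * pd [j] f x := by
        rw [Finset.mul_sum]
        exact Finset.sum_congr rfl fun j _ => by ring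
      rw [this]
      ring
    unfold av
    rw [h2, mean_add, mean_add, mean_mul_left, mean_sgn, mean_sum]
    simp only [mean_mul_left, PCC_mean_sgn_h]
    have : (∑ j, pd [j] f x * (s * D.sg c j (x, val u x)))
        = s * ∑ j, D.sg c j (x, val u x) * pd [j] f x := by
      rw [Finset.mul_sum]
      exact Finset.sum_congr rfl fun j _ => by ring
    rw [this]
    ring
  have h3 : |mean (fun ξ => sgn (ξ c) * (f (phi D s u ξ x) - f x
      - ∑ j, (phi D s u ξ x j - x j) * pd [j] f x))| ≤ B * (C * s) ^ 2 := by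
    apply abs_mean_le
    intro ξ
    rw [abs_mul, abs_sgn, one_mul]
    have h4 := taylor2 hf B hB2 x (fun j => phi D s u ξ x j - x j)
    have h5 : (x + fun j => phi D s u ξ x j - x j) = phi D s u ξ x := by
      funext j
      simp
    rw [h5] at h4
    refine h4.trans (mul_le_mul_of_nonneg_left ?_ hB0)
    exact pow_le_pow_left₀ (Finset.sum_nonneg fun j _ => abs_nonneg _) (hC s hs hs1 u hu ξ x) 2
  have h6 : Pc D s u c f x - ∑ j, D.sg c j (x, val u x) * pd [j] f x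
      = s⁻¹ * mean (fun ξ => sgn (ξ c) * (f (phi D s u ξ x) - f x
          - ∑ j, (phi D s u ξ x j - x j) * pd [j] f x)) := by
    unfold Pc
    rw [h1, mul_add, ← mul_assoc, inv_mul_cancel₀ hs.ne', one_mul, add_sub_cancel_right]
  rw [h6, abs_mul, abs_of_pos (inv_pos.mpr hs)]
  calc s⁻¹ * |mean (fun ξ => sgn (ξ c) * (f (phi D s u ξ x) - f x
      - ∑ j, (phi D s u ξ x j - x j) * pd [j] f x))|
      ≤ s⁻¹ * (B * (C * s) ^ 2) := mul_le_mul_of_nonneg_left h3 (inv_pos.mpr hs).le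
    _ = C ^ 2 * B * s := by field_simp

theorem E1_second (D : Dat d K m) (A : ℝ) :
    ∃ C : ℝ, 0 ≤ C ∧ ∀ s : ℝ, 0 < s → s ≤ 1 → ∀ u : Sys d K, (∀ α x, |u α x| ≤ A) →
      ∀ f : (Fin d → ℝ) → ℝ, ContDiff ℝ ∞ f → ∀ B : ℝ, 0 ≤ B →
      (∀ i j y, |pd [i, j] f y| ≤ B) → (∀ i j k y, |pd [i, j, k] f y| ≤ B) → ∀ x,
      |E1 D s u f x - f x - s ^ 2 / 2 * ((∑ c, ∑ i, ∑ j,
          D.sg c i (x, val u x) * D.sg c j (x, val u x) * pd [i, j] f x)
          + ∑ j, D.b j (x, val u x) * pd [j] f x)| ≤ s ^ 2 / 2 * (C * B * s) := by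
  obtain ⟨C, hC0, hC⟩ := phi_near D A
  choose Cb hCb0 hCb using fun j => base_bound (base_b (m := m) D j) A
  have hS0 : 0 ≤ ∑ j, Cb j := Finset.sum_nonneg (s := Finset.univ) (fun j _ => hCb0 j)
  refine ⟨2 * C ^ 3 + (∑ j, Cb j) ^ 2 / 4, by positivity, ?_⟩
  intro s hs hs1 u hu f hf B hB0 hB2 hB3 x
  have hbb : ∀ j, |D.b j (x, val u x)| ≤ Cb j := by
    intro j
    refine hCb j x (val u x) (fun _ _ => 0) (fun α => hu α x) (fun c β => ?_)
    rw [abs_zero]
    exact (abs_nonneg _).trans (hu β x)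
  set RR : (Fin m → Bool) → ℝ := fun ξ => f (phi D s u ξ x) - f x
      - (∑ j, (phi D s u ξ x j - x j) * pd [j] f x)
      - 1 / 2 * ∑ i, ∑ j, (phi D s u ξ x i - x i) * (phi D s u ξ x j - x j) * pd [i, j] f x
    with hRR
  have h1 : E1 D s u f x - f x - s ^ 2 / 2 * ((∑ c, ∑ i, ∑ j,
          D.sg c i (x, val u x) * D.sg c j (x, val u x) * pd [i, j] f x)
          + ∑ j, D.b j (x, val u x) * pd [j] f x)
      = mean RR
        + ∑ i, ∑ j, s ^ 4 / 8 * (D.b i (x, val u x) * D.b j (x, val u x)) * pd [i, j] f x := by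
    have h2 : (fun ξ : Fin m → Bool => (1 : ℝ) * f (phi D s u ξ x))
        = fun ξ => RR ξ + (f x + ((∑ j, pd [j] f x * (phi D s u ξ x j - x j))
          + ∑ i, ∑ j, (1 / 2 * pd [i, j] f x)
            * ((phi D s u ξ x i - x i) * (phi D s u ξ x j - x j)))) := by
      funext ξ
      have e1 : (∑ j, (phi D s u ξ x j - x j) * pd [j] f x)
          = ∑ j, pd [j] f x * (phi D s u ξ x j - x j) :=
        Finset.sum_congr rfl fun j _ => mul_comm _ _
      have e2 : 1 / 2 * (∑ i, ∑ j,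
          (phi D s u ξ x i - x i) * (phi D s u ξ x j - x j) * pd [i, j] f x)
          = ∑ i, ∑ j, (1 / 2 * pd [i, j] f x)
            * ((phi D s u ξ x i - x i) * (phi D s u ξ x j - x j)) := by
        rw [Finset.mul_sum]
        refine Finset.sum_congr rfl fun i _ => ?_
        rw [Finset.mul_sum]
        exact Finset.sum_congr rfl fun j _ => by ring
      simp only [hRR]
      rw [e1, e2]
      ring
    unfold E1 av
    rw [h2, mean_add, mean_add, mean_const, mean_add, mean_sum, mean_sum]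
    simp only [mean_sum, mean_mul_left, PCC_mean_h, PCC_mean_hh]
    have e3 : (∑ j, pd [j] f x * (s ^ 2 / 2 * D.b j (x, val u x)))
        = s ^ 2 / 2 * ∑ j, D.b j (x, val u x) * pd [j] f x := by
      rw [Finset.mul_sum]
      exact Finset.sum_congr rfl fun j _ => by ring
    have e4 : (∑ i, ∑ j, 1 / 2 * pd [i, j] f x
        * (s ^ 2 * (∑ c, D.sg c i (x, val u x) * D.sg c j (x, val u x))
          + s ^ 4 / 4 * (D.b i (x, val u x) * D.b j (x, val u x))))
        = s ^ 2 / 2 * (∑ c, ∑ i, ∑ j,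
            D.sg c i (x, val u x) * D.sg c j (x, val u x) * pd [i, j] f x)
          + ∑ i, ∑ j, s ^ 4 / 8 * (D.b i (x, val u x) * D.b j (x, val u x)) * pd [i, j] f x := by
      have e5 : (∑ c, ∑ i, ∑ j,
            D.sg c i (x, val u x) * D.sg c j (x, val u x) * pd [i, j] f x)
          = ∑ i, ∑ j, (∑ c, D.sg c i (x, val u x) * D.sg c j (x, val u x)) * pd [i, j] f x := by
        rw [Finset.sum_comm]
        refine Finset.sum_congr rfl fun i _ => ?_
        rw [Finset.sum_comm]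
        refine Finset.sum_congr rfl fun j _ => ?_
        rw [Finset.sum_mul]
      rw [e5, Finset.mul_sum, ← Finset.sum_add_distrib]
      refine Finset.sum_congr rfl fun i _ => ?_
      rw [Finset.mul_sum, ← Finset.sum_add_distrib]
      exact Finset.sum_congr rfl fun j _ => by ring
    rw [e3, e4]
    ring
  have h3 : |mean RR| ≤ B * (C * s) ^ 3 := by
    apply abs_mean_le
    intro ξ
    have h4 := taylor3 hf B hB3 x (fun j => phi D s u ξ x j - x j)
    have h5 : (x + fun j => phi D s u ξ x j - x j) = phi D s u ξ x := by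
      funext j
      simp
    rw [h5] at h4
    refine h4.trans (mul_le_mul_of_nonneg_left ?_ hB0)
    exact pow_le_pow_left₀ (Finset.sum_nonneg fun j _ => abs_nonneg _) (hC s hs hs1 u hu ξ x) 3
  have h6 : |∑ i, ∑ j, s ^ 4 / 8 * (D.b i (x, val u x) * D.b j (x, val u x)) * pd [i, j] f x|
      ≤ s ^ 4 / 8 * ((∑ j, Cb j) ^ 2 * B) := by
    refine (Finset.abs_sum_le_sum_abs _ _).trans ?_
    have e6 : s ^ 4 / 8 * ((∑ j, Cb j) ^ 2 * B) = ∑ i, ∑ j, s ^ 4 / 8 * (Cb i * Cb j) * B := by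
      rw [sq, Finset.sum_mul_sum, Finset.sum_mul, Finset.mul_sum]
      refine Finset.sum_congr rfl fun i _ => ?_
      rw [Finset.sum_mul, Finset.mul_sum]
      exact Finset.sum_congr rfl fun j _ => by ring
    rw [e6]
    apply Finset.sum_le_sum
    intro i _
    refine (Finset.abs_sum_le_sum_abs _ _).trans ?_
    apply Finset.sum_le_sum
    intro j _
    rw [abs_mul, abs_mul, abs_mul, abs_of_nonneg (by positivity : (0 : ℝ) ≤ s ^ 4 / 8)]
    have h7 : |D.b i (x, val u x)| * |D.b j (x, val u x)| ≤ Cb i * Cb j :=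
      mul_le_mul (hbb i) (hbb j) (abs_nonneg _) (hCb0 i)
    have h8 : 0 ≤ Cb i * Cb j := mul_nonneg (hCb0 i) (hCb0 j)
    exact mul_le_mul (mul_le_mul_of_nonneg_left h7 (by positivity)) (hB2 i j x) (abs_nonneg _)
      (by positivity)
  rw [h1]
  refine (abs_add_le _ _).trans ((add_le_add h3 h6).trans ?_)
  have h9 : s ^ 4 ≤ s ^ 3 := pow_le_pow_of_le_one hs.le hs1 (by norm_num)
  have h10 : 0 ≤ (∑ j, Cb j) ^ 2 * B := by positivity
  calc B * (C * s) ^ 3 + s ^ 4 / 8 * ((∑ j, Cb j) ^ 2 * B)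
      ≤ B * (C * s) ^ 3 + s ^ 3 / 8 * ((∑ j, Cb j) ^ 2 * B) := by
        have : s ^ 4 / 8 * ((∑ j, Cb j) ^ 2 * B) ≤ s ^ 3 / 8 * ((∑ j, Cb j) ^ 2 * B) :=
          mul_le_mul_of_nonneg_right (by linarith) h10
        linarith
    _ = s ^ 2 / 2 * ((2 * C ^ 3 + (∑ j, Cb j) ^ 2 / 4) * B * s) := by ring

end Pool.Agent.QPE
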