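import Pool.Agent.QPE.STD
import Pool.Agent.QPE.ADD

/-!
MODULE ST1 (the structure formula of level 1).
`step D s u α = E1 (u α) + s^2/2 Q_α(arg)`: `pdv_E1` with `f = u α`, and `base_chain` for `Q_α` (`v = u`, `p c β = Pc D s u c (u β)`) with
`pdv_Pc` for `f = u β`:
`R = Σ_j Bc E1 (pd [j] u_α) + gx i Q + Σ_β gv β Q pd [i] u_β + Σ_c Σ_β gp c β Q (Σ_j Σ_c1 Ac c1 i j av(sgn_c sgn_c1)(pd [j] u_β))`,
`F c J β = (if β = α then 2 Ac c i (J 0) else 0) + gp c β Q (if J 0 = i then 1 else 0) + s^2/2 gp c β Q Bc i (J 0)` for `J : Fin 1 → Fin d`,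
`List.ofFn J = [J 0]`; sums over `Fin 1 → Fin d` are sums over `Fin d` (`Equiv.funUnique`).  Here `Ac`, `Bc` are replaced by
the functionals of `Ac_adm`, `Bc_adm`, base functions by `Adm.base` (`base_Q`, `base_gx`, ...).  `3 ≤ 1` is false.
-/

namespace Pool.Agent.QPE

open scoped ContDiff BigOperators

variable {d K m : ℕ}

private lemma ST1_sum {d : ℕ} (G : (Fin 1 → Fin d) → ℝ) :
    (∑ J : Fin 1 → Fin d, G J) = ∑ j, G (fun _ => j) := by
  refine Fintype.sum_equiv (Equiv.funUnique (Fin 1) (Fin d)) _ _ fun J => ?_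
  congr 1
  funext k
  rw [Subsingleton.elim k default]
  rfl

private lemma ST1_ofFn {d : ℕ} (j : Fin d) : List.ofFn (fun _ : Fin 1 => j) = [j] := by
  simp

private lemma ST1_pdv_add {f g : (Fin d → ℝ) → ℝ} {x : Fin d → ℝ} (hf : DifferentiableAt ℝ f x)
    (hg : DifferentiableAt ℝ g x) (c : ℝ) (i : Fin d) :
    pdv i (fun y => f y + c * g y) x = pdv i f x + c * pdv i g x := by
  unfold pdv
  rw [fderiv_fun_add hf (hg.const_mul c), fderiv_const_mul hg c]
  simp

theorem form_one (D : Dat d K m) (i : Fin d) (α : Fin K) :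
    ∃ R F, Form D 1 [i] α R F := by
  choose a haa ha using fun c j => Ac_adm D c i j
  choose b hba hb using fun j => Bc_adm D i j
  refine ⟨fun s u x => (∑ j, b j s u x * E1 D s u (pd [j] (u α)) x) + gx i (D.Q α) (arg D s u x)
      + (∑ β, gv β (D.Q α) (arg D s u x) * pd [i] (u β) x)
      + ∑ c, ∑ β, gp c β (D.Q α) (arg D s u x) * ∑ j, ∑ c1, a c1 j s u x *
        av D s u (fun ξ => sgn (ξ c) * sgn (ξ c1)) (pd [j] (u β)) x,
    fun c J β s u x => (if β = α then 2 else 0) * a c (J 0) s u x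
      + (if J 0 = i then 1 else 0) * gp c β (D.Q α) (arg D s u x)
      + s ^ 2 / 2 * (b (J 0) s u x * gp c β (D.Q α) (arg D s u x)), ?_, ?_, by omega, ?_⟩
  · refine Adm.add (Adm.add (Adm.add ?_ ?_) ?_) ?_
    · exact adm_sum Finset.univ (fun j s u x => b j s u x * E1 D s u (pd [j] (u α)) x)
        fun j _ => Adm.mul (hba j) (adm_E1 [j] α)
    · exact Adm.base _ (base_gx (base_Q D α) i)
    · exact adm_sum Finset.univ (fun β s u x => gv β (D.Q α) (arg D s u x) * pd [i] (u β) x)
        fun β _ => Adm.mul (Adm.base _ (base_gv (base_Q D α) β)) (Adm.jet [i] β)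
    · refine adm_sum Finset.univ (fun c s u x => ∑ β, gp c β (D.Q α) (arg D s u x) *
        ∑ j, ∑ c1, a c1 j s u x *
        av D s u (fun ξ => sgn (ξ c) * sgn (ξ c1)) (pd [j] (u β)) x) fun c _ => ?_
      refine adm_sum Finset.univ (fun β s u x => gp c β (D.Q α) (arg D s u x) *
        ∑ j, ∑ c1, a c1 j s u x *
        av D s u (fun ξ => sgn (ξ c) * sgn (ξ c1)) (pd [j] (u β)) x) fun β _ => ?_
      refine Adm.mul (Adm.base _ (base_gp (base_Q D α) c β)) ?_
      refine adm_sum Finset.univ (fun j s u x => ∑ c1, a c1 j s u x *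
        av D s u (fun ξ => sgn (ξ c) * sgn (ξ c1)) (pd [j] (u β)) x) fun j _ => ?_
      refine adm_sum Finset.univ (fun c1 s u x => a c1 j s u x *
        av D s u (fun ξ => sgn (ξ c) * sgn (ξ c1)) (pd [j] (u β)) x) fun c1 _ => ?_
      exact Adm.mul (haa c1 j) (adm_av _ [j] β)
  · intro c J β
    have hg : Adm D 1 (fun s u x => gp c β (D.Q α) (arg D s u x)) :=
      Adm.base _ (base_gp (base_Q D α) c β)
    refine Adm.add (Adm.add ?_ ?_) ?_
    · exact Adm.mul (Adm.mono (Nat.zero_le 1) (Adm.const _)) (haa c (J 0))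
    · exact Adm.mul (Adm.mono (Nat.zero_le 1) (Adm.const _)) hg
    · have h1 : Adm D 1 (fun (s : ℝ) (_ : Sys d K) (_ : Fin d → ℝ) => s ^ 2 / 2) := by
        have h2 : (fun (s : ℝ) (_ : Sys d K) (_ : Fin d → ℝ) => s ^ 2 / 2)
            = fun (s : ℝ) (_ : Sys d K) (_ : Fin d → ℝ) => s * (s * (1 / 2)) := by
          funext s _ _
          ring
        rw [h2]
        exact Adm.mono (Nat.zero_le 1) (Adm.mul Adm.par (Adm.mul Adm.par (Adm.const (1 / 2))))
      exact Adm.mul h1 (Adm.mul (hba (J 0)) hg)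
  · intro s hs u hu x
    have hE : DifferentiableAt ℝ (E1 D s u (u α)) x :=
      ((av_contDiff D s hu (fun _ => 1) (hu α)).differentiable (by simp)).differentiableAt
    have hQ : DifferentiableAt ℝ (fun y => D.Q α (arg D s u y)) x :=
      (((D.Q_smooth α).comp (arg_contDiff D s hu)).differentiable (by simp)).differentiableAt
    have h1 : pd [i] (step D s u α) x
        = pdv i (E1 D s u (u α)) x + s ^ 2 / 2 * pdv i (fun y => D.Q α (arg D s u y)) x :=
      ST1_pdv_add hE hQ (s ^ 2 / 2) i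
    have h2 : pdv i (fun y => D.Q α (arg D s u y)) x
        = gx i (D.Q α) (arg D s u x)
        + (∑ β, gv β (D.Q α) (arg D s u x) * pdv i (u β) x)
        + ∑ c, ∑ β, gp c β (D.Q α) (arg D s u x) * pdv i (Pc D s u c (u β)) x :=
      base_chain (D.Q_smooth α) u (fun c β => Pc D s u c (u β)) x
        (fun β => ((hu β).differentiable (by simp)).differentiableAt)
        (fun c β => ((Pc_contDiff D s hu c (hu β)).differentiable (by simp)).differentiableAt) i
    have h3 := pdv_E1 D hs hu (hu α) i x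
    have h4 : ∀ c β, pdv i (Pc D s u c (u β)) x = Pc D s u c (pd [i] (u β)) x
        + (∑ j, ∑ c', a c' j s u x
          * av D s u (fun ξ => sgn (ξ c) * sgn (ξ c')) (pd [j] (u β)) x)
        + s ^ 2 / 2 * ∑ j, b j s u x * Pc D s u c (pd [j] (u β)) x := by
      intro c β
      rw [pdv_Pc D hs hu c (hu β) i x]
      simp only [ha _ _ s u hu, hb _ s u hu]
      rfl
    have h5 : pdv i (E1 D s u (u α)) x = E1 D s u (pd [i] (u α)) x
        + s ^ 2 / 2 * ((∑ j, ∑ c, 2 * a c j s u x * Pc D s u c (pd [j] (u α)) x)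
        + ∑ j, b j s u x * E1 D s u (pd [j] (u α)) x) := by
      rw [h3]
      simp only [ha _ _ s u hu, hb _ s u hu]
      rfl
    have h6 : (∑ c, ∑ J : Fin 1 → Fin d, ∑ β, ((if β = α then 2 else 0) * a c (J 0) s u x
          + (if J 0 = i then 1 else 0) * gp c β (D.Q α) (arg D s u x)
          + s ^ 2 / 2 * (b (J 0) s u x * gp c β (D.Q α) (arg D s u x)))
          * Pc D s u c (pd (List.ofFn J) (u β)) x)
        = (∑ j, ∑ c, 2 * a c j s u x * Pc D s u c (pd [j] (u α)) x)
          + (∑ c, ∑ β, gp c β (D.Q α) (arg D s u x) * Pc D s u c (pd [i] (u β)) x)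
          + ∑ c, ∑ β, gp c β (D.Q α) (arg D s u x)
            * (s ^ 2 / 2 * ∑ j, b j s u x * Pc D s u c (pd [j] (u β)) x) := by
      rw [Finset.sum_comm (s := (Finset.univ : Finset (Fin d))), ← Finset.sum_add_distrib,
        ← Finset.sum_add_distrib]
      refine Finset.sum_congr rfl fun c _ => ?_
      rw [ST1_sum]
      simp only [ST1_ofFn]
      have e1 : ∀ j : Fin d, (∑ β, ((if β = α then 2 else 0) * a c j s u x
          + (if j = i then 1 else 0) * gp c β (D.Q α) (arg D s u x)
          + s ^ 2 / 2 * (b j s u x * gp c β (D.Q α) (arg D s u x)))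
          * Pc D s u c (pd [j] (u β)) x)
          = 2 * a c j s u x * Pc D s u c (pd [j] (u α)) x
            + (∑ β, (if j = i then gp c β (D.Q α) (arg D s u x) * Pc D s u c (pd [j] (u β)) x
              else 0))
            + ∑ β, gp c β (D.Q α) (arg D s u x)
              * (s ^ 2 / 2 * (b j s u x * Pc D s u c (pd [j] (u β)) x)) := by
        intro j
        have e2 : 2 * a c j s u x * Pc D s u c (pd [j] (u α)) x
            = ∑ β, (if β = α then 2 * a c j s u x * Pc D s u c (pd [j] (u β)) x else 0) := by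
          rw [Finset.sum_ite_eq' Finset.univ α]
          simp
        rw [e2, ← Finset.sum_add_distrib, ← Finset.sum_add_distrib]
        refine Finset.sum_congr rfl fun β _ => ?_
        split_ifs <;> ring
      simp only [e1]
      rw [Finset.sum_add_distrib, Finset.sum_add_distrib]
      congr 1
      · congr 1
        rw [Finset.sum_comm]
        refine Finset.sum_congr rfl fun β _ => ?_
        rw [Finset.sum_ite_eq' Finset.univ i]
        simp
      · rw [Finset.sum_comm]
        refine Finset.sum_congr rfl fun β _ => ?_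
        rw [Finset.mul_sum, Finset.mul_sum]
    rw [h1, h2, h5, h6]
    simp only [h4]
    have e7 : (∑ c, ∑ β, gp c β (D.Q α) (arg D s u x) * (Pc D s u c (pd [i] (u β)) x
        + (∑ j, ∑ c', a c' j s u x
          * av D s u (fun ξ => sgn (ξ c) * sgn (ξ c')) (pd [j] (u β)) x)
        + s ^ 2 / 2 * ∑ j, b j s u x * Pc D s u c (pd [j] (u β)) x))
        = (∑ c, ∑ β, gp c β (D.Q α) (arg D s u x) * Pc D s u c (pd [i] (u β)) x)
          + (∑ c, ∑ β, gp c β (D.Q α) (arg D s u x) * (∑ j, ∑ c', a c' j s u x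
          * av D s u (fun ξ => sgn (ξ c) * sgn (ξ c')) (pd [j] (u β)) x))
          + ∑ c, ∑ β, gp c β (D.Q α) (arg D s u x)
            * (s ^ 2 / 2 * ∑ j, b j s u x * Pc D s u c (pd [j] (u β)) x) := by
      rw [← Finset.sum_add_distrib, ← Finset.sum_add_distrib]
      refine Finset.sum_congr rfl fun c _ => ?_
      rw [← Finset.sum_add_distrib, ← Finset.sum_add_distrib]
      exact Finset.sum_congr rfl fun β _ => by ring
    rw [e7]
    have e8 : (∑ β, gv β (D.Q α) (arg D s u x) * pdv i (u β) x)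
        = ∑ β, gv β (D.Q α) (arg D s u x) * pd [i] (u β) x := rfl
    rw [e8]
    ring

end Pool.Agent.QPE
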