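import Pool.Agent.QPE.STD
import Pool.Agent.QPE.ADS

/-!
MODULE ST2 (the structure formula: from level k to level k+1, the identity).
Proof.  `pd (i :: I) (step D s u α) = pdv i (pd I (step D s u α))`; by `hform` (equality for all `x`, so of functions) this is `pdv i` of
`E1 (pd I u_α) + s^2/2 (R + Σ F Pc c (pd J u_β))`.  All functions are smooth (`hR`, `hF`, `av_contDiff`, `Pc_contDiff`, `pd_contDiff`).
`pdv_E1` with `f = pd I (u α)` (`pdv j f = pd (j :: I) (u α)` by definition), Leibniz rule, `pdv_Pc` with `f = pd (ofFn J) (u β)`.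
Then reorganise: a sum over `J1 : Fin (k+1) → Fin d` of `G (J1 0) (Fin.tail J1)` is the double sum over `j` and `J`
(`Fin.consEquiv` or `Fintype.sum_equiv`), `List.ofFn J1 = J1 0 :: List.ofFn (Fin.tail J1)` (`List.ofFn_succ`); the sum over `J` of
`if ofFn J = I then ..` has exactly one term because `I.length = k` (`List.ofFn_injective`, `J = fun n => I.get ..`).
-/

namespace Pool.Agent.QPE

open scoped ContDiff BigOperators

variable {d K m : ℕ}

private theorem pdv_add' (i : Fin d) {f g : (Fin d → ℝ) → ℝ} {x : Fin d → ℝ}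
    (hf : DifferentiableAt ℝ f x) (hg : DifferentiableAt ℝ g x) :
    pdv i (fun y => f y + g y) x = pdv i f x + pdv i g x := by
  unfold pdv
  rw [fderiv_fun_add hf hg]
  rfl

private theorem pdv_cmul' (i : Fin d) {f : (Fin d → ℝ) → ℝ} {x : Fin d → ℝ}
    (hf : DifferentiableAt ℝ f x) (c : ℝ) :
    pdv i (fun y => c * f y) x = c * pdv i f x := by
  unfold pdv
  rw [fderiv_const_mul hf c]
  rfl

private theorem pdv_mul' (i : Fin d) {f g : (Fin d → ℝ) → ℝ} {x : Fin d → ℝ}
    (hf : DifferentiableAt ℝ f x) (hg : DifferentiableAt ℝ g x) :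
    pdv i (fun y => f y * g y) x = pdv i f x * g x + f x * pdv i g x := by
  unfold pdv
  rw [fderiv_fun_mul hf hg]
  simp only [add_apply, smul_apply, smul_eq_mul]
  ring

private theorem pdv_sum' {ι : Type} [Fintype ι] (i : Fin d) {f : ι → (Fin d → ℝ) → ℝ}
    {x : Fin d → ℝ} (hf : ∀ j, DifferentiableAt ℝ (f j) x) :
    pdv i (fun y => ∑ j, f j y) x = ∑ j, pdv i (f j) x := by
  unfold pdv
  rw [fderiv_fun_sum (fun j _ => hf j)]
  simp

private theorem sum_cons {k : ℕ} (G : (Fin (k + 1) → Fin d) → ℝ) :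
    ∑ J1, G J1 = ∑ j : Fin d, ∑ J : Fin k → Fin d, G (Fin.cons j J) := by
  rw [← Fintype.sum_prod_type']
  exact (Fintype.sum_equiv (Fin.consEquiv (fun _ : Fin (k + 1) => Fin d)) _ _ (fun _ => rfl)).symm

theorem form_identity (D : Dat d K m) (k : ℕ) (i : Fin d) (I : List (Fin d))
    (hI : I.length = k) (α : Fin K) (R : Fnl d K) (F F1 : Fin m → (Fin k → Fin d) → Fin K → Fnl d K)
    (R1 : Fnl d K) (a : Fin m → Fin d → Fnl d K) (b : Fin d → Fnl d K)
    (s : ℝ) (hs : s ≠ 0) (u : Sys d K) (hu : Smooth u)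
    (hR : ContDiff ℝ ∞ (R s u)) (hF : ∀ c J β, ContDiff ℝ ∞ (F c J β s u))
    (hform : ∀ x, pd I (step D s u α) x = E1 D s u (pd I (u α)) x
        + s ^ 2 / 2 * (R s u x
          + ∑ c, ∑ J, ∑ β, F c J β s u x * Pc D s u c (pd (List.ofFn J) (u β)) x))
    (hR1 : ∀ x, pdv i (R s u) x = R1 s u x) (hF1 : ∀ c J β x, pdv i (F c J β s u) x = F1 c J β s u x)
    (ha : ∀ c j x, Ac D u c i j x = a c j s u x) (hb : ∀ j x, Bc D u i j x = b j s u x)
    (x : Fin d → ℝ) :
    pd (i :: I) (step D s u α) x = E1 D s u (pd (i :: I) (u α)) x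
      + s ^ 2 / 2 * (nR D k I α F F1 R1 a b s u x
        + ∑ c, ∑ J, ∑ β, nF k i I α F a b c J β s u x * Pc D s u c (pd (List.ofFn J) (u β)) x) := by
  have hd : ∀ {f : (Fin d → ℝ) → ℝ}, ContDiff ℝ ∞ f → ∀ y, DifferentiableAt ℝ f y :=
    fun hf y => (hf.differentiable (by simp)) y
  have hE : ContDiff ℝ ∞ (E1 D s u (pd I (u α))) := av_contDiff D s hu _ (pd_contDiff (hu α) I)
  have hP : ∀ c (J : Fin k → Fin d) β, ContDiff ℝ ∞ (Pc D s u c (pd (List.ofFn J) (u β))) :=
    fun c J β => Pc_contDiff D s hu c (pd_contDiff (hu β) _)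
  have hFP : ∀ c (J : Fin k → Fin d) β, ContDiff ℝ ∞
      (fun y => F c J β s u y * Pc D s u c (pd (List.ofFn J) (u β)) y) :=
    fun c J β => (hF c J β).mul (hP c J β)
  have h0 : pd (i :: I) (step D s u α) x = pdv i (fun y => E1 D s u (pd I (u α)) y
        + s ^ 2 / 2 * (R s u y
          + ∑ c, ∑ J, ∑ β, F c J β s u y * Pc D s u c (pd (List.ofFn J) (u β)) y)) x := by
    have : pd I (step D s u α) = fun y => E1 D s u (pd I (u α)) y
        + s ^ 2 / 2 * (R s u y
          + ∑ c, ∑ J, ∑ β, F c J β s u y * Pc D s u c (pd (List.ofFn J) (u β)) y) :=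
      funext hform
    show pdv i (pd I (step D s u α)) x = _
    rw [this]
  have hS3 : ∀ c (J : Fin k → Fin d), ContDiff ℝ ∞
      (fun y => ∑ β, F c J β s u y * Pc D s u c (pd (List.ofFn J) (u β)) y) :=
    fun c J => ContDiff.sum (fun β _ => hFP c J β)
  have hS2 : ∀ c, ContDiff ℝ ∞
      (fun y => ∑ J : Fin k → Fin d, ∑ β, F c J β s u y * Pc D s u c (pd (List.ofFn J) (u β)) y) :=
    fun c => ContDiff.sum (fun J _ => hS3 c J)
  have hS1 : ContDiff ℝ ∞
      (fun y => ∑ c, ∑ J : Fin k → Fin d, ∑ β,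
        F c J β s u y * Pc D s u c (pd (List.ofFn J) (u β)) y) :=
    ContDiff.sum (fun c _ => hS2 c)
  have h1 : pd (i :: I) (step D s u α) x = pdv i (E1 D s u (pd I (u α))) x
      + s ^ 2 / 2 * (R1 s u x + ∑ c, ∑ J : Fin k → Fin d, ∑ β,
        (F1 c J β s u x * Pc D s u c (pd (List.ofFn J) (u β)) x
          + F c J β s u x * pdv i (Pc D s u c (pd (List.ofFn J) (u β))) x)) := by
    rw [h0, pdv_add' i (hd hE x) ((hd (hR.add hS1) x).const_mul _),
      pdv_cmul' i (hd (hR.add hS1) x), pdv_add' i (hd hR x) (hd hS1 x), hR1,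
      pdv_sum' i (fun c => hd (hS2 c) x)]
    congr 3
    refine Finset.sum_congr rfl (fun c _ => ?_)
    rw [pdv_sum' i (fun J => hd (hS3 c J) x)]
    refine Finset.sum_congr rfl (fun J _ => ?_)
    rw [pdv_sum' i (fun β => hd (hFP c J β) x)]
    refine Finset.sum_congr rfl (fun β _ => ?_)
    rw [pdv_mul' i (hd (hF c J β) x) (hd (hP c J β) x), hF1]
  have h2 : pdv i (E1 D s u (pd I (u α))) x = E1 D s u (pd (i :: I) (u α)) x
      + s ^ 2 / 2 * ((∑ c, ∑ j, 2 * a c j s u x * Pc D s u c (pd (j :: I) (u α)) x)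
        + ∑ j, b j s u x * E1 D s u (pd (j :: I) (u α)) x) := by
    rw [pdv_E1 D hs hu (pd_contDiff (hu α) I), Finset.sum_comm]
    simp only [ha, hb]
    rfl
  have h3 : ∀ c (J : Fin k → Fin d) β, pdv i (Pc D s u c (pd (List.ofFn J) (u β))) x
      = Pc D s u c (pd (i :: List.ofFn J) (u β)) x
        + (∑ j, ∑ c1, a c1 j s u x *
            av D s u (fun ξ => sgn (ξ c) * sgn (ξ c1)) (pd (j :: List.ofFn J) (u β)) x)
        + s ^ 2 / 2 * ∑ j, b j s u x * Pc D s u c (pd (j :: List.ofFn J) (u β)) x := by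
    intro c J β
    rw [pdv_Pc D hs hu c (pd_contDiff (hu β) _)]
    simp only [ha, hb]
    rfl
  -- the new coefficients
  obtain ⟨J0, hJ0⟩ : ∃ J0 : Fin k → Fin d, List.ofFn J0 = I := by
    subst hI
    exact ⟨fun n => I.get n, List.ofFn_get I⟩
  have h4 : ∀ c, ∑ J, ∑ β, nF k i I α F a b c J β s u x * Pc D s u c (pd (List.ofFn J) (u β)) x
      = (∑ j, 2 * a c j s u x * Pc D s u c (pd (j :: I) (u α)) x)
        + (∑ J : Fin k → Fin d, ∑ β, F c J β s u x * Pc D s u c (pd (i :: List.ofFn J) (u β)) x)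
        + ∑ J : Fin k → Fin d, ∑ β, F c J β s u x *
            (s ^ 2 / 2 * ∑ j, b j s u x * Pc D s u c (pd (j :: List.ofFn J) (u β)) x) := by
    intro c
    rw [sum_cons]
    have e1 : ∀ (j : Fin d) (J : Fin k → Fin d), ∑ β,
        nF k i I α F a b c (Fin.cons j J) β s u x *
          Pc D s u c (pd (List.ofFn (Fin.cons j J : Fin (k + 1) → Fin d)) (u β)) x
        = (∑ β, (if β = α ∧ List.ofFn J = I then 2 else 0) * a c j s u x *
            Pc D s u c (pd (j :: List.ofFn J) (u β)) x)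
          + (∑ β, (if j = i then 1 else 0) * F c J β s u x *
            Pc D s u c (pd (j :: List.ofFn J) (u β)) x)
          + ∑ β, s ^ 2 / 2 * (b j s u x * F c J β s u x) *
            Pc D s u c (pd (j :: List.ofFn J) (u β)) x := by
      intro j J
      rw [← Finset.sum_add_distrib, ← Finset.sum_add_distrib]
      refine Finset.sum_congr rfl (fun β _ => ?_)
      have t1 : (Fin.cons j J : Fin (k + 1) → Fin d) 0 = j := rfl
      have t2 : Fin.tail (Fin.cons j J : Fin (k + 1) → Fin d) = J := Fin.tail_cons _ _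
      have t3 : List.ofFn (Fin.cons j J : Fin (k + 1) → Fin d) = j :: List.ofFn J :=
        List.ofFn_cons _ _
      simp only [nF, t1, t2, t3]
      ring
    simp only [e1, Finset.sum_add_distrib]
    congr 1
    · congr 1
      · refine Finset.sum_congr rfl (fun j _ => ?_)
        rw [Finset.sum_eq_single J0]
        · rw [Finset.sum_eq_single α]
          · rw [hJ0]; simp
          · intro β _ hβ
            simp [hβ]
          · intro h; exact absurd (Finset.mem_univ _) h
        · intro J _ hJ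
          refine Finset.sum_eq_zero (fun β _ => ?_)
          have : List.ofFn J ≠ I := fun h => hJ (List.ofFn_injective (h.trans hJ0.symm))
          simp [this]
        · intro h; exact absurd (Finset.mem_univ _) h
      · rw [Finset.sum_eq_single i]
        · simp
        · intro j _ hj
          simp [hj]
        · intro h; exact absurd (Finset.mem_univ _) h
    · rw [Finset.sum_comm]
      refine Finset.sum_congr rfl (fun J _ => ?_)
      rw [Finset.sum_comm]
      refine Finset.sum_congr rfl (fun β _ => ?_)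
      rw [Finset.mul_sum, Finset.mul_sum]
      refine Finset.sum_congr rfl (fun j _ => ?_)
      ring
  rw [h1, h2]
  simp only [h3, h4]
  have h5 : ∀ c (J : Fin k → Fin d) β,
      (F1 c J β s u x * Pc D s u c (pd (List.ofFn J) (u β)) x
          + F c J β s u x * (Pc D s u c (pd (i :: List.ofFn J) (u β)) x
        + (∑ j, ∑ c1, a c1 j s u x *
            av D s u (fun ξ => sgn (ξ c) * sgn (ξ c1)) (pd (j :: List.ofFn J) (u β)) x)
        + s ^ 2 / 2 * ∑ j, b j s u x * Pc D s u c (pd (j :: List.ofFn J) (u β)) x))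
      = F1 c J β s u x * Pc D s u c (pd (List.ofFn J) (u β)) x
        + F c J β s u x * (∑ j, ∑ c1, a c1 j s u x *
            av D s u (fun ξ => sgn (ξ c) * sgn (ξ c1)) (pd (j :: List.ofFn J) (u β)) x)
        + F c J β s u x * Pc D s u c (pd (i :: List.ofFn J) (u β)) x
        + F c J β s u x *
          (s ^ 2 / 2 * ∑ j, b j s u x * Pc D s u c (pd (j :: List.ofFn J) (u β)) x) := by
    intro c J β
    ring
  simp only [h5, Finset.sum_add_distrib, nR]
  ring

end Pool.Agent.QPE
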