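import Pool.Agent.QPE.STD
import Pool.Agent.QPE.ADS

/-!
MODULE ST3 (the new remainder and coefficients are admissible).
Proof.  `Adm.mul`, `Adm.add`, `adm_sum`, `adm_E1` (level `(j :: I).length = k+1`), `adm_av`, `Adm.pjet` (level `(ofFn J).length + 1 = k+1`,
`List.length_ofFn`), `Adm.mono`; numerical constants by `Adm.const`, `s^2/2` by `Adm.par` (as `s * s * (1/2)`).
-/

namespace Pool.Agent.QPE

open scoped ContDiff BigOperators

variable {d K m : ℕ}

theorem nR_adm (D : Dat d K m) (k : ℕ) (I : List (Fin d)) (hI : I.length = k) (α : Fin K)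
    (F F1 : Fin m → (Fin k → Fin d) → Fin K → Fnl d K) (R1 : Fnl d K) (a : Fin m → Fin d → Fnl d K)
    (b : Fin d → Fnl d K) (hF : ∀ c J β, Adm D 1 (F c J β)) (hF1 : ∀ c J β, Adm D (1 + 1) (F1 c J β))
    (hR1 : Adm D (k + 1) R1) (ha : ∀ c j, Adm D 1 (a c j)) (hb : ∀ j, Adm D 1 (b j)) (hk : 1 ≤ k) :
    Adm D (k + 1) (nR D k I α F F1 R1 a b) := by
  unfold nR
  refine Adm.add (Adm.add (Adm.add ?_ hR1) ?_) ?_
  · refine adm_sum _ _ fun j _ => Adm.mul (Adm.mono (by omega) (hb j)) ?_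
    have h1 := adm_E1 (D := D) (j :: I) α
    exact Adm.mono (by simp [hI]) h1
  · refine adm_sum _ _ fun c _ => adm_sum _ _ fun J _ => adm_sum _ _ fun β _ =>
      Adm.mul (Adm.mono (by omega) (hF1 c J β)) ?_
    have h1 := Adm.pjet (D := D) c (List.ofFn J) β
    exact Adm.mono (by simp) h1
  · refine adm_sum _ _ fun c _ => adm_sum _ _ fun J _ => adm_sum _ _ fun β _ =>
      Adm.mul (Adm.mono (by omega) (hF c J β)) ?_
    refine adm_sum _ _ fun j _ => adm_sum _ _ fun c1 _ =>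
      Adm.mul (Adm.mono (by omega) (ha c1 j)) ?_
    have h1 := adm_av (D := D) (fun ξ => sgn (ξ c) * sgn (ξ c1)) (j :: List.ofFn J) β
    exact Adm.mono (by simp) h1

theorem nF_adm (D : Dat d K m) (k : ℕ) (i : Fin d) (I : List (Fin d)) (α : Fin K)
    (F : Fin m → (Fin k → Fin d) → Fin K → Fnl d K) (a : Fin m → Fin d → Fnl d K)
    (b : Fin d → Fnl d K) (hF : ∀ c J β, Adm D 1 (F c J β)) (ha : ∀ c j, Adm D 1 (a c j))
    (hb : ∀ j, Adm D 1 (b j)) (c : Fin m) (J : Fin (k + 1) → Fin d) (β : Fin K) :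
    Adm D 1 (nF k i I α F a b c J β) := by
  unfold nF
  have hs : Adm D 1 (fun s _ _ => s ^ 2 / 2 : Fnl d K) := by
    have h1 : Adm D 1 (fun s _ _ => s * s * (1 / 2) : Fnl d K) :=
      Adm.mono (Nat.zero_le 1) (Adm.mul (Adm.mul Adm.par Adm.par) (Adm.const (1 / 2)))
    have h2 : (fun s _ _ => s ^ 2 / 2 : Fnl d K) = fun s _ _ => s * s * (1 / 2) := by
      funext s u x
      ring
    rw [h2]
    exact h1
  exact Adm.add (Adm.add
    (Adm.mul (Adm.mono (Nat.zero_le 1) (Adm.const _)) (ha c (J 0)))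
    (Adm.mul (Adm.mono (Nat.zero_le 1) (Adm.const _)) (hF c (Fin.tail J) β)))
    (Adm.mul hs (Adm.mul (hb (J 0)) (hF c (Fin.tail J) β)))

end Pool.Agent.QPE
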