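import Pool.Agent.QPE.STD
import Pool.Agent.QPE.BDB

/-!
MODULE ST4 (the new remainder is affine in the top order).
Proof of `Aff (k+1)`, hypotheses `Bd k A u` (w.l.o.g. `0 ≤ A`), `Lv (k+1) B u`, `2 ≤ k`:
* `b j` bounded (`adm_bound`, level 1), `E1 (pd (j :: I) (u α))` bounded by `B` (`av_bound`, order `k+1`);
* `R1 = pdv i R`: `adm_pdv_bound` (level `k`);
* `F1 = pdv i F`: `adm_pdv_bound` (level 1, `Lv 2 A u` as `2 ≤ k`), times `Pc_bound` for `f = pd (ofFn J) (u β)`, whose first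
  derivatives have order `k+1` and are bounded by `B`;
* `F`, `a` bounded (level 1), weighted means of derivatives of order `k+1` bounded by `B` (`av_bound`, `|sgn * sgn| = 1`).
Finite sums.
-/

namespace Pool.Agent.QPE

open scoped ContDiff BigOperators

variable {d K m : ℕ}

private def ST4_P (k : ℕ) (A : ℝ) (Ψ : Fnl d K) : Prop :=
  ∃ C : ℝ, 0 ≤ C ∧ ∀ s : ℝ, 0 < s → s ≤ 1 → ∀ u : Sys d K, Smooth u → Bd k A u →
    ∀ B : ℝ, 0 ≤ B → Lv (k + 1) B u → ∀ x, |Ψ s u x| ≤ C * (1 + B)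

private def ST4_Q (k : ℕ) (A : ℝ) (Ψ : Fnl d K) : Prop :=
  ∃ C : ℝ, 0 ≤ C ∧ ∀ s : ℝ, 0 < s → s ≤ 1 → ∀ u : Sys d K, Smooth u → Bd k A u →
    ∀ x, |Ψ s u x| ≤ C

private theorem ST4_add {k : ℕ} {A : ℝ} {Ψ Θ : Fnl d K} (h1 : ST4_P k A Ψ) (h2 : ST4_P k A Θ) :
    ST4_P k A (fun s u x => Ψ s u x + Θ s u x) := by
  obtain ⟨C1, a1, b1⟩ := h1
  obtain ⟨C2, a2, b2⟩ := h2
  refine ⟨C1 + C2, add_nonneg a1 a2, fun s hs hs1 u hu hA B hB hL x => ?_⟩
  refine (abs_add_le _ _).trans ?_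
  rw [add_mul]
  exact add_le_add (b1 s hs hs1 u hu hA B hB hL x) (b2 s hs hs1 u hu hA B hB hL x)

private theorem ST4_sum {k : ℕ} {A : ℝ} {ι : Type*} (t : Finset ι) {Ψ : ι → Fnl d K}
    (h : ∀ i ∈ t, ST4_P k A (Ψ i)) : ST4_P k A (fun s u x => ∑ i ∈ t, Ψ i s u x) := by
  classical
  induction t using Finset.induction_on with
  | empty =>
    refine ⟨0, le_rfl, fun s _ _ u _ _ B _ _ x => ?_⟩
    simp
  | insert a t ha ih =>
    have e : (fun (s : ℝ) (u : Sys d K) x => ∑ i ∈ insert a t, Ψ i s u x) =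
        fun s u x => Ψ a s u x + ∑ i ∈ t, Ψ i s u x := by
      funext s u x
      rw [Finset.sum_insert ha]
    rw [e]
    exact ST4_add (h a (Finset.mem_insert_self _ _))
      (ih fun i hi => h i (Finset.mem_insert_of_mem hi))

private theorem ST4_mul {k : ℕ} {A : ℝ} {Ψ Θ : Fnl d K} (h1 : ST4_Q k A Ψ) (h2 : ST4_P k A Θ) :
    ST4_P k A (fun s u x => Ψ s u x * Θ s u x) := by
  obtain ⟨C1, a1, b1⟩ := h1
  obtain ⟨C2, a2, b2⟩ := h2
  refine ⟨C1 * C2, mul_nonneg a1 a2, fun s hs hs1 u hu hA B hB hL x => ?_⟩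
  rw [abs_mul, mul_assoc]
  exact mul_le_mul (b1 s hs hs1 u hu hA x) (b2 s hs hs1 u hu hA B hB hL x) (abs_nonneg _) a1

private theorem ST4_adm {D : Dat d K m} {k : ℕ} (hk : 1 ≤ k) (A : ℝ) {Ψ : Fnl d K}
    (h : Adm D 1 Ψ) : ST4_Q k A Ψ := by
  obtain ⟨C, hC, hb⟩ := adm_bound h A
  exact ⟨C, hC, fun s hs hs1 u hu hA x => hb s hs hs1 u hu (fun I hI => hA I (hI.trans hk)) x⟩

private theorem ST4_av (D : Dat d K m) {k : ℕ} (A : ℝ) (w : (Fin m → Bool) → ℝ)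
    (hw : ∀ ξ, |w ξ| ≤ 1) (I : List (Fin d)) (hI : I.length = k + 1) (α : Fin K) :
    ST4_P k A (fun s u x => av D s u w (pd I (u α)) x) := by
  refine ⟨1, zero_le_one, fun s hs hs1 u hu hA B hB hL x => ?_⟩
  have := av_bound D s u w hw (pd I (u α)) B (fun y => hL I hI α y) x
  linarith

private theorem ST4_Pc (D : Dat d K m) {k : ℕ} (A : ℝ) (c : Fin m) (I : List (Fin d))
    (hI : I.length = k) (β : Fin K) :
    ST4_P k A (fun s u x => Pc D s u c (pd I (u β)) x) := by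
  obtain ⟨C, hC, hb⟩ := Pc_bound D A
  refine ⟨C, hC, fun s hs hs1 u hu hA B hB hL x => ?_⟩
  have h := hb s hs hs1 u (fun α x => hA [] (Nat.zero_le _) α x) (pd I (u β))
    (pd_contDiff (hu β) I) B hB (fun j y => hL (j :: I) (by simp [hI]) β y) c x
  refine h.trans (mul_le_mul_of_nonneg_left (by linarith) hC)

theorem nR_aff (D : Dat d K m) (k : ℕ) (hk : 2 ≤ k) (i : Fin d) (I : List (Fin d))
    (hI : I.length = k) (α : Fin K) (R : Fnl d K)
    (F F1 : Fin m → (Fin k → Fin d) → Fin K → Fnl d K) (R1 : Fnl d K) (a : Fin m → Fin d → Fnl d K)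
    (b : Fin d → Fnl d K) (hR : Adm D k R) (hF : ∀ c J β, Adm D 1 (F c J β))
    (ha : ∀ c j, Adm D 1 (a c j)) (hb : ∀ j, Adm D 1 (b j))
    (hR1 : ∀ s : ℝ, s ≠ 0 → ∀ u : Sys d K, Smooth u → ∀ x, pdv i (R s u) x = R1 s u x)
    (hF1 : ∀ c J β, ∀ s : ℝ, s ≠ 0 → ∀ u : Sys d K, Smooth u → ∀ x,
      pdv i (F c J β s u) x = F1 c J β s u x) :
    Aff (k + 1) (nR D k I α F F1 R1 a b) := by
  intro A
  have hk1 : 1 ≤ k := by omega
  have hR1' : ST4_P k A R1 := by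
    obtain ⟨C, hC, hb⟩ := adm_pdv_bound hR hk1 i A
    refine ⟨C, hC, fun s hs hs1 u hu hA B hB hL x => ?_⟩
    rw [← hR1 s hs.ne' u hu x]
    exact hb s hs hs1 u hu hA B hB hL x
  have hF1' : ∀ c J β, ST4_Q k A (F1 c J β) := by
    intro c J β
    obtain ⟨C, hC, hb⟩ := adm_pdv_bound (hF c J β) le_rfl i A
    refine ⟨C * (1 + |A|), mul_nonneg hC (by positivity), fun s hs hs1 u hu hA x => ?_⟩
    rw [← hF1 c J β s hs.ne' u hu x]
    exact hb s hs hs1 u hu (fun I hI => hA I (hI.trans hk1)) |A| (abs_nonneg A)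
      (fun I hI α y => (hA I (by omega) α y).trans (le_abs_self A)) x
  have hw : ∀ c c1 : Fin m, ∀ ξ : Fin m → Bool, |sgn (ξ c) * sgn (ξ c1)| ≤ 1 := by
    intro c c1 ξ
    rw [abs_mul, abs_sgn, abs_sgn, mul_one]
  have key : ST4_P k A (nR D k I α F F1 R1 a b) := by
    unfold nR
    refine ST4_add (ST4_add (ST4_add ?_ hR1') ?_) ?_
    · refine ST4_sum _ fun j _ => ST4_mul (ST4_adm hk1 A (hb j)) ?_
      exact ST4_av D A (fun _ => 1) (fun _ => by simp) (j :: I) (by simp [hI]) α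
    · refine ST4_sum _ fun c _ => ST4_sum _ fun J _ => ST4_sum _ fun β _ =>
        ST4_mul (hF1' c J β) (ST4_Pc D A c _ (by simp) β)
    · refine ST4_sum _ fun c _ => ST4_sum _ fun J _ => ST4_sum _ fun β _ =>
        ST4_mul (ST4_adm hk1 A (hF c J β)) ?_
      refine ST4_sum _ fun j _ => ST4_sum _ fun c1 _ => ST4_mul (ST4_adm hk1 A (ha c1 j)) ?_
      exact ST4_av D A _ (hw c c1) (j :: List.ofFn J) (by simp) β
  obtain ⟨C, hC, hb⟩ := key
  exact ⟨C, hC, fun s hs hs1 u hu hA B hB hL x => hb s hs hs1 u hu hA B hB hL x⟩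

end Pool.Agent.QPE
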