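import Pool.Agent.QPE.SXP

/-!
MODULE STD (one step of the scheme: definitions for the structure theorem, smoothness of the step).
`step_smooth`: `E1` of a smooth function is smooth (`av_contDiff`), `Q α` composed with `arg`: `ContDiff` of `arg` by
`contDiff_id.prodMk (val_contDiff.prodMk (contDiff_pi .. Pc_contDiff))`.
-/

namespace Pool.Agent.QPE

open scoped ContDiff BigOperators

variable {d K m : ℕ}

/-- the level `k` formula: the derivative `pd I` of the `α`-th component of one step -/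
def Form (D : Dat d K m) (k : ℕ) (I : List (Fin d)) (α : Fin K) (R : Fnl d K)
    (F : Fin m → (Fin k → Fin d) → Fin K → Fnl d K) : Prop :=
  Adm D k R ∧ (∀ c J β, Adm D 1 (F c J β)) ∧ (3 ≤ k → Aff k R) ∧
    ∀ s : ℝ, s ≠ 0 → ∀ u : Sys d K, Smooth u → ∀ x,
      pd I (step D s u α) x = E1 D s u (pd I (u α)) x
        + s ^ 2 / 2 * (R s u x
          + ∑ c, ∑ J, ∑ β, F c J β s u x * Pc D s u c (pd (List.ofFn J) (u β)) x)

/-- the new remainder: `b j` stands for `Bc D u i j`, `a c j` for `Ac D u c i j`, `R1` for `∂_i R`,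
`F1` for `∂_i F` -/
noncomputable def nR (D : Dat d K m) (k : ℕ) (I : List (Fin d)) (α : Fin K)
    (F F1 : Fin m → (Fin k → Fin d) → Fin K → Fnl d K) (R1 : Fnl d K) (a : Fin m → Fin d → Fnl d K)
    (b : Fin d → Fnl d K) : Fnl d K := fun s u x =>
  (∑ j, b j s u x * E1 D s u (pd (j :: I) (u α)) x) + R1 s u x
  + (∑ c, ∑ J, ∑ β, F1 c J β s u x * Pc D s u c (pd (List.ofFn J) (u β)) x)
  + ∑ c, ∑ J, ∑ β, F c J β s u x * ∑ j, ∑ c1, a c1 j s u x *
      av D s u (fun ξ => sgn (ξ c) * sgn (ξ c1)) (pd (j :: List.ofFn J) (u β)) x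

/-- the new coefficients of the discrete derivatives of order `k+1` -/
noncomputable def nF (k : ℕ) (i : Fin d) (I : List (Fin d)) (α : Fin K)
    (F : Fin m → (Fin k → Fin d) → Fin K → Fnl d K) (a : Fin m → Fin d → Fnl d K)
    (b : Fin d → Fnl d K) : Fin m → (Fin (k + 1) → Fin d) → Fin K → Fnl d K := fun c J β s u x =>
  (if β = α ∧ List.ofFn (Fin.tail J) = I then 2 else 0) * a c (J 0) s u x
  + (if J 0 = i then 1 else 0) * F c (Fin.tail J) β s u x
  + s ^ 2 / 2 * (b (J 0) s u x * F c (Fin.tail J) β s u x)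

theorem step_smooth (D : Dat d K m) (s : ℝ) {u : Sys d K} (hu : Smooth u) :
    Smooth (step D s u) := by
  intro α
  have h1 : ContDiff ℝ ∞ (E1 D s u (u α)) := av_contDiff D s hu _ (hu α)
  have h2 : ContDiff ℝ ∞ (arg D s u) := by
    refine contDiff_id.prodMk ((val_contDiff hu).prodMk ?_)
    refine contDiff_pi.2 fun c => contDiff_pi.2 fun β => ?_
    exact Pc_contDiff D s hu c (hu β)
  have h3 : ContDiff ℝ ∞ (fun x => D.Q α (arg D s u x)) := (D.Q_smooth α).comp h2
  exact h1.add (contDiff_const.mul h3)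

end Pool.Agent.QPE
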