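import Pool.Agent.QPE.ST1
import Pool.Agent.QPE.ST2
import Pool.Agent.QPE.ST3
import Pool.Agent.QPE.ST4

/-!
Assembly of the structure theorem (proved from ST1, ST2, ST3, ST4).
-/

namespace Pool.Agent.QPE

open scoped ContDiff BigOperators

variable {d K m : ℕ}

theorem form_succ (D : Dat d K m) (k : ℕ) (hk : 1 ≤ k) (i : Fin d) (I : List (Fin d))
    (hI : I.length = k) (α : Fin K) (R : Fnl d K) (F : Fin m → (Fin k → Fin d) → Fin K → Fnl d K)
    (h : Form D k I α R F) :
    ∃ (R1 : Fnl d K) (F1 : Fin m → (Fin (k + 1) → Fin d) → Fin K → Fnl d K),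
      Form D (k + 1) (i :: I) α R1 F1 := by
  obtain ⟨hR, hF, haff, hid⟩ := h
  obtain ⟨R1, hR1a, hR1⟩ := adm_pdv hR i
  choose F1 hF1a hF1 using fun c J β => adm_pdv (hF c J β) i
  choose a haa ha using fun c j => Ac_adm D c i j
  choose b hba hb using fun j => Bc_adm D i j
  refine ⟨nR D k I α F F1 R1 a b, nF k i I α F a b,
    nR_adm D k I hI α F F1 R1 a b hF hF1a hR1a haa hba hk,
    nF_adm D k i I α F a b hF haa hba,
    fun h3 => nR_aff D k (by omega) i I hI α R F F1 R1 a b hR hF haa hba hR1 hF1, ?_⟩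
  intro s hs u hu x
  exact form_identity D k i I hI α R F F1 R1 a b s hs u hu (adm_contDiff hR s hu)
    (fun c J β => adm_contDiff (hF c J β) s hu) (hid s hs u hu) (hR1 s hs u hu)
    (fun c J β => hF1 c J β s hs u hu) (fun c j x => ha c j s u hu x) (fun j x => hb j s u hu x) x

theorem form_exists (D : Dat d K m) : ∀ (k : ℕ), 1 ≤ k → ∀ (I : List (Fin d)), I.length = k →
    ∀ α : Fin K, ∃ (R : Fnl d K) (F : Fin m → (Fin k → Fin d) → Fin K → Fnl d K),
      Form D k I α R F := by
  intro k hk
  induction k, hk using Nat.le_induction with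
  | base =>
    intro I hI α
    obtain ⟨i, rfl⟩ := List.length_eq_one_iff.mp hI
    exact form_one D i α
  | succ k hk ih =>
    intro I hI α
    match I, hI with
    | [], hI => simp at hI
    | i :: I, hI =>
      have hI1 : I.length = k := by simpa using hI
      obtain ⟨R, F, h⟩ := ih I hI1 α
      exact form_succ D k hk i I hI1 α R F h

end Pool.Agent.QPE
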