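import Pool.Agent.QPE.PHI
import Pool.Agent.QPE.RAD

/-!
MODULE SXP (derivatives of weighted means).
Proof.  `av` is a finite linear combination of the functions `f ∘ Φ_ξ`: differentiate by `pdv_comp_phi`
and exchange the finite sums.  For `E1` (weight 1): the term `s * Σ_c Ac * av sgn_c` is
`s^2 * Σ_c Ac * Pc c` because `av sgn_c f = s * Pc c f` (`s ≠ 0`).  For `Pc`: multiply by `s⁻¹`.
-/

namespace Pool.Agent.QPE

open scoped ContDiff BigOperators

variable {d K m : ℕ}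

theorem av_contDiff (D : Dat d K m) (s : ℝ) {u : Sys d K} (hu : Smooth u)
    (w : (Fin m → Bool) → ℝ) {f : (Fin d → ℝ) → ℝ} (hf : ContDiff ℝ ∞ f) :
    ContDiff ℝ ∞ (av D s u w f) := by
  unfold av mean
  exact contDiff_const.mul (ContDiff.sum fun ξ _ =>
    contDiff_const.mul (hf.comp (phi_contDiff D s hu ξ)))

theorem Pc_contDiff (D : Dat d K m) (s : ℝ) {u : Sys d K} (hu : Smooth u) (c : Fin m)
    {f : (Fin d → ℝ) → ℝ} (hf : ContDiff ℝ ∞ f) : ContDiff ℝ ∞ (Pc D s u c f) := by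
  unfold Pc
  exact contDiff_const.mul (av_contDiff D s hu _ hf)

private theorem sxp_pdv_av (D : Dat d K m) (s : ℝ) {u : Sys d K} (hu : Smooth u)
    (w : (Fin m → Bool) → ℝ) {f : (Fin d → ℝ) → ℝ} (hf : ContDiff ℝ ∞ f) (i : Fin d)
    (x : Fin d → ℝ) :
    pdv i (av D s u w f) x = mean fun ξ => w ξ * pdv i (fun y => f (phi D s u ξ y)) x := by
  have hdiff : ∀ ξ : Fin m → Bool, DifferentiableAt ℝ (fun y => f (phi D s u ξ y)) x := fun ξ =>
    ((hf.comp (phi_contDiff D s hu ξ)).differentiable (by simp)).differentiableAt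
  have h1 : HasFDerivAt (av D s u w f)
      (((2 : ℝ) ^ m)⁻¹ • ∑ ξ : Fin m → Bool, w ξ • fderiv ℝ (fun y => f (phi D s u ξ y)) x) x := by
    unfold av mean
    exact (HasFDerivAt.fun_sum fun ξ _ => (hdiff ξ).hasFDerivAt.const_mul (w ξ)).const_mul _
  rw [pdv, h1.fderiv]
  simp [pdv, mean]

private theorem sxp_alg (s W : ℝ) (i : Fin d) (P : Fin d → ℝ) (S : Fin m → ℝ)
    (A : Fin m → Fin d → ℝ) (B : Fin d → ℝ) :
    W * ∑ j, ((if i = j then 1 else 0) + s * ∑ c, S c * A c j + s ^ 2 / 2 * B j) * P j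
      = W * P i + s * (∑ j, ∑ c, A c j * (W * S c * P j)) + s ^ 2 / 2 * ∑ j, B j * (W * P j) := by
  have h1 : ∀ j, ((if i = j then (1 : ℝ) else 0) + s * ∑ c, S c * A c j + s ^ 2 / 2 * B j) * P j
      = (if i = j then P j else 0) + s * (∑ c, A c j * (S c * P j)) + s ^ 2 / 2 * (B j * P j) := by
    intro j
    have h2 : (∑ c, A c j * (S c * P j)) = (∑ c, S c * A c j) * P j := by
      rw [Finset.sum_mul]
      exact Finset.sum_congr rfl fun c _ => by ring
    rw [h2]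
    split_ifs <;> ring
  simp only [h1, Finset.sum_add_distrib, Finset.sum_ite_eq, Finset.mem_univ, if_true, mul_add,
    ← Finset.mul_sum]
  congr 1
  · congr 1
    rw [mul_left_comm]
    congr 1
    rw [Finset.mul_sum]
    refine Finset.sum_congr rfl fun j _ => ?_
    rw [Finset.mul_sum]
    exact Finset.sum_congr rfl fun c _ => by ring
  · rw [mul_left_comm]
    congr 1
    rw [Finset.mul_sum]
    exact Finset.sum_congr rfl fun c _ => by ring

theorem pdv_av (D : Dat d K m) (s : ℝ) {u : Sys d K} (hu : Smooth u) (w : (Fin m → Bool) → ℝ)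
    {f : (Fin d → ℝ) → ℝ} (hf : ContDiff ℝ ∞ f) (i : Fin d) (x : Fin d → ℝ) :
    pdv i (av D s u w f) x
      = av D s u w (pdv i f) x
        + s * (∑ j, ∑ c, Ac D u c i j x * av D s u (fun ξ => w ξ * sgn (ξ c)) (pdv j f) x)
        + s ^ 2 / 2 * ∑ j, Bc D u i j x * av D s u w (pdv j f) x := by
  rw [sxp_pdv_av D s hu w hf]
  simp only [av, ← mean_mul_left, ← mean_sum, ← mean_add]
  congr 1
  funext ξ
  rw [pdv_comp_phi D s hu ξ hf]
  exact sxp_alg s (w ξ) i (fun j => pdv j f (phi D s u ξ x)) (fun c => sgn (ξ c))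
    (fun c j => Ac D u c i j x) (fun j => Bc D u i j x)

theorem pdv_E1 (D : Dat d K m) {s : ℝ} (hs : s ≠ 0) {u : Sys d K} (hu : Smooth u)
    {f : (Fin d → ℝ) → ℝ} (hf : ContDiff ℝ ∞ f) (i : Fin d) (x : Fin d → ℝ) :
    pdv i (E1 D s u f) x
      = E1 D s u (pdv i f) x
        + s ^ 2 / 2 * ((∑ j, ∑ c, 2 * Ac D u c i j x * Pc D s u c (pdv j f) x)
        + ∑ j, Bc D u i j x * E1 D s u (pdv j f) x) := by
  have h0 : E1 D s u f = av D s u (fun _ => 1) f := by funext y; rfl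
  have h1 : ∀ (c : Fin m) (g : (Fin d → ℝ) → ℝ),
      av D s u (fun ξ => 1 * sgn (ξ c)) g x = s * Pc D s u c g x := by
    intro c g
    simp only [Pc, one_mul]
    rw [← mul_assoc, mul_inv_cancel₀ hs, one_mul]
  rw [h0, pdv_av D s hu _ hf]
  simp only [h1]
  have h2 : s * (∑ j, ∑ c, Ac D u c i j x * (s * Pc D s u c (pdv j f) x))
      = s ^ 2 / 2 * (∑ j, ∑ c, 2 * Ac D u c i j x * Pc D s u c (pdv j f) x) := by
    rw [Finset.mul_sum, Finset.mul_sum]
    refine Finset.sum_congr rfl fun j _ => ?_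
    rw [Finset.mul_sum, Finset.mul_sum]
    exact Finset.sum_congr rfl fun c _ => by ring
  rw [h2]
  simp only [E1]
  ring

theorem pdv_Pc (D : Dat d K m) {s : ℝ} (hs : s ≠ 0) {u : Sys d K} (hu : Smooth u) (c : Fin m)
    {f : (Fin d → ℝ) → ℝ} (hf : ContDiff ℝ ∞ f) (i : Fin d) (x : Fin d → ℝ) :
    pdv i (Pc D s u c f) x
      = Pc D s u c (pdv i f) x
        + (∑ j, ∑ c', Ac D u c' i j x * av D s u (fun ξ => sgn (ξ c) * sgn (ξ c')) (pdv j f) x)
        + s ^ 2 / 2 * ∑ j, Bc D u i j x * Pc D s u c (pdv j f) x := by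
  have h0 : Pc D s u c f = fun y => s⁻¹ * av D s u (fun ξ => sgn (ξ c)) f y := by funext y; rfl
  have hd : DifferentiableAt ℝ (av D s u (fun ξ => sgn (ξ c)) f) x :=
    ((av_contDiff D s hu _ hf).differentiable (by simp)).differentiableAt
  have h1 : pdv i (Pc D s u c f) x = s⁻¹ * pdv i (av D s u (fun ξ => sgn (ξ c)) f) x := by
    rw [h0, pdv, (hd.hasFDerivAt.const_mul s⁻¹).fderiv]
    simp [pdv]
  rw [h1, pdv_av D s hu _ hf]
  simp only [Pc]
  rw [mul_add, mul_add, ← mul_assoc s⁻¹ s, inv_mul_cancel₀ hs, one_mul]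
  congr 1
  rw [mul_left_comm]
  congr 1
  rw [Finset.mul_sum]
  exact Finset.sum_congr rfl fun j _ => by ring

end Pool.Agent.QPE
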