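import Pool.Agent.QPE.Def

/-!
MODULE TAY (calculus of iterated partial derivatives).
Proofs.  (1) `pdv i f = fderiv f . e_i` is smooth if `f` is; induction on the list.  (2) induction on `I` (definition).
(3) linearity of `fderiv ℝ f x` and `h = Σ h_j e_j` (`pi_eq_sum_univ`, `Pi.single`).
(4) put `G r = f (x + r (y - x))` on `[0,1]`; `|G r derivative| = |Σ_j (y_j - x_j) pdv j f| ≤ B Σ |y_j - x_j|`; mean value theorem.
(5),(6) linearity of the iterated derivatives on smooth functions (induction on `I`).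
-/

namespace Pool.Agent.QPE

open scoped ContDiff BigOperators

variable {d K m : ℕ}

private lemma pdv_contDiff {f : (Fin d → ℝ) → ℝ} (hf : ContDiff ℝ ∞ f) (i : Fin d) :
    ContDiff ℝ ∞ (pdv i f) := by
  have h1 : ContDiff ℝ ∞ (fderiv ℝ f) := hf.fderiv_right (m := ∞) (by norm_cast)
  exact h1.clm_apply contDiff_const

theorem pd_contDiff {f : (Fin d → ℝ) → ℝ} (hf : ContDiff ℝ ∞ f) (I : List (Fin d)) :
    ContDiff ℝ ∞ (pd I f) := by
  induction I with
  | nil => exact hf
  | cons i I ih => exact pdv_contDiff ih i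

theorem pd_append (I J : List (Fin d)) (f : (Fin d → ℝ) → ℝ) : pd (I ++ J) f = pd I (pd J f) := by
  induction I with
  | nil => rfl
  | cons i I ih =>
    show pdv i (pd (I ++ J) f) = pdv i (pd I (pd J f))
    rw [ih]

theorem fderiv_eq_sum {f : (Fin d → ℝ) → ℝ} (x h : Fin d → ℝ) :
    fderiv ℝ f x h = ∑ j, h j * pdv j f x := by
  have h1 : h = ∑ j, h j • (Pi.single j (1 : ℝ) : Fin d → ℝ) := by
    conv_lhs => rw [pi_eq_sum_univ' h]
  conv_lhs => rw [h1]
  rw [map_sum]
  refine Finset.sum_congr rfl fun j _ => ?_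
  rw [map_smul, smul_eq_mul]
  rfl

theorem taylor1 {f : (Fin d → ℝ) → ℝ} (hf : ContDiff ℝ ∞ f) (B : ℝ)
    (hB : ∀ j x, |pdv j f x| ≤ B) (x y : Fin d → ℝ) :
    |f y - f x| ≤ B * ∑ j, |y j - x j| := by
  have hd : Differentiable ℝ f := hf.differentiable (by simp)
  have hG : ∀ r : ℝ, HasDerivAt (fun r : ℝ => f (x + r • (y - x)))
      (fderiv ℝ f (x + r • (y - x)) (y - x)) r := by
    intro r
    have h1 : HasDerivAt (fun r : ℝ => x + r • (y - x)) (y - x) r := by
      have := ((hasDerivAt_id r).smul_const (y - x)).const_add x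
      simpa using this
    exact (hd _).hasFDerivAt.comp_hasDerivAt r h1
  have hb : ∀ r ∈ Set.Ico (0 : ℝ) 1, ‖fderiv ℝ f (x + r • (y - x)) (y - x)‖ ≤
      B * ∑ j, |y j - x j| := by
    intro r _
    rw [fderiv_eq_sum, Real.norm_eq_abs]
    refine (Finset.abs_sum_le_sum_abs _ _).trans ?_
    rw [Finset.mul_sum]
    refine Finset.sum_le_sum fun j _ => ?_
    rw [abs_mul, mul_comm]
    exact mul_le_mul_of_nonneg_right (hB j _) (abs_nonneg _)
  have := norm_image_sub_le_of_norm_deriv_le_segment_01'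
    (fun r _ => (hG r).hasDerivWithinAt) hb
  simpa [Real.norm_eq_abs] using this

theorem pd_sub {f g : (Fin d → ℝ) → ℝ} (hf : ContDiff ℝ ∞ f) (hg : ContDiff ℝ ∞ g)
    (I : List (Fin d)) (x : Fin d → ℝ) :
    pd I (fun y => f y - g y) x = pd I f x - pd I g x := by
  induction I generalizing x with
  | nil => rfl
  | cons i I ih =>
    show pdv i (pd I (fun y => f y - g y)) x = pdv i (pd I f) x - pdv i (pd I g) x
    have h1 : pd I (fun y => f y - g y) = fun y => pd I f y - pd I g y := funext ih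
    rw [h1]
    unfold pdv
    have h2 := ((pd_contDiff hf I).differentiable (by simp)) x
    have h3 := ((pd_contDiff hg I).differentiable (by simp)) x
    rw [fderiv_fun_sub h2 h3]
    rfl

theorem pd_const_mul {f : (Fin d → ℝ) → ℝ} (hf : ContDiff ℝ ∞ f) (c : ℝ)
    (I : List (Fin d)) (x : Fin d → ℝ) :
    pd I (fun y => c * f y) x = c * pd I f x := by
  induction I generalizing x with
  | nil => rfl
  | cons i I ih =>
    show pdv i (pd I (fun y => c * f y)) x = c * pdv i (pd I f) x
    have h1 : pd I (fun y => c * f y) = fun y => c * pd I f y := funext ih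
    rw [h1]
    unfold pdv
    have h2 := ((pd_contDiff hf I).differentiable (by simp)) x
    rw [fderiv_const_mul h2]
    rfl

end Pool.Agent.QPE
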