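import Pool.Agent.QPE.TAY

/-!
MODULE TAZ (Taylor estimates of order 2 and 3).
Proof.  Put `G r = f (x + r h)` on `[0,1]`; `G1 r = Σ_j h_j pd [j] f (x + r h)` is the derivative of `G`,
`G2 r = Σ_i Σ_j h_i h_j pd [i,j] f (x + r h)` that of `G1`, `G3 r = Σ_k Σ_i Σ_j h_k h_i h_j pd [k,i,j] f (x + r h)` that of `G2`
(chain rule, `fderiv_eq_sum` for `pd I f`, `pdv i (pd I f) = pd (i :: I) f`); with `H = Σ |h_j|` one has
`|G2| ≤ B H^2`, `|G3| ≤ B H^3`; use the mean value inequality two or three times on `[0,1]`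
(`norm_image_sub_le_of_norm_deriv_le_segment_01`) for `G r - G 0 - r G1 0 [- r^2/2 G2 0]`, or
`taylor_mean_remainder_lagrange`.
-/

namespace Pool.Agent.QPE

open scoped ContDiff BigOperators

variable {d K m : ℕ}

private lemma hasDerivAt_line {f : (Fin d → ℝ) → ℝ} (hf : ContDiff ℝ ∞ f) (I : List (Fin d))
    (x h : Fin d → ℝ) (r : ℝ) :
    HasDerivAt (fun r : ℝ => pd I f (x + r • h)) (∑ j, h j * pd (j :: I) f (x + r • h)) r := by
  have hd : Differentiable ℝ (pd I f) := (pd_contDiff hf I).differentiable (by simp)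
  have h1 : HasDerivAt (fun r : ℝ => x + r • h) h r := by
    have := ((hasDerivAt_id r).smul_const h).const_add x
    simpa using this
  have h2 := (hd (x + r • h)).hasFDerivAt.comp_hasDerivAt r h1
  rw [fderiv_eq_sum] at h2
  exact h2

/-- a function on `[0,1]` with value zero at zero and derivative bounded by `M` is bounded by `M` -/
private lemma mvt01 {g g' : ℝ → ℝ} {M : ℝ} (hg : ∀ r, HasDerivAt g (g' r) r) (h0 : g 0 = 0)
    (hb : ∀ r ∈ Set.Icc (0 : ℝ) 1, |g' r| ≤ M) (r : ℝ) (hr : r ∈ Set.Icc (0 : ℝ) 1) :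
    |g r| ≤ M := by
  have h1 := norm_image_sub_le_of_norm_deriv_le_segment' (f := g) (f' := g') (a := 0) (b := 1)
    (C := M) (fun x _ => (hg x).hasDerivWithinAt) (fun x hx => hb x ⟨hx.1, hx.2.le⟩) r hr
  rw [h0, sub_zero, sub_zero, Real.norm_eq_abs] at h1
  have hM : 0 ≤ M := (abs_nonneg _).trans (hb 0 ⟨le_rfl, zero_le_one⟩)
  exact h1.trans (mul_le_of_le_one_right hM hr.2)

private lemma sum2_le {f : Fin d → Fin d → ℝ} {B : ℝ} (hB : ∀ i j, |f i j| ≤ B)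
    (h : Fin d → ℝ) : |∑ i, ∑ j, h i * h j * f i j| ≤ B * (∑ j, |h j|) ^ 2 := by
  refine (Finset.abs_sum_le_sum_abs _ _).trans ?_
  have h1 : B * (∑ j, |h j|) ^ 2 = ∑ i, ∑ j, |h i| * |h j| * B := by
    rw [pow_two, Finset.sum_mul_sum, Finset.mul_sum]
    refine Finset.sum_congr rfl fun i _ => ?_
    rw [Finset.mul_sum]
    exact Finset.sum_congr rfl fun j _ => by ring
  rw [h1]
  refine Finset.sum_le_sum fun i _ => ?_
  refine (Finset.abs_sum_le_sum_abs _ _).trans ?_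
  refine Finset.sum_le_sum fun j _ => ?_
  rw [abs_mul, abs_mul]
  exact mul_le_mul_of_nonneg_left (hB i j) (by positivity)

private lemma sum3_le {f : Fin d → Fin d → Fin d → ℝ} {B : ℝ} (hB : ∀ i j k, |f i j k| ≤ B)
    (h : Fin d → ℝ) :
    |∑ k, ∑ i, ∑ j, h k * h i * h j * f k i j| ≤ B * (∑ j, |h j|) ^ 3 := by
  refine (Finset.abs_sum_le_sum_abs _ _).trans ?_
  have h1 : B * (∑ j, |h j|) ^ 3 = ∑ k, |h k| * (B * (∑ j, |h j|) ^ 2) := by
    rw [← Finset.sum_mul]; ring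
  rw [h1]
  refine Finset.sum_le_sum fun k _ => ?_
  have h2 : ∑ i, ∑ j, h k * h i * h j * f k i j = h k * ∑ i, ∑ j, h i * h j * f k i j := by
    rw [Finset.mul_sum]
    refine Finset.sum_congr rfl fun i _ => ?_
    rw [Finset.mul_sum]
    exact Finset.sum_congr rfl fun j _ => by ring
  rw [h2, abs_mul]
  exact mul_le_mul_of_nonneg_left (sum2_le (hB k) h) (abs_nonneg _)

private lemma line1 {f : (Fin d → ℝ) → ℝ} (hf : ContDiff ℝ ∞ f) (x h : Fin d → ℝ) (r : ℝ) :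
    HasDerivAt (fun r : ℝ => ∑ j, h j * pd [j] f (x + r • h))
      (∑ i, ∑ j, h i * h j * pd [i, j] f (x + r • h)) r := by
  have h1 : HasDerivAt (fun r : ℝ => ∑ j, h j * pd [j] f (x + r • h))
      (∑ j, h j * ∑ i, h i * pd [i, j] f (x + r • h)) r :=
    HasDerivAt.fun_sum fun j _ => (hasDerivAt_line hf [j] x h r).const_mul (h j)
  refine h1.congr_deriv ?_
  rw [Finset.sum_comm]
  refine Finset.sum_congr rfl fun j _ => ?_
  rw [Finset.mul_sum]
  exact Finset.sum_congr rfl fun i _ => by ring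

private lemma line2 {f : (Fin d → ℝ) → ℝ} (hf : ContDiff ℝ ∞ f) (x h : Fin d → ℝ) (r : ℝ) :
    HasDerivAt (fun r : ℝ => ∑ i, ∑ j, h i * h j * pd [i, j] f (x + r • h))
      (∑ k, ∑ i, ∑ j, h k * h i * h j * pd [k, i, j] f (x + r • h)) r := by
  have h1 : HasDerivAt (fun r : ℝ => ∑ i, ∑ j, h i * h j * pd [i, j] f (x + r • h))
      (∑ i, ∑ j, h i * h j * ∑ k, h k * pd [k, i, j] f (x + r • h)) r :=
    HasDerivAt.fun_sum fun i _ => HasDerivAt.fun_sum fun j _ =>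
      (hasDerivAt_line hf [i, j] x h r).const_mul (h i * h j)
  refine h1.congr_deriv ?_
  have h2 : ∀ i j : Fin d, h i * h j * ∑ k, h k * pd [k, i, j] f (x + r • h) =
      ∑ k, h k * h i * h j * pd [k, i, j] f (x + r • h) := by
    intro i j
    rw [Finset.mul_sum]
    exact Finset.sum_congr rfl fun k _ => by ring
  simp only [h2]
  have h3 : ∀ i : Fin d, ∑ j, ∑ k, h k * h i * h j * pd [k, i, j] f (x + r • h) =
      ∑ k, ∑ j, h k * h i * h j * pd [k, i, j] f (x + r • h) := fun i => Finset.sum_comm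
  simp only [h3]
  exact Finset.sum_comm

theorem taylor2 {f : (Fin d → ℝ) → ℝ} (hf : ContDiff ℝ ∞ f) (B : ℝ)
    (hB : ∀ i j x, |pd [i, j] f x| ≤ B) (x h : Fin d → ℝ) :
    |f (x + h) - f x - ∑ j, h j * pd [j] f x| ≤ B * (∑ j, |h j|) ^ 2 := by
  set G1 : ℝ → ℝ := fun r => ∑ j, h j * pd [j] f (x + r • h) with hG1
  set G2 : ℝ → ℝ := fun r => ∑ i, ∑ j, h i * h j * pd [i, j] f (x + r • h) with hG2
  have d0 : ∀ r, HasDerivAt (fun r : ℝ => f (x + r • h) - f x - r * G1 0) (G1 r - G1 0) r := by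
    intro r
    have h1 := hasDerivAt_line hf [] x h r
    have h2 : HasDerivAt (fun r : ℝ => f (x + r • h) - f x - r * G1 0)
        (G1 r - 1 * G1 0) r :=
      (h1.sub_const (f x)).sub ((hasDerivAt_id r).mul_const (G1 0))
    rwa [one_mul] at h2
  have d1 : ∀ r, HasDerivAt (fun r : ℝ => G1 r - G1 0) (G2 r) r := fun r =>
    (line1 hf x h r).sub_const _
  have b2 : ∀ r ∈ Set.Icc (0 : ℝ) 1, |G2 r| ≤ B * (∑ j, |h j|) ^ 2 := fun r _ =>
    sum2_le (fun i j => hB i j _) h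
  have b1 := mvt01 d1 (by simp) b2
  have b0 := mvt01 d0 (by simp) b1 1 ⟨zero_le_one, le_rfl⟩
  simpa [hG1] using b0

theorem taylor3 {f : (Fin d → ℝ) → ℝ} (hf : ContDiff ℝ ∞ f) (B : ℝ)
    (hB : ∀ i j k x, |pd [i, j, k] f x| ≤ B) (x h : Fin d → ℝ) :
    |f (x + h) - f x - (∑ j, h j * pd [j] f x)
        - 1 / 2 * ∑ i, ∑ j, h i * h j * pd [i, j] f x| ≤ B * (∑ j, |h j|) ^ 3 := by
  set G1 : ℝ → ℝ := fun r => ∑ j, h j * pd [j] f (x + r • h) with hG1
  set G2 : ℝ → ℝ := fun r => ∑ i, ∑ j, h i * h j * pd [i, j] f (x + r • h) with hG2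
  set G3 : ℝ → ℝ := fun r => ∑ k, ∑ i, ∑ j, h k * h i * h j * pd [k, i, j] f (x + r • h) with hG3
  have d0 : ∀ r, HasDerivAt (fun r : ℝ => f (x + r • h) - f x - r * G1 0 - 1 / 2 * r ^ 2 * G2 0)
      (G1 r - G1 0 - r * G2 0) r := by
    intro r
    have h1 := hasDerivAt_line hf [] x h r
    have h3 : HasDerivAt (fun r : ℝ => 1 / 2 * r ^ 2 * G2 0) (r * G2 0) r := by
      have := (((hasDerivAt_id r).pow 2).const_mul (1 / 2 : ℝ)).mul_const (G2 0)
      refine (this.congr_deriv ?_)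
      simp
    have h2 : HasDerivAt (fun r : ℝ => f (x + r • h) - f x - r * G1 0 - 1 / 2 * r ^ 2 * G2 0)
        (G1 r - 1 * G1 0 - r * G2 0) r :=
      ((h1.sub_const (f x)).sub ((hasDerivAt_id r).mul_const (G1 0))).sub h3
    rwa [one_mul] at h2
  have d1 : ∀ r, HasDerivAt (fun r : ℝ => G1 r - G1 0 - r * G2 0) (G2 r - G2 0) r := by
    intro r
    have h2 : HasDerivAt (fun r : ℝ => G1 r - G1 0 - r * G2 0) (G2 r - 1 * G2 0) r :=
      ((line1 hf x h r).sub_const (G1 0)).sub ((hasDerivAt_id r).mul_const (G2 0))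
    rwa [one_mul] at h2
  have d2 : ∀ r, HasDerivAt (fun r : ℝ => G2 r - G2 0) (G3 r) r := fun r =>
    (line2 hf x h r).sub_const _
  have b3 : ∀ r ∈ Set.Icc (0 : ℝ) 1, |G3 r| ≤ B * (∑ j, |h j|) ^ 3 := fun r _ =>
    sum3_le (fun i j k => hB i j k _) h
  have b2 := mvt01 d2 (by simp) b3
  have b1 := mvt01 d1 (by simp) b2
  have b0 := mvt01 d0 (by simp) b1 1 ⟨zero_le_one, le_rfl⟩
  simpa [hG1, hG2] using b0

end Pool.Agent.QPE
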