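import Pool.Agent.QPE.ULT
import Pool.Agent.QPE.LOB
import Pool.Agent.QPE.ITP

/-!
MODULE TDR (the time derivative of every spatial derivative).
Proof.  Fix `α`, `S = Icc 0 T`, `f t t1 = fun x => u t1 α x - u t α x - (t1 - t) * Aop D (u t) α x` (smooth in `x`: `loc_contDiff`, `Aop_loc`).
(a) `|f t t1 x| ≤ C |t1-t|^2` for all `t, t1 ∈ S`: `cons` if `t ≤ t1`; if `t1 < t` exchange the roles and use
`loc_lip` for `Aop_loc` with `lip` (finitely many lists of length `≤ 2`).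
(b) `|pd I (f t t1) x| ≤ C_I |t1 - t|`: `pd_sub`, `pd_const_mul`, `lip` and `loc_bound` for the functional `pd I (Aop ..)` (`loc_pd`, `Aop_loc`, `bd`).
(c) `interp_all` gives `|pd I (f t t1) x| ≤ ε |t1 - t|` for `|t1 - t| < η`.
(d) `hasDerivWithinAt_iff_isLittleO` (or `hasDerivAtFilter_iff_isLittleO`, `Asymptotics.isLittleO_iff`), `pd_sub`, `pd_const_mul`.
-/

namespace Pool.Agent.QPE

open scoped ContDiff BigOperators

variable {d K m : ℕ}

private theorem tdr_lip2 (D : Dat d K m) (u0 : Sys d K) (T δ : ℝ) (u : ℝ → Sys d K)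
    (h : Lim D u0 T δ u) :
    ∃ L : ℝ, 0 ≤ L ∧ ∀ I : List (Fin d), I.length ≤ 2 → ∀ t ∈ Set.Icc 0 T, ∀ t1 ∈ Set.Icc 0 T,
      ∀ α x, |pd I (u t1 α) x - pd I (u t α) x| ≤ L * |t1 - t| := by
  choose C hC using h.lip
  have hs1 : ∀ i, |C [i]| ≤ ∑ i, |C [i]| := fun i =>
    Finset.single_le_sum (f := fun i => |C [i]|) (fun _ _ => abs_nonneg _) (Finset.mem_univ i)
  have hs2 : ∀ i j, |C [i, j]| ≤ ∑ i, ∑ j, |C [i, j]| := fun i j =>
    (Finset.single_le_sum (f := fun j => |C [i, j]|) (fun _ _ => abs_nonneg _)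
      (Finset.mem_univ j)).trans
    (Finset.single_le_sum (f := fun i => ∑ j, |C [i, j]|)
      (fun _ _ => Finset.sum_nonneg fun _ _ => abs_nonneg _) (Finset.mem_univ i))
  have h1 : 0 ≤ ∑ i, |C [i]| := Finset.sum_nonneg fun _ _ => abs_nonneg _
  have h2 : 0 ≤ ∑ i, ∑ j, |C [i, j]| :=
    Finset.sum_nonneg fun _ _ => Finset.sum_nonneg fun _ _ => abs_nonneg _
  have h0 : 0 ≤ |C []| := abs_nonneg _
  refine ⟨|C []| + ∑ i, |C [i]| + ∑ i, ∑ j, |C [i, j]|, by positivity, ?_⟩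
  intro I hI t ht t1 ht1 α x
  have hb := hC I t ht t1 ht1 α x
  refine hb.trans (mul_le_mul_of_nonneg_right ?_ (abs_nonneg _))
  refine (le_abs_self _).trans ?_
  match I, hI with
  | [], _ => linarith
  | [i], _ => have := hs1 i; linarith
  | [i, j], _ => have := hs2 i j; linarith
  | _ :: _ :: _ :: _, hI => exact absurd hI (by simp)

theorem time_deriv (D : Dat d K m) (u0 : Sys d K) (T δ : ℝ) (hT : 0 < T) (u : ℝ → Sys d K)
    (h : Lim D u0 T δ u) :
    ∀ t ∈ Set.Icc 0 T, ∀ (I : List (Fin d)) α x,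
      HasDerivWithinAt (fun r => pd I (u r α) x) (pd I (Aop D (u t) α) x) (Set.Icc 0 T) t := by
  intro t0 ht0 I α x0
  have hA := Aop_loc D α (K := K)
  set S : Set ℝ := Set.Icc 0 T with hS
  let f : ℝ → ℝ → (Fin d → ℝ) → ℝ := fun t t1 x =>
    (u t1 α x - u t α x) - (t1 - t) * Aop D (u t) α x
  have hsm : ∀ t ∈ S, ContDiff ℝ ∞ (fun x => Aop D (u t) α x) := fun t ht =>
    loc_contDiff hA (h.smooth t ht)
  have hsub : ∀ t ∈ S, ∀ t1 ∈ S, ContDiff ℝ ∞ (fun x => u t1 α x - u t α x) :=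
    fun t ht t1 ht1 => (h.smooth t1 ht1 α).sub (h.smooth t ht α)
  have hmul : ∀ t ∈ S, ∀ t1 ∈ S, ContDiff ℝ ∞ (fun x => (t1 - t) * Aop D (u t) α x) :=
    fun t ht t1 _ => contDiff_const.mul (hsm t ht)
  have hf : ∀ t ∈ S, ∀ t1 ∈ S, ContDiff ℝ ∞ (f t t1) := fun t ht t1 ht1 =>
    (hsub t ht t1 ht1).sub (hmul t ht t1 ht1)
  have hpd : ∀ J : List (Fin d), ∀ t ∈ S, ∀ t1 ∈ S, ∀ x,
      pd J (f t t1) x = pd J (u t1 α) x - pd J (u t α) x
        - (t1 - t) * pd J (Aop D (u t) α) x := by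
    intro J t ht t1 ht1 x
    have e1 : pd J (f t t1) x = pd J (fun x => u t1 α x - u t α x) x
        - pd J (fun x => (t1 - t) * Aop D (u t) α x) x :=
      pd_sub (hsub t ht t1 ht1) (hmul t ht t1 ht1) J x
    rw [e1, pd_sub (h.smooth t1 ht1 α) (h.smooth t ht α) J x, pd_const_mul (hsm t ht) (t1 - t) J x]
  -- quadratic bound
  obtain ⟨L, hL0, hL⟩ := tdr_lip2 D u0 T δ u h
  obtain ⟨C, hC⟩ := h.cons
  obtain ⟨A2, hA2⟩ := h.bd 2
  obtain ⟨C2, hC20, hC2⟩ := loc_lip hA A2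
  have h0 : ∀ t ∈ S, ∀ t1 ∈ S, ∀ x, |f t t1 x| ≤ (|C| + C2 * L) * |t1 - t| ^ 2 := by
    intro t ht t1 ht1 x
    have hsq : 0 ≤ |t1 - t| ^ 2 := by positivity
    have hCL : 0 ≤ C2 * L := mul_nonneg hC20 hL0
    rcases le_total t t1 with hle | hle
    · have hb := hC t ht t1 ht1 hle α x
      have e : f t t1 x = u t1 α x - u t α x - (t1 - t) * Aop D (u t) α x := rfl
      rw [e]
      refine hb.trans ?_
      rw [← sq_abs (t1 - t)]
      have := mul_le_mul_of_nonneg_right (le_abs_self C) hsq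
      nlinarith [mul_nonneg hCL hsq]
    · have hb := hC t1 ht1 t ht hle α x
      have hb2 : |Aop D (u t) α x - Aop D (u t1) α x| ≤ C2 * (L * |t1 - t|) := by
        refine hC2 (u t) (u t1) (hA2 t ht) (hA2 t1 ht1) (L * |t1 - t|) (by positivity) x ?_
        intro J hJ β
        have := hL J hJ t1 ht1 t ht β x
        rwa [abs_sub_comm t t1] at this
      have e : f t t1 x = -(u t α x - u t1 α x - (t - t1) * Aop D (u t1) α x)
          + (t - t1) * (Aop D (u t) α x - Aop D (u t1) α x) := by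
        change (u t1 α x - u t α x) - (t1 - t) * Aop D (u t) α x = _
        ring
      rw [e]
      refine (abs_add_le _ _).trans ?_
      rw [abs_neg, abs_mul, abs_sub_comm t t1]
      have hq : (t - t1) ^ 2 = |t1 - t| ^ 2 := by rw [sq_abs]; ring
      rw [hq] at hb
      have h3 := mul_le_mul_of_nonneg_right (le_abs_self C) hsq
      have h4 := mul_le_mul_of_nonneg_left hb2 (abs_nonneg (t1 - t))
      nlinarith
  have h1 : ∀ J : List (Fin d), ∃ C : ℝ, ∀ t ∈ S, ∀ t1 ∈ S, ∀ x,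
      |pd J (f t t1) x| ≤ C * |t1 - t| := by
    intro J
    obtain ⟨CJ, hCJ⟩ := h.lip J
    obtain ⟨Θ, hΘ, hΘe⟩ := loc_pd hA J
    obtain ⟨AJ, hAJ⟩ := h.bd (2 + J.length)
    obtain ⟨B, hB0, hB⟩ := loc_bound hΘ AJ
    refine ⟨CJ + B, fun t ht t1 ht1 x => ?_⟩
    rw [hpd J t ht t1 ht1 x]
    have e1 := hCJ t ht t1 ht1 α x
    have e2 : |pd J (Aop D (u t) α) x| ≤ B := by
      have := hΘe (u t) (h.smooth t ht) x
      have h5 : pd J (Aop D (u t) α) x = Θ (u t) x := this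
      rw [h5]
      exact hB (u t) (hAJ t ht) x
    have e3 := abs_sub (pd J (u t1 α) x - pd J (u t α) x) ((t1 - t) * pd J (Aop D (u t) α) x)
    rw [abs_mul] at e3
    have e4 := mul_le_mul_of_nonneg_left e2 (abs_nonneg (t1 - t))
    nlinarith
  rw [hasDerivWithinAt_iff_isLittleO, Asymptotics.isLittleO_iff]
  intro c hc
  obtain ⟨η, hη, hint⟩ := interp_all S f hf _ h0 h1 I c hc
  have hmem : {r | |r - t0| < η} ∈ nhds t0 := by
    have := Metric.ball_mem_nhds t0 hη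
    refine Filter.mem_of_superset this fun r hr => ?_
    rw [Metric.mem_ball, Real.dist_eq] at hr
    exact hr
  filter_upwards [self_mem_nhdsWithin, mem_nhdsWithin_of_mem_nhds hmem] with r hr hr2
  have h6 := hint t0 ht0 r hr hr2 x0
  rw [hpd I t0 ht0 r hr x0] at h6
  rw [Real.norm_eq_abs, Real.norm_eq_abs, smul_eq_mul]
  exact h6

end Pool.Agent.QPE
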