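import Pool.Agent.QPE.APX
import Pool.Agent.QPE.CDF
import Pool.Agent.QPE.TAZ

/-!
MODULE ULT (the limit along an ultrafilter).
Proof.  Let `𝒰 = hyperfilter ℕ` (`𝒰 ≤ atTop`).  For `t ∈ [0,T]` and each `I, α, x` the sequence `pd I (w j t α) x` is eventually
in `[-A, A]` (`bd`), so it converges along `𝒰` (`isCompact_Icc.ultrafilter_le_nhds` for the mapped ultrafilter); let
`v I t α x` be the limit (choice).  Uniform inequalities with eventual validity pass to the limit
(`le_of_tendsto_of_tendsto` or `ge_of_tendsto`):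
* Taylor: `taylor2` for `f = pd I (w j t α)` (bounds of `pd (i :: j :: I)`): so `family_contDiff` applies to `I ↦ v I t α`, hence
  `u t α := v [] t α` is smooth and `pd I (u t α) = v I t α`; for `t ∉ [0,T]` put `u t := u0`.
* init: constant sequence.  close, bd, lip: closed conditions (`ε j → 0`).
* cons: with `loc_cont` for `Aop_loc` (convergence of the finitely many derivatives at `x`).
-/

namespace Pool.Agent.QPE

open scoped ContDiff BigOperators

variable {d K m : ℕ}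

/-- the properties of the limit -/
structure Lim (D : Dat d K m) (u0 : Sys d K) (T δ : ℝ) (u : ℝ → Sys d K) : Prop where
  smooth : ∀ t ∈ Set.Icc 0 T, Smooth (u t)
  init : u 0 = u0
  close : ∀ t ∈ Set.Icc 0 T, ∀ α x, |u t α x - u0 α x| ≤ δ
  bd : ∀ k, ∃ A : ℝ, ∀ t ∈ Set.Icc 0 T, Bd k A (u t)
  lip : ∀ I : List (Fin d), ∃ C : ℝ, ∀ t ∈ Set.Icc 0 T, ∀ t1 ∈ Set.Icc 0 T,
    ∀ α x, |pd I (u t1 α) x - pd I (u t α) x| ≤ C * |t1 - t|
  cons : ∃ C : ℝ, ∀ t ∈ Set.Icc 0 T, ∀ t1 ∈ Set.Icc 0 T, t ≤ t1 →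
    ∀ α x, |u t1 α x - u t α x - (t1 - t) * Aop D (u t) α x| ≤ C * (t1 - t) ^ 2

private theorem ult_ev {p : ℕ → Prop} (j0 : ℕ) (h : ∀ j ≥ j0, p j) :
    ∀ᶠ j in (Filter.hyperfilter ℕ : Filter ℕ), p j :=
  Nat.hyperfilter_le_atTop ((Filter.eventually_ge_atTop j0).mono h)

private theorem ult_conv (f : ℕ → ℝ) (A : ℝ) (j0 : ℕ) (h : ∀ j ≥ j0, |f j| ≤ A) :
    ∃ v, Filter.Tendsto f (Filter.hyperfilter ℕ : Filter ℕ) (nhds v) := by
  obtain ⟨v, -, hv⟩ := (isCompact_Icc (a := -A) (b := A)).ultrafilter_le_nhds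
    ((Filter.hyperfilter ℕ).map f) (by
      rw [Filter.le_principal_iff, Ultrafilter.coe_map]
      exact ult_ev j0 fun j hj => abs_le.1 (h j hj))
  exact ⟨v, hv⟩

theorem lim_exists (D : Dat d K m) (u0 : Sys d K) (T δ : ℝ) (hT : 0 < T)
    (w : ℕ → ℝ → Sys d K) (ε : ℕ → ℝ) (h : Approx D u0 T δ w ε) :
    ∃ u : ℝ → Sys d K, Lim D u0 T δ u := by
  have hex : ∀ (t : ℝ) (I : List (Fin d)) (α : Fin K) (x : Fin d → ℝ), ∃ v : ℝ,
      t ∈ Set.Icc 0 T → Filter.Tendsto (fun j => pd I (w j t α) x)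
        (Filter.hyperfilter ℕ : Filter ℕ) (nhds v) := by
    intro t I α x
    by_cases ht : t ∈ Set.Icc 0 T
    · obtain ⟨A, j0, hA⟩ := h.bd I.length
      obtain ⟨v, hv⟩ := ult_conv (fun j => pd I (w j t α) x) A j0
        (fun j hj => hA j hj t ht I le_rfl α x)
      exact ⟨v, fun _ => hv⟩
    · exact ⟨0, fun h' => absurd h' ht⟩
  choose v hv using hex
  have hfam : ∀ t ∈ Set.Icc 0 T, ∀ α, ContDiff ℝ ∞ (v t [] α) ∧ ∀ I, pd I (v t [] α) = v t I α := by
    intro t ht α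
    refine family_contDiff (fun I => v t I α) fun I => ?_
    obtain ⟨A, j0, hA⟩ := h.bd (I.length + 2)
    refine ⟨A, fun x y => ?_⟩
    have h1 : Filter.Tendsto (fun j => |pd I (w j t α) (x + y) - pd I (w j t α) x -
        ∑ i, y i * pd (i :: I) (w j t α) x|) (Filter.hyperfilter ℕ : Filter ℕ)
        (nhds |v t I α (x + y) - v t I α x - ∑ i, y i * v t (i :: I) α x|) := by
      refine Filter.Tendsto.abs (((hv t I α (x + y) ht).sub (hv t I α x ht)).sub ?_)
      exact tendsto_finsetSum _ fun i _ => (hv t (i :: I) α x ht).const_mul _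
    refine le_of_tendsto h1 (ult_ev j0 fun j hj => ?_)
    exact taylor2 (pd_contDiff (h.smooth j t ht α) I) A
      (fun i i' z => hA j hj t ht (i :: i' :: I) (by simp) α z) x y
  have hpd : ∀ t ∈ Set.Icc 0 T, ∀ α I, pd I (v t [] α) = v t I α := fun t ht α => (hfam t ht α).2
  have hlim : ∀ t ∈ Set.Icc 0 T, ∀ (I : List (Fin d)) α x,
      Filter.Tendsto (fun j => pd I (w j t α) x) (Filter.hyperfilter ℕ : Filter ℕ)
        (nhds (pd I (v t [] α) x)) := by
    intro t ht I α x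
    rw [hpd t ht α I]
    exact hv t I α x ht
  have heps : Filter.Tendsto ε (Filter.hyperfilter ℕ : Filter ℕ) (nhds 0) :=
    h.eps.mono_left Nat.hyperfilter_le_atTop
  refine ⟨fun t α => v t [] α, ⟨fun t ht α => (hfam t ht α).1, ?_, ?_, ?_, ?_, ?_⟩⟩
  · funext α x
    have h0 : (0 : ℝ) ∈ Set.Icc 0 T := ⟨le_rfl, hT.le⟩
    have h1 := hv 0 [] α x h0
    have h2 : (fun j => pd [] (w j 0 α) x) = fun _ => u0 α x := by
      funext j
      rw [h.init j]
      rfl
    rw [h2] at h1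
    exact tendsto_nhds_unique h1 tendsto_const_nhds
  · intro t ht α x
    refine le_of_tendsto ((hv t [] α x ht).sub_const (u0 α x)).abs
      (Filter.Eventually.of_forall fun j => ?_)
    exact h.close j t ht α x
  · intro k
    obtain ⟨A, j0, hA⟩ := h.bd k
    refine ⟨A, fun t ht I hI α x => ?_⟩
    exact le_of_tendsto (hlim t ht I α x).abs (ult_ev j0 fun j hj => hA j hj t ht I hI α x)
  · intro I
    obtain ⟨C, j0, hC⟩ := h.lip I
    refine ⟨C, fun t ht t1 ht1 α x => ?_⟩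
    have h1 : Filter.Tendsto (fun j => C * (|t1 - t| + ε j)) (Filter.hyperfilter ℕ : Filter ℕ)
        (nhds (C * (|t1 - t| + 0))) := (heps.const_add _).const_mul _
    rw [add_zero] at h1
    exact le_of_tendsto_of_tendsto ((hlim t1 ht1 I α x).sub (hlim t ht I α x)).abs h1
      (ult_ev j0 fun j hj => hC j hj t ht t1 ht1 α x)
  · obtain ⟨C, j0, hC⟩ := h.cons
    refine ⟨C, fun t ht t1 ht1 htt α x => ?_⟩
    have h1 : Filter.Tendsto (fun j => C * ((t1 - t) ^ 2 + ε j))
        (Filter.hyperfilter ℕ : Filter ℕ) (nhds (C * ((t1 - t) ^ 2 + 0))) :=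
      (heps.const_add _).const_mul _
    rw [add_zero] at h1
    have h2 : Filter.Tendsto (fun j => Aop D (w j t) α x) (Filter.hyperfilter ℕ : Filter ℕ)
        (nhds (Aop D (fun α => v t [] α) α x)) :=
      loc_cont (Aop_loc D α) _ (fun j => w j t) (fun α => v t [] α) x
        (fun I _ β => hlim t ht I β x)
    have h3 := hlim t1 ht1 [] α x
    have h4 := hlim t ht [] α x
    exact le_of_tendsto_of_tendsto ((h3.sub h4).sub (h2.const_mul (t1 - t))).abs h1
      (ult_ev j0 fun j hj => hC j hj t ht t1 ht1 htt α x)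

end Pool.Agent.QPE
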