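import Pool.Agent.QPE.FIN
import Pool.Agent.QPE.OFE

/-!
MODULE WRA (from euclidean spaces to coordinates: the data).
`eN = EuclideanSpace.equiv`.  `toSys w α x = (w (eN.symm x)) α`, `ofSys u x = eK.symm (u · (eN x))`.
Proofs.  Compositions of smooth functions with continuous linear equivalences.  `toDat`: the sup norm is at most the euclidean norm
(`R < ‖x‖` implies `R ≤ ‖eN.symm x‖`, e.g. `PiLp.norm_apply_le`).
-/

namespace Pool.Agent.QPE

open scoped ContDiff BigOperators

variable {N K m : ℕ}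

abbrev EN (N : ℕ) := EuclideanSpace ℝ (Fin N)

noncomputable abbrev eN (N : ℕ) : EN N ≃L[ℝ] (Fin N → ℝ) := EuclideanSpace.equiv (Fin N) ℝ

noncomputable def toSys (w : EN N → EN K) : Sys N K := fun α x => eN K (w ((eN N).symm x)) α

noncomputable def ofSys (u : Sys N K) : EN N → EN K := fun x => (eN K).symm (fun α => u α (eN N x))

/-- data in euclidean spaces -/
structure EDat (N K m : ℕ) where
  sigma : Fin m → EN N → EN K → EN N
  beta : EN N → EN K → EN N
  Q : EN N → EN K → (Fin m → EN K) → EN K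
  R : ℝ
  sigma_smooth : ∀ c, ContDiff ℝ ∞ (fun z : EN N × EN K => sigma c z.1 z.2)
  beta_smooth : ContDiff ℝ ∞ (fun z : EN N × EN K => beta z.1 z.2)
  Q_smooth : ContDiff ℝ ∞ (fun z : EN N × EN K × (Fin m → EN K) => Q z.1 z.2.1 z.2.2)
  sigma_supp : ∀ c x v, R ≤ ‖x‖ → sigma c x v = 0
  beta_supp : ∀ x v, R ≤ ‖x‖ → beta x v = 0
  Q_supp : ∀ x v p, R ≤ ‖x‖ → Q x v p = 0

/-- the right side of the equation -/
noncomputable def EDat.rhs (D : EDat N K m) (w : EN N → EN K) (x : EN N) : EN K :=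
  (∑ c, fderiv ℝ (fun y => fderiv ℝ w y) x (D.sigma c x (w x)) (D.sigma c x (w x)))
  + fderiv ℝ w x (D.beta x (w x))
  + D.Q x (w x) (fun c => fderiv ℝ w x (D.sigma c x (w x)))

private theorem WRA_norm (x : Fin N → ℝ) : ‖x‖ ≤ ‖(eN N).symm x‖ := by
  rw [pi_norm_le_iff_of_nonneg (norm_nonneg _)]
  intro i
  have := PiLp.norm_apply_le ((eN N).symm x) i
  simpa using this

private theorem WRA_pair : ContDiff ℝ ∞
    (fun p : (Fin N → ℝ) × (Fin K → ℝ) => ((eN N).symm p.1, (eN K).symm p.2)) :=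
  ((eN N).symm.contDiff.comp contDiff_fst).prodMk ((eN K).symm.contDiff.comp contDiff_snd)

private theorem WRA_triple : ContDiff ℝ ∞
    (fun p : (Fin N → ℝ) × (Fin K → ℝ) × (Fin m → Fin K → ℝ) =>
      ((eN N).symm p.1, (eN K).symm p.2.1, fun c => (eN K).symm (p.2.2 c))) := by
  refine ((eN N).symm.contDiff.comp contDiff_fst).prodMk (ContDiff.prodMk
    ((eN K).symm.contDiff.comp (contDiff_fst.comp contDiff_snd)) ?_)
  rw [contDiff_pi]
  intro c
  refine (eN K).symm.contDiff.comp ?_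
  exact (contDiff_apply ℝ (Fin K → ℝ) c).comp (contDiff_snd.comp contDiff_snd)

theorem exists_toDat (D : EDat N K m) : ∃ D' : Dat N K m, D'.R = D.R ∧
    (∀ c j x v, D'.sg c j (x, v) = eN N (D.sigma c ((eN N).symm x) ((eN K).symm v)) j) ∧
    (∀ j x v, D'.b j (x, v) = eN N (D.beta ((eN N).symm x) ((eN K).symm v)) j) ∧
    (∀ α x v p, D'.Q α (x, v, p)
      = eN K (D.Q ((eN N).symm x) ((eN K).symm v) (fun c => (eN K).symm (p c))) α) := by
  refine ⟨{
    sg := fun c j z => eN N (D.sigma c ((eN N).symm z.1) ((eN K).symm z.2)) j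
    b := fun j z => eN N (D.beta ((eN N).symm z.1) ((eN K).symm z.2)) j
    Q := fun α z => eN K (D.Q ((eN N).symm z.1) ((eN K).symm z.2.1)
      (fun c => (eN K).symm (z.2.2 c))) α
    R := D.R
    sg_smooth := ?_
    b_smooth := ?_
    Q_smooth := ?_
    sg_supp := ?_
    b_supp := ?_
    Q_supp := ?_ }, rfl, fun _ _ _ _ => rfl, fun _ _ _ => rfl, fun _ _ _ _ => rfl⟩
  · intro c j
    exact contDiff_pi.mp ((eN N).contDiff.comp ((D.sigma_smooth c).comp WRA_pair)) j
  · intro j
    exact contDiff_pi.mp ((eN N).contDiff.comp (D.beta_smooth.comp WRA_pair)) j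
  · intro α
    exact contDiff_pi.mp ((eN K).contDiff.comp (D.Q_smooth.comp WRA_triple)) α
  · intro c j x v hx
    rw [D.sigma_supp c _ _ (hx.le.trans (WRA_norm x))]
    simp
  · intro j x v hx
    rw [D.beta_supp _ _ (hx.le.trans (WRA_norm x))]
    simp
  · intro α x v p hx
    show eN K (D.Q ((eN N).symm x) ((eN K).symm v) (fun c => (eN K).symm (p c))) α = 0
    rw [D.Q_supp _ _ _ (hx.le.trans (WRA_norm x))]
    simp

theorem toSys_smooth {w : EN N → EN K} (hw : ContDiff ℝ ∞ w) : Smooth (toSys w) := by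
  intro α
  exact contDiff_pi.mp ((eN K).contDiff.comp (hw.comp (eN N).symm.contDiff)) α

theorem ofSys_smooth {u : Sys N K} (hu : Smooth u) : ContDiff ℝ ∞ (ofSys u) := by
  refine (eN K).symm.contDiff.comp ?_
  rw [contDiff_pi]
  intro α
  exact (hu α).comp (eN N).contDiff

theorem toSys_ofSys (u : Sys N K) : toSys (ofSys u) = u := by
  funext α x
  show u α ((eN N) ((eN N).symm x)) = u α x
  rw [ContinuousLinearEquiv.apply_symm_apply]

theorem ofSys_toSys (w : EN N → EN K) : ofSys (toSys w) = w := by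
  funext x
  simp [toSys, ofSys]

end Pool.Agent.QPE
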