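import Pool.Agent.QPE.WRA

/-!
MODULE WRB (bounds of derivatives in both languages).
`pd_iter`: `pd I f x = iteratedFDeriv ℝ |I| f x (fun n => Pi.single (I.get n) 1)` for smooth `f : (Fin N → ℝ) → ℝ`: induction on `I` with
`iteratedFDeriv_succ_apply_left` (`fderiv` of `y ↦ iteratedFDeriv ℝ k f y m` is `iteratedFDeriv` applied).
`bd_of_iter`: `|pd I (toSys w α) x| ≤ ‖iteratedFDeriv ℝ k (toSys w α) x‖ Π ‖e_i‖`, and `toSys w α = proj ∘ w ∘ eN.symm`:
`ContinuousLinearMap.iteratedFDeriv_comp_left`, `ContinuousLinearEquiv` version `iteratedFDeriv_comp_right`, norms bounded.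
`iter_of_bd`: conversely `w = ofSys u = eK.symm ∘ (u ∘ eN)`; a multilinear map on `(Fin N → ℝ)^k` is bounded by the sum of its values on basis
vectors: `‖iteratedFDeriv ℝ k f x‖ ≤ Σ_I |pd I f x|` (`ContinuousMultilinearMap.opNorm_le_bound`, `MultilinearMap.map_sum`,
`|h_j| ≤ ‖h‖` for the sup norm).
-/

namespace Pool.Agent.QPE

open scoped ContDiff BigOperators

variable {N K m : ℕ}

theorem pd_iter {f : (Fin N → ℝ) → ℝ} (hf : ContDiff ℝ ∞ f) (I : List (Fin N)) (x : Fin N → ℝ) :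
    pd I f x = iteratedFDeriv ℝ I.length f x (fun n => Pi.single (I.get n) 1) := by
  induction I generalizing x with
  | nil => simp [pd]
  | cons i I ih =>
    have hfun : pd I f = fun y => iteratedFDeriv ℝ I.length f y
        (fun n => Pi.single (I.get n) 1) := funext ih
    have hd : DifferentiableAt ℝ (iteratedFDeriv ℝ I.length f) x :=
      (hf.differentiable_iteratedFDeriv (by exact_mod_cast WithTop.coe_lt_top _)) x
    show fderiv ℝ (pd I f) x (Pi.single i 1) = iteratedFDeriv ℝ (I.length + 1) f x _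
    rw [hfun, fderiv_continuousMultilinear_apply_const_apply hd,
      iteratedFDeriv_succ_apply_left]
    rfl

private theorem toSys_eq (w : EN N → EN K) (α : Fin K) :
    toSys w α = fun x => ((ContinuousLinearMap.proj α : (Fin K → ℝ) →L[ℝ] ℝ).comp
      (eN K : EN K →L[ℝ] (Fin K → ℝ))) ((w ∘ ((eN N).symm : (Fin N → ℝ) →L[ℝ] EN N)) x) := by
  funext x
  rfl

theorem bd_of_iter {w : EN N → EN K} (hw : ContDiff ℝ ∞ w)
    (hb : ∀ k : ℕ, ∃ C : ℝ, ∀ x, ‖iteratedFDeriv ℝ k w x‖ ≤ C) :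
    ∀ (I : List (Fin N)) α, ∃ C, ∀ x, |pd I (toSys w α) x| ≤ C := by
  intro I α
  obtain ⟨C, hC⟩ := hb I.length
  set L : EN K →L[ℝ] ℝ := (ContinuousLinearMap.proj α : (Fin K → ℝ) →L[ℝ] ℝ).comp
      (eN K : EN K →L[ℝ] (Fin K → ℝ)) with hL
  set g : (Fin N → ℝ) →L[ℝ] EN N := ((eN N).symm : (Fin N → ℝ) →L[ℝ] EN N) with hg
  refine ⟨‖L‖ * (C * ∏ n : Fin I.length, ‖g (Pi.single (I.get n) 1)‖), fun x => ?_⟩
  have hwg : ContDiff ℝ ∞ (w ∘ g) := hw.comp g.contDiff
  have hs : ContDiff ℝ ∞ (toSys w α) := by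
    rw [toSys_eq w α]
    exact L.contDiff.comp hwg
  have hle : ((I.length : ℕ) : WithTop ℕ∞) ≤ ∞ := by exact_mod_cast le_top
  rw [pd_iter hs I x, toSys_eq w α]
  have h1 : iteratedFDeriv ℝ I.length (fun x => L ((w ∘ g) x)) x
      = L.compContinuousMultilinearMap (iteratedFDeriv ℝ I.length (w ∘ g) x) :=
    L.iteratedFDeriv_comp_left hwg.contDiffAt hle
  have h2 : iteratedFDeriv ℝ I.length (w ∘ g) x
      = (iteratedFDeriv ℝ I.length w (g x)).compContinuousLinearMap fun _ => g :=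
    g.iteratedFDeriv_comp_right hw x hle
  have h3 : iteratedFDeriv ℝ I.length (fun x => L ((w ∘ g) x)) x
      (fun n => Pi.single (I.get n) 1)
      = L (iteratedFDeriv ℝ I.length w (g x) (fun n => g (Pi.single (I.get n) 1))) := by
    rw [h1, h2]
    rfl
  rw [h3, ← Real.norm_eq_abs]
  refine (L.le_opNorm _).trans (mul_le_mul_of_nonneg_left ?_ (norm_nonneg _))
  refine ((iteratedFDeriv ℝ I.length w (g x)).le_opNorm _).trans ?_
  exact mul_le_mul_of_nonneg_right (hC _) (Finset.prod_nonneg fun _ _ => norm_nonneg _)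

private theorem multi_bound {k : ℕ} {F : Type} [NormedAddCommGroup F] [NormedSpace ℝ F]
    (M : ContinuousMultilinearMap ℝ (fun _ : Fin k => (Fin N → ℝ)) F) (A : ℝ) (hA : 0 ≤ A)
    (h : ∀ r : Fin k → Fin N, ‖M (fun n => Pi.single (r n) 1)‖ ≤ A) :
    ‖M‖ ≤ (N : ℝ) ^ k * A := by
  refine ContinuousMultilinearMap.opNorm_le_bound (by positivity) fun m => ?_
  have hm : m = fun n => ∑ j, m n j • (Pi.single j 1 : Fin N → ℝ) := by
    funext n
    exact (pi_eq_sum_univ' (m n))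
  have hsum : M m = ∑ r : Fin k → Fin N, (∏ n, m n (r n)) • M (fun n => Pi.single (r n) 1) := by
    conv_lhs => rw [hm]
    rw [ContinuousMultilinearMap.map_sum]
    refine Finset.sum_congr rfl fun r _ => ?_
    rw [ContinuousMultilinearMap.map_smul_univ]
  rw [hsum]
  refine (norm_sum_le _ _).trans ?_
  have hterm : ∀ r ∈ (Finset.univ : Finset (Fin k → Fin N)),
      ‖(∏ n, m n (r n)) • M (fun n => Pi.single (r n) 1)‖ ≤ (∏ n, ‖m n‖) * A := by
    intro r _
    rw [norm_smul]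
    refine mul_le_mul ?_ (h r) (norm_nonneg _) (Finset.prod_nonneg fun _ _ => norm_nonneg _)
    rw [norm_prod]
    exact Finset.prod_le_prod (fun _ _ => norm_nonneg _) fun n _ => norm_le_pi_norm (m n) (r n)
  refine (Finset.sum_le_card_nsmul _ _ _ hterm).trans ?_
  rw [Finset.card_univ, Fintype.card_fun, Fintype.card_fin, Fintype.card_fin, nsmul_eq_mul]
  push_cast
  exact le_of_eq (by ring)

theorem iter_of_bd (k : ℕ) : ∃ C0 : ℝ, 0 ≤ C0 ∧ ∀ (u : Sys N K), Smooth u → ∀ A : ℝ, Bd k A u →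
    ∀ x, ‖iteratedFDeriv ℝ k (ofSys u) x‖ ≤ C0 * A := by
  rcases Nat.eq_zero_or_pos K with hK | hK
  · subst hK
    refine ⟨0, le_refl _, fun u _ A _ x => ?_⟩
    have h0 : iteratedFDeriv ℝ k (ofSys u) x = 0 := by
      refine ContinuousMultilinearMap.ext fun m => ?_
      exact Subsingleton.elim (α := EN 0) _ _
    rw [h0]
    simp
  set L : (Fin K → ℝ) →L[ℝ] EN K := ((eN K).symm : (Fin K → ℝ) →L[ℝ] EN K) with hL
  set g : EN N →L[ℝ] (Fin N → ℝ) := (eN N : EN N →L[ℝ] (Fin N → ℝ)) with hg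
  refine ⟨‖L‖ * ((N : ℝ) ^ k * ‖g‖ ^ k), by positivity, fun u hu A hA x => ?_⟩
  have hA0 : 0 ≤ A := (abs_nonneg _).trans (hA [] (Nat.zero_le _) ⟨0, hK⟩ (fun _ => 0))
  set U : (Fin N → ℝ) → (Fin K → ℝ) := fun y α => u α y with hU
  have hUs : ContDiff ℝ ∞ U := contDiff_pi.2 hu
  have hle : ((k : ℕ) : WithTop ℕ∞) ≤ ∞ := by exact_mod_cast le_top
  have h1 : iteratedFDeriv ℝ k (ofSys u) x
      = L.compContinuousMultilinearMap (iteratedFDeriv ℝ k (U ∘ g) x) :=
    L.iteratedFDeriv_comp_left (hUs.comp g.contDiff).contDiffAt hle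
  have h2 : iteratedFDeriv ℝ k (U ∘ g) x
      = (iteratedFDeriv ℝ k U (g x)).compContinuousLinearMap fun _ => g :=
    g.iteratedFDeriv_comp_right hUs x hle
  have h3 : ‖iteratedFDeriv ℝ k U (g x)‖ ≤ (N : ℝ) ^ k * A := by
    refine multi_bound _ A hA0 fun r => ?_
    rw [pi_norm_le_iff_of_nonneg hA0]
    intro α
    have h4 : iteratedFDeriv ℝ k (u α) (g x)
        = (ContinuousLinearMap.proj α : (Fin K → ℝ) →L[ℝ] ℝ).compContinuousMultilinearMap
          (iteratedFDeriv ℝ k U (g x)) :=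
      (ContinuousLinearMap.proj α : (Fin K → ℝ) →L[ℝ] ℝ).iteratedFDeriv_comp_left
        hUs.contDiffAt hle
    have h5 : (iteratedFDeriv ℝ k U (g x)) (fun n => Pi.single (r n) 1) α
        = iteratedFDeriv ℝ k (u α) (g x) (fun n => Pi.single (r n) 1) := by
      rw [h4]
      rfl
    rw [h5, Real.norm_eq_abs]
    have h6 : iteratedFDeriv ℝ k (u α) (g x) (fun n => Pi.single (r n) 1)
        = pd (List.ofFn r) (u α) (g x) := by
      rw [pd_iter (hu α)]
      have hlen : (List.ofFn r).length = k := List.length_ofFn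
      have hgen : ∀ (l : ℕ) (hl : l = k) (v : Fin l → (Fin N → ℝ))
          (hv : ∀ n : Fin l, v n = Pi.single (r (Fin.cast hl n)) 1),
          iteratedFDeriv ℝ k (u α) (g x) (fun n => Pi.single (r n) 1)
            = iteratedFDeriv ℝ l (u α) (g x) v := by
        intro l hl v hv
        subst hl
        congr 1
        funext n
        rw [hv n]
        rfl
      refine hgen _ hlen _ fun n => ?_
      simp
      rfl
    rw [h6]
    exact hA _ (by rw [List.length_ofFn]) α _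
  rw [h1]
  refine (ContinuousLinearMap.norm_compContinuousMultilinearMap_le _ _).trans ?_
  rw [mul_assoc]
  refine mul_le_mul_of_nonneg_left ?_ (norm_nonneg _)
  rw [h2]
  refine (ContinuousMultilinearMap.norm_compContinuousLinearMap_le _ _).trans ?_
  rw [Finset.prod_const, Finset.card_univ, Fintype.card_fin]
  calc ‖iteratedFDeriv ℝ k U (g x)‖ * ‖g‖ ^ k ≤ ((N : ℝ) ^ k * A) * ‖g‖ ^ k :=
        mul_le_mul_of_nonneg_right h3 (by positivity)
    _ = (N : ℝ) ^ k * ‖g‖ ^ k * A := by ring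

end Pool.Agent.QPE
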