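import Pool.Agent.QPE.WRA

/-!
MODULE WRF (the right side of the equation in both languages).
`pd [i] (toSys w α) (eN x) = (fderiv ℝ w x (eN.symm (Pi.single i 1))) α` (chain rule, `toSys w α = proj α ∘ eK ∘ w ∘ eN.symm`),
`pd [i, j] (toSys w α) (eN x) = (fderiv ℝ (fun y => fderiv ℝ w y) x e_i e_j) α`, and bilinearity: `v = Σ_i (eN v) i • eN.symm (Pi.single i 1)`.
`val (toSys w) (eN x) = eK (w x)`.
-/

namespace Pool.Agent.QPE

open scoped ContDiff BigOperators

variable {N K m : ℕ}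

private noncomputable abbrev wrfE (N : ℕ) (j : Fin N) : EN N := (eN N).symm (Pi.single j 1)

private noncomputable def wrfP (K : ℕ) (α : Fin K) : EN K →L[ℝ] ℝ :=
  (ContinuousLinearMap.proj (R := ℝ) (φ := fun _ : Fin K => ℝ) α).comp
    ((eN K : EN K ≃L[ℝ] (Fin K → ℝ)) : EN K →L[ℝ] (Fin K → ℝ))

private theorem wrfP_apply (α : Fin K) (v : EN K) : wrfP K α v = eN K v α := rfl

private theorem wrf_pdv {F : Type} [NormedAddCommGroup F] [NormedSpace ℝ F] (g : EN N → F)
    (P : F →L[ℝ] ℝ) (y : Fin N → ℝ) (hg : DifferentiableAt ℝ g ((eN N).symm y)) (j : Fin N) :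
    pdv j (fun z => P (g ((eN N).symm z))) y
      = P (fderiv ℝ g ((eN N).symm y) (wrfE N j)) := by
  have h1 : HasFDerivAt (fun z => (eN N).symm z)
      (((eN N).symm : (Fin N → ℝ) ≃L[ℝ] EN N) : (Fin N → ℝ) →L[ℝ] EN N) y :=
    (eN N).symm.hasFDerivAt
  have h2 := (P.hasFDerivAt (x := g ((eN N).symm y))).comp y (hg.hasFDerivAt.comp y h1)
  have h3 : fderiv ℝ (fun z => P (g ((eN N).symm z))) y = _ := h2.fderiv
  rw [pdv, h3]
  rfl

private theorem wrf_decomp (v : EN N) : v = ∑ i, (eN N v i) • wrfE N i := by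
  apply (eN N).injective
  rw [map_sum]
  funext k
  rw [Finset.sum_apply, Finset.sum_eq_single k]
  · rw [map_smul, Pi.smul_apply, wrfE, ContinuousLinearEquiv.apply_symm_apply,
      Pi.single_eq_same, smul_eq_mul, mul_one]
  · intro i _ hik
    rw [map_smul, Pi.smul_apply, wrfE, ContinuousLinearEquiv.apply_symm_apply,
      Pi.single_eq_of_ne hik.symm, smul_zero]
  · intro hk
    exact absurd (Finset.mem_univ k) hk

private theorem wrf_lin {F : Type} [NormedAddCommGroup F] [NormedSpace ℝ F] (A : EN N →L[ℝ] F)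
    (P : F →L[ℝ] ℝ) (v : EN N) : P (A v) = ∑ i, eN N v i * P (A (wrfE N i)) := by
  conv_lhs => rw [wrf_decomp v]
  rw [map_sum, map_sum]
  refine Finset.sum_congr rfl fun i _ => ?_
  rw [map_smul, map_smul, smul_eq_mul]

private theorem wrf_pd1 {w : EN N → EN K} (hw : ContDiff ℝ ∞ w) (β : Fin K) (j : Fin N)
    (y : Fin N → ℝ) :
    pdv j (toSys w β) y = wrfP K β (fderiv ℝ w ((eN N).symm y) (wrfE N j)) :=
  wrf_pdv w (wrfP K β) y ((hw.differentiable (by simp)) _) j

private theorem wrf_pd2 {w : EN N → EN K} (hw : ContDiff ℝ ∞ w) (β : Fin K) (i j : Fin N)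
    (y : Fin N → ℝ) :
    pdv i (pdv j (toSys w β)) y
      = wrfP K β (fderiv ℝ (fun y => fderiv ℝ w y) ((eN N).symm y) (wrfE N i) (wrfE N j)) := by
  have h1 : pdv j (toSys w β) = fun z => ((wrfP K β).comp
      (ContinuousLinearMap.apply ℝ (EN K) (wrfE N j))) ((fun y => fderiv ℝ w y) ((eN N).symm z)) := by
    funext z
    rw [wrf_pd1 hw β j z]
    rfl
  rw [h1]
  have hd : DifferentiableAt ℝ (fun y => fderiv ℝ w y) ((eN N).symm y) :=
    ((hw.fderiv_right (m := ∞) (by simp)).differentiable (by simp)) _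
  rw [wrf_pdv (fun y => fderiv ℝ w y) _ y hd i]
  rfl

theorem Aop_toSys (D : EDat N K m) (D' : Dat N K m)
    (h1 : ∀ c j x v, D'.sg c j (x, v) = eN N (D.sigma c ((eN N).symm x) ((eN K).symm v)) j)
    (h2 : ∀ j x v, D'.b j (x, v) = eN N (D.beta ((eN N).symm x) ((eN K).symm v)) j)
    (h3 : ∀ α x v p, D'.Q α (x, v, p)
      = eN K (D.Q ((eN N).symm x) ((eN K).symm v) (fun c => (eN K).symm (p c))) α)
    {w : EN N → EN K} (hw : ContDiff ℝ ∞ w) (α : Fin K) (x : EN N) :
    Aop D' (toSys w) α (eN N x) = eN K (D.rhs w x) α := by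
  have hx : (eN N).symm (eN N x) = x := ContinuousLinearEquiv.symm_apply_apply _ _
  have hv : val (toSys w) (eN N x) = eN K (w x) := by
    funext β
    change eN K (w ((eN N).symm (eN N x))) β = eN K (w x) β
    rw [hx]
  have hv2 : (eN K).symm (val (toSys w) (eN N x)) = w x := by
    rw [hv]
    exact ContinuousLinearEquiv.symm_apply_apply _ _
  have hs : ∀ c j, D'.sg c j (eN N x, val (toSys w) (eN N x))
      = eN N (D.sigma c x (w x)) j := by
    intro c j
    rw [h1, hx, hv2]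
  have hb : ∀ j, D'.b j (eN N x, val (toSys w) (eN N x)) = eN N (D.beta x (w x)) j := by
    intro j
    rw [h2, hx, hv2]
  have e1 : ∀ (j : Fin N) (β : Fin K), pd [j] (toSys w β) (eN N x)
      = wrfP K β (fderiv ℝ w x (wrfE N j)) := by
    intro j β
    have := wrf_pd1 hw β j (eN N x)
    rw [hx] at this
    exact this
  have e2 : ∀ (i j : Fin N) (β : Fin K), pd [i, j] (toSys w β) (eN N x)
      = wrfP K β (fderiv ℝ (fun y => fderiv ℝ w y) x (wrfE N i) (wrfE N j)) := by
    intro i j β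
    have := wrf_pd2 hw β i j (eN N x)
    rw [hx] at this
    exact this
  have t1 : ∀ c, (∑ i, ∑ j, D'.sg c i (eN N x, val (toSys w) (eN N x))
      * D'.sg c j (eN N x, val (toSys w) (eN N x)) * pd [i, j] (toSys w α) (eN N x))
      = eN K (fderiv ℝ (fun y => fderiv ℝ w y) x (D.sigma c x (w x)) (D.sigma c x (w x))) α := by
    intro c
    rw [← wrfP_apply]
    have s1 := wrf_lin (fderiv ℝ (fun y => fderiv ℝ w y) x)
      ((wrfP K α).comp (ContinuousLinearMap.apply ℝ (EN K) (D.sigma c x (w x))))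
      (D.sigma c x (w x))
    have s2 : ((wrfP K α).comp (ContinuousLinearMap.apply ℝ (EN K) (D.sigma c x (w x))))
        (fderiv ℝ (fun y => fderiv ℝ w y) x (D.sigma c x (w x)))
        = wrfP K α (fderiv ℝ (fun y => fderiv ℝ w y) x (D.sigma c x (w x))
          (D.sigma c x (w x))) := rfl
    rw [← s2, s1]
    refine Finset.sum_congr rfl fun i _ => ?_
    have s3 : ((wrfP K α).comp (ContinuousLinearMap.apply ℝ (EN K) (D.sigma c x (w x))))
        (fderiv ℝ (fun y => fderiv ℝ w y) x (wrfE N i))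
        = wrfP K α ((fderiv ℝ (fun y => fderiv ℝ w y) x (wrfE N i)) (D.sigma c x (w x))) := rfl
    rw [s3, wrf_lin (fderiv ℝ (fun y => fderiv ℝ w y) x (wrfE N i)) (wrfP K α), Finset.mul_sum]
    refine Finset.sum_congr rfl fun j _ => ?_
    rw [hs, hs, e2]
    ring
  have t2 : (∑ j, D'.b j (eN N x, val (toSys w) (eN N x)) * pd [j] (toSys w α) (eN N x))
      = eN K (fderiv ℝ w x (D.beta x (w x))) α := by
    rw [← wrfP_apply, wrf_lin (fderiv ℝ w x) (wrfP K α)]
    refine Finset.sum_congr rfl fun j _ => ?_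
    rw [hb, e1]
  have t3 : ∀ c, (fun β => ∑ j, D'.sg c j (eN N x, val (toSys w) (eN N x))
      * pd [j] (toSys w β) (eN N x)) = eN K (fderiv ℝ w x (D.sigma c x (w x))) := by
    intro c
    funext β
    rw [← wrfP_apply, wrf_lin (fderiv ℝ w x) (wrfP K β)]
    refine Finset.sum_congr rfl fun j _ => ?_
    rw [hs, e1]
  have t4 : D'.Q α (eN N x, val (toSys w) (eN N x), fun c β => ∑ j,
      D'.sg c j (eN N x, val (toSys w) (eN N x)) * pd [j] (toSys w β) (eN N x))
      = eN K (D.Q x (w x) (fun c => fderiv ℝ w x (D.sigma c x (w x)))) α := by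
    rw [h3, hx, hv2]
    have : (fun c => (eN K).symm ((fun c β => ∑ j,
        D'.sg c j (eN N x, val (toSys w) (eN N x)) * pd [j] (toSys w β) (eN N x)) c))
        = fun c => fderiv ℝ w x (D.sigma c x (w x)) := by
      funext c
      have := t3 c
      change (eN K).symm (fun β => ∑ j, D'.sg c j (eN N x, val (toSys w) (eN N x))
        * pd [j] (toSys w β) (eN N x)) = _
      rw [this]
      exact ContinuousLinearEquiv.symm_apply_apply _ _
    rw [this]
  have hA : Aop D' (toSys w) α (eN N x)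
      = (∑ c, ∑ i, ∑ j, D'.sg c i (eN N x, val (toSys w) (eN N x))
      * D'.sg c j (eN N x, val (toSys w) (eN N x)) * pd [i, j] (toSys w α) (eN N x))
      + (∑ j, D'.b j (eN N x, val (toSys w) (eN N x)) * pd [j] (toSys w α) (eN N x))
      + D'.Q α (eN N x, val (toSys w) (eN N x), fun c β => ∑ j,
      D'.sg c j (eN N x, val (toSys w) (eN N x)) * pd [j] (toSys w β) (eN N x)) := rfl
  rw [hA, t2, t4, Finset.sum_congr rfl fun c _ => t1 c, EDat.rhs, map_add, map_add, map_sum,
    Pi.add_apply, Pi.add_apply, Finset.sum_apply]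

end Pool.Agent.QPE
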