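import Pool.Agent.QPE.WRC
import Pool.Agent.QPE.LNC
import Pool.Agent.QPE.WRF

/-!
MODULE WRD (from a solution in coordinates to a solution in euclidean spaces).
Proof.  `w t = ofSys (u t)`.  `smooth`: `ofSys_smooth`.  `joint`: `Sol.joint` with `I = []`, composed with the linear equivalences
(`contDiffOn_pi`).  `iter`: `SC_of_contDiffOn` and `SC.iter`.  `bd`: `iter_of_bd`.
`deriv`: `Sol.deriv` with `I = []` at `x = eN x`, components (`hasDerivWithinAt_pi`), composed with `eK.symm`; the value is `D.rhs` by `Aop_toSys`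
(`toSys (ofSys u) = u`).
-/

namespace Pool.Agent.QPE

open scoped ContDiff BigOperators

variable {N K m : ℕ}

/-- smooth solutions on `[0,T]` in euclidean spaces -/
structure ESol (D : EDat N K m) (w0 : EN N → EN K) (T : ℝ) (w : ℝ → EN N → EN K) : Prop where
  init : w 0 = w0
  smooth : ∀ t ∈ Set.Icc 0 T, ContDiff ℝ ∞ (w t)
  joint : ContDiffOn ℝ ∞ (fun q : ℝ × EN N => w q.1 q.2) (Set.Icc 0 T ×ˢ Set.univ)
  iter : ∀ k : ℕ, ContinuousOn (fun p : ℝ × EN N => iteratedFDeriv ℝ k (w p.1) p.2)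
    (Set.Icc 0 T ×ˢ Set.univ)
  bd : ∀ k : ℕ, ∃ C : ℝ, ∀ t ∈ Set.Icc 0 T, ∀ x, ‖iteratedFDeriv ℝ k (w t) x‖ ≤ C
  deriv : ∀ t ∈ Set.Icc 0 T, ∀ x, HasDerivWithinAt (fun r => w r x) (D.rhs (w t) x)
    (Set.Icc 0 T) t

theorem ESol_of_Sol (D : EDat N K m) (D' : Dat N K m)
    (h1 : ∀ c j x v, D'.sg c j (x, v) = eN N (D.sigma c ((eN N).symm x) ((eN K).symm v)) j)
    (h2 : ∀ j x v, D'.b j (x, v) = eN N (D.beta ((eN N).symm x) ((eN K).symm v)) j)
    (h3 : ∀ α x v p, D'.Q α (x, v, p)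
      = eN K (D.Q ((eN N).symm x) ((eN K).symm v) (fun c => (eN K).symm (p c))) α)
    (w0 : EN N → EN K) (T : ℝ) (hT : 0 < T) (u : ℝ → Sys N K) (hu : Sol D' (toSys w0) T u) :
    ESol D w0 T (fun t => ofSys (u t)) := by
  have hjoint : ContDiffOn ℝ ∞ (fun q : ℝ × EN N => ofSys (u q.1) q.2)
      (Set.Icc 0 T ×ˢ Set.univ) := by
    have h1 : ContDiffOn ℝ ∞ (fun q : ℝ × EN N => (fun α => u q.1 α (eN N q.2) : Fin K → ℝ))
        (Set.Icc 0 T ×ˢ Set.univ) := by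
      refine contDiffOn_pi.2 fun α => ?_
      have h2 := hu.joint hT [] α
      have h3 : ContDiff ℝ ∞ (fun q : ℝ × EN N => ((q.1, eN N q.2) : ℝ × (Fin N → ℝ))) :=
        contDiff_fst.prodMk ((eN N).contDiff.comp contDiff_snd)
      exact h2.comp h3.contDiffOn fun q hq => ⟨hq.1, Set.mem_univ _⟩
    exact (eN K).symm.contDiff.comp_contDiffOn h1
  refine ⟨?_, ?_, hjoint, ?_, ?_, ?_⟩
  · show ofSys (u 0) = w0
    rw [hu.init, ofSys_toSys]
  · intro t ht
    exact ofSys_smooth (hu.smooth t ht)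
  · intro k
    exact Flow.SC.iter (SC_of_contDiffOn (f := fun t => ofSys (u t)) hT hjoint k)
  · intro k
    obtain ⟨C0, _, hC⟩ := iter_of_bd (N := N) (K := K) k
    obtain ⟨A, hA⟩ := hu.bd k
    exact ⟨C0 * A, fun t ht x => hC (u t) (hu.smooth t ht) A (hA t ht) x⟩
  · intro t ht x
    have h4 : HasDerivWithinAt (fun r => (fun α => u r α (eN N x) : Fin K → ℝ))
        (fun α => Aop D' (u t) α (eN N x)) (Set.Icc 0 T) t :=
      hasDerivWithinAt_pi.2 fun α => hu.deriv t ht [] α (eN N x)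
    have h5 : (fun α => Aop D' (u t) α (eN N x)) = eN K (D.rhs (ofSys (u t)) x) := by
      funext α
      rw [← Aop_toSys D D' h1 h2 h3 (ofSys_smooth (hu.smooth t ht)) α x, toSys_ofSys]
    have h6 := ((eN K).symm : (Fin K → ℝ) →L[ℝ] EN K).hasFDerivAt.comp_hasDerivWithinAt t h4
    have h7 : ((eN K).symm : (Fin K → ℝ) →L[ℝ] EN K) (fun α => Aop D' (u t) α (eN N x))
        = D.rhs (ofSys (u t)) x := by
      rw [h5]
      exact (eN K).symm_apply_apply _
    rw [h7] at h6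
    exact h6

end Pool.Agent.QPE
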