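import Pool.Agent.QPE.WRD

/-!
THEOREM E and THEOREM L in euclidean spaces (assembly).
-/

namespace Pool.Agent.QPE

open scoped ContDiff BigOperators

variable {N K m : ℕ}

/-- THEOREM E: local smooth solutions of quasilinear degenerate parabolic systems. -/
theorem exists_esol (D : EDat N K m) (w0 : EN N → EN K) (hw0 : ContDiff ℝ ∞ w0)
    (hb : ∀ k : ℕ, ∃ C : ℝ, ∀ x, ‖iteratedFDeriv ℝ k w0 x‖ ≤ C) (δ : ℝ) (hδ : 0 < δ) :
    ∃ T : ℝ, 0 < T ∧ ∃ w : ℝ → EN N → EN K, ESol D w0 T w ∧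
      ∀ t ∈ Set.Icc 0 T, ∀ x α, |w t x α - w0 x α| ≤ δ := by
  obtain ⟨D', hR, h1, h2, h3⟩ := exists_toDat D
  obtain ⟨T, hT, u, hu, hclose, -⟩ := exists_solution D' (toSys w0) (toSys_smooth hw0)
    (bd_of_iter hw0 hb) δ hδ
  refine ⟨T, hT, fun t => ofSys (u t), ESol_of_Sol D D' h1 h2 h3 w0 T hT u hu, ?_⟩
  intro t ht x α
  have h := hclose t ht α (eN N x)
  simpa [ofSys, toSys] using h

/-- linear data -/
structure EDat.IsLin (D : EDat N K m) : Prop where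
  sigma_lin : ∀ c x v v1, D.sigma c x v = D.sigma c x v1
  beta_lin : ∀ x v v1, D.beta x v = D.beta x v1
  Q_hom : ∀ x v p (r : ℝ), D.Q x (r • v) (r • p) = r • D.Q x v p

/-- THEOREM L: linear systems have smooth solutions on every `[0,T]`. -/
theorem exists_esol_linear (D : EDat N K m) (hL : D.IsLin) (T : ℝ) (hT : 0 < T)
    (w0 : EN N → EN K) (hw0 : ContDiff ℝ ∞ w0)
    (hb : ∀ k : ℕ, ∃ C : ℝ, ∀ x, ‖iteratedFDeriv ℝ k w0 x‖ ≤ C) :
    ∃ w : ℝ → EN N → EN K, ESol D w0 T w := by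
  obtain ⟨D', hR, h1, h2, h3⟩ := exists_toDat D
  have hL' : IsLin D' := by
    refine ⟨fun c j x v v1 => ?_, fun j x v v1 => ?_, fun α x v p r => ?_⟩
    · rw [h1, h1, hL.sigma_lin]
    · rw [h2, h2, hL.beta_lin]
    · rw [h3, h3]
      have e1 : (eN K).symm (r • v) = r • (eN K).symm v := map_smul _ _ _
      have e2 : (fun c => (eN K).symm ((r • p) c)) = r • fun c => (eN K).symm (p c) := by
        funext c
        simp
      rw [e1, e2, hL.Q_hom, map_smul]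
      rfl
  obtain ⟨u, hu, -⟩ := exists_linear D' hL' T hT (toSys w0) (toSys_smooth hw0)
    (bd_of_iter hw0 hb)
  exact ⟨_, ESol_of_Sol D D' h1 h2 h3 w0 T hT u hu⟩

end Pool.Agent.QPE
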